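import Mathlib.Topology.Instances.Real.Lemmas
import Pool.Agent.Q154.FSigmaCovers

set_option autoImplicit false

/-!
# `S_1(Γ,Ω)` is hereditary for `F_σ` subsets (Q2 of MP_26524f_gt)
-/

namespace Pool.Agent.Results.MP_26524f_gt.SOneGammaOmega

/-- `𝒱` is a (nontrivial) cover of the set of reals `X` by relatively open subsets of `X`. -/
def IsOpenCover (X : Set ℝ) (𝒱 : Set (Set ℝ)) : Prop :=
  (∀ U ∈ 𝒱, ∃ V : Set ℝ, IsOpen V ∧ U = V ∩ X) ∧ X ∉ 𝒱 ∧ X ⊆ ⋃₀ 𝒱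

/-- `𝒱 ∈ Γ`: an infinite open cover such that each point of `X` belongs to all but finitely many
members. -/
def IsGammaCover (X : Set ℝ) (𝒱 : Set (Set ℝ)) : Prop :=
  IsOpenCover X 𝒱 ∧ 𝒱.Infinite ∧ ∀ x ∈ X, {U ∈ 𝒱 | x ∉ U}.Finite

/-- `𝒱 ∈ Ω`: an open cover such that each finite subset of `X` is contained in a member. -/
def IsOmegaCover (X : Set ℝ) (𝒱 : Set (Set ℝ)) : Prop :=
  IsOpenCover X 𝒱 ∧ ∀ F : Set ℝ, F.Finite → F ⊆ X → ∃ U ∈ 𝒱, F ⊆ U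

/-- The selection property `S_1(Γ,Ω)` of the set of reals `X`. -/
def SOneGO (X : Set ℝ) : Prop :=
  ∀ 𝒰 : ℕ → Set (Set ℝ), (∀ n, IsGammaCover X (𝒰 n)) →
    ∃ U : ℕ → Set ℝ, (∀ n, U n ∈ 𝒰 n) ∧ IsOmegaCover X (Set.range U)

/-- The relatively `F_σ` subsets of `X`: the countable unions of relatively closed subsets. -/
def IsRelFSigma (X Y : Set ℝ) : Prop :=
  ∃ K : ℕ → Set ℝ, (∀ n, IsClosed (K n)) ∧ Y = ⋃ n, (K n ∩ X)

theorem gamma_iff (X : Set ℝ) (𝒱 : Set (Set ℝ)) :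
    IsGammaCover X 𝒱 ↔ Q154.FSigmaCovers.IsGamma X 𝒱 := by
  unfold IsGammaCover IsOpenCover Q154.FSigmaCovers.IsGamma
  tauto

theorem s1_iff (X : Set ℝ) : SOneGO X ↔ Q154.FSigmaCovers.S1GO X := by
  constructor
  · intro h 𝒰 h𝒰
    obtain ⟨U, hU, hω⟩ := h 𝒰 fun n => (gamma_iff X _).2 (h𝒰 n)
    exact ⟨U, hU, hω.1.2.1, hω.1.2.2, fun F hF => hω.2 _ F.finite_toSet hF⟩
  · intro h 𝒰 h𝒰
    obtain ⟨U, hU, hω⟩ := h 𝒰 fun n => (gamma_iff X _).1 (h𝒰 n)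
    refine ⟨U, hU, ⟨?_, hω.1, hω.2.1⟩, ?_⟩
    · rintro _ ⟨n, rfl⟩
      exact (h𝒰 n).1.1 _ (hU n)
    · intro F hF hFX
      obtain ⟨V, hV, hFV⟩ := hω.2.2 hF.toFinset (by simpa using hFX)
      exact ⟨V, hV, by simpa using hFV⟩

/-- If a set of reals has the property `S_1(Γ,Ω)`, then so does each of its `F_σ` subsets. -/
theorem result (X Y : Set ℝ) (hY : IsRelFSigma X Y) (hX : SOneGO X) : SOneGO Y := by
  obtain ⟨K, hK, hY⟩ := hY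
  have hY' : Y = X ∩ ⋃ n, K n := by
    rw [hY, Set.inter_iUnion]
    simp only [Set.inter_comm]
  exact (s1_iff Y).2 (Q154.FSigmaCovers.s1_hereditary hK hY' ((s1_iff X).1 hX))

end Pool.Agent.Results.MP_26524f_gt.SOneGammaOmega
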