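import Pool.Agent.Results.MP_4b35b9_lc.NoSelfModulus

set_option autoImplicit false

/-! Problem MP_2f7dfd_lc, question Q1, answered in the positive, in a stronger form: there is a
hyperarithmetic real `X` such that every real computable from `X` is NCR (in particular the Turing
degree of `X` is completely NCR), and `X` is not computable from any recursively enumerable set,
complete or not.

The real `X` is the one of `MP_4b35b9_lc.NoSelfModulus`: a noncomputable member of a countable
effectively closed class such that every function computable from `X` is bounded by a computable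
function. -/

namespace Pool.Agent.Results.MP_2f7dfd_lc.OutsideCones

open Pool.Agent.TH738.NR
open Pool.Agent.Results.MP_4b35b9_lc.NoSelfModulus (Below NCR Hyperarithmetic)

/-- The set of natural numbers with characteristic function `A` is recursively enumerable. -/
def RecEnum (A : ℕ → Bool) : Prop := REPred (fun n => A n = true)

/-- The Turing degree of `X` is completely NCR: all reals of the degree are NCR. -/
def CompletelyNCR (X : ℕ → Bool) : Prop := ∀ Y : ℕ → Bool, Below Y X → Below X Y → NCR Y

/-- Question Q1 has a positive answer. -/
theorem result : ∃ X : ℕ → Bool, Hyperarithmetic X ∧ CompletelyNCR X ∧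
    (∀ Y : ℕ → Bool, Below Y X → NCR Y) ∧
    ∀ A : ℕ → Bool, RecEnum A → ¬ Below X A := by
  obtain ⟨X, h⟩ := exists_good
  refine ⟨X, Pool.Agent.Results.MP_4b35b9_lc.NoSelfModulus.hyp h,
    fun Y h1 _ => Pool.Agent.Results.MP_4b35b9_lc.NoSelfModulus.ncr h h1,
    fun Y h1 => Pool.Agent.Results.MP_4b35b9_lc.NoSelfModulus.ncr h h1, fun A hA hX => ?_⟩
  exact h.not_below hA (Pool.Agent.Results.MP_4b35b9_lc.NoSelfModulus.below_iff.1 hX)

end Pool.Agent.Results.MP_2f7dfd_lc.OutsideCones
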