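import Mathlib

set_option autoImplicit false

/-!
# Octahedrality does not pass from `X` to operator spaces containing `X ⊗ Y`

`X = ℓ_1`, `Y` three-dimensional, `H = X ⊗ Y = X ⊗_ε Y` (all finite rank operators): `X` is
octahedral, `H` is not.
-/

namespace Pool.Agent.Results.MP_372fbd_an.FiniteRankNotOctahedral

open Filter Topology NormedSpace

/-- Octahedral Banach spaces. -/
def IsOH (𝕜 Z : Type*) [RCLike 𝕜] [NormedAddCommGroup Z] [NormedSpace 𝕜 Z] : Prop :=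
  ∀ E : Submodule 𝕜 Z, FiniteDimensional 𝕜 E → ∀ ε : ℝ, 0 < ε →
    ∃ y : Z, ‖y‖ = 1 ∧ ∀ x ∈ E, (1 - ε) * (‖x‖ + ‖y‖) ≤ ‖x + y‖

/-- The Banach space `L(X*, Y)` of bounded operators with the operator norm. -/
def Op (𝕜 X Y : Type*) [RCLike 𝕜] [NormedAddCommGroup X] [NormedSpace 𝕜 X]
    [NormedAddCommGroup Y] [NormedSpace 𝕜 Y] : Type _ := StrongDual 𝕜 X →L[𝕜] Y

noncomputable instance (𝕜 X Y : Type*) [RCLike 𝕜] [NormedAddCommGroup X] [NormedSpace 𝕜 X]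
    [NormedAddCommGroup Y] [NormedSpace 𝕜 Y] : NormedAddCommGroup (Op 𝕜 X Y) :=
  inferInstanceAs (NormedAddCommGroup (StrongDual 𝕜 X →L[𝕜] Y))

noncomputable instance (𝕜 X Y : Type*) [RCLike 𝕜] [NormedAddCommGroup X] [NormedSpace 𝕜 X]
    [NormedAddCommGroup Y] [NormedSpace 𝕜 Y] : NormedSpace 𝕜 (Op 𝕜 X Y) :=
  inferInstanceAs (NormedSpace 𝕜 (StrongDual 𝕜 X →L[𝕜] Y))

/-- An element of `L(X*, Y)` as a continuous linear map. -/
def Op.map {𝕜 X Y : Type*} [RCLike 𝕜] [NormedAddCommGroup X] [NormedSpace 𝕜 X]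
    [NormedAddCommGroup Y] [NormedSpace 𝕜 Y] (T : Op 𝕜 X Y) : StrongDual 𝕜 X →L[𝕜] Y := T

/-- The operator `x ⊗ y : x* ↦ x*(x) y`. -/
noncomputable def tens {𝕜 X Y : Type*} [RCLike 𝕜] [NormedAddCommGroup X] [NormedSpace 𝕜 X]
    [NormedAddCommGroup Y] [NormedSpace 𝕜 Y] (x : X) (y : Y) : Op 𝕜 X Y :=
  (inclusionInDoubleDual 𝕜 X x).smulRight y

/-- Weak-star-to-weak continuity of an operator on a dual space. -/
def IsWeakStarWeakCont {𝕜 X Y : Type*} [RCLike 𝕜] [NormedAddCommGroup X] [NormedSpace 𝕜 X]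
    [NormedAddCommGroup Y] [NormedSpace 𝕜 Y] (T : Op 𝕜 X Y) : Prop :=
  Continuous fun f : WeakDual 𝕜 X => toWeakSpace 𝕜 Y (T.map (WeakDual.toStrongDual f))

section spaceY

/-- The three-dimensional space `Y`. -/
def Y (𝕜 : Type) : Type := Fin 3 → 𝕜

variable {𝕜 : Type} [RCLike 𝕜]

/-- Auxiliary group structure. -/
@[reducible] def rawAdd (𝕜 : Type) [RCLike 𝕜] : AddCommGroup (Y 𝕜) :=
  inferInstanceAs (AddCommGroup (Fin 3 → 𝕜))

/-- Auxiliary module structure. -/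
@[reducible] def rawMod (𝕜 : Type) [RCLike 𝕜] :
    @Module 𝕜 (Y 𝕜) _ (rawAdd 𝕜).toAddCommMonoid :=
  inferInstanceAs (Module 𝕜 (Fin 3 → 𝕜))

/-- The norm `max (‖y‖_∞, 4/5 ‖y‖_1)`. -/
noncomputable instance : Norm (Y 𝕜) :=
  ⟨fun y => max (max ‖y 0‖ (max ‖y 1‖ ‖y 2‖)) (4 / 5 * (‖y 0‖ + ‖y 1‖ + ‖y 2‖))⟩

theorem norm_def (y : Y 𝕜) :
    ‖y‖ = max (max ‖y 0‖ (max ‖y 1‖ ‖y 2‖)) (4 / 5 * (‖y 0‖ + ‖y 1‖ + ‖y 2‖)) := rfl

theorem norm_le_iff' (y : Y 𝕜) (C : ℝ) : ‖y‖ ≤ C ↔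
    (∀ i, ‖y i‖ ≤ C) ∧ 4 / 5 * (‖y 0‖ + ‖y 1‖ + ‖y 2‖) ≤ C := by
  rw [norm_def, max_le_iff, max_le_iff, max_le_iff, Fin.forall_fin_succ, Fin.forall_fin_two]
  rfl

/-- Scalar multiplication on `Y`. -/
def sm (c : 𝕜) (y : Y 𝕜) : Y 𝕜 := fun i => c * y i

theorem norm_smul_raw (c : 𝕜) (y : Y 𝕜) : ‖sm c y‖ = ‖c‖ * ‖y‖ := by
  have h : ∀ i, sm c y i = c * y i := fun i => rfl
  simp only [norm_def, h, norm_mul]
  rw [mul_max_of_nonneg _ _ (norm_nonneg c), mul_max_of_nonneg _ _ (norm_nonneg c),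
    mul_max_of_nonneg _ _ (norm_nonneg c)]
  congr 1
  ring

theorem core : @NormedSpace.Core 𝕜 (Y 𝕜) _ (rawAdd 𝕜) (rawMod 𝕜) _ :=
  let _ := rawAdd 𝕜
  let _ := rawMod 𝕜
  { norm_nonneg := fun y => le_max_of_le_left (le_max_of_le_left (norm_nonneg _))
    norm_smul := fun c y => norm_smul_raw c y
    norm_triangle := fun y z => by
      have h1 := (norm_le_iff' y ‖y‖).1 le_rfl
      have h2 := (norm_le_iff' z ‖z‖).1 le_rfl
      have h : ∀ i, (y + z) i = y i + z i := fun i => rfl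
      have h3 : ∀ i, ‖(y + z) i‖ ≤ ‖y i‖ + ‖z i‖ := fun i => by rw [h]; exact norm_add_le _ _
      rw [norm_le_iff']
      refine ⟨fun i => (h3 i).trans (add_le_add (h1.1 i) (h2.1 i)), ?_⟩
      have := h3 0
      have := h3 1
      have := h3 2
      linarith [h1.2, h2.2]
    norm_eq_zero_iff := fun y => by
      constructor
      · intro h
        have h1 := (norm_le_iff' y 0).1 h.le
        funext i
        exact norm_le_zero_iff.1 (h1.1 i)
      · rintro rfl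
        have h : ∀ i, (0 : Y 𝕜) i = 0 := fun i => rfl
        simp [norm_def, h] }

noncomputable instance : NormedAddCommGroup (Y 𝕜) :=
  @NormedAddCommGroup.ofCore 𝕜 (Y 𝕜) _ (rawAdd 𝕜) (rawMod 𝕜) _ core

noncomputable instance : NormedSpace 𝕜 (Y 𝕜) :=
  { rawMod 𝕜 with
    norm_smul_le := fun c y => le_of_eq (norm_smul_raw c y) }

theorem norm_coord_le (y : Y 𝕜) (i : Fin 3) : ‖y i‖ ≤ ‖y‖ := ((norm_le_iff' y ‖y‖).1 le_rfl).1 i

theorem norm_one_le (y : Y 𝕜) : ‖y 0‖ + ‖y 1‖ + ‖y 2‖ ≤ 5 / 4 * ‖y‖ := by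
  have := ((norm_le_iff' y ‖y‖).1 le_rfl).2
  linarith

instance : FiniteDimensional 𝕜 (Y 𝕜) := inferInstanceAs (FiniteDimensional 𝕜 (Fin 3 → 𝕜))

instance : CompleteSpace (Y 𝕜) := FiniteDimensional.complete 𝕜 _

/-- Coordinate functionals. -/
noncomputable def coord (i : Fin 3) : Y 𝕜 →L[𝕜] 𝕜 :=
  LinearMap.mkContinuous
    { toFun := fun y => y i
      map_add' := fun _ _ => rfl
      map_smul' := fun _ _ => rfl } 1 (fun y => by rw [one_mul]; exact norm_coord_le y i)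

theorem coord_apply (i : Fin 3) (y : Y 𝕜) : coord i y = y i := rfl

/-- The unit vectors of `Y`. -/
def eY (𝕜 : Type) [RCLike 𝕜] (i : Fin 3) : Y 𝕜 := (Pi.single i 1 : Fin 3 → 𝕜)

theorem eY_self (i : Fin 3) : eY 𝕜 i i = 1 := Pi.single_eq_same (M := fun _ => 𝕜) i 1

theorem eY_ne {i j : Fin 3} (h : j ≠ i) : eY 𝕜 i j = 0 :=
  Pi.single_eq_of_ne (M := fun _ => 𝕜) h 1

theorem fin3 (i : Fin 3) : i = 0 ∨ i = 1 ∨ i = 2 := by fin_cases i <;> simp

theorem eY_norm (i : Fin 3) : ‖eY 𝕜 i‖ = 1 := by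
  apply le_antisymm
  · rw [norm_le_iff']
    refine ⟨fun j => ?_, ?_⟩
    · by_cases h : j = i
      · subst h; rw [eY_self, norm_one]
      · rw [eY_ne h, norm_zero]; norm_num
    · rcases fin3 i with rfl | rfl | rfl
      · rw [eY_self (𝕜 := 𝕜) 0, eY_ne (𝕜 := 𝕜) (i := 0) (j := 1) (by decide),
          eY_ne (𝕜 := 𝕜) (i := 0) (j := 2) (by decide)]
        norm_num
      · rw [eY_self (𝕜 := 𝕜) 1, eY_ne (𝕜 := 𝕜) (i := 1) (j := 0) (by decide),
          eY_ne (𝕜 := 𝕜) (i := 1) (j := 2) (by decide)]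
        norm_num
      · rw [eY_self (𝕜 := 𝕜) 2, eY_ne (𝕜 := 𝕜) (i := 2) (j := 0) (by decide),
          eY_ne (𝕜 := 𝕜) (i := 2) (j := 1) (by decide)]
        norm_num
  · have := norm_coord_le (eY 𝕜 i) i
    rwa [eY_self, norm_one] at this

end spaceY

section ell1

variable {𝕜 : Type} [RCLike 𝕜]

/-- The space `ℓ_1`. -/
abbrev X (𝕜 : Type) [RCLike 𝕜] : Type := lp (fun _ : ℕ => 𝕜) 1

theorem hs (f : X 𝕜) : Summable fun k => ‖f k‖ := by
  have h := (lp.memℓp f).summable (by norm_num)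
  simpa using h

theorem norm_eq (f : X 𝕜) : ‖f‖ = ∑' k, ‖f k‖ := by
  have h := lp.norm_eq_tsum_rpow (p := 1) (by norm_num) f
  simpa using h

/-- Hlawka's inequality for scalars. -/
theorem hlawka (a b c : 𝕜) : ‖a + b‖ + ‖b + c‖ + ‖c + a‖ ≤ ‖a‖ + ‖b‖ + ‖c‖ + ‖a + b + c‖ := by
  have key : ‖a‖ ^ 2 + ‖b‖ ^ 2 + ‖c‖ ^ 2 + ‖a + b + c‖ ^ 2
      = ‖a + b‖ ^ 2 + ‖b + c‖ ^ 2 + ‖c + a‖ ^ 2 := by
    simp only [← RCLike.normSq_eq_def', RCLike.normSq_apply, map_add]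
    ring
  have h1 := norm_add_le a b
  have h2 := norm_add_le b c
  have h3 := norm_add_le c a
  have h4 : ‖b + c‖ ≤ ‖a‖ + ‖a + b + c‖ := by
    have : b + c = (a + b + c) - a := by ring
    rw [this]
    have := norm_sub_le (a + b + c) a
    linarith
  have h5 : ‖c + a‖ ≤ ‖b‖ + ‖a + b + c‖ := by
    have : c + a = (a + b + c) - b := by ring
    rw [this]
    have := norm_sub_le (a + b + c) b
    linarith
  have h6 : ‖a + b‖ ≤ ‖c‖ + ‖a + b + c‖ := by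
    have h : a + b = (a + b + c) - c := by ring
    have h' := norm_sub_le (a + b + c) c
    rw [← h] at h'
    linarith
  have h0 : 0 ≤ ‖a‖ + ‖b‖ + ‖c‖ + ‖a + b + c‖ := by positivity
  by_contra hcon
  push Not at hcon
  have hpos : 0 < ‖a‖ + ‖b‖ + ‖c‖ + ‖a + b + c‖ := by
    rcases h0.eq_or_lt with h | h
    · have ha := norm_nonneg a
      have hb := norm_nonneg b
      have hc := norm_nonneg c
      have hd := norm_nonneg (a + b + c)
      linarith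
    · exact h
  have h7 : (‖a‖ + ‖b‖ + ‖c‖ + ‖a + b + c‖ - (‖a + b‖ + ‖b + c‖ + ‖c + a‖)) *
      (‖a‖ + ‖b‖ + ‖c‖ + ‖a + b + c‖) =
      (‖a‖ + ‖b‖ - ‖a + b‖) * (‖c‖ + ‖a + b + c‖ - ‖a + b‖)
      + (‖b‖ + ‖c‖ - ‖b + c‖) * (‖a‖ + ‖a + b + c‖ - ‖b + c‖)
      + (‖c‖ + ‖a‖ - ‖c + a‖) * (‖b‖ + ‖a + b + c‖ - ‖c + a‖) := by
    linear_combination key
  have h8 : 0 ≤ (‖a‖ + ‖b‖ + ‖c‖ + ‖a + b + c‖ - (‖a + b‖ + ‖b + c‖ + ‖c + a‖)) *
      (‖a‖ + ‖b‖ + ‖c‖ + ‖a + b + c‖) := by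
    rw [h7]
    have a1 := mul_nonneg (sub_nonneg.2 h1) (sub_nonneg.2 h6)
    have a2 := mul_nonneg (sub_nonneg.2 h2) (sub_nonneg.2 h4)
    have a3 := mul_nonneg (sub_nonneg.2 h3) (sub_nonneg.2 h5)
    linarith
  have h9 : (‖a‖ + ‖b‖ + ‖c‖ + ‖a + b + c‖ - (‖a + b‖ + ‖b + c‖ + ‖c + a‖)) *
      (‖a‖ + ‖b‖ + ‖c‖ + ‖a + b + c‖) < 0 := mul_neg_of_neg_of_pos (by linarith) hpos
  linarith

/-- The form of Hlawka's inequality used below. -/
theorem hlawka' (a b c : 𝕜) : 2 * (‖a‖ + ‖b‖ + ‖c‖) ≤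
    ‖a + b + c‖ + ‖-a + b + c‖ + ‖a - b + c‖ + ‖a + b - c‖ := by
  have h := hlawka (-a + b + c) (a - b + c) (a + b - c)
  have e1 : (-a + b + c) + (a - b + c) = 2 * c := by ring
  have e2 : (a - b + c) + (a + b - c) = 2 * a := by ring
  have e3 : (a + b - c) + (-a + b + c) = 2 * b := by ring
  have e4 : 2 * c + (a + b - c) = a + b + c := by ring
  rw [e1, e2, e3, e4] at h
  simp only [norm_mul, RCLike.norm_ofNat] at h
  linarith

theorem hlawka_ell1 (a b c : X 𝕜) : 2 * (‖a‖ + ‖b‖ + ‖c‖) ≤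
    ‖a + b + c‖ + ‖-a + b + c‖ + ‖a - b + c‖ + ‖a + b - c‖ := by
  simp only [norm_eq]
  rw [← (hs a).tsum_add (hs b), ← ((hs a).add (hs b)).tsum_add (hs c), ← tsum_mul_left,
    ← (hs (a + b + c)).tsum_add (hs (-a + b + c)),
    ← ((hs (a + b + c)).add (hs (-a + b + c))).tsum_add (hs (a - b + c)),
    ← (((hs (a + b + c)).add (hs (-a + b + c))).add (hs (a - b + c))).tsum_add (hs (a + b - c))]
  refine Summable.tsum_le_tsum (fun k => ?_) ((((hs a).add (hs b)).add (hs c)).mul_left 2)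
    ((((hs (a + b + c)).add (hs (-a + b + c))).add (hs (a - b + c))).add (hs (a + b - c)))
  exact hlawka' (a k) (b k) (c k)

/-- The unit vectors. -/
noncomputable def e (𝕜 : Type) [RCLike 𝕜] (n : ℕ) : X 𝕜 := lp.single 1 n (1 : 𝕜)

theorem e_norm (n : ℕ) : ‖e 𝕜 n‖ = 1 := by
  unfold e
  rw [lp.norm_single (by norm_num), norm_one]

theorem add_e (x : X 𝕜) (n : ℕ) : ‖x‖ + 1 ≤ ‖x + e 𝕜 n‖ + 2 * ‖x n‖ := by
  have h1 : ‖x n‖ = ‖(lp.single 1 n (x n) : X 𝕜)‖ := by rw [lp.norm_single (by norm_num)]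
  rw [h1, ← e_norm (𝕜 := 𝕜) n]
  simp only [norm_eq]
  set z : X 𝕜 := lp.single 1 n (x n) with hz
  rw [← tsum_mul_left, ← (hs x).tsum_add (hs (e 𝕜 n)),
    ← (hs (x + e 𝕜 n)).tsum_add ((hs z).mul_left 2)]
  refine Summable.tsum_le_tsum (fun k => ?_) ((hs x).add (hs _))
    ((hs _).add ((hs z).mul_left 2))
  have h2 : (x + e 𝕜 n) k = x k + e 𝕜 n k := rfl
  rw [h2]
  by_cases hk : k = n
  · subst hk
    have h3 : z k = x k := by rw [hz]; simp
    have h4 : e 𝕜 k k = 1 := by unfold e; simp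
    rw [h3, h4]
    have h5 : ‖(1 : 𝕜)‖ ≤ ‖x k + 1‖ + ‖x k‖ := by
      have : (1 : 𝕜) = (x k + 1) - x k := by ring
      calc ‖(1 : 𝕜)‖ = ‖(x k + 1) - x k‖ := by rw [← this]
        _ ≤ _ := norm_sub_le _ _
    linarith
  · have h4 : e 𝕜 n k = 0 := by unfold e; simp [lp.single_apply, Pi.single_apply, hk]
    rw [h4, norm_zero, add_zero, add_zero]
    have := norm_nonneg (z k)
    linarith

theorem isOH_ell1 : IsOH 𝕜 (X 𝕜) := by
  intro E hE ε hε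
  let b := Module.finBasis 𝕜 E
  obtain ⟨C, hC, hCb⟩ := b.exists_opNorm_le (F := 𝕜) (𝕜 := 𝕜)
  have hδ : 0 < ε / 2 / C := by positivity
  have h1 : ∀ᶠ n in atTop, ∀ i, ‖(b i : X 𝕜) n‖ < ε / 2 / C := by
    rw [Filter.eventually_all]
    intro i
    exact (hs (b i : X 𝕜)).tendsto_atTop_zero.eventually_lt_const hδ
  obtain ⟨n, hn⟩ := h1.exists
  let ρ : E →L[𝕜] 𝕜 := LinearMap.mkContinuous
    { toFun := fun x => (x : X 𝕜) n
      map_add' := fun x y => rfl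
      map_smul' := fun c x => rfl } 1 (fun x => by
        rw [one_mul]
        exact lp.norm_apply_le_norm one_ne_zero (x : X 𝕜) n)
  have hρ : ‖ρ‖ ≤ C * (ε / 2 / C) := hCb hδ.le fun i => (hn i).le
  have hρ' : ‖ρ‖ ≤ ε / 2 := by
    have : C * (ε / 2 / C) = ε / 2 := by field_simp
    rwa [this] at hρ
  refine ⟨e 𝕜 n, e_norm n, fun x hx => ?_⟩
  rw [e_norm]
  have h2 : ‖x n‖ ≤ ε / 2 * ‖x‖ := by
    have h3 := ρ.le_opNorm ⟨x, hx⟩
    exact h3.trans (mul_le_mul_of_nonneg_right hρ' (norm_nonneg _))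
  have h3 := add_e x n
  nlinarith [norm_nonneg x]

end ell1

section main

variable {𝕜 : Type} [RCLike 𝕜]

/-- The space `H` of all operators `x* ↦ (x*(x_i))_i`. -/
noncomputable def H (𝕜 : Type) [RCLike 𝕜] : Submodule 𝕜 (Op 𝕜 (X 𝕜) (Y 𝕜)) where
  carrier := {T | ∀ i, ∃ x : X 𝕜, ∀ f : StrongDual 𝕜 (X 𝕜), T.map f i = f x}
  add_mem' := by
    intro S T hS hT i
    obtain ⟨x, hx⟩ := hS i
    obtain ⟨y, hy⟩ := hT i
    refine ⟨x + y, fun f => ?_⟩
    rw [map_add, ← hx, ← hy]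
    rfl
  zero_mem' := fun i => ⟨0, fun f => by rw [map_zero]; rfl⟩
  smul_mem' := by
    intro c T hT i
    obtain ⟨x, hx⟩ := hT i
    refine ⟨c • x, fun f => ?_⟩
    rw [map_smul, ← hx]
    rfl

theorem mem_H {T : Op 𝕜 (X 𝕜) (Y 𝕜)} :
    T ∈ H 𝕜 ↔ ∀ i, ∃ x : X 𝕜, ∀ f : StrongDual 𝕜 (X 𝕜), T.map f i = f x := Iff.rfl

theorem tens_mem (x : X 𝕜) (y : Y 𝕜) : tens x y ∈ H 𝕜 := by
  rw [mem_H]
  intro i
  refine ⟨y i • x, fun f => ?_⟩
  rw [map_smul, smul_eq_mul, mul_comm]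
  rfl

theorem H_closed : IsClosed (H 𝕜 : Set (Op 𝕜 (X 𝕜) (Y 𝕜))) := by
  have h1 : (H 𝕜 : Set (Op 𝕜 (X 𝕜) (Y 𝕜))) =
      ⋂ i : Fin 3, (fun T : Op 𝕜 (X 𝕜) (Y 𝕜) => (coord i).comp T.map) ⁻¹'
        Set.range (inclusionInDoubleDualLi (𝕜 := 𝕜) (E := X 𝕜)) := by
    ext T
    simp only [SetLike.mem_coe, mem_H, Set.mem_iInter, Set.mem_preimage, Set.mem_range]
    refine forall_congr' fun i => exists_congr fun x => ?_
    constructor
    · intro h
      ext f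
      exact (h f).symm
    · intro h f
      have := congrArg (fun G : StrongDual 𝕜 (StrongDual 𝕜 (X 𝕜)) => G f) h
      exact this.symm
  rw [h1]
  refine isClosed_iInter fun i => IsClosed.preimage ?_ ?_
  · exact (ContinuousLinearMap.postcomp (StrongDual 𝕜 (X 𝕜)) (coord (𝕜 := 𝕜) i)).continuous
  · have hiso : Isometry (inclusionInDoubleDualLi (𝕜 := 𝕜) (E := X 𝕜)) :=
      LinearIsometry.isometry _
    exact hiso.isClosedEmbedding.isClosed_range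

theorem H_cont {T : Op 𝕜 (X 𝕜) (Y 𝕜)} (hT : T ∈ H 𝕜) : IsWeakStarWeakCont T := by
  choose x hx using mem_H.1 hT
  refine WeakBilin.continuous_of_continuous_eval _ fun φ => ?_
  have h1 : ∀ y : Y 𝕜, y = ∑ i, y i • eY 𝕜 i := by
    intro y
    funext j
    have h2 : (∑ i, y i • eY 𝕜 i) j = ∑ i, y i * eY 𝕜 i j := by
      have := map_sum (coord (𝕜 := 𝕜) j) (fun i => y i • eY 𝕜 i) Finset.univ
      exact this
    rw [h2, Finset.sum_eq_single j]
    · rw [eY_self, mul_one]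
    · intro i _ hij
      rw [eY_ne hij.symm, mul_zero]
    · intro h; exact absurd (Finset.mem_univ j) h
  have h2 : ∀ f : WeakDual 𝕜 (X 𝕜), φ (T.map (WeakDual.toStrongDual f)) = ∑ i, f (x i) * φ (eY 𝕜 i) := by
    intro f
    conv_lhs => rw [h1 (T.map (WeakDual.toStrongDual f)), map_sum]
    refine Finset.sum_congr rfl fun i _ => ?_
    rw [map_smul, hx, smul_eq_mul]
    rfl
  change Continuous fun f : WeakDual 𝕜 (X 𝕜) => φ (T.map (WeakDual.toStrongDual f))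
  simp only [h2]
  exact continuous_finsetSum _ fun i _ => (WeakDual.eval_continuous (x i)).mul continuous_const

theorem norm_le_of_forall (x : X 𝕜) (C : ℝ) (hC : 0 ≤ C)
    (h : ∀ f : StrongDual 𝕜 (X 𝕜), ‖f x‖ ≤ C * ‖f‖) : ‖x‖ ≤ C := by
  have h1 : ‖inclusionInDoubleDualLi (𝕜 := 𝕜) (E := X 𝕜) x‖ = ‖x‖ := LinearIsometry.norm_map _ _
  rw [← h1]
  exact ContinuousLinearMap.opNorm_le_bound _ hC h

theorem not_isOH : ¬ IsOH 𝕜 (H 𝕜) := by
  intro hOH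
  let z : Fin 3 → H 𝕜 := fun i => ⟨tens (e 𝕜 0) (eY 𝕜 i), tens_mem _ _⟩
  let E : Submodule 𝕜 (H 𝕜) := Submodule.span 𝕜 (Set.range z)
  have hE : FiniteDimensional 𝕜 E := FiniteDimensional.span_of_finite 𝕜 (Set.finite_range z)
  obtain ⟨T, hT, hTE⟩ := hOH E hE (1 / 100) (by norm_num)
  choose x hx using mem_H.1 T.2
  have hTf : ∀ f, ‖T.1.map f‖ ≤ ‖f‖ := by
    intro f
    have h1 := T.1.map.le_opNorm f
    have h2 : ‖T.1.map‖ = 1 := hT
    rwa [h2, one_mul] at h1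
  -- the components are large
  have hlow : ∀ i, 91 / 100 ≤ ‖x i‖ := by
    intro i
    have h1 := hTE ((8 : 𝕜) • z i) (E.smul_mem _ (Submodule.subset_span ⟨i, rfl⟩))
    have hz : ‖z i‖ = 1 := by
      change ‖(inclusionInDoubleDual 𝕜 (X 𝕜) (e 𝕜 0)).smulRight (eY 𝕜 i)‖ = 1
      rw [ContinuousLinearMap.norm_smulRight_apply, eY_norm, mul_one]
      have h2 : ‖inclusionInDoubleDualLi (𝕜 := 𝕜) (E := X 𝕜) (e 𝕜 0)‖ = ‖e 𝕜 0‖ :=
        LinearIsometry.norm_map _ _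
      rw [e_norm] at h2
      exact h2
    rw [norm_smul, hz, hT, RCLike.norm_ofNat] at h1
    have h2 : ‖(8 : 𝕜) • z i + T‖ ≤ 8 + ‖x i‖ := by
      change ‖(8 : 𝕜) • (tens (e 𝕜 0) (eY 𝕜 i)).map + T.1.map‖ ≤ _
      refine ContinuousLinearMap.opNorm_le_bound _ (by positivity) fun f => ?_
      have hc : ∀ j, (((8 : 𝕜) • (tens (e 𝕜 0) (eY 𝕜 i)).map + T.1.map :
          StrongDual 𝕜 (X 𝕜) →L[𝕜] Y 𝕜) f) j
          = 8 * (f (e 𝕜 0) * eY 𝕜 i j) + f (x j) := by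
        intro j
        rw [← hx]
        rfl
      have hfe : ‖f (e 𝕜 0)‖ ≤ ‖f‖ := by
        have := f.le_opNorm (e 𝕜 0)
        rwa [e_norm, mul_one] at this
      have hfx : ∀ j, ‖f (x j)‖ ≤ ‖f‖ := by
        intro j
        rw [← hx]
        exact (norm_coord_le _ j).trans (hTf f)
      have hfxi : ‖f (x i)‖ ≤ ‖x i‖ * ‖f‖ := by
        rw [mul_comm]; exact f.le_opNorm _
      have hi : ‖8 * (f (e 𝕜 0) * eY 𝕜 i i) + f (x i)‖ ≤ 8 * ‖f‖ + ‖x i‖ * ‖f‖ := by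
        rw [eY_self, mul_one]
        refine (norm_add_le _ _).trans (add_le_add ?_ hfxi)
        rw [norm_mul, RCLike.norm_ofNat]
        linarith
      have hj : ∀ j, j ≠ i → ‖8 * (f (e 𝕜 0) * eY 𝕜 i j) + f (x j)‖ ≤ ‖f‖ := by
        intro j hji
        rw [eY_ne hji, mul_zero, mul_zero, zero_add]
        exact hfx j
      have hnn := norm_nonneg f
      have hxn := norm_nonneg (x i)
      have hprod : 0 ≤ ‖x i‖ * ‖f‖ := by positivity
      rw [norm_le_iff']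
      simp only [hc]
      refine ⟨fun j => ?_, ?_⟩
      · by_cases hji : j = i
        · subst hji
          linarith
        · have := hj j hji
          linarith
      · rcases fin3 i with rfl | rfl | rfl
        · have a1 := hj 1 (by decide)
          have a2 := hj 2 (by decide)
          linarith
        · have a1 := hj 0 (by decide)
          have a2 := hj 2 (by decide)
          linarith
        · have a1 := hj 0 (by decide)
          have a2 := hj 1 (by decide)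
          linarith
    linarith
  -- sign combinations are bounded
  have hs' : ∀ s : Fin 3 → 𝕜, (∀ i, ‖s i‖ = 1) → ‖s 0 • x 0 + s 1 • x 1 + s 2 • x 2‖ ≤ 5 / 4 := by
    intro s hs1
    refine norm_le_of_forall _ _ (by norm_num) fun f => ?_
    rw [map_add, map_add, map_smul, map_smul, map_smul, ← hx, ← hx, ← hx]
    simp only [smul_eq_mul]
    refine (norm_add₃_le).trans ?_
    rw [norm_mul, norm_mul, norm_mul, hs1, hs1, hs1, one_mul, one_mul, one_mul]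
    refine (norm_one_le _).trans ?_
    have := hTf f
    linarith
  have h1 := hs' (fun _ => 1) (fun _ => norm_one)
  have h2 := hs' ![-1, 1, 1] (by intro i; fin_cases i <;> simp)
  have h3 := hs' ![1, -1, 1] (by intro i; fin_cases i <;> simp)
  have h4 := hs' ![1, 1, -1] (by intro i; fin_cases i <;> simp)
  have h5 := hlawka_ell1 (x 0) (x 1) (x 2)
  simp only [one_smul, neg_smul, Matrix.cons_val_zero, Matrix.cons_val_one,
    Matrix.cons_val] at h1 h2 h3 h4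
  rw [← sub_eq_add_neg] at h3 h4
  have := hlow 0
  have := hlow 1
  have := hlow 2
  linarith

end main

/-- There are Banach spaces `X`, `Y` over `ℝ` or `ℂ`, `X` octahedral, and a closed space `H` of
weak-star-to-weakly continuous operators `X* → Y` containing `X ⊗ Y` which is not octahedral. -/
theorem result (𝕜 : Type) [RCLike 𝕜] :
    ∃ (X Y : Type) (_ : NormedAddCommGroup X) (_ : NormedSpace 𝕜 X) (_ : CompleteSpace X)
      (_ : NormedAddCommGroup Y) (_ : NormedSpace 𝕜 Y) (_ : CompleteSpace Y)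
      (H : Submodule 𝕜 (Op 𝕜 X Y)),
      IsClosed (H : Set (Op 𝕜 X Y)) ∧ (∀ x y, tens x y ∈ H) ∧
      (∀ T ∈ H, IsWeakStarWeakCont T) ∧ IsOH 𝕜 X ∧ ¬ IsOH 𝕜 H :=
  ⟨X 𝕜, Y 𝕜, inferInstance, inferInstance, inferInstance, inferInstance, inferInstance,
    inferInstance, H 𝕜, H_closed, tens_mem, fun _ h => H_cont h, isOH_ell1, not_isOH⟩

end Pool.Agent.Results.MP_372fbd_an.FiniteRankNotOctahedral
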