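import Pool.Agent.Results.MP_869403_co.LogPowerLower

/-!
# Directed 1-domination of the complete 3-uniform hypergraph

For all `n ≥ 3` the upper directed 1-domination number of `H(n,3)` is at least `√(log n) / 10`.
So the answer to Q1 is yes, with `c = 1 / 10` and `α = 1 / 2`.

The orientations come from digraphs without closed walks of length at most `3` in which any `k`
vertices have a common in-neighbour, and which have at most `2 ^ (126 k ^ 2)` vertices.
-/

set_option autoImplicit false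

namespace Pool.Agent.Results.MP_39aace_co.SqrtLogLower

open Pool.Agent.Results.MP_869403_co.LogOrder

/-- `Γ₁(H(n,3)) ≥ √(log n) / 10` for all `n ≥ 3`; in particular there are constants `c > 0` and
`α > 0` with `Γ₁(H(n,3)) ≥ c (log n) ^ α` for all `n ≥ 3`. -/
theorem result :
    (∀ n : ℕ, 3 ≤ n → (1 / 10 : ℝ) * Real.sqrt (Real.log n) ≤ (Gamma 1 n 3 : ℝ)) ∧
    ∃ c α : ℝ, 0 < c ∧ 0 < α ∧
      ∀ n : ℕ, 3 ≤ n → c * (Real.log n) ^ α ≤ (Gamma 1 n 3 : ℝ) := by
  have main : ∀ n : ℕ, 3 ≤ n → (1 / 10 : ℝ) * Real.sqrt (Real.log n) ≤ (Gamma 1 n 3 : ℝ) := by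
    intro n hn
    have h := Pool.Agent.Results.MP_869403_co.LogPowerLower.result 1 3 3 le_rfl (by norm_num)
      (by norm_num) (Or.inl le_rfl) n hn
    have hfac : ((3 : ℕ).factorial : ℝ) = 6 := by norm_num [Nat.factorial]
    rw [hfac] at h
    have hexp : (1 : ℝ) / (((3 : ℕ) : ℝ) - 1) = 1 / 2 := by norm_num
    rw [hexp, ← Real.sqrt_eq_rpow] at h
    refine le_trans ?_ h
    have hn1 : (1 : ℝ) ≤ n := by exact_mod_cast (by omega : 1 ≤ n)
    have hlog : 0 ≤ Real.log n := Real.log_nonneg hn1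
    have hl2 : Real.log 2 < 0.6931471808 := Real.log_two_lt_d9
    have hl2' : 0 < Real.log 2 := Real.log_pos (by norm_num)
    have h1 : (1 / 10 : ℝ) * Real.sqrt (Real.log n) = Real.sqrt (Real.log n / 100) := by
      rw [Real.sqrt_div hlog, show (100 : ℝ) = 10 ^ 2 by norm_num,
        Real.sqrt_sq (by norm_num : (0 : ℝ) ≤ 10)]
      ring
    rw [h1]
    apply Real.sqrt_le_sqrt
    rw [Real.logb, div_div]
    apply div_le_div_of_nonneg_left hlog (by positivity)
    push_cast
    nlinarith
  refine ⟨main, 1 / 10, 1 / 2, by norm_num, by norm_num, fun n hn => ?_⟩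
  rw [← Real.sqrt_eq_rpow]
  exact main n hn

end Pool.Agent.Results.MP_39aace_co.SqrtLogLower
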