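import Pool.Agent.Q171.Hart.Seq

set_option autoImplicit false

open Metric Set Filter Topology
open scoped ContDiff ComplexConjugate

/-!
# A Stein surface diffeomorphic to `ℂ²`, with vanishing Kobayashi pseudodistance, which is not `ℂ²`
-/

namespace Pool.Agent.Results.MP_3bb7cc_an.HartogsExample

/-- the holomorphically convex hull in `M` of a subset `K` -/
def hull (M K : Set (ℂ × ℂ)) : Set (ℂ × ℂ) :=
  {p ∈ M | ∀ f : ℂ × ℂ → ℂ, DifferentiableOn ℂ f M →
    ∀ C : ℝ, (∀ q ∈ K, ‖f q‖ ≤ C) → ‖f p‖ ≤ C}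

/-- the open subset `M` of `ℂ²` is a Stein manifold: it is holomorphically convex, and its
holomorphic functions separate points and give local coordinates -/
structure Stein (M : Set (ℂ × ℂ)) : Prop where
  holConvex : ∀ K ⊆ M, IsCompact K → IsCompact (hull M K)
  separates : ∀ p ∈ M, ∀ q ∈ M, p ≠ q →
    ∃ f : ℂ × ℂ → ℂ, DifferentiableOn ℂ f M ∧ f p ≠ f q
  coordinates : ∀ p ∈ M, ∃ f g : ℂ × ℂ → ℂ, DifferentiableOn ℂ f M ∧ DifferentiableOn ℂ g M ∧
    Function.Injective (fun v : ℂ × ℂ => (fderiv ℂ f p v, fderiv ℂ g p v))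

/-- the largest pseudodistance on `M` for which all holomorphic discs are distance decreasing
from the Poincare distance is identically zero; in other words every such pseudodistance is -/
def KobayashiVanishes (M : Set (ℂ × ℂ)) : Prop :=
  ∀ δ : ℂ × ℂ → ℂ × ℂ → ℝ,
    (∀ p ∈ M, δ p p = 0) → (∀ p ∈ M, ∀ q ∈ M, 0 ≤ δ p q ∧ δ p q = δ q p) →
    (∀ p ∈ M, ∀ q ∈ M, ∀ s ∈ M, δ p s ≤ δ p q + δ q s) →
    (∀ f : ℂ → ℂ × ℂ, DifferentiableOn ℂ f (ball 0 1) → MapsTo f (ball 0 1) M →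
      ∀ a ∈ ball (0 : ℂ) 1, ∀ b ∈ ball (0 : ℂ) 1,
        δ (f a) (f b) ≤ Real.artanh ‖(a - b) / (1 - conj a * b)‖) →
    ∀ p ∈ M, ∀ q ∈ M, δ p q = 0

/-- `M` is diffeomorphic to `ℂ²` -/
def DiffeoC2 (M : Set (ℂ × ℂ)) : Prop :=
  ∃ Φ Ψ : ℂ × ℂ → ℂ × ℂ, ContDiffOn ℝ ∞ Φ M ∧ ContDiff ℝ ∞ Ψ ∧
    (∀ q, Ψ q ∈ M ∧ Φ (Ψ q) = q) ∧ ∀ p ∈ M, Ψ (Φ p) = p

/-- `M` is biholomorphic to `ℂ²` -/
def BiholC2 (M : Set (ℂ × ℂ)) : Prop :=
  ∃ F G : ℂ × ℂ → ℂ × ℂ, DifferentiableOn ℂ F M ∧ Differentiable ℂ G ∧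
    (∀ q, G q ∈ M ∧ F (G q) = q) ∧ ∀ p ∈ M, G (F p) = p

open Pool.Agent.Q171.Hart

theorem level_mono {V : ℕ → ℂ → ℝ} (hV : Good V) {k l : ℕ} (hkl : k ≤ l) {p : ℂ × ℂ}
    (h : ‖p.1‖ ^ 2 * V k p.2 < 1) : ‖p.1‖ ^ 2 * V l p.2 < 1 := by
  have := hV.antitone p.2 hkl
  simp only at this
  have h2 : 0 ≤ ‖p.1‖ ^ 2 := by positivity
  nlinarith

/-- compact subsets lie in one level -/
theorem compact_level {V : ℕ → ℂ → ℝ} (hV : Good V) {K : Set (ℂ × ℂ)} (hK : IsCompact K)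
    (hKM : K ⊆ Dom V) : ∃ k0, ∀ k ≥ k0, ∀ p ∈ K, ‖p.1‖ ^ 2 * V k p.2 < 1 := by
  have hdir : Directed (· ⊆ ·) (fun k => {p : ℂ × ℂ | ‖p.1‖ ^ 2 * V k p.2 < 1}) := by
    apply Monotone.directed_le
    intro k l hkl p hp
    exact level_mono hV hkl hp
  obtain ⟨k0, hk0⟩ := hK.elim_directed_cover _ (fun k => isOpen_level hV k)
    (fun p hp => by
      obtain ⟨k, hk⟩ := hKM hp
      exact mem_iUnion.mpr ⟨k, hk⟩) hdir
  exact ⟨k0, fun k hk p hp => level_mono hV hk (hk0 hp)⟩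

theorem compact_level' {V : ℕ → ℂ → ℝ} (hV : Good V) {K : Set (ℂ × ℂ)} (hK : IsCompact K)
    (hKM : K ⊆ Dom V) : ∃ k0, ∃ θ : ℝ, 0 < θ ∧ θ < 1 ∧ ∀ k ≥ k0, ∀ p ∈ K,
      ‖p.1‖ ^ 2 * V k p.2 ≤ θ := by
  obtain ⟨k0, hk0⟩ := compact_level hV hK hKM
  have hcont : Continuous (fun p : ℂ × ℂ => ‖p.1‖ ^ 2 * V k0 p.2) := by
    have : Continuous (V k0) := (hV.smooth k0).continuous
    fun_prop
  rcases K.eq_empty_or_nonempty with hKe | hKn
  · exact ⟨0, 1 / 2, by norm_num, by norm_num, fun k _ p hp => by simp [hKe] at hp⟩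
  · obtain ⟨p0, hp0, hmax⟩ := hK.exists_isMaxOn hKn hcont.continuousOn
    refine ⟨k0, max (1 / 2) (‖p0.1‖ ^ 2 * V k0 p0.2), by positivity,
      max_lt (by norm_num) (hk0 k0 le_rfl p0 hp0), fun k hk p hp => ?_⟩
    have h1 : ‖p.1‖ ^ 2 * V k p.2 ≤ ‖p.1‖ ^ 2 * V k0 p.2 := by
      have := hV.antitone p.2 hk
      simp only at this
      gcongr
    exact (h1.trans (hmax hp)).trans (le_max_right _ _)

theorem poly_norm (d : Dat) (k : ℕ) (z w : ℂ) :
    ‖z ^ d.N k * d.P k w‖ ^ 2 = (‖z‖ ^ 2 * d.Q k w) ^ d.N k := by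
  rw [norm_mul, mul_pow, d.P_norm, norm_pow, mul_pow, ← pow_mul, ← pow_mul, mul_comm 2]

theorem stein (d : Dat) : Stein (Dom d.V) := by
  refine ⟨?_, ?_, ?_⟩
  · intro K hKM hK
    obtain ⟨k0, θ, hθ0, hθ1, hθ⟩ := compact_level' d.good hK hKM
    obtain ⟨B, hB⟩ := hK.isBounded.exists_norm_le
    -- bounds on the hull
    have hb1 : ∀ p ∈ hull (Dom d.V) K, ‖p.1‖ ≤ B := fun p hp =>
      hp.2 (fun q => q.1) (by fun_prop) B fun q hq => (norm_fst_le q).trans (hB q hq)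
    have hb2 : ∀ p ∈ hull (Dom d.V) K, ‖p.2‖ ≤ B := fun p hp =>
      hp.2 (fun q => q.2) (by fun_prop) B fun q hq => (norm_snd_le q).trans (hB q hq)
    -- choice of the level
    have hlim : Tendsto (fun k : ℕ => θ * (1 + B ^ 2) ^ (2 * Dat.t k)) atTop
        (𝓝 (θ * (1 + B ^ 2) ^ (2 * (0 : ℝ)))) := by
      apply Tendsto.const_mul
      have ht : Tendsto Dat.t atTop (𝓝 0) :=
        tendsto_pow_atTop_nhds_zero_of_lt_one (by norm_num) (by norm_num)
      exact ((Real.continuous_const_rpow (a := 1 + B ^ 2) (by positivity)).tendsto _).comp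
        (ht.const_mul 2)
    rw [mul_zero, Real.rpow_zero, mul_one] at hlim
    obtain ⟨k, hk1, hk2⟩ := ((hlim.eventually_lt_const hθ1).and (eventually_ge_atTop k0)).exists
    have hb3 : ∀ p ∈ hull (Dom d.V) K, ‖p.1‖ ^ 2 * d.Q k p.2 ≤ θ := by
      intro p hp
      have hNk := d.N_pos k
      have h1 := hp.2 (fun q => q.1 ^ d.N k * d.P k q.2) (by
        have := d.P_differentiable k
        fun_prop) (Real.sqrt (θ ^ d.N k)) (fun q hq => by
          apply Real.le_sqrt_of_sq_le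
          rw [poly_norm]
          have h2 := hθ k hk2 q hq
          have h3 := d.Q_le_V k q.2
          have h4 := d.Q_nonneg k q.2
          gcongr
          exact (mul_le_mul_of_nonneg_left h3 (by positivity)).trans h2)
      have h5 : ‖p.1 ^ d.N k * d.P k p.2‖ ^ 2 ≤ θ ^ d.N k := by
        have h6 := pow_le_pow_left₀ (norm_nonneg _) h1 2
        rwa [Real.sq_sqrt (by positivity)] at h6
      rw [poly_norm] at h5
      exact le_of_pow_le_pow_left₀ hNk.ne' hθ0.le h5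
    -- the closure of the hull is in `M`
    have hQc : Continuous (d.Q k) := by
      unfold Dat.Q
      apply continuous_finsetProd
      intro j _
      exact (Real.continuous_rpow_const (d.c_pos j).le).comp (by fun_prop)
    have hclM : closure (hull (Dom d.V) K) ⊆ Dom d.V := by
      intro p hp
      have hc1 : ‖p.2‖ ≤ B := by
        have hsub : hull (Dom d.V) K ⊆ {p : ℂ × ℂ | ‖p.2‖ ≤ B} := fun q hq => hb2 q hq
        exact closure_minimal hsub (isClosed_le (by fun_prop) continuous_const) hp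
      have hc2 : ‖p.1‖ ^ 2 * d.Q k p.2 ≤ θ := by
        have hsub : hull (Dom d.V) K ⊆ {p : ℂ × ℂ | ‖p.1‖ ^ 2 * d.Q k p.2 ≤ θ} :=
          fun q hq => hb3 q hq
        exact closure_minimal hsub (isClosed_le (by fun_prop) continuous_const) hp
      have : p = (p.1, p.2) := rfl
      rw [this]
      apply d.mem_of (k := k)
      rw [d.W_zero_eq]
      have h1 : (1 + ‖p.2‖ ^ 2) ^ (2 * Dat.t k) ≤ (1 + B ^ 2) ^ (2 * Dat.t k) := by
        have := Dat.t_pos k
        gcongr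
      have h2 : 0 ≤ (1 + ‖p.2‖ ^ 2) ^ (2 * Dat.t k) := by positivity
      calc ‖p.1‖ ^ 2 * ((1 + ‖p.2‖ ^ 2) ^ (2 * Dat.t k) * d.Q k p.2)
          = (‖p.1‖ ^ 2 * d.Q k p.2) * (1 + ‖p.2‖ ^ 2) ^ (2 * Dat.t k) := by ring
        _ ≤ θ * (1 + B ^ 2) ^ (2 * Dat.t k) := by gcongr
        _ < 1 := hk1
    apply Metric.isCompact_of_isClosed_isBounded
    · apply isClosed_of_closure_subset
      intro p hp
      have hpM := hclM hp
      refine ⟨hpM, fun f hf C hC => ?_⟩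
      have hfc : ContinuousAt f p :=
        (hf.differentiableAt ((isOpen_dom d.good).mem_nhds hpM)).continuousAt
      have hne : (𝓝[hull (Dom d.V) K] p).NeBot := mem_closure_iff_nhdsWithin_neBot.mp hp
      have ht : Tendsto (fun q => ‖f q‖) (𝓝[hull (Dom d.V) K] p) (𝓝 ‖f p‖) :=
        (hfc.norm.tendsto).mono_left nhdsWithin_le_nhds
      refine le_of_tendsto ht ?_
      filter_upwards [self_mem_nhdsWithin] with q hq
      exact hq.2 f hf C hC
    · rw [isBounded_iff_forall_norm_le]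
      exact ⟨B, fun p hp => by
        rw [Prod.norm_def]
        exact max_le (hb1 p hp) (hb2 p hp)⟩
  · intro p _ q _ hpq
    by_cases h : p.1 = q.1
    · have h2 : p.2 ≠ q.2 := fun h2 => hpq (Prod.ext h h2)
      exact ⟨fun q => q.2, by fun_prop, h2⟩
    · exact ⟨fun q => q.1, by fun_prop, h⟩
  · intro p _
    refine ⟨fun q => q.1, fun q => q.2, by fun_prop, by fun_prop, ?_⟩
    have e1 : fderiv ℂ (fun q : ℂ × ℂ => q.1) p = ContinuousLinearMap.fst ℂ ℂ ℂ := fderiv_fst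
    have e2 : fderiv ℂ (fun q : ℂ × ℂ => q.2) p = ContinuousLinearMap.snd ℂ ℂ ℂ := fderiv_snd
    rw [e1, e2]
    intro v w hvw
    exact hvw

theorem kobayashi (d : Dat) : KobayashiVanishes (Dom d.V) := by
  intro δ h0 hnn htri hdisc
  have key : ∀ p ∈ Dom d.V, ∀ q ∈ Dom d.V, ∀ c : ℝ, 0 < c →
      (∃ (f : ℂ → ℂ × ℂ) (l : ℂ), DifferentiableOn ℂ f (ball 0 1) ∧
        MapsTo f (ball 0 1) (Dom d.V) ∧ f 0 = p ∧ f l = q ∧ ‖l‖ < Real.tanh c) → δ p q ≤ c := by
    rintro p _ q _ c hc ⟨f, l, hf, hfM, hf0, hfl, hl⟩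
    have hl1 : ‖l‖ < 1 := hl.trans (Real.tanh_lt_one _)
    have h1 := hdisc f hf hfM 0 (by simp) l (by simpa using hl1)
    rw [hf0, hfl] at h1
    simp only [zero_sub, map_zero, zero_mul, sub_zero, div_one, norm_neg] at h1
    have h2 : Real.artanh ‖l‖ ≤ Real.artanh (Real.tanh c) :=
      Real.artanh_le_artanh (by linarith [norm_nonneg l]) (Real.tanh_lt_one _) hl.le
    rw [Real.artanh_tanh] at h2
    exact h1.trans h2
  have htanh : ∀ c : ℝ, 0 < c → 0 < Real.tanh c := by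
    intro c hc
    rw [Real.tanh_eq_sinh_div_cosh]
    exact div_pos (Real.sinh_pos_iff.mpr hc) (Real.cosh_pos c)
  -- lines contained in `M`
  have line : ∀ u v : ℂ × ℂ, (∀ ζ : ℂ, u + ζ • v ∈ Dom d.V) → δ u (u + v) = 0 := by
    intro u v huv
    have hu : u ∈ Dom d.V := by simpa using huv 0
    have huv1 : u + v ∈ Dom d.V := by simpa using huv 1
    apply le_antisymm _ (hnn u hu _ huv1).1
    apply le_of_forall_pos_le_add
    intro c hc
    rw [zero_add]
    apply key u hu _ huv1 c hc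
    have ht := htanh c hc
    have hR : ((2 / Real.tanh c : ℝ) : ℂ) ≠ 0 := by
      have : (2 / Real.tanh c : ℝ) ≠ 0 := by positivity
      exact_mod_cast this
    refine ⟨fun ζ => u + (((2 / Real.tanh c : ℝ) : ℂ) * ζ) • v, ((2 / Real.tanh c : ℝ) : ℂ)⁻¹,
      by fun_prop, fun ζ _ => huv _, by simp, ?_, ?_⟩
    · simp only [mul_inv_cancel₀ hR, one_smul]
    · rw [norm_inv, Complex.norm_real, Real.norm_of_nonneg (by positivity), inv_div]
      linarith
  have zero_line : ∀ w : ℂ, δ (0, 0) (0, w) = 0 := by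
    intro w
    have := line (0, 0) (0, w) (fun ζ => by
      have : ((0 : ℂ), (0 : ℂ)) + ζ • ((0 : ℂ), w) = (0, ζ * w) := by simp
      rw [this]; exact d.mem_zero _)
    simpa using this
  have fibre_line : ∀ (j : ℕ) (z : ℂ), δ (0, d.a j) (z, d.a j) = 0 := by
    intro j z
    have := line (0, d.a j) (z, 0) (fun ζ => by
      have : ((0 : ℂ), d.a j) + ζ • (z, (0 : ℂ)) = (ζ * z, d.a j) := by simp
      rw [this]; exact d.mem_fibre _ _)
    simpa using this
  have hall : ∀ p ∈ Dom d.V, δ (0, 0) p = 0 := by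
    intro p hp
    apply le_antisymm _ (hnn _ (d.mem_zero 0) p hp).1
    apply le_of_forall_pos_le_add
    intro c hc
    rw [zero_add]
    obtain ⟨ε, hε, hball⟩ := Metric.isOpen_iff.mp (isOpen_dom d.good) p hp
    have ht := htanh c hc
    obtain ⟨j, hj⟩ := d.dense.exists_dist_lt p.2 (mul_pos hε ht)
    have hdist : ‖d.a j - p.2‖ < ε * Real.tanh c := by
      rw [← dist_eq_norm, dist_comm]; exact hj
    have hεc : (ε : ℂ) ≠ 0 := by exact_mod_cast hε.ne'
    have h1 : δ p (p.1, d.a j) ≤ c := by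
      apply key p hp _ (d.mem_fibre j p.1) c hc
      refine ⟨fun ζ => p + ζ • ((0 : ℂ), (ε : ℂ)), (d.a j - p.2) / ε, by fun_prop, ?_, by simp,
        ?_, ?_⟩
      · intro ζ hζ
        rw [mem_ball_zero_iff] at hζ
        apply hball
        rw [mem_ball, dist_eq_norm]
        have e : p + ζ • ((0 : ℂ), (ε : ℂ)) - p = (0, ζ * ε) := by simp
        rw [e, Prod.norm_def]
        simp only [norm_zero, norm_mul, Complex.norm_real, Real.norm_of_nonneg hε.le]
        apply max_lt hε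
        nlinarith
      · refine Prod.ext ?_ ?_
        · simp
        · simp only [Prod.snd_add, Prod.smul_snd, smul_eq_mul]
          field_simp
          ring
      · rw [norm_div, Complex.norm_real, Real.norm_of_nonneg hε.le, div_lt_iff₀ hε]
        linarith
    have h2 : δ (0, 0) p ≤ δ (0, 0) (0, d.a j) + δ (0, d.a j) p :=
      htri _ (d.mem_zero 0) _ (d.mem_zero _) _ hp
    have h3 : δ (0, d.a j) p ≤ δ (0, d.a j) (p.1, d.a j) + δ (p.1, d.a j) p :=
      htri _ (d.mem_zero _) _ (d.mem_fibre j _) _ hp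
    rw [zero_line] at h2
    rw [fibre_line, ← (hnn p hp _ (d.mem_fibre j p.1)).2] at h3
    linarith
  intro p hp q hq
  apply le_antisymm _ (hnn p hp q hq).1
  have h1 := htri p hp _ (d.mem_zero 0) q hq
  rw [(hnn p hp _ (d.mem_zero 0)).2, hall p hp, hall q hq] at h1
  linarith

theorem not_bihol (d : Dat) : ¬ BiholC2 (Dom d.V) := by
  rintro ⟨F, G, _, hG, hGM, hFG⟩
  -- base point
  obtain ⟨ε, hε, hball⟩ := Metric.isOpen_iff.mp (isOpen_dom d.good) (0, 0) (d.mem_zero 0)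
  set z0 : ℂ := ((ε / 2 : ℝ) : ℂ) with hz0
  have hz0n : ‖z0‖ = ε / 2 := by
    rw [hz0, Complex.norm_real, Real.norm_of_nonneg (by positivity)]
  have hz0M : (z0, (0 : ℂ)) ∈ Dom d.V := by
    apply hball
    rw [mem_ball, dist_eq_norm]
    have : (z0, (0 : ℂ)) - (0, 0) = (z0, 0) := by simp
    rw [this, Prod.norm_def]
    simp only [norm_zero]
    apply max_lt _ hε
    rw [hz0n]; linarith
  have h1M : ((0 : ℂ), (1 : ℂ)) ∈ Dom d.V := d.mem_zero 1
  set p0 := F (z0, 0) with hp0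
  set p1 := F (0, 1) with hp1
  have hGp0 : G p0 = (z0, 0) := hFG _ hz0M
  have hGp1 : G p1 = (0, 1) := hFG _ h1M
  set L : ℂ → ℂ × ℂ := fun ζ => p0 + ζ • (p1 - p0) with hL
  have hLd : Differentiable ℂ L := by fun_prop
  set f : ℂ → ℂ := fun ζ => (G (L ζ)).1 with hf
  set g : ℂ → ℂ := fun ζ => (G (L ζ)).2 with hg
  have hGL : Differentiable ℂ (fun ζ => G (L ζ)) := hG.comp hLd
  have hfd : Differentiable ℂ f := hGL.fst
  have hgd : Differentiable ℂ g := hGL.snd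
  have hf0 : f 0 = z0 := by simp [hf, hL, hGp0]
  have hg0 : g 0 = 0 := by simp [hg, hL, hGp0]
  have hg1 : g 1 = 1 := by simp [hg, hL, hGp1]
  -- `g` takes a value `a j`
  have hopen : IsOpen (range g) := by
    have han : AnalyticOnNhd ℂ g univ := fun z _ => hgd.analyticAt z
    rcases han.is_constant_or_isOpen isPreconnected_univ with ⟨w, hw⟩ | h
    · exfalso
      have h0 := hw 0 (mem_univ _)
      have h1 := hw 1 (mem_univ _)
      rw [hg0] at h0; rw [hg1] at h1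
      rw [← h0] at h1; exact one_ne_zero h1
    · have := h univ (subset_refl _) isOpen_univ
      rwa [image_univ] at this
  obtain ⟨j, b, hb⟩ : ∃ j b, g b = d.a j := by
    obtain ⟨w, hw1, j, rfl⟩ := d.dense.inter_open_nonempty (range g) hopen ⟨g 0, mem_range_self 0⟩
    obtain ⟨b, hb⟩ := hw1
    exact ⟨j, b, hb⟩
  have hb0 : b ≠ 0 := by
    rintro rfl
    exact d.ne j (hb.symm.trans hg0)
  have hbn : 0 < ‖b‖ := norm_pos_iff.mpr hb0
  set D : ℂ → ℂ := dslope g b with hD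
  have hDd : Differentiable ℂ D := by
    have h1 : DifferentiableOn ℂ g univ := hgd.differentiableOn
    have := (Complex.differentiableOn_dslope (c := b) (f := g) univ_mem).mpr h1
    rwa [differentiableOn_univ] at this
  have hDg : ∀ ζ, g ζ - d.a j = (ζ - b) * D ζ := by
    intro ζ
    have := sub_smul_dslope g b ζ
    rw [hb] at this
    rw [← this, smul_eq_mul]
  set v0 : ℝ := ‖z0‖ ^ 2 * Real.exp (-2) with hv0
  have hv0p : 0 < v0 := by rw [hv0, hz0n]; positivity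
  -- main estimate
  have main : ∀ r : ℝ, ‖b‖ < r → v0 ^ d.n j ≤ (‖b‖ / (r - ‖b‖)) ^ 2 := by
    intro r hr
    have hr0 : 0 < r := hbn.trans hr
    have hrb : 0 < r - ‖b‖ := by linarith
    set K : Set (ℂ × ℂ) := (fun ζ => G (L ζ)) '' sphere (0 : ℂ) r with hK
    have hKc : IsCompact K := (isCompact_sphere 0 r).image hGL.continuous
    have hKM : K ⊆ Dom d.V := by rintro _ ⟨ζ, _, rfl⟩; exact (hGM _).1
    obtain ⟨k0, hk0⟩ := compact_level d.good hKc hKM
    set k := max k0 (j + 1) with hk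
    have hjk : j < k := lt_of_lt_of_le (Nat.lt_succ_self j) (le_max_right _ _)
    have hlev : ∀ ζ ∈ sphere (0 : ℂ) r, ‖f ζ‖ ^ 2 * d.Q k (g ζ) < 1 := by
      intro ζ hζ
      have h1 := hk0 k (le_max_left _ _) _ ⟨ζ, hζ, rfl⟩
      refine lt_of_le_of_lt ?_ h1
      have := d.Q_le_V k (g ζ)
      exact mul_le_mul_of_nonneg_left this (by positivity)
    have hjmem : j ∈ Finset.range k := Finset.mem_range.mpr hjk
    set Kf : ℂ → ℂ := fun ζ => f ζ ^ d.N k * ((D ζ / (d.R j : ℂ)) ^ d.e k j *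
      ∏ i ∈ (Finset.range k).erase j, ((g ζ - d.a i) / (d.R i : ℂ)) ^ d.e k i) with hKf
    have hfact : ∀ ζ, f ζ ^ d.N k * d.P k (g ζ) = (ζ - b) ^ d.e k j * Kf ζ := by
      intro ζ
      unfold Dat.P
      rw [← Finset.mul_prod_erase _ _ hjmem, hDg ζ]
      simp only [hKf]
      rw [mul_div_assoc, mul_pow]
      ring
    have hKfd : Differentiable ℂ Kf := by
      simp only [hKf]
      fun_prop
    have hbound : ∀ ζ ∈ sphere (0 : ℂ) r, ‖Kf ζ‖ ≤ 1 / (r - ‖b‖) ^ d.e k j := by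
      intro ζ hζ
      have h1 : ‖f ζ ^ d.N k * d.P k (g ζ)‖ ^ 2 ≤ 1 := by
        rw [poly_norm]
        exact pow_le_one₀ (mul_nonneg (by positivity) (d.Q_nonneg _ _)) (hlev ζ hζ).le
      have h2 : ‖f ζ ^ d.N k * d.P k (g ζ)‖ ≤ 1 := by
        by_contra hcon
        push Not at hcon
        nlinarith
      rw [hfact, norm_mul, norm_pow] at h2
      rw [mem_sphere_zero_iff_norm] at hζ
      have h3 : r - ‖b‖ ≤ ‖ζ - b‖ := by
        have := norm_sub_norm_le ζ b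
        rw [hζ] at this; exact this
      rw [le_div_iff₀ (by positivity)]
      calc ‖Kf ζ‖ * (r - ‖b‖) ^ d.e k j ≤ ‖Kf ζ‖ * ‖ζ - b‖ ^ d.e k j := by gcongr
        _ = ‖ζ - b‖ ^ d.e k j * ‖Kf ζ‖ := mul_comm _ _
        _ ≤ 1 := h2
    have hmax : ‖Kf 0‖ ≤ 1 / (r - ‖b‖) ^ d.e k j := by
      refine Complex.norm_le_of_forall_mem_frontier_norm_le (U := ball (0 : ℂ) r) isBounded_ball
        hKfd.diffContOnCl ?_ (subset_closure (mem_ball_self hr0))
      rw [frontier_ball _ hr0.ne']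
      exact hbound
    have h4 : ‖f 0 ^ d.N k * d.P k (g 0)‖ ≤ (‖b‖ / (r - ‖b‖)) ^ d.e k j := by
      rw [hfact, norm_mul, norm_pow, zero_sub, norm_neg, div_pow, div_eq_mul_one_div]
      gcongr
    have h5 : v0 ^ d.N k ≤ ((‖b‖ / (r - ‖b‖)) ^ 2) ^ d.e k j := by
      calc v0 ^ d.N k ≤ (‖z0‖ ^ 2 * d.Q k 0) ^ d.N k := by
            rw [hv0]
            have := d.Q_zero_ge k
            gcongr
        _ = ‖f 0 ^ d.N k * d.P k (g 0)‖ ^ 2 := by rw [hf0, hg0, poly_norm]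
        _ ≤ ((‖b‖ / (r - ‖b‖)) ^ d.e k j) ^ 2 := by gcongr
        _ = _ := by rw [← pow_mul, ← pow_mul, mul_comm]
    rw [d.N_eq hjk, pow_mul] at h5
    exact le_of_pow_le_pow_left₀ (d.e_pos hjk).ne' (by positivity) h5
  -- contradiction
  have hv1 : 0 < v0 ^ d.n j := by positivity
  set s : ℝ := v0 ^ d.n j with hs
  set t : ℝ := 1 + 1 / s with ht
  have ht1 : 1 < t := by rw [ht]; have : 0 < 1 / s := by positivity
                         linarith
  have h6 := main (‖b‖ * (1 + t)) (by nlinarith)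
  have h7 : ‖b‖ / (‖b‖ * (1 + t) - ‖b‖) = 1 / t := by
    have : ‖b‖ * (1 + t) - ‖b‖ = ‖b‖ * t := by ring
    rw [this]; field_simp
  rw [h7, div_pow, one_pow] at h6
  have h8 : s * t ^ 2 ≤ 1 := by
    rw [le_div_iff₀ (by positivity)] at h6
    exact h6
  have h9 : s * t = s + 1 := by rw [ht]; field_simp
  nlinarith

/-- There is a connected open subset `M` of `ℂ²` which is Stein, diffeomorphic to `ℂ²`, with
vanishing Kobayashi pseudodistance, and which is not biholomorphic to `ℂ²`. -/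
theorem result : ∃ M : Set (ℂ × ℂ), IsOpen M ∧ IsConnected M ∧ Stein M ∧ DiffeoC2 M ∧
    KobayashiVanishes M ∧ ¬ BiholC2 M := by
  obtain ⟨d⟩ := exists_dat
  refine ⟨Dom d.V, isOpen_dom d.good, ?_, stein d, diffeo d.good, kobayashi d, not_bihol d⟩
  obtain ⟨Φ, Ψ, h1, h2, h3, h4⟩ := diffeo d.good
  have : Dom d.V = range Ψ := by
    ext p
    constructor
    · intro hp; exact ⟨Φ p, h4 p hp⟩
    · rintro ⟨q, rfl⟩; exact (h3 q).1
  rw [this]
  exact isConnected_range h2.continuous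

end Pool.Agent.Results.MP_3bb7cc_an.HartogsExample
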