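import Pool.Agent.Q168.BT.Low
import Pool.Agent.Y282.RB.Fin
import Pool.Agent.Y282.RB.K2
import Pool.Agent.Y282.RB.K3

/-!
# The bound of the question is sharp up to 5 percent, for all `n` and all `p` at once

`opNorm p n` is the norm of `T ^ n` on `L ^ p` of the plane.

**Theorem.** For all `n ≥ 1` and `p ≥ 2`,
`‖T ^ n‖_p ≥ (1/q)_n / (1/p)_n ≥ exp (-(1 - 2/p) / 24) n ^ (1 - 2/p) (p - 1)
  ≥ 0.958 n ^ (1 - 2/p) (p - 1)`.
-/

set_option autoImplicit false

open MeasureTheory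
open scoped ENNReal

namespace Pool.Agent.Results.MP_3dd6d4_an.UniformSharpness

/-- The `n`-th power of the Beurling transform: the Fourier multiplier with symbol
`(conj ξ / ξ) ^ n`, in the literal form of the frozen statement. -/
noncomputable def T (n : ℕ) (f : SchwartzMap ℂ ℂ) (z : ℂ) : ℂ :=
  ∫ ξ : ℂ,
    Complex.exp (2 * (Real.pi : ℂ) * Complex.I * ((z.re * ξ.re + z.im * ξ.im : ℝ) : ℂ)) *
      ((starRingEnd ℂ ξ / ξ) ^ n *
        ∫ w : ℂ, Complex.exp (-(2 * (Real.pi : ℂ) * Complex.I *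
          ((w.re * ξ.re + w.im * ξ.im : ℝ) : ℂ))) * f w)

/-- The operator norm `‖T ^ n‖_p`: the infimum of the admissible constants for Schwartz functions. -/
noncomputable def opNorm (p : ℝ) (n : ℕ) : ℝ≥0∞ :=
  sInf {K : ℝ≥0∞ | ∀ f : SchwartzMap ℂ ℂ,
    eLpNorm (T n f) (ENNReal.ofReal p) volume ≤ K * eLpNorm (fun z : ℂ => f z) (ENNReal.ofReal p) volume}

/-- The Pochhammer quotient `(1/q)_n / (1/p)_n`. -/
noncomputable def K (n : ℕ) (p : ℝ) : ℝ :=
  (ascPochhammer ℝ n).eval (1 - 1 / p) / (ascPochhammer ℝ n).eval (1 / p)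

/-- **Sharpness of the bound of the question up to 5 percent, uniformly in `n` and `p`.** -/
theorem result (p : ℝ) (hp : 2 ≤ p) (n : ℕ) (hn : 1 ≤ n) :
    ENNReal.ofReal (K n p) ≤ opNorm p n ∧
    Real.exp (-(1 - 2 / p) / 24) * ((n : ℝ) ^ (1 - 2 / p) * (p - 1)) ≤ K n p ∧
    ENNReal.ofReal (0.958 * ((n : ℝ) ^ (1 - 2 / p) * (p - 1))) ≤ opNorm p n := by
  have hp1 : 1 < p := by linarith
  have h1 : ENNReal.ofReal (K n p) ≤ opNorm p n := by
    unfold opNorm
    refine le_sInf fun A hA => ?_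
    by_contra hlt
    rw [not_le] at hlt
    have hAt : A ≠ ∞ := (hlt.trans_le le_top).ne
    have hA0 : A.toReal < K n p := (ENNReal.lt_ofReal_iff_toReal_lt hAt).1 hlt
    have hK : K n p = Y282.RB.Cn p n := (Y282.RB.K3.main n p hp1).symm
    rw [hK] at hA0
    obtain ⟨g, hg, hs, hlt'⟩ := Y282.RB.Fin.sharp n p A.toReal hn hp1 ENNReal.toReal_nonneg hA0
    obtain ⟨f, hf1, hf2, hf3⟩ := Y282.RB.K2.main n g hg hs
    have h5 := hA f
    rw [ENNReal.ofReal_toReal hAt] at hlt'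
    refine absurd h5 (not_le.2 ?_)
    have e1 : (fun z : ℂ => f z) = Y282.RB.rad n g := hf1
    have e2 : T n f = Y282.RB.Tn n (Y282.RB.rad n g) := by
      rw [← hf1]
      rfl
    rw [e1, e2]
    exact hlt'
  have h2 := Q168.BT.K_ge' p hp n hn
  refine ⟨h1, h2, le_trans (ENNReal.ofReal_le_ofReal ?_) h1⟩
  refine le_trans ?_ h2
  have hn0 : (0 : ℝ) ≤ (n : ℝ) ^ (1 - 2 / p) * (p - 1) := by
    have : 0 ≤ p - 1 := by linarith
    positivity
  refine mul_le_mul_of_nonneg_right (Q168.BT.const_num.trans (Real.exp_le_exp.2 ?_)) hn0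
  have : 0 < 2 / p := by positivity
  linarith

end Pool.Agent.Results.MP_3dd6d4_an.UniformSharpness
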