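import Pool.Agent.Q178.BC.B

/-!
# MP_458f19_an: spaces containing `ℓ₁(κ⁺)` can be renormed to fail the (-1)-BCP at `κ`
-/

set_option autoImplicit false

namespace Pool.Agent.Results.MP_458f19_an.RenormFailsBCP

open Pool.Agent.Q178.BC Cardinal

universe u

/-- The `α`-ball-covering property for `κ` of the space `X` with the norm `p`: there is a set `A` of
cardinality `κ` such that the open `p`-balls `B(a, p a - α)`, `a ∈ A`, cover the unit sphere of `p`. -/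
def HasBCP {X : Type u} [NormedAddCommGroup X] [NormedSpace ℝ X] (p : Seminorm ℝ X) (α : ℝ)
    (κ : Cardinal.{u}) : Prop :=
  ∃ A : Set X, #A = κ ∧ ∀ x, p x = 1 → ∃ a ∈ A, p (x - a) < p a - α

/-- `X` contains an isomorphic copy of `ℓ₁(κ⁺)`. -/
def ContainsL1Succ (X : Type u) [NormedAddCommGroup X] [NormedSpace ℝ X] (κ : Cardinal.{u}) :
    Prop :=
  ∃ Γ : Type u, #Γ = Order.succ κ ∧ ∃ T : lp (fun _ : Γ => ℝ) 1 →L[ℝ] X,
    ∃ c > 0, ∀ z, c * ‖z‖ ≤ ‖T z‖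

/-- Every Banach space containing an isomorphic copy of `ℓ₁(κ⁺)` has an equivalent norm failing the
`(-1)`-ball-covering property for `κ`. -/
theorem result (κ : Cardinal.{u}) (hκ : ℵ₀ ≤ κ) (X : Type u) [NormedAddCommGroup X]
    [NormedSpace ℝ X] [CompleteSpace X] (hX : ContainsL1Succ X κ) :
    ∃ p : Seminorm ℝ X, (∃ c > 0, ∃ C, ∀ x, c * ‖x‖ ≤ p x ∧ p x ≤ C * ‖x‖) ∧
      ¬ HasBCP p (-1) κ := by
  obtain ⟨Γ, hΓ, T, c, hc, hT⟩ := hX
  obtain ⟨p, hp, z, hz, hD⟩ := exists_norm T hc hT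
  refine ⟨p, hp, ?_⟩
  rintro ⟨A, hA, hcov⟩
  choose D hDc hDa using hD
  have hcard : #(⋃ a ∈ A, D a : Set Γ) < #Γ := by
    have h1 : #(⋃ a ∈ A, D a : Set Γ) ≤ #A * ⨆ a : A, #(D a.1) := Cardinal.mk_biUnion_le _ _
    have h2 : (⨆ a : A, #(D a.1)) ≤ ℵ₀ :=
      ciSup_le' fun a => Cardinal.le_aleph0_iff_set_countable.2 (hDc a.1)
    refine lt_of_le_of_lt (h1.trans (mul_le_mul' le_rfl h2)) ?_
    rw [hA, Cardinal.mul_aleph0_eq hκ, hΓ]
    exact Order.lt_succ κ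
  have hne : ∃ γ, γ ∉ ⋃ a ∈ A, D a := by
    by_contra hcon
    push Not at hcon
    have : (⋃ a ∈ A, D a : Set Γ) = Set.univ := Set.eq_univ_of_forall hcon
    rw [this, Cardinal.mk_univ] at hcard
    exact lt_irrefl _ hcard
  obtain ⟨γ, hγ⟩ := hne
  obtain ⟨a, ha, hlt⟩ := hcov (z γ) (hz γ)
  have h1 := hDa a γ fun h => hγ (Set.mem_biUnion ha h)
  linarith

end Pool.Agent.Results.MP_458f19_an.RenormFailsBCP
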