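import Mathlib

/-!
# MP_46c3d4: rectifiable p-spaces with countable Souslin number are Lindelöf
-/

open Set Topology Filter

namespace Pool.Agent.Results.MP_46c3d4_gt.Lindelof

universe u

/-- `X` is rectifiable: there are `e ∈ X` and a homeomorphism `φ` of `X × X` which preserves first
coordinates and satisfies `φ (x, x) = (x, e)`. -/
def Rectifiable (X : Type u) [TopologicalSpace X] : Prop :=
  ∃ (e : X) (φ : X × X ≃ₜ X × X), (∀ z : X × X, (φ z).1 = z.1) ∧ ∀ x : X, φ (x, x) = (x, e)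

/-- `X` is a `p`-space: there is a sequence of families `γ n` of open subsets of the Stone–Čech
compactification, each covering `X`, such that `⋂ n, St (x, γ n) ⊆ X` for every `x ∈ X`. -/
def PSpace (X : Type u) [TopologicalSpace X] : Prop :=
  ∃ γ : ℕ → Set (Set (StoneCech X)),
    (∀ n, ∀ U ∈ γ n, IsOpen U) ∧
    (∀ n, ∀ x : X, ∃ U ∈ γ n, stoneCechUnit x ∈ U) ∧
    ∀ x : X, (⋂ n, ⋃₀ {U | U ∈ γ n ∧ stoneCechUnit x ∈ U}) ⊆
      Set.range (stoneCechUnit : X → StoneCech X)

/-- The Souslin number of `X` is countable: every family of pairwise disjoint nonempty open sets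
is countable. -/
def CountableSouslin (X : Type u) [TopologicalSpace X] : Prop :=
  ∀ S : Set (Set X), (∀ V ∈ S, IsOpen V ∧ V.Nonempty) → S.PairwiseDisjoint id → S.Countable

/-- In a space with countable Souslin number every hereditary family of open sets covering the
space contains a countable subfamily with dense union. -/
theorem exists_dense {X : Type u} [TopologicalSpace X] (hc : CountableSouslin X)
    (P : Set X → Prop) (hP : ∀ V W, W ⊆ V → P V → P W)
    (hPx : ∀ x : X, ∃ V, IsOpen V ∧ x ∈ V ∧ P V) :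
    ∃ S : Set (Set X), S.Countable ∧ (∀ V ∈ S, P V) ∧
      ∀ (x : X) (O : Set X), IsOpen O → x ∈ O → ∃ V ∈ S, (V ∩ O).Nonempty := by
  let F : Set (Set (Set X)) :=
    {S | (∀ V ∈ S, IsOpen V ∧ V.Nonempty ∧ P V) ∧ S.PairwiseDisjoint id}
  obtain ⟨S, hS⟩ := zorn_subset F (by
    intro c hcF hchain
    refine ⟨⋃₀ c, ⟨?_, ?_⟩, fun s hs => subset_sUnion_of_mem hs⟩
    · rintro V ⟨s, hs, hV⟩
      exact (hcF hs).1 V hV
    · rintro V ⟨s, hs, hV⟩ W ⟨t, ht, hW⟩ hne
      rcases hchain.total hs ht with h | h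
      · exact (hcF ht).2 (h hV) hW hne
      · exact (hcF hs).2 hV (h hW) hne)
  have hSF : S ∈ F := hS.prop
  refine ⟨S, hc S (fun V hV => ⟨(hSF.1 V hV).1, (hSF.1 V hV).2.1⟩) hSF.2,
    fun V hV => (hSF.1 V hV).2.2, ?_⟩
  intro x O hO hxO
  by_contra hcon
  push Not at hcon
  obtain ⟨V, hV, hxV, hPV⟩ := hPx x
  have hnew : insert (V ∩ O) S ∈ F := by
    refine ⟨?_, ?_⟩
    · rintro W (rfl | hW)
      · exact ⟨hV.inter hO, ⟨x, hxV, hxO⟩, hP _ _ inter_subset_left hPV⟩
      · exact hSF.1 W hW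
    · refine hSF.2.insert ?_
      intro W hW _
      show Disjoint (V ∩ O) W
      rw [Set.disjoint_iff_inter_eq_empty]
      have h1 := hcon W hW
      rw [← subset_empty_iff, ← h1]
      rintro z ⟨⟨_, hz⟩, hzW⟩
      exact ⟨hzW, hz⟩
  have hmem : V ∩ O ∈ S := hS.le_of_ge hnew (subset_insert _ _) (mem_insert _ _)
  have h1 := hcon _ hmem
  have h2 : x ∈ V ∩ O ∩ O := ⟨⟨hxV, hxO⟩, hxO⟩
  rw [h1] at h2
  exact h2

/-- The main argument: `p`, `q` are the operations of a rectifiable space and `K` is a compact set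
containing `e` with the countable base `U n` of neighbourhoods. -/
theorem main {X : Type u} [TopologicalSpace X] (hc : CountableSouslin X) (p q : X × X → X)
    (hp : Continuous p) (hq : Continuous q) (pq : ∀ x y, p (x, q (x, y)) = y) (e : X)
    (qe : ∀ x, q (x, x) = e) (K : Set X) (hK : IsCompact K) (eK : e ∈ K) (U : ℕ → Set X)
    (hU : ∀ n, IsOpen (U n)) (KU : ∀ n, K ⊆ U n)
    (base : ∀ O : Set X, IsOpen O → K ⊆ O → ∃ n, U n ⊆ O) : LindelofSpace X := by
  classical
  -- the countable families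
  have hfam : ∀ n, ∃ S : Set (Set X), S.Countable ∧
      (∀ V ∈ S, ∀ v ∈ V, ∀ w ∈ V, q (v, w) ∈ U n) ∧
      ∀ (x : X) (O : Set X), IsOpen O → x ∈ O → ∃ V ∈ S, (V ∩ O).Nonempty := by
    intro n
    apply exists_dense hc (fun V => ∀ v ∈ V, ∀ w ∈ V, q (v, w) ∈ U n)
    · intro V W hWV hV v hv w hw
      exact hV v (hWV hv) w (hWV hw)
    · intro x
      have h1 : q ⁻¹' (U n) ∈ 𝓝 (x, x) := by
        refine ((hU n).preimage hq).mem_nhds ?_
        show q (x, x) ∈ U n
        rw [qe]
        exact KU n eK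
      rw [nhds_prod_eq, Filter.mem_prod_self_iff] at h1
      obtain ⟨t, ht, hsub⟩ := h1
      refine ⟨interior t, isOpen_interior, mem_interior_iff_mem_nhds.2 ht, ?_⟩
      intro v hv w hw
      exact hsub (mk_mem_prod (interior_subset hv) (interior_subset hw))
  choose S hSc hSU hSd using hfam
  refine ⟨isLindelof_of_countable_subcover ?_⟩
  intro ι G hG hcov
  -- the countable index set
  let good : ℕ × Set X → Prop := fun z => ∃ t : Finset ι, p '' (z.2 ×ˢ U z.1) ⊆ ⋃ i ∈ t, G i
  let T : ℕ × Set X → Set ι := fun z => if h : good z then (h.choose : Set ι) else ∅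
  let I : Set (ℕ × Set X) := ⋃ n, (fun V => (n, V)) '' S n
  have hIc : I.Countable := countable_iUnion fun n => (hSc n).image _
  refine ⟨⋃ z ∈ I, T z, ?_, ?_⟩
  · refine hIc.biUnion ?_
    intro z _
    show (if h : good z then (h.choose : Set ι) else ∅).Countable
    split_ifs with h
    · exact (Finset.finite_toSet _).countable
    · exact countable_empty
  · intro y _
    -- a finite subfamily covering the compact set `p (p (y, K), K)`
    have hcont : Continuous (fun z : X × (X × X) => p (p (z.1, z.2.1), z.2.2)) := by fun_prop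
    have hcomp : IsCompact ((fun z : X × (X × X) => p (p (z.1, z.2.1), z.2.2)) ''
        ({y} ×ˢ (K ×ˢ K))) :=
      (isCompact_singleton.prod (hK.prod hK)).image hcont
    obtain ⟨t, ht⟩ := hcomp.elim_finite_subcover G hG (fun z _ => hcov (mem_univ z))
    have hGo : IsOpen (⋃ i ∈ t, G i) := isOpen_biUnion fun i _ => hG i
    obtain ⟨O, B, hO, hB, hyO, hKB, hOB⟩ := generalized_tube_lemma
      (isCompact_singleton (x := y)) (hK.prod hK) (hGo.preimage hcont)
      (fun z hz => ht (mem_image_of_mem _ hz))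
    obtain ⟨B1, B2, hB1, hB2, hKB1, hKB2, hBB⟩ := generalized_tube_lemma hK hK hB hKB
    obtain ⟨n, hn⟩ := base (B1 ∩ B2) (hB1.inter hB2) (subset_inter hKB1 hKB2)
    -- a member of `S n` close to `y`
    have hO' : IsOpen (O ∩ {z | q (z, y) ∈ U n}) := hO.inter ((hU n).preimage (by fun_prop))
    obtain ⟨V, hV, z, hzV, hzO, hzU⟩ := hSd n y _ hO' ⟨hyO rfl, by
      show q (y, y) ∈ U n
      rw [qe]
      exact KU n eK⟩
    have hgood : good (n, V) := by
      refine ⟨t, ?_⟩
      rintro _ ⟨⟨v, w⟩, ⟨hv, hw⟩, rfl⟩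
      have h1 : q (z, v) ∈ U n := hSU n V hV z hzV v hv
      have h2 : (z, (q (z, v), w)) ∈ O ×ˢ B :=
        ⟨hzO, hBB ⟨(hn h1).1, (hn hw).2⟩⟩
      have h3 := hOB h2
      have h4 : p (p (z, q (z, v)), w) ∈ ⋃ i ∈ t, G i := h3
      rw [pq] at h4
      exact h4
    have hy : y ∈ ⋃ i ∈ hgood.choose, G i := by
      apply hgood.choose_spec
      refine ⟨(z, q (z, y)), ⟨hzV, hzU⟩, pq z y⟩
    rw [mem_iUnion₂] at hy ⊢
    obtain ⟨i, hi, hyi⟩ := hy
    refine ⟨i, mem_biUnion (x := (n, V)) (mem_iUnion.2 ⟨n, V, hV, rfl⟩) ?_, hyi⟩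
    show i ∈ (if h : good (n, V) then (h.choose : Set ι) else ∅)
    rw [dif_pos hgood]
    exact hi

/-- Every rectifiable `p`-space with countable Souslin number is Lindelöf. -/
theorem result (X : Type u) [TopologicalSpace X] [T35Space X] (hr : Rectifiable X)
    (hp : PSpace X) (hc : CountableSouslin X) : LindelofSpace X := by
  obtain ⟨e, φ, hφ1, hφ2⟩ := hr
  obtain ⟨γ, hγo, hγc, hγ⟩ := hp
  let j : X → StoneCech X := stoneCechUnit
  have hj : IsEmbedding j := isEmbedding_stoneCechUnit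
  choose G hG hGe using fun n => hγc n e
  -- closed neighbourhoods of `j e`
  have step : ∀ (n : ℕ) (c : {c : Set (StoneCech X) // c ∈ 𝓝 (j e) ∧ IsClosed c}),
      ∃ c' : {c : Set (StoneCech X) // c ∈ 𝓝 (j e) ∧ IsClosed c},
        c'.1 ⊆ interior c.1 ∩ G n := by
    intro n c
    have h1 : interior c.1 ∩ G n ∈ 𝓝 (j e) :=
      inter_mem (interior_mem_nhds.2 c.2.1) ((hγo n _ (hG n)).mem_nhds (hGe n))
    obtain ⟨t, ht, htc, hts⟩ := exists_mem_nhds_isClosed_subset h1
    exact ⟨⟨t, ht, htc⟩, hts⟩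
  choose f hf using step
  let c : ℕ → {c : Set (StoneCech X) // c ∈ 𝓝 (j e) ∧ IsClosed c} := fun n =>
    Nat.rec ⟨Set.univ, univ_mem, isClosed_univ⟩ (fun n c => f n c) n
  have hcn : ∀ n, (c (n + 1)).1 ⊆ interior (c n).1 ∩ G n := fun n => hf n (c n)
  have hanti : Antitone fun n => (c n).1 :=
    antitone_nat_of_succ_le fun n => ((hcn n).trans inter_subset_left).trans interior_subset
  let K' : Set (StoneCech X) := ⋂ n, (c n).1
  have hK'c : IsCompact K' := (isClosed_iInter fun n => (c n).2.2).isCompact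
  have hK'r : K' ⊆ Set.range j := by
    refine Subset.trans ?_ (hγ e)
    intro z hz
    refine mem_iInter.2 fun n => ?_
    exact mem_sUnion.2 ⟨G n, ⟨hG n, hGe n⟩, (hcn n (mem_iInter.1 hz (n + 1))).2⟩
  have hKi : ∀ n, K' ⊆ interior (c n).1 := fun n z hz =>
    (hcn n (mem_iInter.1 hz (n + 1))).1
  refine main hc (fun z => (φ.symm z).2) (fun z => (φ z).2)
    (continuous_snd.comp φ.symm.continuous) (continuous_snd.comp φ.continuous) ?_ e ?_
    (j ⁻¹' K') (hj.isInducing.isCompact_preimage' hK'c hK'r)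
    (mem_iInter.2 fun n => mem_of_mem_nhds (c n).2.1) (fun n => j ⁻¹' interior (c n).1)
    (fun n => isOpen_interior.preimage hj.continuous) (fun n => preimage_mono (hKi n)) ?_
  · intro x y
    have h1 : φ (x, y) = (x, (φ (x, y)).2) := Prod.ext (hφ1 _) rfl
    show (φ.symm (x, (φ (x, y)).2)).2 = y
    rw [← h1, φ.symm_apply_apply]
  · intro x
    show (φ (x, x)).2 = e
    rw [hφ2]
  · intro O hO hKO
    obtain ⟨O', hO', rfl⟩ := hj.isInducing.isOpen_iff.1 hO
    have hKO' : K' ⊆ O' := by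
      intro z hz
      obtain ⟨x, rfl⟩ := hK'r hz
      exact hKO hz
    obtain ⟨n, hn⟩ := exists_subset_nhds_of_isCompact' (V := fun n => (c n).1)
      (directed_of_isDirected_le fun m n h => hanti h)
      (fun n => (c n).2.2.isCompact) (fun n => (c n).2.2)
      (U := O') (fun x hx => hO'.mem_nhds (hKO' hx))
    exact ⟨n, preimage_mono (interior_subset.trans hn)⟩

end Pool.Agent.Results.MP_46c3d4_gt.Lindelof
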