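import Pool.Agent.Q104.HS.FG

set_option autoImplicit false

/-!
# Uncountable chains of quasi-parabolic structures on finitely generated groups
-/

namespace Pool.Agent.Results.MP_484ff1_al.WreathChains

open Pool.Agent.Q104.HS

/-- For every finitely generated infinite group `A` the restricted wreath product of `A` with the
group of integers is a finitely generated group, and its poset of quasi-parabolic structures
contains an uncountable chain.  In particular such groups exist. -/
theorem result :
    (∀ (A : Type) [Group A] [Group.FG A] [Infinite A], Group.FG (Wr A) ∧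
      ∃ C : Set (Str (Wr A)), C ⊆ Hqp (Wr A) ∧ IsChain (· ≤ ·) C ∧ ¬ C.Countable) ∧
    (∃ (G : Type) (_ : Group G), Group.FG G ∧
      ∃ C : Set (Str G), C ⊆ Hqp G ∧ IsChain (· ≤ ·) C ∧ ¬ C.Countable) := by
  have h : ∀ (A : Type) [Group A] [Group.FG A] [Infinite A], Group.FG (Wr A) ∧
      ∃ C : Set (Str (Wr A)), C ⊆ Hqp (Wr A) ∧ IsChain (· ≤ ·) C ∧ ¬ C.Countable :=
    fun A _ _ _ => ⟨Wr.fg, Wr.fg_chain A⟩
  refine ⟨h, ?_⟩
  exact ⟨Wr (Multiplicative ℤ), inferInstance, h (Multiplicative ℤ)⟩

end Pool.Agent.Results.MP_484ff1_al.WreathChains
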