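import Mathlib

set_option autoImplicit false

/-! The least size forcing `t` disjointly representable sets. -/

namespace Pool.Agent.Results.MP_4beb09_co.ExactValue

open Finset

/-- `F 0, …, F (t-1)` are distinct members of the family which are disjointly representable: there
are elements `x 0, …, x (t-1)` with `x i ∈ F j` exactly when `i = j`. -/
def HasDisjointlyRepresentable {n : ℕ} (t : ℕ) (A : Finset (Finset (Fin n))) : Prop :=
  ∃ F : Fin t → Finset (Fin n), Function.Injective F ∧ (∀ i, F i ∈ A) ∧
    ∃ x : Fin t → Fin n, ∀ i j, x i ∈ F j ↔ i = j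

theorem upper (n t : ℕ) (A : Finset (Finset (Fin n)))
    (hA : ∑ i ∈ range t, n.choose i + 1 ≤ A.card) : HasDisjointlyRepresentable t A := by
  classical
  have h1 : ∃ T ∈ A.shatterer, t ≤ T.card := by
    by_contra hcon
    push Not at hcon
    have h2 : A.shatterer ⊆ (range t).biUnion fun i => powersetCard i univ := by
      intro T hT
      rw [mem_biUnion]
      exact ⟨T.card, mem_range.mpr (hcon T hT), mem_powersetCard.mpr ⟨subset_univ _, rfl⟩⟩
    have h3 := card_le_card h2
    have h4 : ((range t).biUnion fun i => powersetCard i (univ : Finset (Fin n))).card ≤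
        ∑ i ∈ range t, n.choose i := by
      refine card_biUnion_le.trans (le_of_eq ?_)
      apply sum_congr rfl
      intro i _
      rw [card_powersetCard, card_univ, Fintype.card_fin]
    have h5 := A.card_le_card_shatterer
    omega
  obtain ⟨T, hT, hTt⟩ := h1
  obtain ⟨S, hST, hS⟩ := exists_subset_card_eq hTt
  have hsh : A.Shatters S := (mem_shatterer.mp hT).mono_right hST
  have e : Fin t ≃ S := (Fin.castOrderIso hS.symm).toEquiv.trans S.equivFin.symm
  have h6 : ∀ i : Fin t, ∃ F ∈ A, S ∩ F = {((e i : S) : Fin n)} := by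
    intro i
    exact hsh.exists_inter_eq_singleton (e i).2
  choose F hF1 hF2 using h6
  have key : ∀ i j, ((e i : S) : Fin n) ∈ F j ↔ i = j := by
    intro i j
    constructor
    · intro h7
      have h8 : ((e i : S) : Fin n) ∈ S ∩ F j := mem_inter.mpr ⟨(e i).2, h7⟩
      rw [hF2, mem_singleton] at h8
      exact e.injective (Subtype.ext h8)
    · rintro rfl
      have h8 : ((e i : S) : Fin n) ∈ S ∩ F i := by
        rw [hF2]
        exact mem_singleton_self _
      exact (mem_inter.mp h8).2
  refine ⟨F, ?_, hF1, fun i => ((e i : S) : Fin n), key⟩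
  intro i j hij
  have := (key i i).mpr rfl
  rw [hij] at this
  exact (key i j).mp this

/-- the extremal family: no member has `t - 1` non-elements below one of its elements -/
def fam (n t : ℕ) : Finset (Finset (Fin n)) :=
  univ.filter fun F => ∀ x ∈ F, (univ.filter fun y => y ∉ F ∧ y < x).card < t - 1

theorem fam_free {n t : ℕ} (ht : 1 ≤ t) : ¬ HasDisjointlyRepresentable t (fam n t) := by
  classical
  rintro ⟨F, _, hF, x, hx⟩
  have hinj : Function.Injective x := by
    intro i j hij
    have := (hx i i).mpr rfl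
    rw [hij] at this
    exact ((hx j i).mp this).symm
  haveI : Nonempty (Fin t) := ⟨⟨0, ht⟩⟩
  obtain ⟨m, -, hm⟩ := exists_max_image (univ : Finset (Fin t)) x univ_nonempty
  have h1 := hF m
  rw [fam, mem_filter] at h1
  have h2 := h1.2 (x m) ((hx m m).mpr rfl)
  have h3 : (univ.erase m).image x ⊆ univ.filter fun y => y ∉ F m ∧ y < x m := by
    intro y hy
    obtain ⟨i, hi, rfl⟩ := mem_image.mp hy
    have him : i ≠ m := ne_of_mem_erase hi
    rw [mem_filter]
    refine ⟨mem_univ _, fun h4 => him ((hx i m).mp h4), ?_⟩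
    exact lt_of_le_of_ne (hm i (mem_univ _)) fun h4 => him (hinj h4)
  have h4 := card_le_card h3
  rw [card_image_of_injective _ hinj, card_erase_of_mem (mem_univ _), card_univ,
    Fintype.card_fin] at h4
  omega

/-- the member of the family with a given set of first non-elements -/
def mk {n : ℕ} (t : ℕ) (S : Finset (Fin n)) : Finset (Fin n) :=
  univ.filter fun x => x ∉ S ∧ (S.card < t - 1 ∨ ∃ s ∈ S, x < s)

theorem not_mem_mk {n t : ℕ} {S : Finset (Fin n)} (hS : S.card < t) (y : Fin n) :
    y ∉ mk t S ↔ y ∈ S ∨ (S.card = t - 1 ∧ ∀ s ∈ S, s ≤ y) := by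
  unfold mk
  rw [mem_filter]
  by_cases hy : y ∈ S
  · simp [hy]
  · simp only [mem_univ, hy, not_false_eq_true, true_and, false_or, not_or, not_lt, not_exists,
      not_and]
    constructor
    · rintro ⟨h1, h2⟩
      exact ⟨by omega, h2⟩
    · rintro ⟨h1, h2⟩
      exact ⟨by omega, h2⟩

theorem mk_mem {n t : ℕ} (ht : 1 ≤ t) {S : Finset (Fin n)} (hS : S.card < t) :
    mk t S ∈ fam n t := by
  classical
  rw [fam, mem_filter]
  refine ⟨mem_univ _, ?_⟩
  intro x hx
  have hx' := hx
  unfold mk at hx'
  rw [mem_filter] at hx'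
  obtain ⟨-, hxS, h1⟩ := hx'
  rcases h1 with h1 | ⟨s, hs, hxs⟩
  · refine lt_of_le_of_lt (card_le_card ?_) h1
    intro y hy
    rw [mem_filter, not_mem_mk hS] at hy
    rcases hy.2.1 with h2 | h2
    · exact h2
    · omega
  · have h2 : (univ.filter fun y => y ∉ mk t S ∧ y < x) ⊆ S.erase s := by
      intro y hy
      rw [mem_filter, not_mem_mk hS] at hy
      rw [mem_erase]
      have hys : y < s := hy.2.2.trans hxs
      refine ⟨hys.ne, ?_⟩
      rcases hy.2.1 with h3 | h3
      · exact h3
      · exact absurd (h3.2 s hs) (not_le.mpr hys)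
    have h3 := card_le_card h2
    rw [card_erase_of_mem hs] at h3
    have h4 : 0 < S.card := card_pos.mpr ⟨s, hs⟩
    omega

/-- the first non-elements -/
def back {n : ℕ} (t : ℕ) (F : Finset (Fin n)) : Finset (Fin n) :=
  univ.filter fun y => y ∉ F ∧ (univ.filter fun z => z ∉ F ∧ z < y).card < t - 1

theorem back_mk {n t : ℕ} (ht : 2 ≤ t) {S : Finset (Fin n)} (hS : S.card < t) :
    back t (mk t S) = S := by
  classical
  ext y
  unfold back
  rw [mem_filter]
  constructor
  · rintro ⟨-, h1, h2⟩
    rw [not_mem_mk hS] at h1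
    rcases h1 with h1 | ⟨h1, h3⟩
    · exact h1
    · by_contra hy
      have h4 : S ⊆ univ.filter fun z => z ∉ mk t S ∧ z < y := by
        intro z hz
        rw [mem_filter, not_mem_mk hS]
        exact ⟨mem_univ _, Or.inl hz, lt_of_le_of_ne (h3 z hz) fun h5 => hy (h5 ▸ hz)⟩
      have := card_le_card h4
      omega
  · intro hy
    refine ⟨mem_univ _, (not_mem_mk hS y).mpr (Or.inl hy), ?_⟩
    have h2 : (univ.filter fun z => z ∉ mk t S ∧ z < y) ⊆ S.erase y := by
      intro z hz
      rw [mem_filter, not_mem_mk hS] at hz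
      rw [mem_erase]
      refine ⟨hz.2.2.ne, ?_⟩
      rcases hz.2.1 with h3 | h3
      · exact h3
      · exact absurd (h3.2 y hy) (not_le.mpr hz.2.2)
    have h3 := card_le_card h2
    rw [card_erase_of_mem hy] at h3
    have h4 : 0 < S.card := card_pos.mpr ⟨y, hy⟩
    omega

theorem card_fam {n t : ℕ} (ht : 2 ≤ t) : ∑ i ∈ range t, n.choose i ≤ (fam n t).card := by
  classical
  set U : Finset (Finset (Fin n)) := univ.filter fun S => S.card < t with hU
  have h1 : U.card = ∑ i ∈ range t, n.choose i := by
    have h2 : U = (range t).biUnion fun i => powersetCard i univ := by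
      ext S
      rw [hU, mem_filter, mem_biUnion]
      constructor
      · rintro ⟨-, h3⟩
        exact ⟨S.card, mem_range.mpr h3, mem_powersetCard.mpr ⟨subset_univ _, rfl⟩⟩
      · rintro ⟨i, hi, h3⟩
        rw [mem_powersetCard] at h3
        rw [h3.2]
        exact ⟨mem_univ _, mem_range.mp hi⟩
    rw [h2, card_biUnion]
    · apply sum_congr rfl
      intro i _
      rw [card_powersetCard, card_univ, Fintype.card_fin]
    · intro i _ j _ hij
      rw [Function.onFun, disjoint_left]
      intro S hS hS'
      rw [mem_powersetCard] at hS hS'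
      exact hij (hS.2.symm.trans hS'.2)
  rw [← h1]
  apply card_le_card_of_injOn (mk t)
  · intro S hS
    exact mk_mem (by omega) (mem_filter.mp hS).2
  · intro S hS S' hS' heq
    have h2 := back_mk ht (mem_filter.mp (mem_coe.mp hS)).2
    have h3 := back_mk ht (mem_filter.mp (mem_coe.mp hS')).2
    rw [← h2, ← h3, heq]

/-- For all `n ≥ t ≥ 2` the least `r` such that every family of at least `r` subsets of an
`n`-element set contains `t` distinct disjointly representable members is
`1 + ∑_{i < t} (n choose i)`. -/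
theorem result (n t : ℕ) (ht : 2 ≤ t) (_hn : t ≤ n) :
    IsLeast {r : ℕ | ∀ A : Finset (Finset (Fin n)), r ≤ A.card → HasDisjointlyRepresentable t A}
      (∑ i ∈ Finset.range t, n.choose i + 1) := by
  constructor
  · intro A hA
    exact upper n t A hA
  · intro r hr
    by_contra hcon
    push Not at hcon
    exact fam_free (by omega) (hr (fam n t) (by have := card_fam (n := n) ht; omega))

end Pool.Agent.Results.MP_4beb09_co.ExactValue
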