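import Pool.Agent.Q321.MM.Fin

/-!
# Deciding whether there are three pairwise far-apart A-Z paths is NP-complete

The reduction is from 3SAT. Two tracks of joints run in parallel; on each of them a path chooses a
truth value at every variable, and cross edges force the two choices to be the same. The first
track goes on through the clauses, where the vertex of an occurrence of a literal is joined to the
vertices of *both* tracks which stand for the opposite truth value, so that no path can use it as a
short cut. All edges are subdivided once; then two paths at distance at least three are exactly two
paths without common branch vertices and without edges of the base graph between them. The third
path is a single isolated vertex, which belongs to `A` and to `Z`.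
-/

namespace Pool.Agent.Results.MP_4ee3ac_lc.MM3NPComplete

open Pool.Agent.NPC Pool.Agent.Q321.MM

/-- **MM3 is NP-complete**: it belongs to NP and it is NP-hard under polynomial-time many-one
reductions. -/
theorem result : InNPP MM3 ∧ NPHardP MM3 :=
  ⟨inNPP_MM3, hardI_MM3.toNPHardP⟩

end Pool.Agent.Results.MP_4ee3ac_lc.MM3NPComplete
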