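import Pool.Agent.Q160.Refl.Measurability
import Pool.Agent.Q160.Refl.Polar
import Mathlib.MeasureTheory.Measure.Lebesgue.EqHaar
import Mathlib.MeasureTheory.Integral.MeanInequalities
import Mathlib.Analysis.Calculus.FDeriv.Measurable
import Mathlib.MeasureTheory.Measure.Haar.InnerProductSpace
import Mathlib.Tactic

/-!
# The reflection inequality for the modulus of joining curve families

For `E ⊆ ℝⁿ₊` and `F ⊆ ℝⁿ₋` (in particular for compact sets) and the reflection `r` in `∂ℝⁿ₊`,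
`M(Δ(E, F)) ≤ M(Δ(E, r F))`.

Proof: polarization at the level of densities. Let `ρ` be admissible for `Δ(E, rF)` and let `u` be
the truncated potential of `ρ` (infimum of the line integrals over curves starting in `E`). Let `ρ̃`
be `ρ` or `ρ ∘ r`, according to the comparison of `u` with `u ∘ r`. Then `∫ ρ̃ⁿ = ∫ ρⁿ`, and
`ρ̃ + ε (ρ + ρ ∘ r)` is admissible for `Δ(E, F)` after a change on a null set, because the polarized
potential (the minimum of `u` and `u ∘ r` on the upper half space, the maximum on the lower one) is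
absolutely continuous along every curve of finite length with derivative bounded by `ρ̃`.
-/

set_option autoImplicit false

open MeasureTheory Measure Set Filter Topology
open scoped ENNReal NNReal
open Pool.Agent.Q160.Refl (lineInt pot upot)

namespace Pool.Agent.Results.MP_69cc0b_an.ReflectionInequality

/-- Euclidean space `ℝ^k`. -/
abbrev R (k : ℕ) : Type := EuclideanSpace ℝ (Fin k)

/-- The line integral `∫_γ ρ ds` of `ρ` along the curve `γ : [a, b] → ℝ^k` in Lipschitz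
parametrization. -/
noncomputable def lineIntegral {k : ℕ} (ρ : R k → ℝ≥0∞) (γ : ℝ → R k) (a b : ℝ) : ℝ≥0∞ :=
  ∫⁻ t in Icc a b, ρ (γ t) * ‖deriv γ t‖ₑ

/-- `ρ` is admissible for the family `Δ(A, B)` of curves joining `A` and `B`: it is Borel measurable
and has line integral at least `1` along every rectifiable curve `γ : [a, b] → ℝ^k` with
`γ(a) ∈ A` and `γ(b) ∈ B`. Rectifiable curves are given in a Lipschitz parametrization (such as the
one by arc length), extended to `ℝ`. -/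
def Admissible {k : ℕ} (ρ : R k → ℝ≥0∞) (A B : Set (R k)) : Prop :=
  Measurable ρ ∧ ∀ (γ : ℝ → R k) (a b : ℝ), a ≤ b → (∃ K, LipschitzWith K γ) → γ a ∈ A → γ b ∈ B →
    1 ≤ lineIntegral ρ γ a b

/-- The conformal modulus `M(Δ(A, B))` in `ℝ^k`. -/
noncomputable def modulus {k : ℕ} (A B : Set (R k)) : ℝ≥0∞ :=
  ⨅ (ρ : R k → ℝ≥0∞) (_ : Admissible ρ A B), ∫⁻ x, ρ x ^ k

/-- The reflection in the hyperplane `{x_n = 0}` of `ℝ^n`, `n = m + 1`. -/
def reflect {m : ℕ} (x : R (m + 1)) : R (m + 1) :=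
  WithLp.toLp 2 (fun i => if i = Fin.last m then - x i else x i)

/-- The reflection as a linear isometry. -/
noncomputable def reflE (m : ℕ) : R (m + 1) ≃ₗᵢ[ℝ] R (m + 1) :=
  LinearIsometryEquiv.piLpCongrRight 2
    (fun i : Fin (m + 1) => if i = Fin.last m then LinearIsometryEquiv.neg ℝ
      else LinearIsometryEquiv.refl ℝ ℝ)

theorem reflE_eq {m : ℕ} (x : R (m + 1)) : reflE m x = reflect x := by
  ext i
  by_cases h : i = Fin.last m
  · simp [reflE, reflect, h]
  · simp [reflE, reflect, h]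

theorem reflect_last {m : ℕ} (x : R (m + 1)) : reflect x (Fin.last m) = - x (Fin.last m) := by
  simp [reflect]

theorem reflect_reflect {m : ℕ} (x : R (m + 1)) : reflect (reflect x) = x := by
  ext i
  by_cases h : i = Fin.last m
  · simp [reflect, h]
  · simp [reflect, h]

theorem reflect_eq_self {m : ℕ} {x : R (m + 1)} (h : x (Fin.last m) = 0) : reflect x = x := by
  ext i
  by_cases hi : i = Fin.last m
  · rw [hi, reflect_last, h, neg_zero]
  · simp [reflect, hi]

theorem mp_reflect (m : ℕ) : MeasurePreserving (reflect : R (m + 1) → R (m + 1)) volume volume := by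
  have h := (reflE m).measurePreserving
  have : (reflE m : R (m + 1) → R (m + 1)) = reflect := funext reflE_eq
  rwa [this] at h

theorem measurable_reflect (m : ℕ) : Measurable (reflect : R (m + 1) → R (m + 1)) :=
  (mp_reflect m).measurable

theorem enorm_deriv_reflect {m : ℕ} (γ : ℝ → R (m + 1)) (t : ℝ) :
    ‖deriv (fun s => reflect (γ s)) t‖ₑ = ‖deriv γ t‖ₑ := by
  have h1 : (fun s => reflect (γ s)) = (reflE m) ∘ γ := by
    ext1 s; exact (reflE_eq _).symm
  have h2 : deriv (fun s => reflect (γ s)) t = reflE m (deriv γ t) := by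
    rw [h1]
    have h3 := ((reflE m).toContinuousLinearEquiv.comp_fderiv (f := γ) (x := t))
    have h4 := congrArg (fun L => L (1 : ℝ)) h3
    rw [← fderiv_apply_one_eq_deriv, ← fderiv_apply_one_eq_deriv]
    exact h4
  rw [h2, ← ofReal_norm, ← ofReal_norm, LinearIsometryEquiv.norm_map]

theorem hyperplane_null (m : ℕ) : volume {x : R (m + 1) | x (Fin.last m) = 0} = 0 := by
  set L : R (m + 1) →ₗ[ℝ] ℝ :=
    (EuclideanSpace.proj (Fin.last m) : R (m + 1) →L[ℝ] ℝ).toLinearMap with hL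
  have h1 : {x : R (m + 1) | x (Fin.last m) = 0} = (LinearMap.ker L : Set (R (m + 1))) := by
    ext x
    simp [hL]
  rw [h1]
  apply Measure.addHaar_submodule
  intro htop
  have h2 : (EuclideanSpace.single (Fin.last m) (1 : ℝ) : R (m + 1)) ∈ LinearMap.ker L := by
    rw [htop]; trivial
  rw [LinearMap.mem_ker] at h2
  simp [hL] at h2

section Construction

variable {m : ℕ} (ρ : R (m + 1) → ℝ≥0∞) (u₀ : R (m + 1) → ℝ)

/-- The set where `ρ` is kept. -/
def keep : Set (R (m + 1)) :=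
  {x | (0 < x (Fin.last m) ∧ u₀ x ≤ u₀ (reflect x)) ∨
    (x (Fin.last m) ≤ 0 ∧ u₀ (reflect x) ≤ u₀ x)}

theorem measurableSet_keep {u₀ : R (m + 1) → ℝ} (hu₀ : Measurable u₀) :
    MeasurableSet (keep u₀) := by
  have hc : Measurable (fun x : R (m + 1) => x (Fin.last m)) := by fun_prop
  have hur : Measurable (fun x : R (m + 1) => u₀ (reflect x)) := hu₀.comp (measurable_reflect m)
  apply MeasurableSet.union
  · exact (measurableSet_lt measurable_const hc).inter (measurableSet_le hu₀ hur)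
  · exact (measurableSet_le hc measurable_const).inter (measurableSet_le hur hu₀)

theorem keep_reflect {u₀ : R (m + 1) → ℝ} {x : R (m + 1)} (hx : x (Fin.last m) ≠ 0) :
    reflect x ∈ keep u₀ ↔ x ∈ keep u₀ := by
  change ((0 < reflect x (Fin.last m) ∧ u₀ (reflect x) ≤ u₀ (reflect (reflect x))) ∨
    (reflect x (Fin.last m) ≤ 0 ∧ u₀ (reflect (reflect x)) ≤ u₀ (reflect x))) ↔
    ((0 < x (Fin.last m) ∧ u₀ x ≤ u₀ (reflect x)) ∨
    (x (Fin.last m) ≤ 0 ∧ u₀ (reflect x) ≤ u₀ x))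
  rw [reflect_reflect, reflect_last]
  rcases lt_or_gt_of_ne hx with h | h
  · have h1 : 0 < -x (Fin.last m) := by linarith
    have h2 : ¬ (-x (Fin.last m) ≤ 0) := not_le.2 h1
    have h3 : ¬ (0 < x (Fin.last m)) := not_lt.2 h.le
    simp [h1, h2, h3, h.le]
  · have h1 : ¬ (0 < -x (Fin.last m)) := by push Not; linarith
    have h2 : -x (Fin.last m) ≤ 0 := by linarith
    have h3 : ¬ (x (Fin.last m) ≤ 0) := not_le.2 h
    simp [h1, h2, h3, h]

/-- The polarized density. -/
noncomputable def polarized (x : R (m + 1)) : ℝ≥0∞ :=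
  open Classical in
  if x ∈ keep u₀ then ρ x else ρ (reflect x)

variable {ρ} {u₀}

theorem measurable_polarized (hρ : Measurable ρ) (hu₀ : Measurable u₀) :
    Measurable (polarized ρ u₀) :=
  Measurable.ite (measurableSet_keep hu₀) hρ (hρ.comp (measurable_reflect m))

theorem lintegral_polarized (hρ : Measurable ρ) (hu₀ : Measurable u₀) :
    ∫⁻ x, polarized ρ u₀ x ^ (m + 1) = ∫⁻ x, ρ x ^ (m + 1) := by
  have hS := measurableSet_keep hu₀ (m := m)
  have hρp : Measurable (fun x => ρ x ^ (m + 1)) := hρ.pow_const _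
  rw [← lintegral_add_compl (fun x => polarized ρ u₀ x ^ (m + 1)) hS,
    ← lintegral_add_compl (fun x => ρ x ^ (m + 1)) hS]
  congr 1
  · apply setLIntegral_congr_fun hS
    intro x hx
    simp only [polarized, if_pos hx]
  · have h1 : ∫⁻ x in (keep u₀)ᶜ, polarized ρ u₀ x ^ (m + 1) =
        ∫⁻ x in (keep u₀)ᶜ, ρ (reflect x) ^ (m + 1) := by
      apply setLIntegral_congr_fun hS.compl
      intro x hx
      have hx' : x ∉ keep u₀ := hx
      simp only [polarized, if_neg hx']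
    rw [h1]
    have h2 : (reflect ⁻¹' (keep u₀)ᶜ : Set (R (m + 1))) =ᵐ[volume] (keep u₀)ᶜ := by
      have h0 : ∀ᵐ x : R (m + 1), x (Fin.last m) ≠ 0 := by
        rw [ae_iff]
        simpa using hyperplane_null m
      filter_upwards [h0] with x hx
      apply propext
      exact not_congr (keep_reflect (u₀ := u₀) hx)
    have h3 := setLIntegral_congr (f := fun x => ρ (reflect x) ^ (m + 1)) h2
    exact h3.symm.trans ((mp_reflect m).setLIntegral_comp_preimage hS.compl hρp)

end Construction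

theorem admissible_perturbed {m : ℕ} {E F : Set (R (m + 1))}
    (hE : ∀ x ∈ E, 0 < x (Fin.last m)) (hF : ∀ x ∈ F, x (Fin.last m) < 0)
    {ρ : R (m + 1) → ℝ≥0∞} (hadm : Admissible ρ E (reflect '' F))
    {u₀ : R (m + 1) → ℝ} (hu₀ : Measurable u₀) {N : Set (R (m + 1))} (hN : MeasurableSet N)
    (hNu : ∀ x, x ∉ N → upot ρ E x = u₀ x ∧ upot ρ E (reflect x) = u₀ (reflect x))
    {ε : ℝ≥0∞} (hε : ε ≠ 0) :
    Admissible (fun x => polarized ρ u₀ x + ε * (ρ x + ρ (reflect x)) + N.indicator (fun _ => ⊤) x)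
      E F := by
  obtain ⟨hρ, hadm⟩ := hadm
  have hρr : Measurable (fun x => ρ (reflect x)) := hρ.comp (measurable_reflect m)
  have hpm := measurable_polarized (m := m) hρ hu₀
  set ρ' : R (m + 1) → ℝ≥0∞ :=
    fun x => polarized ρ u₀ x + ε * (ρ x + ρ (reflect x)) + N.indicator (fun _ => ⊤) x with hρ'
  have hρ'm : Measurable ρ' :=
    (hpm.add ((hρ.add hρr).const_mul ε)).add (measurable_const.indicator hN)
  refine ⟨hρ'm, fun γ a b hab hL hγa hγb => ?_⟩
  obtain ⟨K, hK⟩ := hL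
  have hγc : Continuous γ := hK.continuous
  have hdm : Measurable (fun t => ‖deriv γ t‖ₑ) := (measurable_deriv γ).enorm
  set u := upot ρ E with hu
  -- the reflected curve
  set γr : ℝ → R (m + 1) := fun t => reflect (γ t) with hγr
  have hrL : LipschitzWith 1 (reflect : R (m + 1) → R (m + 1)) := by
    have h := (reflE m).lipschitz
    have : (reflE m : R (m + 1) → R (m + 1)) = reflect := funext reflE_eq
    rwa [this] at h
  have hKr : LipschitzWith (1 * K) γr := hrL.comp hK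
  have hdr : ∀ t, ‖deriv γr t‖ₑ = ‖deriv γ t‖ₑ := fun t => enorm_deriv_reflect γ t
  by_contra hlt
  push Not at hlt
  set I := lineIntegral ρ' γ a b with hI
  have hIfin : I ≠ ⊤ := (hlt.trans ENNReal.one_lt_top).ne
  have hF' : Measurable (fun t => ρ' (γ t) * ‖deriv γ t‖ₑ) :=
    (hρ'm.comp hγc.measurable).mul hdm
  -- finiteness of the two line integrals
  have hfin1 : ∫⁻ t in Icc a b, ρ (γ t) * ‖deriv γ t‖ₑ ≠ ⊤ := by
    intro htop
    apply hIfin
    have h1 : ε * ∫⁻ t in Icc a b, ρ (γ t) * ‖deriv γ t‖ₑ ≤ I := by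
      have hmm : Measurable (fun t => ρ (γ t) * ‖deriv γ t‖ₑ) := (hρ.comp hγc.measurable).mul hdm
      rw [← lintegral_const_mul ε hmm]
      apply lintegral_mono
      intro t
      change ε * (ρ (γ t) * ‖deriv γ t‖ₑ) ≤ ρ' (γ t) * ‖deriv γ t‖ₑ
      rw [← mul_assoc]
      gcongr
      rw [hρ']
      calc ε * ρ (γ t) ≤ ε * (ρ (γ t) + ρ (reflect (γ t))) := by gcongr; exact le_self_add
        _ ≤ polarized ρ u₀ (γ t) + ε * (ρ (γ t) + ρ (reflect (γ t))) := le_add_self
        _ ≤ _ := le_self_add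
    rw [htop, ENNReal.mul_top hε] at h1
    exact le_antisymm le_top h1
  have hfin2 : ∫⁻ t in Icc a b, ρ (γr t) * ‖deriv γr t‖ₑ ≠ ⊤ := by
    intro htop
    apply hIfin
    have h1 : ε * ∫⁻ t in Icc a b, ρ (γr t) * ‖deriv γr t‖ₑ ≤ I := by
      simp_rw [hdr]
      have hmm : Measurable (fun t => ρ (γr t) * ‖deriv γ t‖ₑ) :=
        (hρr.comp hγc.measurable).mul hdm
      rw [← lintegral_const_mul ε hmm]
      apply lintegral_mono
      intro t
      change ε * (ρ (reflect (γ t)) * ‖deriv γ t‖ₑ) ≤ ρ' (γ t) * ‖deriv γ t‖ₑ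
      rw [← mul_assoc]
      gcongr
      rw [hρ']
      calc ε * ρ (reflect (γ t)) ≤ ε * (ρ (γ t) + ρ (reflect (γ t))) := by
            gcongr; exact le_add_self
        _ ≤ polarized ρ u₀ (γ t) + ε * (ρ (γ t) + ρ (reflect (γ t))) := le_add_self
        _ ≤ _ := le_self_add
    rw [htop, ENNReal.mul_top hε] at h1
    exact le_antisymm le_top h1
  have hfinst : ∀ {κ : ℝ → ℝ≥0∞} {s t : ℝ}, a ≤ s → t ≤ b → ∫⁻ τ in Icc a b, κ τ ≠ ⊤ →
      ∫⁻ τ in Icc s t, κ τ ≠ ⊤ := by
    intro κ s t h1 h2 h3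
    exact ne_top_of_le_ne_top h3 (lintegral_mono_set (Icc_subset_Icc h1 h2))
  -- real functions
  set A : ℝ → ℝ := fun t => u (γ t) with hA
  set B : ℝ → ℝ := fun t => u (γr t) with hB
  set z : ℝ → ℝ := fun t => γ t (Fin.last m) with hz
  set κ₁ : ℝ → ℝ≥0∞ := fun t => ρ (γ t) * ‖deriv γ t‖ₑ with hκ₁
  set κ₂ : ℝ → ℝ≥0∞ := fun t => ρ (γr t) * ‖deriv γr t‖ₑ with hκ₂
  have hκ₁m : Measurable κ₁ := (hρ.comp hγc.measurable).mul hdm
  have hκ₂m : Measurable κ₂ :=
    (hρ.comp hKr.continuous.measurable).mul (measurable_deriv γr).enorm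
  have hAbd : ∀ s t, a ≤ s → s ≤ t → t ≤ b → |A t - A s| ≤ ∫ τ in s..t, (κ₁ τ).toReal := by
    intro s t h1 h2 h3
    have hf := hfinst h1 h3 hfin1
    rw [(Pool.Agent.Q160.Refl.toReal_setLIntegral hκ₁m h2 hf).2]
    exact Pool.Agent.Q160.Refl.upot_diff ⟨K, hK⟩ h2 hf
  have hBbd : ∀ s t, a ≤ s → s ≤ t → t ≤ b → |B t - B s| ≤ ∫ τ in s..t, (κ₂ τ).toReal := by
    intro s t h1 h2 h3
    have hf := hfinst h1 h3 hfin2
    rw [(Pool.Agent.Q160.Refl.toReal_setLIntegral hκ₂m h2 hf).2]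
    exact Pool.Agent.Q160.Refl.upot_diff ⟨_, hKr⟩ h2 hf
  have hzc : Continuous z := by
    have : Continuous (fun x : R (m + 1) => x (Fin.last m)) := by fun_prop
    exact this.comp hγc
  have hzAB : ∀ t, z t = 0 → A t = B t := by
    intro t ht
    have : γr t = γ t := reflect_eq_self ht
    simp only [hA, hB, this]
  have hI' : ∫⁻ t in Icc a b, ρ' (γ t) * ‖deriv γ t‖ₑ ≠ ⊤ := hIfin
  have hω := Pool.Agent.Q160.Refl.toReal_setLIntegral hF' hab hI'
  have hωs : ∀ᵐ t, t ∈ Ioo a b → Pool.Agent.Q160.Refl.sel A B z (fun t => (κ₁ t).toReal)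
      (fun t => (κ₂ t).toReal) t ≤ (ρ' (γ t) * ‖deriv γ t‖ₑ).toReal := by
    have hlt_top : ∀ᵐ t ∂(volume.restrict (Icc a b)), ρ' (γ t) * ‖deriv γ t‖ₑ < ⊤ :=
      ae_lt_top hF' hI'
    rw [ae_restrict_iff' measurableSet_Icc] at hlt_top
    filter_upwards [hlt_top] with t ht htab
    have hfin := ht ⟨htab.1.le, htab.2.le⟩
    by_cases hd0 : ‖deriv γ t‖ₑ = 0
    · have e1 : κ₁ t = 0 := by simp only [hκ₁, hd0, mul_zero]
      have e2 : κ₂ t = 0 := by simp only [hκ₂, hdr, hd0, mul_zero]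
      have : Pool.Agent.Q160.Refl.sel A B z (fun t => (κ₁ t).toReal)
          (fun t => (κ₂ t).toReal) t = 0 := by
        simp only [Pool.Agent.Q160.Refl.sel, e1, e2, ENNReal.toReal_zero, ite_self]
      rw [this]
      exact ENNReal.toReal_nonneg
    · -- γ t is outside N
      have hNt : γ t ∉ N := by
        intro hin
        apply hfin.ne
        have : ρ' (γ t) = ⊤ := by
          simp only [hρ', indicator_of_mem hin, _root_.add_top]
        rw [this, ENNReal.top_mul hd0]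
      obtain ⟨hu1, hu2⟩ := hNu _ hNt
      have hkeep : (γ t ∈ keep u₀) ↔ ((0 < z t ∧ A t ≤ B t) ∨ (z t ≤ 0 ∧ B t ≤ A t)) := by
        change ((0 < γ t (Fin.last m) ∧ u₀ (γ t) ≤ u₀ (reflect (γ t))) ∨
          (γ t (Fin.last m) ≤ 0 ∧ u₀ (reflect (γ t)) ≤ u₀ (γ t))) ↔ _
        rw [← hu1, ← hu2]
      have hle : ∀ x : ℝ≥0∞, x ≤ ρ' (γ t) →
          (x * ‖deriv γ t‖ₑ).toReal ≤ (ρ' (γ t) * ‖deriv γ t‖ₑ).toReal := by
        intro x hx
        apply ENNReal.toReal_mono hfin.ne
        gcongr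
      have hpol : polarized ρ u₀ (γ t) ≤ ρ' (γ t) := by
        rw [hρ']
        change polarized ρ u₀ (γ t) ≤ polarized ρ u₀ (γ t) + _ + _
        rw [add_assoc]
        exact le_self_add
      by_cases hk : γ t ∈ keep u₀
      · rw [Pool.Agent.Q160.Refl.sel, if_pos (hkeep.1 hk)]
        apply hle
        refine le_trans ?_ hpol
        rw [polarized, if_pos hk]
      · rw [Pool.Agent.Q160.Refl.sel, if_neg (fun h => hk (hkeep.2 h))]
        change (ρ (γr t) * ‖deriv γr t‖ₑ).toReal ≤ _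
        rw [hdr]
        apply hle
        refine le_trans ?_ hpol
        rw [polarized, if_neg hk]
  have hmain := Pool.Agent.Q160.Refl.pol_diff_le hab
    (Pool.Agent.Q160.Refl.toReal_setLIntegral hκ₁m hab hfin1).1
    (Pool.Agent.Q160.Refl.toReal_setLIntegral hκ₂m hab hfin2).1
    (fun _ => ENNReal.toReal_nonneg) (fun _ => ENNReal.toReal_nonneg) hAbd hBbd hzc hzAB hω.1 hωs
  rw [hω.2] at hmain
  -- values at the end points
  have hza : 0 < z a := hE _ hγa
  have hzb : z b < 0 := hF _ hγb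
  have hWa : Pool.Agent.Q160.Refl.pol A B z a = 0 := by
    rw [Pool.Agent.Q160.Refl.pol, if_pos hza]
    have h1 : A a = 0 := Pool.Agent.Q160.Refl.upot_eq_zero hγa
    rw [h1]
    exact min_eq_left (Pool.Agent.Q160.Refl.upot_nonneg _ _ _)
  have hWb : 1 ≤ Pool.Agent.Q160.Refl.pol A B z b := by
    rw [Pool.Agent.Q160.Refl.pol, if_neg (not_lt.2 hzb.le)]
    refine le_trans ?_ (le_max_right _ _)
    have h1 : 1 ≤ pot ρ E (γr b) := by
      rw [pot]
      refine le_iInf fun α => le_iInf fun a' => le_iInf fun b' => le_iInf fun hab' =>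
        le_iInf fun hα => le_iInf fun ha' => le_iInf fun hb' => ?_
      exact hadm α a' b' hab' hα ha' (by rw [hb']; exact ⟨γ b, hγb, rfl⟩)
    change 1 ≤ upot ρ E (γr b)
    rw [upot, min_eq_left h1, ENNReal.toReal_one]
  have h1 : 1 ≤ I.toReal := by
    have : I.toReal = (∫⁻ t in Icc a b, ρ' (γ t) * ‖deriv γ t‖ₑ).toReal := rfl
    rw [this]
    linarith
  have h2 : I.toReal < 1 := by
    have := (ENNReal.toReal_lt_toReal hIfin ENNReal.one_ne_top).2 hlt
    rwa [ENNReal.toReal_one] at this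
  linarith

/-- **Q1, affirmative.** For all sets `E` in the open upper half space and `F` in the open lower half
space of `ℝⁿ`, `n = m + 1` (in particular for all non-empty compact ones and all `n ≥ 2`),
`M(Δ(E, F)) ≤ M(Δ(E, F*))`, where `F*` is the reflection of `F`. -/
theorem result : ∀ (m : ℕ) (E F : Set (R (m + 1))),
    (∀ x ∈ E, 0 < x (Fin.last m)) → (∀ x ∈ F, x (Fin.last m) < 0) →
    modulus E F ≤ modulus E (reflect '' F) := by
  intro m E F hE hF
  rw [modulus, modulus]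
  refine le_iInf₂ fun ρ hadm => ?_
  by_cases hfin : ∫⁻ x, ρ x ^ (m + 1) = ⊤
  · rw [hfin]; exact le_top
  have hρ := hadm.1
  have hum := Pool.Agent.Q160.Refl.aemeasurable_upot hρ hfin E
  set u₀ := hum.mk _ with hu₀
  have hu₀m : Measurable u₀ := hum.measurable_mk
  set N₀ : Set (R (m + 1)) := toMeasurable volume {x | upot ρ E x ≠ u₀ x} with hN₀
  have hN₀m : MeasurableSet N₀ := measurableSet_toMeasurable _ _
  have hN₀0 : volume N₀ = 0 := by
    rw [hN₀, measure_toMeasurable]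
    exact hum.ae_eq_mk
  have hN₀s : {x | upot ρ E x ≠ u₀ x} ⊆ N₀ := subset_toMeasurable _ _
  set N : Set (R (m + 1)) := N₀ ∪ reflect ⁻¹' N₀ with hN
  have hNm : MeasurableSet N := hN₀m.union (measurable_reflect m hN₀m)
  have hN0 : volume N = 0 := by
    apply measure_union_null hN₀0
    rw [(mp_reflect m).measure_preimage hN₀m.nullMeasurableSet]
    exact hN₀0
  have hNu : ∀ x, x ∉ N → upot ρ E x = u₀ x ∧ upot ρ E (reflect x) = u₀ (reflect x) := by
    intro x hx
    constructor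
    · by_contra h
      exact hx (Or.inl (hN₀s h))
    · by_contra h
      exact hx (Or.inr (hN₀s h))
  set I : ℝ≥0∞ := ∫⁻ x, ρ x ^ (m + 1) with hI
  set p : ℝ := ((m + 1 : ℕ) : ℝ) with hp
  have hp1 : 1 ≤ p := by rw [hp]; exact_mod_cast Nat.le_add_left 1 m
  have hp0 : 0 < p := by linarith
  have hIp : ∀ f : R (m + 1) → ℝ≥0∞, ∫⁻ x, f x ^ (m + 1) = ∫⁻ x, f x ^ p := by
    intro f
    apply lintegral_congr
    intro x
    rw [hp, ENNReal.rpow_natCast]
  have hρr : Measurable (fun x => ρ (reflect x)) := hρ.comp (measurable_reflect m)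
  have hIr : ∫⁻ x, ρ (reflect x) ^ p = I := by
    rw [← hIp, hI]
    exact (mp_reflect m).lintegral_comp (hρ.pow_const (m + 1))
  have key : ∀ ε : ℝ≥0∞, ε ≠ 0 → ε ≠ ⊤ →
      (⨅ (ρ : R (m + 1) → ℝ≥0∞) (_ : Admissible ρ E F), ∫⁻ x, ρ x ^ (m + 1)) ≤
        ((1 + 2 * ε) * I ^ (1 / p)) ^ p := by
    intro ε hε hεt
    have hadm' := admissible_perturbed hE hF hadm hu₀m hNm hNu hε
    refine (iInf₂_le (f := fun (ρ : R (m + 1) → ℝ≥0∞) (_ : Admissible ρ E F) =>
      ∫⁻ x, ρ x ^ (m + 1)) _ hadm').trans ?_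
    have hpm := measurable_polarized (m := m) hρ hu₀m
    have e1 : ∫⁻ x, (polarized ρ u₀ x + ε * (ρ x + ρ (reflect x)) +
        N.indicator (fun _ => ⊤) x) ^ (m + 1) =
        ∫⁻ x, ((polarized ρ u₀ + fun x => ε * (ρ x + ρ (reflect x))) x) ^ p := by
      rw [← hIp]
      apply lintegral_congr_ae
      have : ∀ᵐ x : R (m + 1), x ∉ N := by
        rw [ae_iff]
        simpa using hN0
      filter_upwards [this] with x hx
      rw [indicator_of_notMem hx, add_zero]
      rfl
    rw [e1]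
    have e2 := ENNReal.lintegral_Lp_add_le (μ := (volume : Measure (R (m + 1))))
      hpm.aemeasurable ((hρ.add hρr).const_mul ε).aemeasurable hp1
    have e3 : (∫⁻ x, (ε * (ρ x + ρ (reflect x))) ^ p) ^ (1 / p) =
        ε * (∫⁻ x, ((ρ + fun x => ρ (reflect x)) x) ^ p) ^ (1 / p) := by
      have : ∀ x, (ε * (ρ x + ρ (reflect x))) ^ p =
          ε ^ p * ((ρ + fun x => ρ (reflect x)) x) ^ p := by
        intro x
        rw [ENNReal.mul_rpow_of_nonneg _ _ hp0.le]
        rfl
      simp_rw [this]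
      rw [lintegral_const_mul _ ((hρ.add hρr).pow_const p),
        ENNReal.mul_rpow_of_nonneg _ _ (by positivity), ← ENNReal.rpow_mul,
        mul_one_div_cancel hp0.ne', ENNReal.rpow_one]
    have e4 := ENNReal.lintegral_Lp_add_le (μ := (volume : Measure (R (m + 1))))
      hρ.aemeasurable hρr.aemeasurable hp1
    have e5 : (∫⁻ x, polarized ρ u₀ x ^ p) = I := by
      rw [← hIp, lintegral_polarized hρ hu₀m]
    have e6 : (∫⁻ x, ρ x ^ p) = I := by rw [← hIp]
    rw [e6, hIr] at e4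
    have e7 : (∫⁻ x, ((polarized ρ u₀ + fun x => ε * (ρ x + ρ (reflect x))) x) ^ p) ^ (1 / p) ≤
        (1 + 2 * ε) * I ^ (1 / p) := by
      refine e2.trans ?_
      rw [e5]
      calc I ^ (1 / p) + (∫⁻ x, (ε * (ρ x + ρ (reflect x))) ^ p) ^ (1 / p)
          = I ^ (1 / p) + ε * (∫⁻ x, ((ρ + fun x => ρ (reflect x)) x) ^ p) ^ (1 / p) := by
            rw [e3]
        _ ≤ I ^ (1 / p) + ε * (I ^ (1 / p) + I ^ (1 / p)) := by gcongr
        _ = (1 + 2 * ε) * I ^ (1 / p) := by ring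
    have e8 := ENNReal.rpow_le_rpow e7 hp0.le
    rwa [← ENNReal.rpow_mul, one_div, inv_mul_cancel₀ hp0.ne', ENNReal.rpow_one, ← one_div] at e8
  -- let ε tend to zero
  have hlim : Tendsto (fun ε : ℝ≥0∞ => ((1 + 2 * ε) * I ^ (1 / p)) ^ p) (𝓝[>] 0)
      (𝓝 (((1 + 2 * 0) * I ^ (1 / p)) ^ p)) := by
    have hIt : I ^ (1 / p) ≠ ⊤ := (ENNReal.rpow_lt_top_of_nonneg (by positivity) hfin).ne
    have h1 : Tendsto (fun ε : ℝ≥0∞ => (1 + 2 * ε) * I ^ (1 / p)) (𝓝 0)
        (𝓝 ((1 + 2 * 0) * I ^ (1 / p))) := by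
      apply ENNReal.Tendsto.mul_const
      · apply Tendsto.add tendsto_const_nhds
        apply ENNReal.Tendsto.const_mul tendsto_id
        right; norm_num
      · right; exact hIt
    exact ((ENNReal.continuous_rpow_const.tendsto _).comp h1).mono_left nhdsWithin_le_nhds
  have hfinal : ((1 + 2 * 0) * I ^ (1 / p)) ^ p = I := by
    rw [mul_zero, add_zero, one_mul, ← ENNReal.rpow_mul, one_div, inv_mul_cancel₀ hp0.ne',
      ENNReal.rpow_one]
  rw [hfinal] at hlim
  refine ge_of_tendsto hlim ?_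
  have hev : ∀ᶠ ε : ℝ≥0∞ in 𝓝[>] 0, ε ≠ 0 ∧ ε ≠ ⊤ := by
    have h1 : ∀ᶠ ε : ℝ≥0∞ in 𝓝[>] 0, ε < 1 :=
      mem_nhdsWithin_of_mem_nhds (gt_mem_nhds (by norm_num))
    filter_upwards [h1, self_mem_nhdsWithin] with ε h2 h3
    exact ⟨ne_of_gt h3, (h2.trans ENNReal.one_lt_top).ne⟩
  filter_upwards [hev] with ε hε
  exact key ε hε.1 hε.2

end Pool.Agent.Results.MP_69cc0b_an.ReflectionInequality
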