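import Pool.Agent.Q198.N2Defs

set_option autoImplicit false

/-!
# MP_6cf06e_an, Q1: the second polynomial numerical index of the real space `C[0,1]` is 1/2
-/

namespace Pool.Agent.Results.MP_6cf06e_an.RealContinuousFunctions

open Pool.Agent.Q198.N2

/-- The polynomial `P(x) = x(0)² - x²/2` on real `C[0,1]`. -/
noncomputable def P (x : C(unitInterval, ℝ)) : C(unitInterval, ℝ) :=
  (x 0 * x 0) • (1 : C(unitInterval, ℝ)) - (1 / 2 : ℝ) • (x * x)

lemma P_quad : IsQuad ℝ C(unitInterval, ℝ) P := by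
  let ev : C(unitInterval, ℝ) →L[ℝ] ℝ := ContinuousMap.evalCLM ℝ 0
  let B1 : C(unitInterval, ℝ) →L[ℝ] C(unitInterval, ℝ) →L[ℝ] C(unitInterval, ℝ) :=
    ev.smulRight (ev.smulRight (1 : C(unitInterval, ℝ)))
  refine ⟨B1 - (1 / 2 : ℝ) • ContinuousLinearMap.mul ℝ C(unitInterval, ℝ), fun x => ?_⟩
  ext t
  simp [P, B1, ev]

/-- A norm-one functional attaining its norm at `x` kills `1 - x²`. -/
lemma functional_zero (x : C(unitInterval, ℝ)) (hx : ‖x‖ = 1) (f : C(unitInterval, ℝ) →L[ℝ] ℝ)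
    (hf : ‖f‖ = 1) (hfx : f x = 1) : f (1 - x * x) = 0 := by
  have key : ∀ s : ℝ, |s| ≤ 1 / 2 → ‖x + s • (1 - x * x)‖ ≤ 1 := by
    intro s hs
    refine (ContinuousMap.norm_le _ zero_le_one).2 fun t => ?_
    have h1 : |x t| ≤ 1 := by
      have := x.norm_coe_le_norm t
      rwa [hx, Real.norm_eq_abs] at this
    obtain ⟨h2, h3⟩ := abs_le.1 h1
    obtain ⟨h4, h5⟩ := abs_le.1 hs
    have h6 : (x + s • (1 - x * x)) t = x t + s * (1 - x t * x t) := by
      simp
    rw [h6, Real.norm_eq_abs, abs_le]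
    constructor
    · nlinarith [mul_nonneg (sub_nonneg.2 h3) (show (0 : ℝ) ≤ 1 + x t by linarith)]
    · nlinarith [mul_nonneg (sub_nonneg.2 h3) (show (0 : ℝ) ≤ 1 + x t by linarith)]
  have h1 : ∀ s : ℝ, |s| ≤ 1 / 2 → s * f (1 - x * x) ≤ 0 := by
    intro s hs
    have h2 := f.le_opNorm (x + s • (1 - x * x))
    rw [hf, one_mul, map_add, map_smul, hfx, smul_eq_mul] at h2
    have h3 := (Real.le_norm_self _).trans (h2.trans (key s hs))
    linarith
  have h2 := h1 (1 / 2) (by norm_num)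
  have h3 := h1 (-(1 / 2)) (by norm_num)
  linarith

/-- Lower bound: the numerical radius of a norm-one 2-homogeneous polynomial is at least `1/2`. -/
lemma lower_bound (Q : C(unitInterval, ℝ) → C(unitInterval, ℝ))
    (hQ : IsQuad ℝ C(unitInterval, ℝ) Q) (hn : polyNorm Q = 1) :
    1 / 2 ≤ numRad ℝ C(unitInterval, ℝ) Q := by
  obtain ⟨B, hB⟩ := hQ
  set v : ℝ := numRad ℝ C(unitInterval, ℝ) Q with hv
  have hBle : ∀ x y : C(unitInterval, ℝ), ‖B x y‖ ≤ ‖B‖ * ‖x‖ * ‖y‖ := B.le_opNorm₂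
  -- point evaluations test `v`
  have hpt : ∀ (x : C(unitInterval, ℝ)) (t : unitInterval), ‖x‖ ≤ 1 → |x t| = 1 →
      |B x x t| ≤ v := by
    intro x t hx hxt
    have hx1 : ‖x‖ = 1 := by
      apply le_antisymm hx
      have := x.norm_coe_le_norm t
      rwa [Real.norm_eq_abs, hxt] at this
    let ev : C(unitInterval, ℝ) →L[ℝ] ℝ := ContinuousMap.evalCLM ℝ t
    let f : C(unitInterval, ℝ) →L[ℝ] ℝ := (x t) • ev
    have hfa : ∀ y, f y = x t * y t := fun y => rfl
    have hfx : f x = 1 := by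
      rw [hfa, ← abs_mul_abs_self, hxt]; norm_num
    have hf : ‖f‖ = 1 := by
      apply le_antisymm
      · refine ContinuousLinearMap.opNorm_le_bound _ zero_le_one fun y => ?_
        rw [hfa, norm_mul, Real.norm_eq_abs, hxt]
        exact mul_le_mul_of_nonneg_left (y.norm_coe_le_norm t) zero_le_one
      · have := f.le_opNorm x
        rwa [hfx, hx1, mul_one, norm_one] at this
    have hbdd : BddAbove {r | ∃ (x : C(unitInterval, ℝ)) (f : C(unitInterval, ℝ) →L[ℝ] ℝ),
        ‖x‖ = 1 ∧ ‖f‖ = 1 ∧ f x = 1 ∧ r = ‖f (Q x)‖} := by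
      refine ⟨‖B‖, ?_⟩
      rintro r ⟨y, g, hy, hg, -, rfl⟩
      refine (g.le_opNorm _).trans ?_
      rw [hg, one_mul, hB]
      have := hBle y y
      rwa [hy, mul_one, mul_one] at this
    have h1 : ‖f (Q x)‖ ≤ v := le_csSup hbdd ⟨x, f, hx1, hf, hfx, rfl⟩
    rw [hfa, norm_mul, Real.norm_eq_abs, hxt, one_mul, hB] at h1
    exact h1
  -- reduce to an epsilon statement
  refine le_of_forall_pos_le_add fun ε hε => ?_
  -- almost norming vector
  have hne : Set.Nonempty {r | ∃ x : C(unitInterval, ℝ), ‖x‖ = 1 ∧ r = ‖Q x‖} :=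
    ⟨‖Q 1‖, 1, norm_one, rfl⟩
  have hlt : (1 : ℝ) - ε < sSup {r | ∃ x : C(unitInterval, ℝ), ‖x‖ = 1 ∧ r = ‖Q x‖} := by
    have : sSup {r | ∃ x : C(unitInterval, ℝ), ‖x‖ = 1 ∧ r = ‖Q x‖} = 1 := hn
    rw [this]; linarith
  obtain ⟨r, ⟨x, hx, rfl⟩, hr⟩ := exists_lt_of_lt_csSup hne hlt
  obtain ⟨t, ht⟩ : ∃ t : unitInterval, ‖Q x‖ ≤ ‖Q x t‖ := by
    obtain ⟨t, -, ht⟩ := isCompact_univ.exists_isMaxOn (Set.univ_nonempty (α := unitInterval))
      ((Q x).continuous.norm.continuousOn)
    exact ⟨t, (ContinuousMap.norm_le _ (norm_nonneg _)).2 fun u => ht (Set.mem_univ u)⟩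
  obtain ⟨δ, hδ, hδ1, hδB⟩ : ∃ δ : ℝ, 0 < δ ∧ δ ≤ 1 ∧ ‖B‖ * (3 * δ) ≤ ε / 2 := by
    refine ⟨min 1 (ε / (6 * (‖B‖ + 1))), lt_min one_pos (by positivity), min_le_left _ _, ?_⟩
    have h1 : min 1 (ε / (6 * (‖B‖ + 1))) ≤ ε / (6 * (‖B‖ + 1)) := min_le_right _ _
    calc ‖B‖ * (3 * min 1 (ε / (6 * (‖B‖ + 1)))) ≤ ‖B‖ * (3 * (ε / (6 * (‖B‖ + 1)))) := by
          gcongr
      _ = (ε / 2) * (‖B‖ / (‖B‖ + 1)) := by field_simp; ring
      _ ≤ (ε / 2) * 1 := by
        apply mul_le_mul_of_nonneg_left _ (by positivity)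
        rw [div_le_one (by positivity)]; linarith
      _ = ε / 2 := mul_one _
  have hxt : ∀ s, |x s| ≤ 1 := fun s => by
    have := x.norm_coe_le_norm s
    rwa [hx, Real.norm_eq_abs] at this
  -- bump
  let u : C(unitInterval, ℝ) := ⟨fun s => max 0 (1 - |x s - x t| / δ), by fun_prop⟩
  have hu0 : ∀ s, 0 ≤ u s := fun s => le_max_left _ _
  have hu1 : ∀ s, u s ≤ 1 := by
    intro s
    refine max_le zero_le_one ?_
    have : 0 ≤ |x s - x t| / δ := by positivity
    linarith
  have hut : u t = 1 := by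
    change max 0 (1 - |x t - x t| / δ) = 1
    simp
  have husupp : ∀ s, u s = 0 ∨ |x s - x t| ≤ δ := by
    intro s
    by_cases h : |x s - x t| ≤ δ
    · exact Or.inr h
    · left
      push Not at h
      apply max_eq_left
      have : 1 ≤ |x s - x t| / δ := by rw [le_div_iff₀ hδ]; linarith
      linarith
  let z : C(unitInterval, ℝ) := x - (x t) • u
  have hz : ∀ w : ℝ, |w| ≤ 1 → ∀ s, |(z + w • u) s| ≤ 1 + δ := by
    intro w hw s
    have e : (z + w • u) s = x s - x t * u s + w * u s := by simp [z]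
    rw [e]
    rcases husupp s with h | h
    · rw [h, mul_zero, mul_zero, sub_zero, add_zero]
      linarith [hxt s]
    · have e2 : x s - x t * u s + w * u s = (x s - x t) + ((1 - u s) * x t + u s * w) := by ring
      rw [e2]
      refine (abs_add_le _ _).trans ?_
      have h2 : |(1 - u s) * x t + u s * w| ≤ 1 := by
        refine (abs_add_le _ _).trans ?_
        rw [abs_mul, abs_mul, abs_of_nonneg (sub_nonneg.2 (hu1 s)), abs_of_nonneg (hu0 s)]
        have := hu0 s
        have := hu1 s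
        nlinarith [hxt t]
      linarith
  set a : ℝ := B z z t with ha
  set b : ℝ := B z u t + B u z t with hb
  set c : ℝ := B u u t with hc
  have hq : ∀ w : ℝ, B (z + w • u) (z + w • u) t = a + b * w + c * w ^ 2 := by
    intro w
    simp only [map_add, map_smul, add_apply, smul_apply, ContinuousMap.add_apply,
      ContinuousMap.smul_apply, smul_eq_mul]
    rw [ha, hb, hc]; ring
  -- values at `±1`
  have hend : ∀ w : ℝ, |w| = 1 → |a + b * w + c * w ^ 2| ≤ v + ε / 2 := by
    intro w hw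
    set y : C(unitInterval, ℝ) := z + w • u with hy
    let x' : C(unitInterval, ℝ) := ⟨fun s => max (-1) (min 1 (y s)), by fun_prop⟩
    have hx's : ∀ s, x' s = max (-1) (min 1 (y s)) := fun s => rfl
    have hx' : ‖x'‖ ≤ 1 := by
      refine (ContinuousMap.norm_le _ zero_le_one).2 fun s => ?_
      rw [Real.norm_eq_abs, hx's, abs_le]
      exact ⟨le_max_left _ _, max_le (by norm_num) (min_le_left _ _)⟩
    have hyt : y t = w := by
      have : y t = x t - x t * u t + w * u t := by simp [hy, z]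
      rw [this, hut]; ring
    have hx't : |x' t| = 1 := by
      rw [hx's, hyt]
      rcases (abs_eq zero_le_one).1 hw with h | h <;> subst h <;> norm_num
    have hd : ‖x' - y‖ ≤ δ := by
      refine (ContinuousMap.norm_le _ hδ.le).2 fun s => ?_
      rw [ContinuousMap.sub_apply, Real.norm_eq_abs, hx's, abs_le]
      obtain ⟨h1, h2⟩ := abs_le.1 (hz w hw.le s)
      rw [← hy] at h1 h2
      constructor
      · rcases le_total 1 (y s) with h3 | h3
        · rw [min_eq_left h3, max_eq_right (by norm_num)]; linarith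
        · rw [min_eq_right h3]
          have := le_max_right (-1) (y s)
          linarith
      · rcases le_total (-1) (min 1 (y s)) with h3 | h3
        · rw [max_eq_right h3]
          have := min_le_right 1 (y s)
          linarith
        · rw [max_eq_left h3]
          linarith
    have hyn : ‖y‖ ≤ 2 := by
      refine (ContinuousMap.norm_le _ (by norm_num)).2 fun s => ?_
      rw [Real.norm_eq_abs]
      linarith [hz w hw.le s]
    have h1 := hpt x' t hx' hx't
    have h2 : B y y = B x' x' - (B x' (x' - y) + B (x' - y) y) := by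
      simp only [map_sub, sub_apply]; abel
    have h3 : ‖B x' (x' - y) + B (x' - y) y‖ ≤ ‖B‖ * (3 * δ) := by
      refine (norm_add_le _ _).trans ?_
      have h4 := hBle x' (x' - y)
      have h5 := hBle (x' - y) y
      have h6 : ‖B‖ * ‖x'‖ * ‖x' - y‖ ≤ ‖B‖ * 1 * δ := by gcongr
      have h7 : ‖B‖ * ‖x' - y‖ * ‖y‖ ≤ ‖B‖ * δ * 2 := by gcongr
      linarith
    rw [← hq w, ← hy, h2, ContinuousMap.sub_apply]
    refine (abs_sub _ _).trans ?_
    have h4 := (B x' (x' - y) + B (x' - y) y).norm_coe_le_norm t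
    rw [Real.norm_eq_abs] at h4
    linarith
  have h1 := hend 1 (by simp)
  have h2 := hend (-1) (by simp)
  have hun : ‖u‖ ≤ 1 := by
    refine (ContinuousMap.norm_le _ zero_le_one).2 fun s => ?_
    rw [Real.norm_eq_abs, abs_of_nonneg (hu0 s)]
    exact hu1 s
  have h3 := hpt u t hun (by rw [hut, abs_one])
  rw [← hc] at h3
  -- the value at `x t`
  have h4 : |a + b * x t + c * (x t) ^ 2| > 1 - ε := by
    rw [← hq (x t)]
    have : z + (x t) • u = x := by simp [z]
    rw [this, ← hB]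
    rw [Real.norm_eq_abs] at ht
    linarith
  have h5 : |a + b * x t + c * (x t) ^ 2| ≤ 2 * v + ε / 2 := by
    obtain ⟨h6, h7⟩ := abs_le.1 h1
    obtain ⟨h8, h9⟩ := abs_le.1 h2
    obtain ⟨h10, h11⟩ := abs_le.1 h3
    obtain ⟨h12, h13⟩ := abs_le.1 (hxt t)
    have h14 : 0 ≤ (1 - x t) := by linarith
    have h15 : 0 ≤ (1 + x t) := by linarith
    have h16 : 0 ≤ (1 - x t) * (1 + x t) := mul_nonneg h14 h15
    have e : a + b * x t + c * (x t) ^ 2 = (1 + x t) / 2 * (a + b * 1 + c * 1 ^ 2)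
        + (1 - x t) / 2 * (a + b * (-1) + c * (-1) ^ 2) - c * ((1 - x t) * (1 + x t)) := by ring
    have h17 : (1 - x t) * (1 + x t) ≤ 1 := by nlinarith [sq_nonneg (x t)]
    have hv0 : 0 ≤ v := (abs_nonneg _).trans h3
    rw [e, abs_le]
    constructor
    · nlinarith
    · nlinarith
  linarith

/-- **The real space `C[0,1]` has second polynomial numerical index `1/2`**; in particular it
is not `1`, which disproves Q1. -/
theorem result : index2 ℝ C(unitInterval, ℝ) = 1 / 2 := by
  have hmain : index2 ℝ C(unitInterval, ℝ) ≤ (1 / 2) / 1 := by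
    -- the function `1 - t`, for which `P x` has value one at `t = 1`
    let x₀ : C(unitInterval, ℝ) := ⟨fun t => 1 - (t : ℝ), by fun_prop⟩
    have hx₀ : ‖x₀‖ = 1 := by
      apply le_antisymm
      · refine (ContinuousMap.norm_le _ zero_le_one).2 fun t => ?_
        have h1 := t.2.1
        have h2 := t.2.2
        change |1 - (t : ℝ)| ≤ 1
        rw [abs_le]; constructor <;> linarith
      · have := x₀.norm_coe_le_norm 0
        simpa [x₀] using this
    refine index2_le P_quad (by norm_num) one_pos x₀ hx₀ ?_ ?_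
    · have := (P x₀).norm_coe_le_norm 1
      simpa [P, x₀] using this
    · intro x f hx hf hfx
      have h0 := functional_zero x hx f hf hfx
      have e : P x = (x 0 * x 0 - 1 / 2) • (1 : C(unitInterval, ℝ))
          + (1 / 2 : ℝ) • (1 - x * x) := by
        ext t
        simp [P]; ring
      rw [e, map_add, map_smul, map_smul, h0, smul_zero, add_zero, norm_smul]
      have h1 : ‖f (1 : C(unitInterval, ℝ))‖ ≤ 1 := by
        have h2 := f.le_opNorm (1 : C(unitInterval, ℝ))
        rwa [hf, norm_one, mul_one] at h2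
      have h2 : |x 0| ≤ 1 := by
        have := x.norm_coe_le_norm 0
        rwa [hx, Real.norm_eq_abs] at this
      obtain ⟨h3, h4⟩ := abs_le.1 h2
      have h5 : ‖x 0 * x 0 - 1 / 2‖ ≤ 1 / 2 := by
        rw [Real.norm_eq_abs, abs_le]
        constructor <;> nlinarith
      calc _ ≤ (1 / 2 : ℝ) * 1 := mul_le_mul h5 h1 (norm_nonneg _) (by norm_num)
        _ = 1 / 2 := mul_one _
  rw [div_one] at hmain
  refine le_antisymm hmain ?_
  by_cases hne : Set.Nonempty {r | ∃ Q : C(unitInterval, ℝ) → C(unitInterval, ℝ),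
      IsQuad ℝ C(unitInterval, ℝ) Q ∧ polyNorm Q = 1 ∧ r = numRad ℝ C(unitInterval, ℝ) Q}
  · refine le_csInf hne ?_
    rintro r ⟨Q, hQ, hn, rfl⟩
    exact lower_bound Q hQ hn
  · -- a norm-one polynomial exists: multiplication `x ↦ x²`
    exfalso
    apply hne
    refine ⟨_, fun x => x * x, ⟨ContinuousLinearMap.mul ℝ C(unitInterval, ℝ), fun x => by simp⟩,
      ?_, rfl⟩
    have hset : {r | ∃ x : C(unitInterval, ℝ), ‖x‖ = 1 ∧ r = ‖x * x‖} = {1} := by
      ext r
      simp only [Set.mem_ofPred_eq, Set.mem_singleton_iff]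
      constructor
      · rintro ⟨x, hx, rfl⟩
        apply le_antisymm
        · refine (norm_mul_le _ _).trans ?_
          rw [hx, one_mul]
        · obtain ⟨t, ht⟩ : ∃ t : unitInterval, ‖x‖ ≤ ‖x t‖ := by
            obtain ⟨t, -, ht⟩ := isCompact_univ.exists_isMaxOn
              (Set.univ_nonempty (α := unitInterval)) (x.continuous.norm.continuousOn)
            exact ⟨t, (ContinuousMap.norm_le _ (norm_nonneg _)).2 fun u => ht (Set.mem_univ u)⟩
          have h1 := (x * x).norm_coe_le_norm t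
          rw [ContinuousMap.mul_apply, norm_mul] at h1
          rw [hx] at ht
          nlinarith
      · rintro rfl
        exact ⟨1, norm_one, by rw [one_mul, norm_one]⟩
    change sSup {r | ∃ x : C(unitInterval, ℝ), ‖x‖ = 1 ∧ r = ‖x * x‖} = 1
    rw [hset, csSup_singleton]

end Pool.Agent.Results.MP_6cf06e_an.RealContinuousFunctions
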