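import Pool.Agent.Q195.MB1
import Pool.Agent.Q195.MBDefs

set_option autoImplicit false

open Pool.Agent.Q195.MBD Pool.Agent.Q195.MB

namespace Pool.Agent.Results.MP_810de6_an.ContainsLinf

/-- Over the real or complex field there is a Banach space with an extended M-basis which has a
closed subspace isomorphic to `l_infty`. -/
theorem result (𝕜 : Type) [RCLike 𝕜] :
    ∃ (E : Type) (_ : NormedAddCommGroup E) (_ : NormedSpace 𝕜 E) (_ : CompleteSpace E) (I : Type)
      (x : I → E) (f : I → E →L[𝕜] 𝕜), IsExtMBasis x f ∧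
      ∃ G : Submodule 𝕜 E, IsClosed (G : Set E) ∧ Nonempty (G ≃L[𝕜] lp (fun _ : ℕ => 𝕜) ⊤) := by
  obtain ⟨f, h1, h2, h3, h4⟩ := mbasis (𝕜 := 𝕜)
  refine ⟨Sp 𝕜, inferInstance, inferInstance, inferInstance, ℕ ⊕ Gam 𝕜, xv, f, ⟨h1, h2, h3, h4⟩, ?_⟩
  let G : Submodule 𝕜 (Sp 𝕜) := LinearMap.ker (ContinuousLinearMap.snd 𝕜 (Linf 𝕜) (L1G 𝕜)).toLinearMap
  have hG : ∀ z : G, z.1.2 = 0 := fun z => z.2
  refine ⟨G, (ContinuousLinearMap.snd 𝕜 (Linf 𝕜) (L1G 𝕜)).isClosed_ker, ⟨?_⟩⟩
  exact
    { toFun := fun z => z.1.1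
      map_add' := fun _ _ => rfl
      map_smul' := fun _ _ => rfl
      invFun := fun d => ⟨(d, 0), rfl⟩
      left_inv := fun z => by
        apply Subtype.ext
        exact Prod.ext rfl (hG z).symm
      right_inv := fun _ => rfl
      continuous_toFun := continuous_fst.comp continuous_subtype_val
      continuous_invFun := by
        apply Continuous.subtype_mk
        exact continuous_id.prodMk continuous_const }

end Pool.Agent.Results.MP_810de6_an.ContainsLinf
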