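import Pool.Agent.Q151.AT.Disc

/-!
# MP_8d62fb_al: the Addition Theorem for entropy on torsion quasihamiltonian groups
-/

set_option autoImplicit false

namespace Pool.Agent.Results.MP_8d62fb_al.AdditionTheorem

open Pool.Agent.Q151.AT

/-- The Addition Theorem holds for every endomorphism `φ` of a torsion quasihamiltonian group
`G` and every normal subgroup `H` with `φ(H) ≤ H`: the algebraic entropy of `φ` is the sum of the
entropies of the induced endomorphism of `G ⧸ H` and of the restriction to `H`. -/
theorem result :
    ∀ (G : Type*) [Group G], QuasiHam G → Torsion G → ∀ (φ : G →* G) (H : Subgroup G) [H.Normal]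
      (hH : ∀ x ∈ H, φ x ∈ H),
      halg φ = halg (quotH φ H hH) + halg (resH φ H hH) := by
  intro G _ hG ht φ H _ hH
  exact addition hG ht hH

end Pool.Agent.Results.MP_8d62fb_al.AdditionTheorem
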