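import Mathlib

/-!
# A tropical polynomial that is not the tail function of a tropicalized Gaussian

For every non-archimedean local field with residue field of size `q` and every `d ≥ q + 2`, the
coefficients `c_I = max (|I| - 2) 0` are supermodular, but the tropical polynomial they define is
not the tail function of any full-dimensional Gaussian.
-/

open MeasureTheory ValuativeRel
open scoped WithZero

namespace Pool.Agent.Results.MP_90534d_pr.NotRealizable

section

variable (K : Type) [Field K] [ValuativeRel K] [TopologicalSpace K] [IsNonarchimedeanLocalField K]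

/-- The size `q` of the residue field. -/
noncomputable def residueCard : ℕ := Nat.card 𝓀[K]

variable {K}

/-- The normalised valuation `K → ℤ ∪ {+∞}`. -/
noncomputable def val (x : K) : WithTop ℤ :=
  open Classical in
  if x = 0 then ⊤ else
    ((-(WithZero.log (IsNonarchimedeanLocalField.valueGroupWithZeroIsoInt K (valuation K x))) : ℤ) :
      WithTop ℤ)

/-- The lattice `A 𝒪_K^d`. -/
def lattice {d : ℕ} (A : GL (Fin d) K) : Set (Fin d → K) :=
  {x | ∃ y : Fin d → K, (∀ i, y i ∈ 𝒪[K]) ∧ x = (A : Matrix (Fin d) (Fin d) K).mulVec y}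

variable [MeasurableSpace K]

/-- `P` is the normalised Haar measure of the subgroup `L` of `K^d`: a probability law carried
by `L` and invariant under translation by the elements of `L`. -/
structure IsGaussian {d : ℕ} (L : Set (Fin d → K)) (P : Measure (Fin d → K)) : Prop where
  prob : P Set.univ = 1
  carried : P Lᶜ = 0
  invariant : ∀ a ∈ L, P.map (fun x => a + x) = P

/-- The tail function `φ(v) = - log_q P(V ≥ v)` of the tropicalization. -/
noncomputable def tail {d : ℕ} (P : Measure (Fin d → K)) (v : Fin d → ℤ) : ℝ :=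
  -Real.logb (residueCard K) (P.real {x | ∀ i, (v i : WithTop ℤ) ≤ val (x i)})

end

/-- The tropical polynomial `v ↦ max_I (∑_{i ∈ I} v_i - c_I)`. -/
noncomputable def tropical {d : ℕ} (c : Finset (Fin d) → ℤ) (v : Fin d → ℝ) : ℝ :=
  ⨆ I : Finset (Fin d), ((∑ i ∈ I, v i) - (c I : ℝ))

/-- The coefficients `max (|I| - 2) 0`. -/
def coef (d : ℕ) (I : Finset (Fin d)) : ℤ := ((I.card - 2 : ℕ) : ℤ)

theorem coef_supermodular (d : ℕ) (I J : Finset (Fin d)) :
    coef d I + coef d J ≤ coef d (I ∪ J) + coef d (I ∩ J) := by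
  unfold coef
  have h1 := Finset.card_union_add_card_inter I J
  have h2 := Finset.card_le_card (Finset.inter_subset_left (s₁ := I) (s₂ := J))
  have h3 := Finset.card_le_card (Finset.inter_subset_right (s₁ := I) (s₂ := J))
  have h4 := Finset.card_le_card (Finset.subset_union_left (s₁ := I) (s₂ := J))
  have h5 := Finset.card_le_card (Finset.subset_union_right (s₁ := I) (s₂ := J))
  omega

/-- the value of the tropical polynomial at an indicator vector -/
theorem tropical_indicator {d : ℕ} (S : Finset (Fin d)) :
    tropical (coef d) (fun i => (((if i ∈ S then 1 else 0 : ℤ)) : ℝ)) = ((min S.card 2 : ℕ) : ℝ) := by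
  unfold tropical
  have hval : ∀ I : Finset (Fin d), (∑ i ∈ I, (((if i ∈ S then 1 else 0 : ℤ)) : ℝ)) - (coef d I : ℝ)
      = (((I ∩ S).card : ℤ) - coef d I : ℤ) := by
    intro I
    push_cast
    congr 1
    rw [Finset.sum_ite_mem, Finset.sum_const]
    simp
  simp only [hval]
  apply le_antisymm
  · refine ciSup_le fun I => ?_
    have h1 := Finset.card_le_card (Finset.inter_subset_left (s₁ := I) (s₂ := S))
    have h2 := Finset.card_le_card (Finset.inter_subset_right (s₁ := I) (s₂ := S))
    have : (((I ∩ S).card : ℤ) - coef d I : ℤ) ≤ ((min S.card 2 : ℕ) : ℤ) := by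
      unfold coef
      omega
    exact_mod_cast this
  · obtain ⟨I, hIS, hI⟩ := Finset.exists_subset_card_eq (s := S) (n := min S.card 2)
      (min_le_left _ _)
    have h3 : (((I ∩ S).card : ℤ) - coef d I : ℤ) = ((min S.card 2 : ℕ) : ℤ) := by
      rw [Finset.inter_eq_left.2 hIS, hI]
      unfold coef
      rw [hI]
      omega
    refine le_ciSup_of_le (Set.finite_range _).bddAbove I ?_
    rw [h3]
    simp

section

variable {K : Type} [Field K] [ValuativeRel K] [TopologicalSpace K] [IsNonarchimedeanLocalField K]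

theorem le_val_iff (n : ℤ) (x : K) : (n : WithTop ℤ) ≤ val x ↔ valuation K x ≤
    (IsNonarchimedeanLocalField.valueGroupWithZeroIsoInt K).symm (WithZero.exp (-n)) := by
  unfold val
  by_cases hx : x = 0
  · simp [hx]
  · rw [if_neg hx, WithTop.coe_le_coe]
    have h1 : IsNonarchimedeanLocalField.valueGroupWithZeroIsoInt K (valuation K x) ≠ 0 := by
      simpa using hx
    rw [← map_le_map_iff (IsNonarchimedeanLocalField.valueGroupWithZeroIsoInt K)]
    rw [OrderMonoidIso.apply_symm_apply, ← WithZero.log_le_log h1 WithZero.exp_ne_zero,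
      WithZero.log_exp]
    constructor <;> intro h <;> linarith

theorem isOpen_le (γ : ValueGroupWithZero K) (hγ : γ ≠ 0) : IsOpen {x : K | valuation K x ≤ γ} := by
  rw [isOpen_iff_mem_nhds]
  intro x hx
  rw [(IsValuativeTopology.hasBasis_nhds' x).mem_iff]
  refine ⟨γ, hγ, fun y hy => ?_⟩
  have h1 : y = (y - x) + x := by ring
  show valuation K y ≤ γ
  rw [h1]
  exact (Valuation.map_add _ _ _).trans (max_le (le_of_lt hy) hx)

variable [MeasurableSpace K] [BorelSpace K]

theorem measurable_tail {d : ℕ} (v : Fin d → ℤ) :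
    MeasurableSet {x : Fin d → K | ∀ i, (v i : WithTop ℤ) ≤ val (x i)} := by
  have h : {x : Fin d → K | ∀ i, (v i : WithTop ℤ) ≤ val (x i)} =
      ⋂ i, (fun x : Fin d → K => x i) ⁻¹' {x | (v i : WithTop ℤ) ≤ val x} := by
    ext x; simp
  rw [h]
  refine MeasurableSet.iInter fun i => measurable_pi_apply i ?_
  simp only [le_val_iff]
  exact (isOpen_le _ (by simp)).measurableSet

end

/-- A probability argument: `d` events of probability `1/q`, any two of which meet in the same
event of probability `1/q²`, exist only for `d ≤ q + 1`. -/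
theorem card_bound {Ω : Type} [MeasurableSpace Ω] (P : Measure Ω) [IsProbabilityMeasure P]
    {d : ℕ} (q : ℝ) (hq : 1 < q) (A : Fin d → Set Ω) (B : Set Ω) (hA : ∀ i, MeasurableSet (A i))
    (hB : MeasurableSet B) (hBA : ∀ i, B ⊆ A i) (h1 : ∀ i, P.real (A i) = q⁻¹)
    (h2 : ∀ i j, i ≠ j → P.real (A i ∩ A j) = q⁻¹ ^ 2) (h3 : P.real B = q⁻¹ ^ 2) :
    (d : ℝ) ≤ q + 1 := by
  have hq0 : 0 < q := by linarith
  have hD : ∀ i, P.real (A i \ B) = q⁻¹ - q⁻¹ ^ 2 := by
    intro i
    rw [measureReal_sdiff (hBA i) hB, h1, h3]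
  have hdisj : Pairwise (Function.onFun (AEDisjoint P) (fun i => A i \ B)) := by
    intro i j hij
    show P ((A i \ B) ∩ (A j \ B)) = 0
    have e : (A i \ B) ∩ (A j \ B) = (A i ∩ A j) \ B := by
      ext x; simp only [Set.mem_inter_iff, Set.mem_sdiff]; tauto
    rw [e]
    have h5 : P.real ((A i ∩ A j) \ B) = 0 := by
      rw [measureReal_sdiff (Set.subset_inter (hBA i) (hBA j)) hB, h2 i j hij, h3, sub_self]
    rwa [measureReal_eq_zero_iff] at h5
  have hU : P.real (⋃ i, (A i \ B)) = ∑ i : Fin d, P.real (A i \ B) := by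
    unfold Measure.real
    rw [measure_iUnion₀ hdisj fun i => ((hA i).diff hB).nullMeasurableSet, tsum_fintype,
      ENNReal.toReal_sum fun i _ => measure_ne_top _ _]
  have hle : P.real (⋃ i, (A i \ B)) ≤ P.real Bᶜ :=
    measureReal_mono (Set.iUnion_subset fun i x hx => hx.2)
  rw [hU, measureReal_compl hB] at hle
  simp only [hD, h3, Finset.sum_const, Finset.card_univ, Fintype.card_fin, nsmul_eq_mul,
    probReal_univ] at hle
  have h6 : (d : ℝ) * (q - 1) ≤ (q + 1) * (q - 1) := by
    have h7 := mul_le_mul_of_nonneg_left hle (show 0 ≤ q ^ 2 by positivity)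
    have e1 : q ^ 2 * ((d : ℝ) * (q⁻¹ - q⁻¹ ^ 2)) = d * (q - 1) := by field_simp
    have e2 : q ^ 2 * (1 - q⁻¹ ^ 2) = (q + 1) * (q - 1) := by field_simp; ring
    rwa [e1, e2] at h7
  exact le_of_mul_le_mul_right h6 (by linarith)

/-- **Disproof of the characterisation of tail functions over every local field.** Let `K` be a
non-archimedean local field with residue field of size `q` and let `d ≥ q + 2`. There are integer
supermodular coefficients `c` with `c ∅ = 0` such that the restriction to `ℤ^d` of the tropical
polynomial defined by `c` is not the tail function of a Gaussian, for any lattice. -/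
theorem result (K : Type) [Field K] [ValuativeRel K] [TopologicalSpace K]
    [IsNonarchimedeanLocalField K] [MeasurableSpace K] [BorelSpace K] (d : ℕ)
    (hd : residueCard K + 2 ≤ d) :
    ∃ c : Finset (Fin d) → ℤ, c ∅ = 0 ∧ (∀ I J, c I + c J ≤ c (I ∪ J) + c (I ∩ J)) ∧
      ∀ (A : GL (Fin d) K) (P : Measure (Fin d → K)), IsGaussian (lattice A) P →
        ¬ (∀ v : Fin d → ℤ, tail P v = tropical c (fun i => (v i : ℝ))) := by
  refine ⟨coef d, by simp [coef], coef_supermodular d, ?_⟩
  intro A P hP hφ
  have hprob : IsProbabilityMeasure P := ⟨hP.prob⟩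
  have hq : 1 < residueCard K := Finite.one_lt_card
  have hqR : (1 : ℝ) < residueCard K := by exact_mod_cast hq
  set q : ℝ := ((residueCard K : ℕ) : ℝ) with hqdef
  set E : Finset (Fin d) → Set (Fin d → K) := fun S =>
    {x | ∀ i, (((if i ∈ S then 1 else 0 : ℤ)) : WithTop ℤ) ≤ val (x i)} with hE
  have hmeas : ∀ S, MeasurableSet (E S) := fun S => measurable_tail _
  have hval : ∀ S : Finset (Fin d), 1 ≤ S.card → P.real (E S) = q⁻¹ ^ (min S.card 2) := by
    intro S hS
    have h1 := hφ (fun i => if i ∈ S then 1 else 0)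
    rw [tropical_indicator] at h1
    unfold tail at h1
    have h2 : Real.logb q (P.real (E S)) = -((min S.card 2 : ℕ) : ℝ) := by
      rw [← h1, neg_neg]
    have h3 : P.real (E S) ≠ 0 := by
      intro h0
      rw [h0, Real.logb_zero] at h2
      have h4 : (0 : ℝ) < ((min S.card 2 : ℕ) : ℝ) := by
        have : 0 < min S.card 2 := by omega
        exact_mod_cast this
      linarith
    have h4 : 0 < P.real (E S) := lt_of_le_of_ne measureReal_nonneg (Ne.symm h3)
    have h5 := Real.rpow_logb (by linarith) hqR.ne' h4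
    rw [h2, Real.rpow_neg (by linarith), Real.rpow_natCast] at h5
    rw [← h5, inv_pow]
  have hanti : ∀ S T : Finset (Fin d), S ⊆ T → E T ⊆ E S := by
    intro S T hST x hx i
    refine le_trans ?_ (hx i)
    rw [WithTop.coe_le_coe]
    by_cases hS : i ∈ S
    · simp [hS, hST hS]
    · rw [if_neg hS]
      split_ifs <;> simp
  have hint : ∀ i j, E {i} ∩ E {j} = E {i, j} := by
    intro i j
    apply Set.Subset.antisymm
    · rintro x ⟨h1, h2⟩ k
      by_cases hk : k ∈ ({i, j} : Finset (Fin d))
      · rw [Finset.mem_insert, Finset.mem_singleton] at hk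
        rcases hk with rfl | rfl
        · simpa using h1 k
        · simpa using h2 k
      · have hk' : k ∉ ({i} : Finset (Fin d)) := by
          intro h; exact hk (by simp at h; simp [h])
        have := h1 k
        rw [if_neg hk'] at this
        rwa [if_neg hk]
    · exact Set.subset_inter (hanti _ _ (by simp)) (hanti _ _ (by simp))
  have hkey := card_bound P q hqR (fun i => E {i}) (E Finset.univ) (fun i => hmeas _) (hmeas _)
    (fun i => hanti _ _ (Finset.subset_univ _))
    (fun i => by rw [hval _ (by simp)]; simp)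
    (fun i j hij => by
      rw [hint, hval _ (by rw [Finset.card_pair hij]; norm_num), Finset.card_pair hij]
      simp)
    (by
      rw [hval _ (by rw [Finset.card_univ, Fintype.card_fin]; omega), Finset.card_univ,
        Fintype.card_fin, min_eq_right (by omega)])
  have h9 : ((residueCard K + 2 : ℕ) : ℝ) ≤ d := by exact_mod_cast hd
  push_cast at h9
  linarith

end Pool.Agent.Results.MP_90534d_pr.NotRealizable
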