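import Pool.Agent.W735.DP.Inter

/-!
# Sublacunary interpolation sets for distal sequences

Every set of positive integers whose gaps tend to infinity is an interpolation set for distal
sequences. In particular, for every function `ω → ∞` there is a sublacunary interpolation set
`{r_0 < r_1 < ...}` with `r_n ≤ n ω(n)` for all large `n`.
-/

set_option autoImplicit false

namespace Pool.Agent.Results.MP_924486_an.SublacunaryInterpolation

open Filter Topology

/-- `T` is distal: `inf_{n ∈ ℕ} d(Tⁿ x, Tⁿ y) > 0` for all `x ≠ y`. -/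
def IsDistal {X : Type} [MetricSpace X] (T : X → X) : Prop :=
  ∀ x y : X, x ≠ y → ∃ ε : ℝ, 0 < ε ∧ ∀ n : ℕ, ε ≤ dist (T^[n] x) (T^[n] y)

/-- `ψ` is a distal sequence: `ψ n = F (Tⁿ x)` for all `n ≥ 1`, where `T` is a distal continuous
self-map of a compact metric space `X`, `x ∈ X` and `F : X → ℂ` is continuous. -/
def IsDistalSequence (ψ : ℕ → ℂ) : Prop :=
  ∃ (X : Type) (_ : MetricSpace X) (_ : CompactSpace X) (T : X → X) (x : X) (F : X → ℂ),
    Continuous T ∧ IsDistal T ∧ Continuous F ∧ ∀ n, 1 ≤ n → ψ n = F (T^[n] x)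

/-- `E` is an interpolation set for distal sequences. -/
def IsInterpolationSet (E : Set ℕ) : Prop :=
  ∀ f : ℕ → ℂ, (∃ C : ℝ, ∀ n ∈ E, ‖f n‖ ≤ C) → ∃ ψ : ℕ → ℂ, IsDistalSequence ψ ∧ ∀ n ∈ E, ψ n = f n

/-- `E = {r_0 < r_1 < ...}` is an infinite set of positive integers with `log r_n / n → 0`. -/
def IsSublacunary (E : Set ℕ) : Prop :=
  ∃ r : ℕ → ℕ, StrictMono r ∧ (∀ n, 1 ≤ r n) ∧ Set.range r = E ∧
    Tendsto (fun n : ℕ => Real.log (r n) / n) atTop (𝓝 0)

/-- Sets with gaps tending to infinity are interpolation sets for distal sequences. -/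
theorem of_gaps {r : ℕ → ℕ} (hr : StrictMono r)
    (hg : Tendsto (fun k => r (k + 1) - r k) atTop atTop) : IsInterpolationSet (Set.range r) := by
  intro f hf
  obtain ⟨X, mX, cX, T, hT, x, F, hF, hFx⟩ := Pool.Agent.W735.DP.interp_of_gaps hr hg f hf
  refine ⟨fun n => F (T^[n] x), ⟨X, mX, cX, T, x, F, T.continuous, ?_, hF, fun n _ => rfl⟩, hFx⟩
  intro a b hab
  obtain ⟨ε, hε, h⟩ := hT a b hab
  exact ⟨ε, hε, fun n => (h n).1⟩

open Classical in
/-- A slowly growing function below `ω`. -/
noncomputable def gr (ω : ℕ → ℝ) (n : ℕ) : ℕ :=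
  Nat.findGreatest (fun k => ∀ x, n ≤ x → (k : ℝ) + 2 ≤ ω x) n

lemma gr_mono (ω : ℕ → ℝ) : Monotone (gr ω) := by
  classical
  intro a b hab
  unfold gr
  refine (Nat.findGreatest_mono_right _ hab).trans ?_
  refine Nat.findGreatest_mono_left ?_ _
  intro k hk x hx
  exact hk x (hab.trans hx)

lemma gr_le (ω : ℕ → ℝ) (n : ℕ) : gr ω n ≤ n := by
  classical
  exact Nat.findGreatest_le n

lemma gr_tendsto (ω : ℕ → ℝ) (hω : Tendsto ω atTop atTop) : Tendsto (gr ω) atTop atTop := by
  classical
  rw [tendsto_atTop]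
  intro K
  obtain ⟨n₀, hn₀⟩ := eventually_atTop.1 (hω.eventually_ge_atTop ((K : ℝ) + 2))
  filter_upwards [eventually_ge_atTop (max n₀ K)] with n hn
  unfold gr
  refine Nat.le_findGreatest ((le_max_right _ _).trans hn) ?_
  intro x hx
  exact hn₀ x ((le_max_left _ _).trans (hn.trans hx))

lemma gr_spec (ω : ℕ → ℝ) {n : ℕ} (h : gr ω n ≠ 0) : (gr ω n : ℝ) + 2 ≤ ω n := by
  classical
  exact Nat.findGreatest_of_ne_zero (P := fun k => ∀ x, n ≤ x → (k : ℝ) + 2 ≤ ω x) (n := n)
    rfl h n le_rfl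

/-- The sequence with the gaps `gr ω k + 1`. -/
noncomputable def sq (ω : ℕ → ℝ) : ℕ → ℕ
  | 0 => 1
  | k + 1 => sq ω k + (gr ω k + 1)

lemma sq_strictMono (ω : ℕ → ℝ) : StrictMono (sq ω) :=
  strictMono_nat_of_lt_succ (fun k => by simp only [sq]; omega)

lemma one_le_sq (ω : ℕ → ℝ) (k : ℕ) : 1 ≤ sq ω k := by
  induction k with
  | zero => exact le_rfl
  | succ k ih => simp only [sq]; omega

lemma sq_le (ω : ℕ → ℝ) (k : ℕ) : sq ω k ≤ 1 + k * (gr ω k + 1) := by
  induction k with
  | zero => simp [sq]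
  | succ k ih =>
    have h := gr_mono ω (Nat.le_succ k)
    have h2 : k * (gr ω k + 1) ≤ k * (gr ω (k + 1) + 1) := Nat.mul_le_mul_left _ (by
      have : gr ω k ≤ gr ω (k + 1) := h
      omega)
    have h3 : gr ω k ≤ gr ω (k + 1) := h
    have h4 : (k + 1) * (gr ω (k + 1) + 1) = k * (gr ω (k + 1) + 1) + (gr ω (k + 1) + 1) := by
      ring
    simp only [sq]
    omega

/-- **Sublacunary interpolation sets.** (1) Every set of natural numbers whose gaps tend to
infinity is an interpolation set for distal sequences. (2) For every `ω → ∞` there are positive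
integers `r_0 < r_1 < ...` with `r_n ≤ n ω(n)` for all large `n` whose set is sublacunary and is an
interpolation set for distal sequences. (3) So Q1 has a negative answer: some sublacunary set is an
interpolation set for distal sequences. -/
theorem result :
    (∀ r : ℕ → ℕ, StrictMono r → Tendsto (fun k => r (k + 1) - r k) atTop atTop →
      IsInterpolationSet (Set.range r)) ∧
    (∀ ω : ℕ → ℝ, Tendsto ω atTop atTop → ∃ r : ℕ → ℕ, StrictMono r ∧ (∀ n, 1 ≤ r n) ∧
      (∀ᶠ n : ℕ in atTop, (r n : ℝ) ≤ n * ω n) ∧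
      IsSublacunary (Set.range r) ∧ IsInterpolationSet (Set.range r)) ∧
    ∃ E : Set ℕ, IsSublacunary E ∧ IsInterpolationSet E := by
  have h2 : ∀ ω : ℕ → ℝ, Tendsto ω atTop atTop → ∃ r : ℕ → ℕ, StrictMono r ∧ (∀ n, 1 ≤ r n) ∧
      (∀ᶠ n : ℕ in atTop, (r n : ℝ) ≤ n * ω n) ∧
      IsSublacunary (Set.range r) ∧ IsInterpolationSet (Set.range r) := by
    intro ω hω
    refine ⟨sq ω, sq_strictMono ω, one_le_sq ω, ?_, ⟨sq ω, sq_strictMono ω, one_le_sq ω, rfl, ?_⟩,
      of_gaps (sq_strictMono ω) ?_⟩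
    · filter_upwards [(gr_tendsto ω hω).eventually_ge_atTop 1, eventually_ge_atTop 1] with n h1 h3
      have h4 := gr_spec ω (n := n) (by omega)
      have h5 : (sq ω n : ℝ) ≤ 1 + n * ((gr ω n : ℝ) + 1) := by exact_mod_cast sq_le ω n
      have h6 : (1 : ℝ) ≤ n := by exact_mod_cast h3
      nlinarith
    · have hlog : Tendsto (fun n : ℕ => Real.log ((n : ℝ)) / n) atTop (𝓝 0) := by
        have := (Real.isLittleO_log_id_atTop.tendsto_div_nhds_zero).comp
          tendsto_natCast_atTop_atTop
        exact this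
      have hup : Tendsto (fun n : ℕ => (Real.log 4 + 2 * Real.log n) / n) atTop (𝓝 0) := by
        have h1 : Tendsto (fun n : ℕ => Real.log 4 / (n : ℝ)) atTop (𝓝 0) :=
          tendsto_const_nhds.div_atTop tendsto_natCast_atTop_atTop
        have h3 := h1.add (hlog.const_mul 2)
        simp only [mul_zero, add_zero] at h3
        refine h3.congr (fun n => ?_)
        ring
      refine tendsto_of_tendsto_of_tendsto_of_le_of_le' tendsto_const_nhds hup ?_ ?_
      · filter_upwards with n
        exact div_nonneg (Real.log_natCast_nonneg _) (by positivity)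
      · filter_upwards [eventually_ge_atTop 1] with n hn
        have h6 : (1 : ℝ) ≤ n := by exact_mod_cast hn
        have h7 : (sq ω n : ℝ) ≤ 4 * (n : ℝ) ^ 2 := by
          have h5 : (sq ω n : ℝ) ≤ 1 + n * ((gr ω n : ℝ) + 1) := by exact_mod_cast sq_le ω n
          have h8 : (gr ω n : ℝ) ≤ n := by exact_mod_cast gr_le ω n
          nlinarith
        have h9 : (0 : ℝ) < sq ω n := by
          have := one_le_sq ω n
          positivity
        apply div_le_div_of_nonneg_right _ (by positivity)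
        calc Real.log (sq ω n) ≤ Real.log (4 * (n : ℝ) ^ 2) := Real.log_le_log h9 h7
          _ = Real.log 4 + 2 * Real.log n := by
            rw [Real.log_mul (by norm_num) (by positivity), Real.log_pow]
            norm_num
    · have : (fun k => sq ω (k + 1) - sq ω k) = fun k => gr ω k + 1 := by
        funext k
        simp only [sq]
        omega
      rw [this]
      exact tendsto_atTop_mono (fun k => Nat.le_succ _) (gr_tendsto ω hω)
  refine ⟨fun r hr hg => of_gaps hr hg, h2, ?_⟩
  obtain ⟨r, -, -, -, h3, h4⟩ := h2 (fun n => (n : ℝ)) tendsto_natCast_atTop_atTop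
  exact ⟨_, h3, h4⟩

end Pool.Agent.Results.MP_924486_an.SublacunaryInterpolation
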