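import Mathlib
import Pool.Agent.Q281.Wiener.Graft

set_option autoImplicit false

/-!
# The closure of the real Wiener roots of trees (MP_9469ec_co)
-/

namespace Pool.Agent.Results.MP_9469ec_co.HalfLine

open Polynomial Pool.Agent.Q281.Wiener Filter Topology

/-- The real Wiener roots of trees. -/
def treeRoots : Set ℝ := {x | ∃ (V : Type) (_ : Fintype V) (G : SimpleGraph V),
  G.IsTree ∧ 2 ≤ Fintype.card V ∧ (wiener G).eval x = 0}

theorem card_of_wiener_ne {V : Type} [Fintype V] (G : SimpleGraph V) (h : wiener G ≠ 0) :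
    2 ≤ Fintype.card V := by
  classical
  by_contra hcon
  apply h
  have h1 : Subsingleton V := Fintype.card_le_one_iff_subsingleton.1 (by omega)
  rw [wiener, Finset.sum_eq_zero, mul_zero]
  intro p hp
  rw [Finset.mem_offDiag] at hp
  exact absurd (Subsingleton.elim _ _) hp.2.2

theorem root_of_sign {d : ℕ} {p w : ℝ[X]} (h : Real d p w) {a b : ℝ} (hab : a < b)
    (hw : w.eval a < 0 ∧ 0 < w.eval b ∨ 0 < w.eval a ∧ w.eval b < 0) :
    ∃ r ∈ treeRoots, a < r ∧ r < b := by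
  obtain ⟨⟨V, _, G, r, hG, _, hwG⟩, _, _⟩ := h
  have hne : wiener G ≠ 0 := by
    rw [hwG]
    rintro rfl
    simp at hw
  have hc : ContinuousOn (fun t => w.eval t) (Set.Icc a b) := w.continuous.continuousOn
  rcases hw with hw | hw
  · obtain ⟨r, hr, hr2⟩ := intermediate_value_Ioo hab.le hc (Set.mem_Ioo.2 ⟨hw.1, hw.2⟩)
    exact ⟨r, ⟨V, inferInstance, G, hG, card_of_wiener_ne G hne, by rw [hwG]; exact hr2⟩,
      hr.1, hr.2⟩
  · obtain ⟨r, hr, hr2⟩ := intermediate_value_Ioo' hab.le hc (Set.mem_Ioo.2 ⟨hw.2, hw.1⟩)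
    exact ⟨r, ⟨V, inferInstance, G, hG, card_of_wiener_ne G hne, by rw [hwG]; exact hr2⟩,
      hr.1, hr.2⟩

theorem mem_closure_of_between (x : ℝ) (l : ℝ) (hl : x < l)
    (h : ∀ a b : ℝ, a < x → x < b → b < l → ∃ r ∈ treeRoots, a < r ∧ r < b) :
    x ∈ closure treeRoots := by
  rw [Metric.mem_closure_iff]
  intro ε hε
  obtain ⟨r, hr, h1, h2⟩ := h (x - ε) (min (x + ε) ((x + l) / 2)) (by linarith)
    (lt_min (by linarith) (by linarith)) (lt_of_le_of_lt (min_le_right _ _) (by linarith))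
  refine ⟨r, hr, ?_⟩
  rw [Real.dist_eq, abs_lt]
  have := h2.trans_le (min_le_left _ _)
  constructor <;> linarith

/-! ### double stars -/

/-- double stars -/
theorem real_double (α β : ℕ) : ∃ p w : ℝ[X], Real 2 p w ∧ ∀ x : ℝ, w.eval x =
    x * (1 + (α + β) * (1 + x / 2) + x * (α ^ 2 + β ^ 2) / 2 + α * β * x ^ 2) := by
  have h1 := real_copies (real_one 2) (real_one 0) (show 0 + 1 ≤ 2 by omega) α
  have h2 := real_copies (real_one 1) (real_one 0) (show 0 + 1 ≤ 1 by omega) β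
  refine ⟨_, _, real_graft h1 h2 (by omega), fun x => ?_⟩
  simp only [eval_add, eval_mul, eval_C, eval_X, eval_zero, eval_one, eval_pow]
  ring

theorem double_tendsto (c x : ℝ) (hc : 0 ≤ c) :
    Tendsto (fun m : ℕ => (x * (1 + ((⌊c * m⌋₊ : ℝ) + m) * (1 + x / 2) +
      x * ((⌊c * m⌋₊ : ℝ) ^ 2 + (m : ℝ) ^ 2) / 2 + (⌊c * m⌋₊ : ℝ) * m * x ^ 2)) / (m : ℝ) ^ 2)
      atTop (𝓝 (x ^ 2 * ((c ^ 2 + 1) / 2 + c * x))) := by
  have h1 : Tendsto (fun m : ℕ => (⌊c * m⌋₊ : ℝ) / m) atTop (𝓝 c) :=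
    (tendsto_nat_floor_mul_div_atTop hc).comp tendsto_natCast_atTop_atTop
  have h2 : Tendsto (fun m : ℕ => (1 : ℝ) / m) atTop (𝓝 0) := tendsto_one_div_atTop_nhds_zero_nat
  have h3 : Tendsto (fun m : ℕ => x * (1 / (m : ℝ)) * (1 / (m : ℝ)) +
      x * ((⌊c * m⌋₊ : ℝ) / m + 1) * (1 + x / 2) * (1 / (m : ℝ)) +
      (x ^ 2 * (((⌊c * m⌋₊ : ℝ) / m) ^ 2 + 1) / 2 + (⌊c * m⌋₊ : ℝ) / m * x ^ 3)) atTop
      (𝓝 (x * 0 * 0 + x * (c + 1) * (1 + x / 2) * 0 + (x ^ 2 * (c ^ 2 + 1) / 2 + c * x ^ 3))) := by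
    refine Tendsto.add (Tendsto.add ?_ ?_) (Tendsto.add ?_ ?_)
    · exact (h2.const_mul x).mul h2
    · exact (((h1.add_const 1).const_mul x).mul_const _).mul h2
    · exact (((h1.pow 2).add_const 1).const_mul (x ^ 2)).div_const 2
    · exact h1.mul_const _
  have e : x * 0 * 0 + x * (c + 1) * (1 + x / 2) * 0 + (x ^ 2 * (c ^ 2 + 1) / 2 + c * x ^ 3) =
      x ^ 2 * ((c ^ 2 + 1) / 2 + c * x) := by ring
  rw [e] at h3
  refine h3.congr' ?_
  filter_upwards [eventually_gt_atTop 0] with m hm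
  have hm0 : (m : ℝ) ≠ 0 := by positivity
  field_simp
  ring

theorem le_neg_one (x : ℝ) (hx : x ≤ -1) : x ∈ closure treeRoots := by
  set c : ℝ := -x + Real.sqrt (x ^ 2 - 1) with hcdef
  have hs : Real.sqrt (x ^ 2 - 1) ^ 2 = x ^ 2 - 1 := Real.sq_sqrt (by nlinarith)
  have hs0 := Real.sqrt_nonneg (x ^ 2 - 1)
  have hc : 0 < c := by linarith
  have hcx : (c ^ 2 + 1) / 2 + c * x = 0 := by
    rw [hcdef]; nlinarith
  refine mem_closure_of_between x 0 (by linarith) fun a b ha hb hb0 => ?_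
  have ha2 : a ^ 2 * ((c ^ 2 + 1) / 2 + c * a) < 0 := by
    have : (c ^ 2 + 1) / 2 + c * a < 0 := by nlinarith
    exact mul_neg_of_pos_of_neg (by nlinarith) this
  have hb2 : 0 < b ^ 2 * ((c ^ 2 + 1) / 2 + c * b) := by
    have : 0 < (c ^ 2 + 1) / 2 + c * b := by nlinarith
    exact mul_pos (by nlinarith) this
  obtain ⟨m, ⟨hm1, hm2⟩, hm3⟩ := ((((double_tendsto c a hc.le).eventually (gt_mem_nhds ha2)).and
    ((double_tendsto c b hc.le).eventually (lt_mem_nhds hb2))).and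
      (eventually_gt_atTop 0)).exists
  obtain ⟨p, w, hR, hw⟩ := real_double ⌊c * m⌋₊ m
  have hmpos : (0 : ℝ) < (m : ℝ) ^ 2 := by positivity
  refine root_of_sign hR (ha.trans hb) (Or.inl ⟨?_, ?_⟩)
  · rw [hw]
    by_contra hcon
    push Not at hcon
    have := div_nonneg hcon hmpos.le
    linarith
  · rw [hw]
    by_contra hcon
    push Not at hcon
    have := div_nonpos_of_nonpos_of_nonneg hcon hmpos.le
    linarith

/-! ### brooms -/

/-- paths -/
theorem real_path : ∀ L : ℕ, ∃ p w : ℝ[X], Real L p w ∧ ∀ x : ℝ, x ≠ 1 →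
    p.eval x = (1 - x ^ (L + 1)) / (1 - x) ∧
    w.eval x = x / (1 - x) * (L - x * (1 - x ^ L) / (1 - x))
  | 0 => by
    refine ⟨1, 0, real_one 0, fun x hx => ?_⟩
    have : 1 - x ≠ 0 := sub_ne_zero.2 (Ne.symm hx)
    constructor
    · simp [div_self this]
    · simp
  | L + 1 => by
    obtain ⟨p, w, h, hpw⟩ := real_path L
    refine ⟨_, _, real_graft (real_one (L + 1)) h le_rfl, fun x hx => ?_⟩
    obtain ⟨h1, h2⟩ := hpw x hx
    have : 1 - x ≠ 0 := sub_ne_zero.2 (Ne.symm hx)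
    simp only [eval_add, eval_mul, eval_X, eval_zero, eval_one, h1, h2]
    constructor
    · field_simp
      ring
    · push_cast
      field_simp
      ring

/-- brooms -/
theorem real_broom (m L : ℕ) : ∃ p w : ℝ[X], Real (L + 1) p w ∧ ∀ x : ℝ, x ≠ 1 → w.eval x =
    (m * x + m * (m - 1) / 2 * x ^ 2) + x / (1 - x) * (L - x * (1 - x ^ L) / (1 - x)) +
      x * (1 + m * x) * ((1 - x ^ (L + 1)) / (1 - x)) := by
  obtain ⟨p, w, h, hpw⟩ := real_path L
  have h1 := real_copies (real_one (L + 1)) (real_one 0) (show 0 + 1 ≤ L + 1 by omega) m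
  refine ⟨_, _, real_graft h1 h le_rfl, fun x hx => ?_⟩
  obtain ⟨h2, h3⟩ := hpw x hx
  simp only [eval_add, eval_mul, eval_C, eval_X, eval_zero, eval_one, eval_pow, h2, h3]
  ring

theorem broom_tendsto (lam x : ℝ) (hl : 0 < lam) (hx : -1 < x) (hx0 : x < 0) :
    Tendsto (fun m : ℕ => (((m * x + m * (m - 1) / 2 * x ^ 2) + x / (1 - x) *
      ((⌊lam * (m : ℝ) ^ 2⌋₊ : ℝ) - x * (1 - x ^ ⌊lam * (m : ℝ) ^ 2⌋₊) / (1 - x)) +
      x * (1 + m * x) * ((1 - x ^ (⌊lam * (m : ℝ) ^ 2⌋₊ + 1)) / (1 - x))) / (m : ℝ) ^ 2))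
      atTop (𝓝 (x ^ 2 / 2 + lam * (x / (1 - x)))) := by
  have h1 : Tendsto (fun m : ℕ => (⌊lam * (m : ℝ) ^ 2⌋₊ : ℝ) / (m : ℝ) ^ 2) atTop (𝓝 lam) :=
    (tendsto_nat_floor_mul_div_atTop hl.le).comp
      ((tendsto_pow_atTop two_ne_zero).comp tendsto_natCast_atTop_atTop)
  have h2 : Tendsto (fun m : ℕ => (1 : ℝ) / m) atTop (𝓝 0) := tendsto_one_div_atTop_nhds_zero_nat
  have hbd : ∀ k : ℕ, |x ^ k| ≤ 1 := fun k => by
    rw [abs_pow]
    exact pow_le_one₀ (abs_nonneg _) (by rw [abs_le]; constructor <;> linarith)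
  have hbd2 : ∀ f : ℕ → ℕ, ∀ c : ℝ, Tendsto (fun m : ℕ => (1 / (m : ℝ)) * (c * (1 - x ^ f m)))
      atTop (𝓝 0) := by
    intro f c
    refine squeeze_zero_norm (a := fun m : ℕ => (1 / (m : ℝ)) * (|c| * 2)) (fun m => ?_) ?_
    · rw [norm_mul, norm_mul, Real.norm_eq_abs, Real.norm_eq_abs, Real.norm_eq_abs,
        abs_of_nonneg (show (0 : ℝ) ≤ 1 / (m : ℝ) by positivity)]
      have h4 : |1 - x ^ f m| ≤ 2 := by
        have h5 := hbd (f m)
        rw [abs_le] at h5 ⊢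
        constructor <;> linarith
      exact mul_le_mul_of_nonneg_left (mul_le_mul_of_nonneg_left h4 (abs_nonneg _)) (by positivity)
    · simpa using h2.mul_const (|c| * 2)
  have h3 : Tendsto (fun m : ℕ => x * (1 / (m : ℝ)) + (1 - 1 / (m : ℝ)) / 2 * x ^ 2 +
      (x / (1 - x) * ((⌊lam * (m : ℝ) ^ 2⌋₊ : ℝ) / (m : ℝ) ^ 2) -
      (1 / (m : ℝ)) * ((1 / (m : ℝ)) * (x / (1 - x) * x / (1 - x) *
        (1 - x ^ ⌊lam * (m : ℝ) ^ 2⌋₊)))) +
      ((1 / (m : ℝ)) * ((1 / (m : ℝ)) * (x / (1 - x) * (1 - x ^ (⌊lam * (m : ℝ) ^ 2⌋₊ + 1)))) +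
      (1 / (m : ℝ)) * (x ^ 2 / (1 - x) * (1 - x ^ (⌊lam * (m : ℝ) ^ 2⌋₊ + 1))))) atTop
      (𝓝 (x * 0 + (1 - 0) / 2 * x ^ 2 + (x / (1 - x) * lam - 0 * 0) + (0 * 0 + 0))) := by
    refine Tendsto.add (Tendsto.add (Tendsto.add ?_ ?_) (Tendsto.sub ?_ ?_)) (Tendsto.add ?_ ?_)
    · exact h2.const_mul x
    · exact ((h2.const_sub 1).div_const 2).mul_const _
    · exact h1.const_mul _
    · exact h2.mul (hbd2 _ _)
    · exact h2.mul (hbd2 (fun m => ⌊lam * (m : ℝ) ^ 2⌋₊ + 1) _)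
    · exact hbd2 (fun m => ⌊lam * (m : ℝ) ^ 2⌋₊ + 1) _
  have e : x * 0 + (1 - 0) / 2 * x ^ 2 + (x / (1 - x) * lam - 0 * 0) + (0 * 0 + 0) =
      x ^ 2 / 2 + lam * (x / (1 - x)) := by ring
  rw [e] at h3
  refine h3.congr' ?_
  filter_upwards [eventually_gt_atTop 0] with m hm
  have hm0 : (m : ℝ) ≠ 0 := by positivity
  have hx1 : 1 - x ≠ 0 := by linarith
  field_simp

theorem between (x : ℝ) (hx : -1 < x) (hx0 : x < 0) : x ∈ closure treeRoots := by
  rw [Metric.mem_closure_iff]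
  intro ε hε
  set lam : ℝ := (x ^ 2 - x) / 2 with hlam
  have hl : 0 < lam := by nlinarith
  set a := max (x - ε) ((x - 1) / 2) with ha
  set b := min (x + ε) (x / 2) with hb
  have ha1 : a < x := max_lt (by linarith) (by linarith)
  have ha2 : -1 < a := lt_of_lt_of_le (by linarith) (le_max_right _ _)
  have hb1 : x < b := lt_min (by linarith) (by linarith)
  have hb2 : b < 0 := lt_of_le_of_lt (min_le_right _ _) (by linarith)
  have key : ∀ y : ℝ, y < 0 → y ^ 2 / 2 + lam * (y / (1 - y)) =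
      y / (2 * (1 - y)) * ((x - y) * (x + y - 1)) := by
    intro y hy
    have : 1 - y ≠ 0 := by linarith
    rw [hlam]
    field_simp
    ring
  have hneg : ∀ y : ℝ, y < 0 → y / (2 * (1 - y)) < 0 := fun y hy =>
    div_neg_of_neg_of_pos hy (by linarith)
  have ga : 0 < a ^ 2 / 2 + lam * (a / (1 - a)) := by
    rw [key a (by linarith)]
    refine mul_pos_of_neg_of_neg (hneg a (by linarith)) ?_
    exact mul_neg_of_pos_of_neg (by linarith) (by linarith)
  have gb : b ^ 2 / 2 + lam * (b / (1 - b)) < 0 := by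
    rw [key b hb2]
    refine mul_neg_of_neg_of_pos (hneg b hb2) ?_
    exact mul_pos_of_neg_of_neg (by linarith) (by linarith)
  obtain ⟨m, ⟨hm1, hm2⟩, hm3⟩ := ((((broom_tendsto lam a hl ha2 (by linarith)).eventually
    (lt_mem_nhds ga)).and ((broom_tendsto lam b hl (by linarith) hb2).eventually
      (gt_mem_nhds gb))).and (eventually_gt_atTop 0)).exists
  obtain ⟨p, w, hR, hw⟩ := real_broom m ⌊lam * (m : ℝ) ^ 2⌋₊
  have hmpos : (0 : ℝ) < (m : ℝ) ^ 2 := by positivity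
  obtain ⟨r, hr, hr1, hr2⟩ := root_of_sign hR (ha1.trans hb1) (Or.inr ⟨by
    rw [hw a (by linarith)]
    by_contra hcon
    push Not at hcon
    have := div_nonpos_of_nonpos_of_nonneg hcon hmpos.le
    linarith, by
    rw [hw b (by linarith)]
    by_contra hcon
    push Not at hcon
    have := div_nonneg hcon hmpos.le
    linarith⟩)
  refine ⟨r, hr, ?_⟩
  rw [Real.dist_eq, abs_lt]
  have h1 := lt_of_le_of_lt (le_max_left (x - ε) ((x - 1) / 2)) hr1
  have h2 := hr2.trans_le (min_le_left (x + ε) (x / 2))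
  constructor <;> linarith

theorem root_nonpos (x : ℝ) (hx : x ∈ treeRoots) : x ≤ 0 := by
  classical
  obtain ⟨V, _, G, _, hc, hr⟩ := hx
  by_contra hcon
  push Not at hcon
  rw [wiener, eval_mul, eval_C, eval_finsetSum] at hr
  have h1 : 0 < ∑ p ∈ (Finset.univ : Finset V).offDiag, (X ^ G.dist p.1 p.2 : ℝ[X]).eval x := by
    refine Finset.sum_pos (fun p _ => ?_) ?_
    · rw [eval_pow, eval_X]
      exact pow_pos hcon _
    · obtain ⟨a, b, hab⟩ := Fintype.one_lt_card_iff.1 hc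
      exact ⟨(a, b), by simp [Finset.mem_offDiag, hab]⟩
  have : 0 < 1 / 2 * ∑ p ∈ (Finset.univ : Finset V).offDiag,
    (X ^ G.dist p.1 p.2 : ℝ[X]).eval x := by positivity
  linarith

/-- The closure of the set of real Wiener roots of trees is the half-line `(-∞, 0]`. -/
theorem result : closure treeRoots = Set.Iic 0 := by
  apply Set.Subset.antisymm
  · exact closure_minimal (fun x hx => root_nonpos x hx) isClosed_Iic
  · intro x hx
    rw [Set.mem_Iic] at hx
    rcases le_or_gt x (-1) with h | h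
    · exact le_neg_one x h
    · rcases eq_or_lt_of_le hx with h0 | h0
      · rw [← closure_closure, Metric.mem_closure_iff]
        intro ε hε
        refine ⟨-(min ε 1 / 2), between _ ?_ ?_, ?_⟩
        · have := min_le_right ε 1
          linarith
        · have := lt_min hε one_pos
          linarith
        · rw [h0, Real.dist_eq, zero_sub, neg_neg, abs_of_pos (by
            have := lt_min hε one_pos
            linarith)]
          have := min_le_left ε 1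
          have := lt_min hε one_pos
          linarith
      · exact between x h h0

end Pool.Agent.Results.MP_9469ec_co.HalfLine
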