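import Pool.Agent.Y344.KD.Final

/-!
# Levels of the remaining lines after random deletions

Definitions:

* `Simple a B`: no two of the lines `y = a i x + B i` coincide and no three pass through a common
  point (parallel lines are allowed); `level a B k x`: the height of the `(k+1)`-st lowest line
  above `x`;
* `psi a B k`: the number of abscissae near which the `k`-level does not follow a single line, i.e.
  the number of vertices of the `k`-level (`Pool/Agent/Results/MP_a08d0a_co/SmoothedLevel.lean`),
* `sub f R`: for a set `R` of indices, the family `f` restricted to `R`, listed in increasing order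
  of the indices (`Pool/Agent/Y344/KD/Lines.lean`); `sub a Dᶜ`, `sub B Dᶜ` are the slopes and the
  intercepts of the lines that remain if those with index in `D` are deleted.

The sums run over the sets `D` of deleted lines, with the weight
`r ^ |D| (1 - r) ^ (n - |D|)`, the probability that `D` is the set of deleted lines if every line is
deleted with probability `r`, independently of the others.
-/

set_option autoImplicit false

open Finset

namespace Pool.Agent.Results.MP_a08d0a_co.RandomDeletions

open Pool.Agent.Results.MP_a08d0a_co.SmoothedLevel (Simple psi)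

open Pool.Agent.Y344.KD (sub)

/-- Let `n` lines be given, no two equal and no three concurrent, and let every line be deleted with
probability `r ≤ 1/2`, independently of the others. Then
1. the expected number of vertices of the `k`-level of the remaining lines (counted as `0` if at
   most `k` lines remain) is at most `2000 n ((k + 1) / r) ^ (1/6)`,
2. hence it exceeds `t` times this bound with probability at most `1 / t`. -/
theorem result : ∀ (n : ℕ) (a B : Fin n → ℝ), Simple a B → ∀ (k : ℕ) (r : ℝ), 0 < r → r ≤ 1 / 2 →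
    (∀ D : Finset (Fin n), k < #Dᶜ → psi (sub a Dᶜ) (sub B Dᶜ) k ≠ ⊤) ∧
    ∑ D : Finset (Fin n) with k < #Dᶜ,
      r ^ #D * (1 - r) ^ (n - #D) * (psi (sub a Dᶜ) (sub B Dᶜ) k).toNat ≤
        2000 * n * (((k : ℝ) + 1) / r) ^ (1 / 6 : ℝ) ∧
    ∀ t : ℝ, 0 < t → ∑ D : Finset (Fin n) with k < #Dᶜ ∧
        t * (2000 * n * (((k : ℝ) + 1) / r) ^ (1 / 6 : ℝ)) < (psi (sub a Dᶜ) (sub B Dᶜ) k).toNat,
      r ^ #D * (1 - r) ^ (n - #D) ≤ 1 / t := by
  classical
  intro n a B hS k r hr0 hr
  obtain ⟨h1, h2⟩ := Pool.Agent.Y344.KD.random_deletions hS k hr0 hr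
  refine ⟨h1, h2, ?_⟩
  intro t ht
  set E : ℝ := 2000 * n * (((k : ℝ) + 1) / r) ^ (1 / 6 : ℝ) with hE
  have hE0 : 0 ≤ E := by positivity
  have hr1 : 0 ≤ 1 - r := by linarith
  have hw0 : ∀ D : Finset (Fin n), 0 ≤ r ^ #D * (1 - r) ^ (n - #D) := fun D => by positivity
  set S := ∑ D : Finset (Fin n) with k < #Dᶜ ∧ t * E < (psi (sub a Dᶜ) (sub B Dᶜ) k).toNat,
      r ^ #D * (1 - r) ^ (n - #D) with hSdef
  -- Markov
  have h3 : ∑ D : Finset (Fin n) with k < #Dᶜ ∧ t * E < (psi (sub a Dᶜ) (sub B Dᶜ) k).toNat,
      r ^ #D * (1 - r) ^ (n - #D) * (psi (sub a Dᶜ) (sub B Dᶜ) k).toNat ≤ E := by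
    refine le_trans (sum_le_sum_of_subset_of_nonneg ?_ ?_) h2
    · intro D hD
      rw [mem_filter] at hD ⊢
      exact ⟨hD.1, hD.2.1⟩
    · intro D _ _
      exact mul_nonneg (hw0 D) (Nat.cast_nonneg _)
  have h4 : S * (t * E) ≤ E := by
    refine le_trans ?_ h3
    rw [hSdef, sum_mul]
    apply sum_le_sum
    intro D hD
    rw [mem_filter] at hD
    exact mul_le_mul_of_nonneg_left hD.2.2.le (hw0 D)
  rcases eq_or_lt_of_le hE0 with h0 | h0
  · -- the expectation is zero
    have h5 : S = 0 := by
      rw [hSdef]
      apply sum_eq_zero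
      intro D hD
      have hD' := (mem_filter.mp hD).2
      rw [← h0, mul_zero] at hD'
      have h6 : r ^ #D * (1 - r) ^ (n - #D) * (psi (sub a Dᶜ) (sub B Dᶜ) k).toNat ≤ 0 := by
        rw [← h0] at h3
        refine le_trans (single_le_sum (f := fun D : Finset (Fin n) =>
          r ^ #D * (1 - r) ^ (n - #D) * ((psi (sub a Dᶜ) (sub B Dᶜ) k).toNat : ℝ))
          (fun D _ => mul_nonneg (hw0 D) (Nat.cast_nonneg _)) hD) ?_
        simpa [← h0] using h3
      have h7 := hw0 D
      by_contra hne
      have h8 : 0 < r ^ #D * (1 - r) ^ (n - #D) := lt_of_le_of_ne h7 (Ne.symm hne)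
      have := mul_pos h8 hD'.2
      linarith
    rw [h5]
    positivity
  · rw [le_div_iff₀ ht]
    have h5 : S * t * E ≤ 1 * E := by
      rw [one_mul, mul_assoc]
      exact h4
    exact le_of_mul_le_mul_right h5 h0

end Pool.Agent.Results.MP_a08d0a_co.RandomDeletions
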