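import Mathlib

/-!
# A series whose level set `L_ω` is nonempty and countable

For the terms `x_n = g^(n+1)`, `g = (√5 - 1) / 2`, the number `1` is a subsum in exactly countably
many ways, and every `t` with a countable nonempty fibre has an eventually constant expansion, as
only the two constant sequences are the unique expansions of their sums. So `L_ω` is nonempty and
countable.
-/

open Set Filter Topology

namespace Pool.Agent.Results.MP_c42e77_an.CountableLevelCountable

/-- The subsum `f(ε) = ∑ ε_n x_n`. -/
noncomputable def subsum (x : ℕ → ℝ) (ε : ℕ → Bool) : ℝ := ∑' n, if ε n = true then x n else 0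

/-- The cardinality function `F_x(t) = card f⁻¹(t)`. -/
noncomputable def cardFun (x : ℕ → ℝ) (t : ℝ) : Cardinal :=
  Cardinal.mk {ε : ℕ → Bool // subsum x ε = t}

/-- The level set `L_κ(x) = {t : F_x(t) = κ}`. -/
def levelSet (x : ℕ → ℝ) (κ : Cardinal) : Set ℝ := {t | cardFun x t = κ}

/-- the reciprocal of the golden ratio -/
noncomputable def g : ℝ := (Real.sqrt 5 - 1) / 2

/-- the terms of the series -/
noncomputable def x (n : ℕ) : ℝ := g ^ (n + 1)

lemma sq5 : Real.sqrt 5 * Real.sqrt 5 = 5 := Real.mul_self_sqrt (by norm_num)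

lemma sq5_gt : 2 < Real.sqrt 5 := by
  rw [show (2 : ℝ) = Real.sqrt 4 by
    rw [show (4 : ℝ) = 2 ^ 2 by norm_num, Real.sqrt_sq (by norm_num)]]
  exact Real.sqrt_lt_sqrt (by norm_num) (by norm_num)

lemma sq5_lt : Real.sqrt 5 < 3 := by
  rw [show (3 : ℝ) = Real.sqrt 9 by
    rw [show (9 : ℝ) = 3 ^ 2 by norm_num, Real.sqrt_sq (by norm_num)]]
  exact Real.sqrt_lt_sqrt (by norm_num) (by norm_num)

lemma g_pos : 0 < g := by unfold g; linarith [sq5_gt]
lemma g_lt : g < 1 := by unfold g; linarith [sq5_lt]
lemma g_sq : g ^ 2 = 1 - g := by unfold g; nlinarith [sq5]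

lemma x_pos (n : ℕ) : 0 < x n := pow_pos g_pos _

lemma summable_x : Summable x := by
  unfold x
  simp_rw [pow_succ]
  exact (summable_geometric_of_lt_one g_pos.le g_lt).mul_right g

/-- value of a sequence of digits -/
noncomputable def V (ε : ℕ → Bool) : ℝ := subsum x ε

/-- digit -/
noncomputable def dg (b : Bool) : ℝ := if b = true then 1 else 0

lemma term_eq (ε : ℕ → Bool) (n : ℕ) : (if ε n = true then x n else 0) = dg (ε n) * g ^ (n + 1) := by
  unfold dg x
  split_ifs <;> simp

lemma summable_term (ε : ℕ → Bool) : Summable fun n => dg (ε n) * g ^ (n + 1) := by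
  refine Summable.of_nonneg_of_le (fun n => ?_) (fun n => ?_) summable_x
  · unfold dg
    have := g_pos
    split_ifs <;> positivity
  · unfold dg x
    have := g_pos
    split_ifs
    · rw [one_mul]
    · rw [zero_mul]; positivity

lemma V_eq (ε : ℕ → Bool) : V ε = ∑' n, dg (ε n) * g ^ (n + 1) := tsum_congr fun n => term_eq ε n

lemma V_split (k : ℕ) (ε : ℕ → Bool) :
    V ε = ∑ n ∈ Finset.range k, dg (ε n) * g ^ (n + 1) + g ^ k * V (fun n => ε (n + k)) := by
  rw [V_eq, V_eq, ← (summable_term ε).sum_add_tsum_nat_add k, ← tsum_mul_left]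
  congr 1
  refine tsum_congr fun n => ?_
  rw [show n + k + 1 = k + (n + 1) by ring, pow_add]
  ring

/-- digits of `a` before `k`, then the sequence `b` -/
def glue (k : ℕ) (a b : ℕ → Bool) : ℕ → Bool := fun n => if n < k then a n else b (n - k)

lemma glue_lt {k n : ℕ} (a b : ℕ → Bool) (h : n < k) : glue k a b n = a n := by simp [glue, h]

lemma glue_add (k n : ℕ) (a b : ℕ → Bool) : glue k a b (n + k) = b n := by simp [glue]

lemma V_glue (k : ℕ) (a b : ℕ → Bool) :
    V (glue k a b) = ∑ n ∈ Finset.range k, dg (a n) * g ^ (n + 1) + g ^ k * V b := by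
  rw [V_split k]
  congr 1
  · refine Finset.sum_congr rfl fun n hn => ?_
    rw [glue_lt a b (Finset.mem_range.1 hn)]
  · congr 2
    funext n
    exact glue_add k n a b

lemma V_zero : V (fun _ => false) = 0 := by
  rw [V_eq]
  simp [dg]

lemma V_nonneg (ε : ℕ → Bool) : 0 ≤ V ε := by
  rw [V_eq]
  refine tsum_nonneg fun n => ?_
  unfold dg
  have := g_pos
  split_ifs <;> positivity

lemma eq_zero_of_V {ε : ℕ → Bool} (h : V ε = 0) : ε = fun _ => false := by
  funext n
  by_contra hn
  have hn' : ε n = true := by simpa using hn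
  have h1 : dg (ε n) * g ^ (n + 1) ≤ V ε := by
    rw [V_eq]
    refine (summable_term ε).le_tsum n fun m _ => ?_
    unfold dg
    have := g_pos
    split_ifs <;> positivity
  rw [h, hn'] at h1
  have h2 : 0 < g ^ (n + 1) := pow_pos g_pos _
  unfold dg at h1
  simp at h1
  linarith

lemma V_one : V (fun _ => true) = 1 + g := by
  rw [V_eq]
  simp only [dg, if_true, one_mul]
  simp_rw [pow_succ]
  rw [tsum_mul_right, tsum_geometric_of_lt_one g_pos.le g_lt]
  have h1 : (1 : ℝ) - g ≠ 0 := by linarith [g_lt]
  have h2 := g_sq
  field_simp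
  nlinarith

lemma V_compl (ε : ℕ → Bool) : V (fun n => !(ε n)) = 1 + g - V ε := by
  rw [← V_one, V_eq, V_eq, V_eq, ← Summable.tsum_sub (summable_term _) (summable_term _)]
  refine tsum_congr fun n => ?_
  cases ε n <;> simp [dg]

lemma V_le (ε : ℕ → Bool) : V ε ≤ 1 + g := by
  have := V_nonneg (fun n => !(ε n))
  rw [V_compl] at this
  linarith

lemma eq_one_of_V {ε : ℕ → Bool} (h : V ε = 1 + g) : ε = fun _ => true := by
  have h1 : V (fun n => !(ε n)) = 0 := by rw [V_compl, h]; ring
  have h2 := eq_zero_of_V h1
  funext n
  have := congrFun h2 n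
  simpa using this

/-- the alternating sequence `1, 0, 1, 0, …` -/
def alt : ℕ → Bool := fun n => decide (n % 2 = 0)

lemma alt_shift : (fun n => alt (n + 2)) = alt := by
  funext n
  simp [alt]

lemma V_alt : V alt = 1 := by
  have h := V_split 2 alt
  rw [alt_shift, Finset.sum_range_succ, Finset.sum_range_one] at h
  have a0 : alt 0 = true := rfl
  have a1 : alt 1 = false := rfl
  simp only [a0, a1, dg] at h
  norm_num at h
  have h1 := g_sq
  have h2 := g_pos
  have h3 : g * V alt = g * 1 := by
    have : V alt * (1 - g ^ 2) = g := by linarith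
    rw [h1] at this
    linarith
  exact mul_left_cancel₀ h2.ne' h3

/-- `1, 1, 0, 0, 0, …` -/
def one10 : ℕ → Bool := fun n => decide (n < 2)

lemma V_one10 : V one10 = 1 := by
  have h := V_split 2 one10
  have h1 : (fun n => one10 (n + 2)) = fun _ => false := by funext n; simp [one10]
  rw [h1, V_zero, Finset.sum_range_succ, Finset.sum_range_one] at h
  simp only [one10, dg] at h
  norm_num at h
  rw [h]
  linarith [g_sq]

/-- other digits in place of a tail -/
lemma other_of_tail {a b : ℕ → Bool} (k : ℕ) (h : V b = V (fun n => a (n + k)))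
    (hne : b ≠ fun n => a (n + k)) : V (glue k a b) = V a ∧ glue k a b ≠ a := by
  constructor
  · rw [V_glue, V_split k a, h]
  · intro he
    apply hne
    funext n
    rw [← glue_add k n a b, he]

/-- Sequences starting with `1, 0` or `0, 1` are not unique expansions. -/
lemma not_unique {a : ℕ → Bool} (h : ∃ i, a i ≠ a (i + 1)) : ∃ b, V b = V a ∧ b ≠ a := by
  have hg3 : g = g ^ 2 + g ^ 3 := by
    have := g_sq
    rw [pow_succ g 2, this]
    nlinarith
  by_cases h1 : ∃ i, a i = true ∧ a (i + 1) = false ∧ a (i + 2) = false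
  · obtain ⟨i, e0, e1, e2⟩ := h1
    obtain ⟨w, hw⟩ : ∃ w : ℕ → Bool, w = fun n => a (n + i) := ⟨_, rfl⟩
    have w0 : w 0 = true := by rw [hw]; simpa using e0
    have w1 : w 1 = false := by rw [hw]; simpa [add_comm] using e1
    have w2 : w 2 = false := by rw [hw]; simpa [add_comm] using e2
    obtain ⟨b, hb⟩ : ∃ b : ℕ → Bool, b = glue 3 (fun n => decide (0 < n)) (fun n => w (n + 3)) :=
      ⟨_, rfl⟩
    have hV : V b = V w := by
      rw [hb, V_glue, V_split 3 w]
      congr 1
      simp only [Finset.sum_range_succ, Finset.sum_range_zero, w0, w1, w2, dg]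
      norm_num
      linarith
    have hne : b ≠ w := by
      intro he
      have := congrFun he 0
      rw [w0, hb, glue_lt _ _ (by norm_num)] at this
      simp at this
    obtain ⟨h2, h3⟩ := other_of_tail (a := a) (b := b) i (by rw [hV, hw]) (by rw [← hw]; exact hne)
    exact ⟨_, h2, h3⟩
  by_cases h2 : ∃ i, a i = false ∧ a (i + 1) = true ∧ a (i + 2) = true
  · obtain ⟨i, e0, e1, e2⟩ := h2
    obtain ⟨w, hw⟩ : ∃ w : ℕ → Bool, w = fun n => a (n + i) := ⟨_, rfl⟩
    have w0 : w 0 = false := by rw [hw]; simpa using e0
    have w1 : w 1 = true := by rw [hw]; simpa [add_comm] using e1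
    have w2 : w 2 = true := by rw [hw]; simpa [add_comm] using e2
    obtain ⟨b, hb⟩ : ∃ b : ℕ → Bool, b = glue 3 (fun n => decide (n = 0)) (fun n => w (n + 3)) :=
      ⟨_, rfl⟩
    have hV : V b = V w := by
      rw [hb, V_glue, V_split 3 w]
      congr 1
      simp only [Finset.sum_range_succ, Finset.sum_range_zero, w0, w1, w2, dg]
      norm_num
      linarith
    have hne : b ≠ w := by
      intro he
      have := congrFun he 0
      rw [w0, hb, glue_lt _ _ (by norm_num)] at this
      simp at this
    obtain ⟨h2, h3⟩ := other_of_tail (a := a) (b := b) i (by rw [hV, hw]) (by rw [← hw]; exact hne)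
    exact ⟨_, h2, h3⟩
  -- alternating from some point on
  have hstep : ∀ i, a i ≠ a (i + 1) → a (i + 1) ≠ a (i + 2) := by
    intro i hi he
    cases e0 : a i
    · have e1 : a (i + 1) = true := by
        cases e : a (i + 1)
        · rw [e0, e] at hi; exact absurd rfl hi
        · rfl
      exact h2 ⟨i, e0, e1, by rw [← he]; exact e1⟩
    · have e1 : a (i + 1) = false := by
        cases e : a (i + 1)
        · rfl
        · rw [e0, e] at hi; exact absurd rfl hi
      exact h1 ⟨i, e0, e1, by rw [← he]; exact e1⟩
  have hall : ∀ i, a i ≠ a (i + 1) → ∀ j, a (i + j) ≠ a (i + j + 1) := by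
    intro i hi j
    induction j with
    | zero => exact hi
    | succ j ih => exact hstep (i + j) ih
  obtain ⟨i, hi, hit⟩ : ∃ i, a i ≠ a (i + 1) ∧ a i = true := by
    obtain ⟨i, hi⟩ := h
    cases e0 : a i
    · refine ⟨i + 1, hstep i hi, ?_⟩
      cases e : a (i + 1)
      · rw [e0, e] at hi; exact absurd rfl hi
      · rfl
    · exact ⟨i, hi, e0⟩
  have halt : ∀ j, a (j + i) = alt j := by
    intro j
    induction j with
    | zero => rw [zero_add, hit]; rfl
    | succ j ih =>
      have h3 := hall i hi j
      rw [add_comm i j] at h3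
      rw [show j + 1 + i = j + i + 1 by ring]
      rw [ih] at h3
      have h4 : alt (j + 1) = !(alt j) := by
        unfold alt
        rcases Nat.mod_two_eq_zero_or_one j with h | h
        · have : (j + 1) % 2 = 1 := by omega
          simp [h, this]
        · have : (j + 1) % 2 = 0 := by omega
          simp [h, this]
      rw [h4]
      cases e1 : alt j <;> cases e2 : a (j + i + 1) <;> simp_all
  obtain ⟨h3, h4⟩ := other_of_tail (a := a) (b := one10) i
    (by rw [V_one10, show (fun n => a (n + i)) = alt from funext halt, V_alt])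
    (by
      rw [show (fun n => a (n + i)) = alt from funext halt]
      intro he
      have := congrFun he 1
      simp [one10, alt] at this)
  exact ⟨_, h3, h4⟩

/-- the eventually constant sequences -/
def EC : Set (ℕ → Bool) := {a | ∃ k, ∀ n, a (n + k) = a k}

lemma EC_countable : EC.Countable := by
  have h : EC ⊆ range (fun p : List Bool × Bool => fun n => (p.1[n]?).getD p.2) := by
    rintro a ⟨k, hk⟩
    refine ⟨(List.ofFn (fun i : Fin k => a i), a k), ?_⟩
    funext n
    simp only
    by_cases hn : n < k
    · rw [List.getElem?_ofFn]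
      simp [hn]
    · rw [List.getElem?_eq_none (by simpa using hn)]
      simp only [Option.getD_none]
      have := hk (n - k)
      rw [Nat.sub_add_cancel (not_lt.1 hn)] at this
      exact this.symm
  exact (Set.countable_range _).mono h

/-- every number with a countable nonempty fibre has an eventually constant expansion -/
lemma exists_EC {t : ℝ} (hc : {ε : ℕ → Bool | V ε = t}.Countable)
    (hne : {ε : ℕ → Bool | V ε = t}.Nonempty) : ∃ a ∈ EC, V a = t := by
  have hcont : Continuous V := by
    have : V = fun ε : ℕ → Bool => ∑' n, dg (ε n) * g ^ (n + 1) := funext V_eq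
    rw [this]
    refine continuous_tsum (u := x) (fun n => ?_) summable_x (fun n ε => ?_)
    · exact ((continuous_of_discreteTopology (f := dg)).comp (continuous_apply n)).mul
        continuous_const
    · rw [Real.norm_eq_abs, abs_mul, abs_of_pos (pow_pos g_pos (n + 1))]
      unfold dg x
      have := g_pos
      split_ifs
      · simp
      · simp; positivity
  obtain ⟨K, hK⟩ : ∃ K : Set (ℕ → Bool), K = {ε : ℕ → Bool | V ε = t} := ⟨_, rfl⟩
  rw [← hK] at hc hne
  have hmemK : ∀ ε, ε ∈ K ↔ V ε = t := by intro ε; rw [hK]; rfl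
  have hKc : IsClosed K := by
    rw [hK]; exact isClosed_eq hcont continuous_const
  have : CompactSpace K := isCompact_iff_compactSpace.1 hKc.isCompact
  have : Countable K := hc.to_subtype
  have : Nonempty K := hne.to_subtype
  obtain ⟨a, ha⟩ := nonempty_interior_of_iUnion_of_closed (X := K) (f := fun a : K => {a})
    (fun a => isClosed_singleton) (by ext z; simp)
  have hopen : IsOpen ({a} : Set K) := by
    have h1 : interior ({a} : Set K) = {a} := by
      apply subset_antisymm interior_subset
      obtain ⟨z, hz⟩ := ha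
      have h2 : z = a := by simpa using interior_subset hz
      rw [← h2]
      exact singleton_subset_iff.2 (h2 ▸ hz)
    rw [← h1]
    exact isOpen_interior
  have haV : V a.1 = t := (hmemK _).1 a.2
  by_contra hcon
  push Not at hcon
  have hnEC : a.1 ∉ EC := fun h => hcon a.1 h haV
  -- nearby points of the fibre
  have hnear : ∀ k, ∃ b : K, b ≠ a ∧ ∀ n < k, b.1 n = a.1 n := by
    intro k
    have h1 : ∃ i, a.1 (i + k) ≠ a.1 (i + 1 + k) := by
      by_contra h2
      push Not at h2
      apply hnEC
      refine ⟨k, fun n => ?_⟩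
      induction n with
      | zero => simp
      | succ n ih => rw [← h2 n, ih]
    obtain ⟨b, hb1, hb2⟩ := not_unique (a := fun n => a.1 (n + k)) h1
    obtain ⟨h3, h4⟩ := other_of_tail (a := a.1) (b := b) k hb1 hb2
    refine ⟨⟨glue k a.1 b, (hmemK _).2 (h3.trans haV)⟩, fun he => h4 (congrArg Subtype.val he),
      fun n hn => glue_lt _ _ hn⟩
  choose b hb1 hb2 using hnear
  have hlim : Tendsto b atTop (𝓝 a) := by
    rw [tendsto_subtype_rng, tendsto_pi_nhds]
    intro n
    refine tendsto_const_nhds.congr' ?_
    filter_upwards [eventually_gt_atTop n] with k hk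
    exact (hb2 k n hk).symm
  have hev := hlim.eventually (hopen.mem_nhds (mem_singleton a))
  obtain ⟨k, hk⟩ := hev.exists
  exact hb1 k hk

/-- every expansion of `1` is eventually constant or alternating -/
lemma expansion_one (k : ℕ) : ∀ a : ℕ → Bool, V a = 1 → a ∈ EC ∨ ∀ n < 2 * k, a n = alt n := by
  induction k with
  | zero => intro a _; right; intro n hn; omega
  | succ k ih =>
    intro a ha
    have h1 := V_split 1 a
    rw [Finset.sum_range_one, ha] at h1
    cases e0 : a 0
    · -- the rest is all ones
      left
      rw [e0] at h1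
      simp only [dg] at h1
      norm_num at h1
      have h2 : V (fun n => a (n + 1)) = 1 + g := by
        have h3 := g_sq
        have h4 : g * V (fun n => a (n + 1)) = g * (1 + g) := by rw [← h1]; nlinarith
        exact mul_left_cancel₀ g_pos.ne' h4
      have h3 := eq_one_of_V h2
      refine ⟨1, fun n => ?_⟩
      have h4 := congrFun h3 n
      have h5 := congrFun h3 0
      beta_reduce at h4 h5
      rw [h4]
      simpa using h5.symm
    · have h2 := V_split 2 a
      rw [Finset.sum_range_succ, Finset.sum_range_one, ha, e0] at h2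
      cases e1 : a 1
      · rw [e1] at h2
        simp only [dg] at h2
        norm_num at h2
        have h3 : V (fun n => a (n + 2)) = 1 := by
          have h4 := g_sq
          have h5 : g ^ 2 * V (fun n => a (n + 2)) = g ^ 2 * 1 := by linarith
          exact mul_left_cancel₀ (pow_pos g_pos 2).ne' h5
        rcases ih _ h3 with ⟨j, hj⟩ | h4
        · left
          refine ⟨j + 2, fun n => ?_⟩
          have := hj n
          beta_reduce at this
          rw [← add_assoc]
          exact this
        · right
          intro n hn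
          match n with
          | 0 => rw [e0]; rfl
          | 1 => rw [e1]; rfl
          | m + 2 =>
            have h5 := h4 m (by omega)
            beta_reduce at h5
            rw [h5]
            simp [alt]
      · left
        rw [e1] at h2
        simp only [dg] at h2
        norm_num at h2
        have h3 : V (fun n => a (n + 2)) = 0 := by
          have h4 := g_sq
          have h5 : g ^ 2 * V (fun n => a (n + 2)) = g ^ 2 * 0 := by linarith
          exact mul_left_cancel₀ (pow_pos g_pos 2).ne' h5
        have h4 := eq_zero_of_V h3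
        refine ⟨2, fun n => ?_⟩
        have h5 := congrFun h4 n
        have h6 := congrFun h4 0
        beta_reduce at h5 h6
        rw [h5]
        simpa using h6.symm

/-- the expansions `(10)^k 11 000…` of `1` -/
lemma V_family (k : ℕ) : V (glue (2 * k) alt one10) = 1 := by
  rw [V_glue, V_one10, ← V_alt]
  have h := V_split (2 * k) alt
  have h1 : (fun n => alt (n + 2 * k)) = alt := by
    funext n
    unfold alt
    congr 1
    rw [Nat.add_mul_mod_self_left]
  rw [h1] at h
  exact h.symm

lemma family_inj : Function.Injective fun k : ℕ => glue (2 * k) alt one10 := by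
  intro k l h
  simp only at h
  by_contra hne
  wlog hlt : k < l generalizing k l
  · exact this h.symm (Ne.symm hne) (by omega)
  have h1 := congrFun h (2 * k + 1)
  rw [glue_lt alt one10 (show 2 * k + 1 < 2 * l by omega), add_comm, glue_add] at h1
  have h2 : (1 + 2 * k) % 2 = 1 := by omega
  simp [one10, alt, h2] at h1

lemma cardFun_eq (t : ℝ) : cardFun x t = Cardinal.aleph0 ↔
    {ε : ℕ → Bool | V ε = t}.Countable ∧ {ε : ℕ → Bool | V ε = t}.Infinite := by
  have h : cardFun x t = Cardinal.mk {ε : ℕ → Bool | V ε = t} := rfl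
  rw [h, ← Set.countable_coe_iff, ← Set.infinite_coe_iff, ← Cardinal.mk_le_aleph0_iff,
    Cardinal.infinite_iff]
  exact ⟨fun h => ⟨h.le, h.ge⟩, fun h => le_antisymm h.1 h.2⟩

/-- **There is a convergent series of positive reals whose level set `L_ω` is nonempty but
countable, so that it contains no Cantor set.** -/
theorem result : ∃ x : ℕ → ℝ, (∀ n, 0 < x n) ∧ Summable x ∧
    (levelSet x Cardinal.aleph0).Nonempty ∧ (levelSet x Cardinal.aleph0).Countable ∧
    ¬ ∃ C ⊆ levelSet x Cardinal.aleph0, Nonempty (C ≃ₜ (ℕ → Bool)) := by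
  have hcount : (levelSet x Cardinal.aleph0).Countable := by
    have h1 : levelSet x Cardinal.aleph0 ⊆ V '' EC := by
      intro t ht
      obtain ⟨h2, h3⟩ := (cardFun_eq t).1 ht
      obtain ⟨a, ha, hat⟩ := exists_EC h2 h3.nonempty
      exact ⟨a, ha, hat⟩
    exact (EC_countable.image V).mono h1
  refine ⟨x, x_pos, summable_x, ⟨1, ?_⟩, hcount, ?_⟩
  · refine (cardFun_eq 1).2 ⟨?_, ?_⟩
    · have h1 : {ε : ℕ → Bool | V ε = 1} ⊆ EC ∪ {alt} := by
        intro a ha
        by_cases hE : a ∈ EC
        · exact Or.inl hE
        · right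
          funext n
          rcases expansion_one (n + 1) a ha with h | h
          · exact absurd h hE
          · exact h n (by omega)
      exact (EC_countable.union (Set.countable_singleton alt)).mono h1
    · exact Set.infinite_of_injective_forall_mem family_inj V_family
  · rintro ⟨C, hC, ⟨e⟩⟩
    have h1 : C.Countable := hcount.mono hC
    have : Countable C := h1.to_subtype
    have h2 : Countable (ℕ → Bool) := e.toEquiv.countable_iff.1 inferInstance
    have h3 := Cardinal.mk_le_aleph0_iff.2 h2
    have h4 : Cardinal.mk (ℕ → Bool) = Cardinal.continuum := by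
      rw [← Cardinal.two_power_aleph0]
      simp only [Cardinal.mk_pi, Cardinal.mk_fintype, Fintype.card_bool, Cardinal.prod_const,
        Cardinal.mk_nat, Cardinal.lift_id, Nat.cast_ofNat]
    rw [h4] at h3
    exact absurd h3 (not_le.2 Cardinal.aleph0_lt_continuum)

end Pool.Agent.Results.MP_c42e77_an.CountableLevelCountable
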