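import Mathlib
import Pool.Agent.Helper189.FreeRep

set_option autoImplicit false
set_option linter.all false

namespace Pool.Agent.Results.MP_c4ae4c_al.OnlyTwoWords

open FreeGroup

section count
variable {β : Type} [DecidableEq β]

/-- Number of letters `z` or `z⁻¹` in the reduced word. -/
def cnt (z : β) (g : FreeGroup β) : ℕ := g.toWord.countP (fun l => l.1 = z)

/-- All letters of the reduced word lie in `S`. -/
def Supp (S : Set β) (g : FreeGroup β) : Prop := ∀ l ∈ g.toWord, l.1 ∈ S

theorem supp_one (S : Set β) : Supp S 1 := by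
  intro l hl
  rw [toWord_one] at hl
  simp at hl

theorem supp_mul {S : Set β} {g h : FreeGroup β} (hg : Supp S g) (hh : Supp S h) :
    Supp S (g * h) := by
  intro l hl
  have h1 := (toWord_mul_sublist g h).subset hl
  rcases List.mem_append.1 h1 with h2 | h2
  · exact hg l h2
  · exact hh l h2

theorem supp_inv {S : Set β} {g : FreeGroup β} (hg : Supp S g) : Supp S g⁻¹ := by
  intro l hl
  rw [toWord_inv] at hl
  simp only [invRev, List.mem_reverse, List.mem_map] at hl
  obtain ⟨m, hm, rfl⟩ := hl
  exact hg m hm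

theorem supp_pow {S : Set β} {g : FreeGroup β} (hg : Supp S g) (n : ℕ) : Supp S (g ^ n) := by
  induction n with
  | zero => rw [pow_zero]; exact supp_one S
  | succ n ih => rw [pow_succ]; exact supp_mul ih hg

theorem supp_zpow {S : Set β} {g : FreeGroup β} (hg : Supp S g) (n : ℤ) : Supp S (g ^ n) := by
  rcases n with n | n
  · rw [Int.ofNat_eq_natCast, zpow_natCast]; exact supp_pow hg n
  · rw [zpow_negSucc]; exact supp_inv (supp_pow hg _)

theorem cnt_inv (z : β) (g : FreeGroup β) : cnt z g⁻¹ = cnt z g := by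
  unfold cnt
  rw [toWord_inv, invRev, List.countP_reverse, List.countP_map]
  rfl

theorem toWord_mul_of {g h : FreeGroup β}
    (H : ∀ x ∈ g.toWord.getLast?, ∀ y ∈ h.toWord.head?, x.1 ≠ y.1) :
    (g * h).toWord = g.toWord ++ h.toWord := by
  rw [toWord_mul]
  apply FreeGroup.IsReduced.reduce_eq
  unfold FreeGroup.IsReduced
  rw [List.isChain_append]
  refine ⟨isReduced_toWord, isReduced_toWord, ?_⟩
  intro x hx y hy h1
  exact absurd h1 (H x hx y hy)

/-- Reduced lists of syllables. -/
def RedS (L : List (Bool × ℤ)) : Prop :=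
  (∀ s ∈ L, s.2 ≠ 0) ∧ L.IsChain (fun s t => s.1 ≠ t.1)

/-- Value of a list of syllables. -/
def evS (g : Bool → FreeGroup β) (L : List (Bool × ℤ)) : FreeGroup β :=
  (L.map fun s => g s.1 ^ s.2).prod

theorem toWord_evS (g : Bool → FreeGroup β) (S : Bool → Set β) (hd : Disjoint (S false) (S true))
    (h1 : ∀ b, g b ≠ 1) (hS : ∀ b, Supp (S b) (g b)) (L : List (Bool × ℤ)) (hL : RedS L) :
    (evS g L).toWord = (L.map fun s => (g s.1 ^ s.2).toWord).flatten := by
  induction L with
  | nil => simp [evS]
  | cons s L ih =>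
    have hL' : RedS L := ⟨fun t ht => hL.1 t (List.mem_cons_of_mem _ ht), hL.2.tail⟩
    have e : evS g (s :: L) = g s.1 ^ s.2 * evS g L := by simp [evS]
    rw [e, toWord_mul_of, ih hL']
    · simp
    · intro x hx y hy
      have hxS : x.1 ∈ S s.1 := supp_zpow (hS s.1) s.2 x (List.mem_of_getLast? hx)
      rw [ih hL'] at hy
      cases L with
      | nil => simp at hy
      | cons t L =>
        have hne : (g t.1 ^ t.2).toWord ≠ [] := by
          rw [Ne, toWord_eq_nil_iff]
          intro h
          have h2 : t.2 ≠ 0 := hL'.1 t (by simp)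
          exact h1 t.1 ((IsMulTorsionFree.zpow_eq_one_iff_left h2).1 h)
        rw [List.map_cons, List.flatten_cons] at hy
        obtain ⟨c, w, hw⟩ := List.exists_cons_of_ne_nil hne
        rw [hw] at hy
        simp only [List.cons_append, List.head?_cons, Option.mem_def, Option.some.injEq] at hy
        have hyS : y.1 ∈ S t.1 := by
          apply supp_zpow (hS t.1) t.2 y
          rw [hw, ← hy]; simp
        have hst : s.1 ≠ t.1 := by
          have := hL.2
          rw [List.isChain_cons_cons] at this
          exact this.1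
        intro hxy
        rw [hxy] at hxS
        rcases s with ⟨_ | _, sn⟩ <;> rcases t with ⟨_ | _, tn⟩ <;> simp at hst
        · exact Set.disjoint_left.1 hd hxS hyS
        · exact Set.disjoint_left.1 hd hyS hxS

theorem cnt_evS (z : β) (g : Bool → FreeGroup β) (S : Bool → Set β)
    (hd : Disjoint (S false) (S true)) (h1 : ∀ b, g b ≠ 1) (hS : ∀ b, Supp (S b) (g b))
    (L : List (Bool × ℤ)) (hL : RedS L) :
    cnt z (evS g L) = (L.map fun s => cnt z (g s.1 ^ s.2)).sum := by
  unfold cnt
  rw [toWord_evS g S hd h1 hS L hL, List.countP_flatten, List.map_map]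
  rfl

/-- Power formula for the number of letters. -/
theorem cnt_pow (z : β) (g : FreeGroup β) : ∃ c r : ℕ, ∀ n : ℕ, cnt z (g ^ (n + 1)) =
    2 * c + (n + 1) * r := by
  refine ⟨(reduceCyclically.conjugator g.toWord).countP (fun l => l.1 = z),
    (reduceCyclically g.toWord).countP (fun l => l.1 = z), fun n => ?_⟩
  unfold cnt
  rw [toWord_pow, reduceCyclically.reduce_flatten_replicate_succ isReduced_toWord,
    List.countP_append, List.countP_append, List.countP_flatten, invRev, List.countP_reverse,
    List.countP_map]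
  have : List.countP ((fun l : β × Bool => decide (l.1 = z)) ∘ fun g => (g.1, !g.2))
      (reduceCyclically.conjugator g.toWord) =
      List.countP (fun l : β × Bool => decide (l.1 = z)) (reduceCyclically.conjugator g.toWord) := rfl
  rw [this]
  simp only [List.map_replicate, List.sum_replicate, smul_eq_mul]
  ring

/-- The exponent sum of a letter. -/
def es (z : β) : FreeGroup β →* Multiplicative ℤ :=
  FreeGroup.lift fun x => Multiplicative.ofAdd (if x = z then 1 else 0)

theorem es_le_aux (z : β) (L : List (β × Bool)) :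
    |Multiplicative.toAdd (es z (FreeGroup.mk L))| ≤ (L.countP (fun l => l.1 = z) : ℤ) := by
  induction L with
  | nil => simp [← FreeGroup.one_eq_mk]
  | cons l L ih =>
    have e : FreeGroup.mk (l :: L) = FreeGroup.mk [l] * FreeGroup.mk L := by
      rw [FreeGroup.mul_mk]; rfl
    rw [e, MonoidHom.map_mul, toAdd_mul]
    have h1 : |Multiplicative.toAdd (es z (FreeGroup.mk [l]))| ≤ (if l.1 = z then 1 else 0 : ℤ) := by
      obtain ⟨c, b⟩ := l
      cases b <;> by_cases hc : c = z <;> simp [es, hc]
    refine (abs_add_le _ _).trans ?_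
    rw [List.countP_cons]
    push_cast
    by_cases hl : l.1 = z
    · simp only [hl, if_true, decide_true] at h1 ⊢
      push_cast
      linarith
    · simp only [hl, if_false, decide_false] at h1 ⊢
      push_cast
      simp at h1 ⊢
      rw [h1]
      simpa using ih

theorem es_le (z : β) (g : FreeGroup β) : |Multiplicative.toAdd (es z g)| ≤ (cnt z g : ℤ) := by
  have := es_le_aux z g.toWord
  rwa [mk_toWord] at this


theorem es_ge_zpow (z : β) {U : FreeGroup β} (h : es z U = Multiplicative.ofAdd 1) (q : ℤ) :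
    q.natAbs ≤ cnt z (U ^ q) := by
  have h1 := es_le z (U ^ q)
  rw [map_zpow, h, ← ofAdd_zsmul, toAdd_ofAdd, smul_eq_mul, mul_one, Int.abs_eq_natAbs] at h1
  exact_mod_cast h1

theorem cnt_zpow_natAbs (z : β) (U : FreeGroup β) (q : ℤ) : cnt z (U ^ q) = cnt z (U ^ q.natAbs) := by
  rcases Int.natAbs_eq q with h | h
  · conv_lhs => rw [h, zpow_natCast]
  · conv_lhs => rw [h, zpow_neg, zpow_natCast, cnt_inv]

theorem cnt_one_aux (z : β) {U : FreeGroup β} (h : es z U = Multiplicative.ofAdd 1) {q : ℤ}
    (hq : q ≠ 0) (hc : cnt z (U ^ q) = q.natAbs) : cnt z U = 1 := by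
  obtain ⟨c, r, hcr⟩ := cnt_pow z U
  rw [cnt_zpow_natAbs] at hc
  obtain ⟨n, hn⟩ : ∃ n, q.natAbs = n + 1 := ⟨q.natAbs - 1, by omega⟩
  rw [hn, hcr n] at hc
  have h1 := es_ge_zpow z h ((2 * c + 1 : ℕ) : ℤ)
  rw [zpow_natCast, hcr (2 * c), Int.natAbs_natCast] at h1
  have hr : 1 ≤ r := by
    by_contra hr
    have : r = 0 := by omega
    subst this
    omega
  have h2 : (n + 1) * r ≤ n + 1 := by omega
  have h3 : r = 1 := by
    by_contra hr1
    have h4 : 2 ≤ r := by omega
    have : (n + 1) * 2 ≤ (n + 1) * r := Nat.mul_le_mul_left _ h4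
    omega
  subst h3
  have h5 := hcr 0
  rw [zero_add, pow_one] at h5
  rw [h5]
  omega

theorem cnt_one (z : β) {U : FreeGroup β} (h : es z U = Multiplicative.ofAdd 1) (l : List ℤ)
    (hl : ∀ q ∈ l, q ≠ 0) (hne : l ≠ []) (hs : (l.map fun q => cnt z (U ^ q)).sum =
      (l.map Int.natAbs).sum) : cnt z U = 1 := by
  have key : ∀ l : List ℤ, (∀ q ∈ l, q ≠ 0) → (l.map Int.natAbs).sum ≤
      (l.map fun q => cnt z (U ^ q)).sum := by
    intro l _
    apply List.sum_le_sum
    intro q _
    exact es_ge_zpow z h q
  cases l with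
  | nil => exact absurd rfl hne
  | cons q l =>
    have h1 := key l (fun p hp => hl p (List.mem_cons_of_mem _ hp))
    have h2 := es_ge_zpow z h q
    have hs' : cnt z (U ^ q) + (l.map fun q => cnt z (U ^ q)).sum =
        q.natAbs + (l.map Int.natAbs).sum := by
      rw [List.map_cons, List.map_cons, List.sum_cons, List.sum_cons] at hs
      exact hs
    refine cnt_one_aux z h (hl q (by simp)) ?_
    generalize (l.map fun q => cnt z (U ^ q)).sum = A at *
    generalize (l.map Int.natAbs).sum = C at *
    generalize cnt z (U ^ q) = D at *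
    omega

/-- The exponents of the syllables of one kind. -/
def ls (b : Bool) (L : List (Bool × ℤ)) : List ℤ := (L.filter fun s => s.1 = b).map Prod.snd

theorem sum_ls (b : Bool) (f : Bool → ℤ → ℕ) (hf : ∀ c n, c ≠ b → f c n = 0)
    (L : List (Bool × ℤ)) : (L.map fun s => f s.1 s.2).sum = ((ls b L).map (f b)).sum := by
  induction L with
  | nil => rfl
  | cons s L ih =>
    rw [List.map_cons, List.sum_cons, ih]
    unfold ls
    by_cases h : s.1 = b
    · rw [List.filter_cons_of_pos (by simpa using h), List.map_cons, List.map_cons, List.sum_cons, h]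
    · rw [List.filter_cons_of_neg (by simpa using h), hf _ _ h, zero_add]

theorem cnt_eq_zero {z : β} {S : Set β} (hz : z ∉ S) {g : FreeGroup β} (hg : Supp S g) :
    cnt z g = 0 := by
  unfold cnt
  rw [List.countP_eq_zero]
  intro l hl h
  apply hz
  have h1 : l.1 = z := by simpa using h
  rw [← h1]
  exact hg l hl

theorem supp_of (z : β) : Supp {z} (FreeGroup.of z) := by
  intro l hl
  rw [toWord_of, List.mem_singleton] at hl
  rw [hl]; rfl

theorem cnt_of_pow (z : β) (n : ℕ) : cnt z ((FreeGroup.of z) ^ n) = n := by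
  unfold cnt
  rw [toWord_of_pow, List.countP_replicate]
  simp

theorem cnt_of_zpow (z : β) (q : ℤ) : cnt z ((FreeGroup.of z) ^ q) = q.natAbs := by
  rw [cnt_zpow_natAbs, cnt_of_pow]

end count

/-- Substitution. -/
def sb {G : Type} [Group G] (x y : G) : FreeGroup Bool →* G := FreeGroup.lift fun c => cond c y x

theorem sb_false {G : Type} [Group G] (x y : G) : sb x y (of false) = x := by simp [sb]
theorem sb_true {G : Type} [Group G] (x y : G) : sb x y (of true) = y := by simp [sb]

theorem supp_sb {β : Type} [DecidableEq β] (S : Set β) {x y : FreeGroup β} (hx : Supp S x)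
    (hy : Supp S y) (w : FreeGroup Bool) : Supp S (sb x y w) := by
  induction w using FreeGroup.induction_on with
  | C1 => rw [_root_.map_one]; exact supp_one S
  | of c => cases c
            · show Supp S (sb x y (of false)); rw [sb_false]; exact hx
            · show Supp S (sb x y (of true)); rw [sb_true]; exact hy
  | inv_of c h => rw [_root_.map_inv]; exact supp_inv h
  | mul u v hu hv => rw [_root_.map_mul]; exact supp_mul hu hv

/-- Multiplication of a syllable list by a letter. -/
def pushS (b : Bool) (e : ℤ) : List (Bool × ℤ) → List (Bool × ℤ)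
  | [] => if e = 0 then [] else [(b, e)]
  | s :: L => if s.1 = b then (if e + s.2 = 0 then L else (b, e + s.2) :: L) else
      (if e = 0 then s :: L else (b, e) :: s :: L)

theorem pushS_nil (b : Bool) (e : ℤ) : pushS b e [] = if e = 0 then [] else [(b, e)] := rfl

theorem pushS_cons (b : Bool) (e : ℤ) (s : Bool × ℤ) (L : List (Bool × ℤ)) :
    pushS b e (s :: L) = if s.1 = b then (if e + s.2 = 0 then L else (b, e + s.2) :: L) else
      (if e = 0 then s :: L else (b, e) :: s :: L) := rfl

theorem red_pushS (b : Bool) (e : ℤ) {L : List (Bool × ℤ)} (h : RedS L) : RedS (pushS b e L) := by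
  cases L with
  | nil =>
    rw [pushS_nil]
    split_ifs with he
    · exact h
    · exact ⟨by simpa using he, by simp⟩
  | cons s L =>
    have hL : RedS L := ⟨fun t ht => h.1 t (List.mem_cons_of_mem _ ht), h.2.tail⟩
    rw [pushS_cons]
    split_ifs with h1 h2 h3
    · exact hL
    · refine ⟨?_, ?_⟩
      · intro t ht
        rcases List.mem_cons.1 ht with rfl | ht
        · exact h2
        · exact hL.1 t ht
      · cases L with
        | nil => simp
        | cons t L =>
          have h4 := h.2
          rw [List.isChain_cons_cons] at h4 ⊢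
          exact ⟨by rw [← h1]; exact h4.1, h4.2⟩
    · exact h
    · refine ⟨?_, ?_⟩
      · intro t ht
        rcases List.mem_cons.1 ht with rfl | ht
        · exact h3
        · exact h.1 t ht
      · rw [List.isChain_cons_cons]
        exact ⟨fun h4 => h1 h4.symm, h.2⟩

theorem ev_pushS {G : Type} [Group G] (g : Bool → G) (b : Bool) (e : ℤ) (L : List (Bool × ℤ)) :
    ((pushS b e L).map fun s => g s.1 ^ s.2).prod = g b ^ e * (L.map fun s => g s.1 ^ s.2).prod := by
  cases L with
  | nil =>
    rw [pushS_nil]
    split_ifs with he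
    · simp [he]
    · simp
  | cons s L =>
    rw [pushS_cons]
    split_ifs with h1 h2 h3
    · rw [List.map_cons, List.prod_cons, h1, ← mul_assoc, ← zpow_add, h2, zpow_zero, one_mul]
    · rw [List.map_cons, List.prod_cons, List.map_cons, List.prod_cons, h1, ← mul_assoc, ← zpow_add]
    · rw [h3, zpow_zero, one_mul]
    · rw [List.map_cons, List.prod_cons]

theorem exists_red (w : FreeGroup Bool) : ∃ L, RedS L ∧
    (L.map fun s => (of s.1 : FreeGroup Bool) ^ s.2).prod = w := by
  have h0 : ∃ L, RedS L ∧ (L.map fun s => (of s.1 : FreeGroup Bool) ^ s.2).prod = 1 :=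
    ⟨[], ⟨by simp, by simp⟩, by simp⟩
  have key : ∀ (w : FreeGroup Bool) (L : List (Bool × ℤ)), RedS L → ∃ L', RedS L' ∧
      (L'.map fun s => (of s.1 : FreeGroup Bool) ^ s.2).prod =
        w * (L.map fun s => (of s.1 : FreeGroup Bool) ^ s.2).prod := by
    intro w
    induction w using FreeGroup.induction_on with
    | C1 => intro L hL; exact ⟨L, hL, by rw [one_mul]⟩
    | of c =>
      intro L hL
      refine ⟨pushS c 1 L, red_pushS c 1 hL, ?_⟩
      rw [ev_pushS (fun c => (of c : FreeGroup Bool)), zpow_one]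
    | inv_of c _ =>
      intro L hL
      refine ⟨pushS c (-1) L, red_pushS c (-1) hL, ?_⟩
      rw [ev_pushS (fun c => (of c : FreeGroup Bool)), zpow_neg, zpow_one]
    | mul u v hu hv =>
      intro L hL
      obtain ⟨L1, h1, h2⟩ := hv L hL
      obtain ⟨L2, h3, h4⟩ := hu L1 h1
      exact ⟨L2, h3, by rw [h4, h2, mul_assoc]⟩
  obtain ⟨L, h1, h2⟩ := key w [] ⟨by simp, by simp⟩
  exact ⟨L, h1, by rw [h2]; simp⟩

theorem sb_ev {β : Type} (x y : FreeGroup β) (L : List (Bool × ℤ)) :
    sb x y ((L.map fun s => (of s.1 : FreeGroup Bool) ^ s.2).prod) =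
      evS (fun c => cond c y x) L := by
  unfold evS
  rw [map_list_prod, List.map_map]
  congr 1
  apply List.map_congr_left
  intro s _
  show sb x y (of s.1 ^ s.2) = _
  rw [map_zpow]
  congr 1
  rcases s with ⟨_ | _, n⟩
  · exact sb_false x y
  · exact sb_true x y


theorem es_ls (b : Bool) (L : List (Bool × ℤ)) :
    Multiplicative.toAdd (es b ((L.map fun s => (of s.1 : FreeGroup Bool) ^ s.2).prod)) =
      (ls b L).sum := by
  induction L with
  | nil => simp [ls]
  | cons s L ih =>
    rw [List.map_cons, List.prod_cons, _root_.map_mul, toAdd_mul, ih, _root_.map_zpow, toAdd_zpow]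
    unfold ls
    by_cases h : s.1 = b
    · rw [List.filter_cons_of_pos (by simpa using h), List.map_cons, List.sum_cons]
      simp [es, h]
    · rw [List.filter_cons_of_neg (by simpa using h)]
      simp [es, h]

theorem ls_length (L : List (Bool × ℤ)) : (ls true L).length + (ls false L).length = L.length := by
  induction L with
  | nil => rfl
  | cons s L ih =>
    unfold ls at ih ⊢
    rcases s with ⟨_ | _, n⟩
    · rw [List.filter_cons_of_neg (by simp), List.filter_cons_of_pos (by simp)]
      simp only [List.map_cons, List.length_cons, List.length_map] at ih ⊢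
      omega
    · rw [List.filter_cons_of_pos (by simp), List.filter_cons_of_neg (by simp)]
      simp only [List.map_cons, List.length_cons, List.length_map] at ih ⊢
      omega

theorem ls_ne {b : Bool} {L : List (Bool × ℤ)} (hL : RedS L) : ∀ q ∈ ls b L, q ≠ 0 := by
  intro q hq
  unfold ls at hq
  rw [List.mem_map] at hq
  obtain ⟨s, hs, rfl⟩ := hq
  exact hL.1 s (List.mem_filter.1 hs).1

theorem eq_one_list (l : List ℤ) (h0 : ∀ q ∈ l, q ≠ 0) (h1 : (l.map Int.natAbs).sum = 1)
    (h2 : l.sum = 1) : l = [1] := by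
  cases l with
  | nil => simp at h1
  | cons q l =>
    have hq := h0 q (by simp)
    rw [List.map_cons, List.sum_cons] at h1
    have h3 : (l.map Int.natAbs).sum = 0 := by omega
    cases l with
    | nil => simp at h2; rw [h2]
    | cons r l =>
      have hr := h0 r (by simp)
      rw [List.map_cons, List.sum_cons] at h3
      omega

/-- The three free generators. -/
abbrev X : FreeGroup (Fin 3) := of 0
abbrev Y : FreeGroup (Fin 3) := of 1
abbrev Z : FreeGroup (Fin 3) := of 2

theorem supp_mono {β : Type} [DecidableEq β] {S T : Set β} (h : S ⊆ T) {g : FreeGroup β}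
    (hg : Supp S g) : Supp T g := fun l hl => h (hg l hl)

theorem cnt_pair (w : FreeGroup Bool) (L : List (Bool × ℤ)) (hL : RedS L)
    (hw : (L.map fun s => (of s.1 : FreeGroup Bool) ^ s.2).prod = w)
    (P Q : FreeGroup (Fin 3)) (S T : Set (Fin 3)) (hd : Disjoint S T) (hP : P ≠ 1) (hQ : Q ≠ 1)
    (hSP : Supp S P) (hTQ : Supp T Q) :
    (∀ z ∉ S, cnt z (sb P Q w) = ((ls true L).map fun n => cnt z (Q ^ n)).sum) ∧
    (∀ z ∉ T, cnt z (sb P Q w) = ((ls false L).map fun n => cnt z (P ^ n)).sum) := by
  have h := fun z => cnt_evS z (fun c => cond c Q P) (fun c => cond c T S) (by simpa using hd)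
    (by intro b; cases b <;> simpa) (by intro b; cases b <;> simpa) L hL
  rw [← hw, sb_ev]
  constructor
  · intro z hz
    rw [h z, sum_ls true (fun c n => cnt z ((cond c Q P) ^ n))]
    · rfl
    · intro c n hc
      have : c = false := by simpa using hc
      subst this
      exact cnt_eq_zero hz (supp_zpow hSP n)
  · intro z hz
    rw [h z, sum_ls false (fun c n => cnt z ((cond c Q P) ^ n))]
    · rfl
    · intro c n hc
      have : c = true := by simpa using hc
      subst this
      exact cnt_eq_zero hz (supp_zpow hTQ n)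

theorem core (w : FreeGroup Bool) (h1 : es false w = Multiplicative.ofAdd 1)
    (h2 : es true w = Multiplicative.ofAdd 1)
    (ha : sb (sb X Y w) Z w = sb X (sb Y Z w) w) :
    w = of false * of true ∨ w = of true * of false := by
  obtain ⟨L, hL, hw⟩ := exists_red w
  have e1 : es 0 (sb X Y w) = Multiplicative.ofAdd 1 := by
    have : (es (0 : Fin 3)).comp (sb X Y) = es false := by
      apply FreeGroup.ext_hom
      intro c
      cases c <;> simp [es, sb]
    rw [← h1, ← this]; rfl
  have e2 : es 2 (sb Y Z w) = Multiplicative.ofAdd 1 := by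
    have : (es (2 : Fin 3)).comp (sb Y Z) = es true := by
      apply FreeGroup.ext_hom
      intro c
      cases c <;> simp [es, sb]
    rw [← h2, ← this]; rfl
  have n1 : sb X Y w ≠ 1 := by
    intro h; rw [h, _root_.map_one] at e1
    exact absurd e1 (by decide)
  have n2 : sb Y Z w ≠ 1 := by
    intro h; rw [h, _root_.map_one] at e2
    exact absurd e2 (by decide)
  have s1 : Supp {0, 1} (sb X Y w) := supp_sb _ (supp_mono (by simp) (supp_of 0))
    (supp_mono (by simp) (supp_of 1)) w
  have s2 : Supp {1, 2} (sb Y Z w) := supp_sb _ (supp_mono (by simp) (supp_of 1))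
    (supp_mono (by simp) (supp_of 2)) w
  have c1 := cnt_pair w L hL hw (sb X Y w) Z {0, 1} {2} (by simp) n1 (of_ne_one _) s1 (supp_of 2)
  have c2 := cnt_pair w L hL hw X (sb Y Z w) {0} {1, 2} (by simp) (of_ne_one _) n2 (supp_of 0) s2
  have c3 := cnt_pair w L hL hw X Y {0} {1} (by simp) (of_ne_one _) (of_ne_one _) (supp_of 0)
    (supp_of 1)
  have c4 := cnt_pair w L hL hw Y Z {1} {2} (by simp) (of_ne_one _) (of_ne_one _) (supp_of 1)
    (supp_of 2)
  have t1 : (ls true L).sum = 1 := by
    rw [← es_ls, hw, h2]; rfl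
  have t2 : (ls false L).sum = 1 := by
    rw [← es_ls, hw, h1]; rfl
  have m1 : ls true L ≠ [] := by intro h; rw [h] at t1; simp at t1
  have m2 : ls false L ≠ [] := by intro h; rw [h] at t2; simp at t2
  have k1 : cnt 2 (sb Y Z w) = 1 := by
    apply cnt_one 2 e2 (ls true L) (ls_ne hL) m1
    rw [← c2.1 2 (by simp), ← ha, c1.1 2 (by simp)]
    congr 1
    apply List.map_congr_left
    intro q _
    exact cnt_of_zpow 2 q
  have k2 : cnt 0 (sb X Y w) = 1 := by
    apply cnt_one 0 e1 (ls false L) (ls_ne hL) m2
    rw [← c1.2 0 (by simp), ha, c2.2 0 (by simp)]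
    congr 1
    apply List.map_congr_left
    intro q _
    exact cnt_of_zpow 0 q
  have k3 : ((ls true L).map Int.natAbs).sum = 1 := by
    rw [← k1, c4.1 2 (by simp)]
    congr 1
    apply List.map_congr_left
    intro q _
    exact (cnt_of_zpow 2 q).symm
  have k4 : ((ls false L).map Int.natAbs).sum = 1 := by
    rw [← k2, c3.2 0 (by simp)]
    congr 1
    apply List.map_congr_left
    intro q _
    exact (cnt_of_zpow 0 q).symm
  have r1 := eq_one_list _ (ls_ne hL) k3 t1
  have r2 := eq_one_list _ (ls_ne hL) k4 t2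
  have r3 := ls_length L
  rw [r1, r2] at r3
  obtain ⟨s, t, rfl⟩ := List.length_eq_two.1 r3.symm
  rcases s with ⟨_ | _, n⟩ <;> rcases t with ⟨_ | _, k⟩ <;> simp [ls] at r1 r2
  · left; rw [← hw]; subst r1; subst r2; simp
  · right; rw [← hw]; subst r1; subst r2; simp

/-! ### The group laws -/

/-- The binary operation makes the set into a group. -/
def IsGroupLaw {N : Type} (op : N → N → N) : Prop :=
  (∀ x y z, op (op x y) z = op x (op y z)) ∧
    ∃ e, ∀ x, op e x = x ∧ op x e = x ∧ ∃ y, op x y = e ∧ op y x = e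

/-- Property (N): for all `n ≥ 2` and all `j` the word defines a group law on the free nilpotent
group `F_n / γ_{j+1}(F_n)`. -/
def PropN (w : FreeGroup (Fin 2)) : Prop := ∀ n : ℕ, 2 ≤ n → ∀ j : ℕ,
  IsGroupLaw (fun x y : FreeGroup (Fin n) ⧸ (⊤ : Subgroup (FreeGroup (Fin n))).lowerCentralSeries j =>
    FreeGroup.lift ![x, y] w)

theorem isGroupLaw_mul {N : Type} [Group N] : IsGroupLaw (fun x y : N => x * y) :=
  ⟨mul_assoc, 1, fun x => ⟨one_mul x, mul_one x, x⁻¹, mul_inv_cancel x, inv_mul_cancel x⟩⟩

theorem isGroupLaw_op {N : Type} [Group N] : IsGroupLaw (fun x y : N => y * x) :=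
  ⟨fun x y z => (mul_assoc z y x).symm, 1,
    fun x => ⟨mul_one x, one_mul x, x⁻¹, inv_mul_cancel x, mul_inv_cancel x⟩⟩

/-- conversion to letters in `Bool` -/
def cv : FreeGroup (Fin 2) →* FreeGroup Bool := FreeGroup.lift ![of false, of true]

theorem cv_inj : Function.Injective cv := by
  let f : FreeGroup Bool →* FreeGroup (Fin 2) := FreeGroup.lift fun c => cond c (of 1) (of 0)
  have h : f.comp cv = MonoidHom.id _ := by
    apply FreeGroup.ext_hom
    intro i
    fin_cases i <;> simp [f, cv]
  intro x y hxy
  have h1 := DFunLike.congr_fun h x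
  have h2 := DFunLike.congr_fun h y
  rw [MonoidHom.comp_apply] at h1 h2
  rw [hxy] at h1
  exact (h1.symm.trans h2)

theorem sb_cv {G : Type} [Group G] (x y : G) (w : FreeGroup (Fin 2)) :
    sb x y (cv w) = FreeGroup.lift ![x, y] w := by
  have h : (sb x y).comp cv = FreeGroup.lift ![x, y] := by
    apply FreeGroup.ext_hom
    intro i
    fin_cases i <;> simp [cv, sb]
  rw [← h]; rfl

theorem map_sb {G H : Type} [Group G] [Group H] (f : G →* H) (x y : G) (w : FreeGroup Bool) :
    f (sb x y w) = sb (f x) (f y) w := by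
  have h : f.comp (sb x y) = sb (f x) (f y) := by
    apply FreeGroup.ext_hom
    intro c
    cases c <;> simp [sb]
  rw [← h]; rfl

theorem only (w : FreeGroup (Fin 2)) (h : PropN w) : w = of 0 * of 1 ∨ w = of 1 * of 0 := by
  have h3 := h 3 (by norm_num)
  -- the identity of the new group is `1`
  have hid : ∀ j : ℕ, ∀ x : FreeGroup (Fin 3) ⧸
      (⊤ : Subgroup (FreeGroup (Fin 3))).lowerCentralSeries j,
      FreeGroup.lift ![1, x] w = x ∧ FreeGroup.lift ![x, 1] w = x := by
    intro j x
    obtain ⟨hassoc, e, he⟩ := h3 j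
    have h11 : FreeGroup.lift ![(1 : FreeGroup (Fin 3) ⧸
        (⊤ : Subgroup (FreeGroup (Fin 3))).lowerCentralSeries j), 1] w = 1 := by
      have : FreeGroup.lift ![(1 : FreeGroup (Fin 3) ⧸
        (⊤ : Subgroup (FreeGroup (Fin 3))).lowerCentralSeries j), 1] = 1 := by
        apply FreeGroup.ext_hom
        intro i
        fin_cases i <;> simp
      rw [this]; rfl
    have hone : e = 1 := by
      obtain ⟨y, hy1, hy2⟩ := (he 1).2.2
      have e1 : FreeGroup.lift ![1, y] w = e := hy1
      have e2 := hassoc 1 1 y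
      simp only at e2
      rw [h11, e1] at e2
      have e3 : FreeGroup.lift ![1, e] w = 1 := (he 1).2.1
      rw [e3] at e2
      exact e2
    subst hone
    exact ⟨(he x).1, (he x).2.1⟩
  have hes : es false (cv w) = Multiplicative.ofAdd 1 ∧ es true (cv w) = Multiplicative.ofAdd 1 := by
    let q : FreeGroup (Fin 3) ⧸ (⊤ : Subgroup (FreeGroup (Fin 3))).lowerCentralSeries 1 →*
        Multiplicative ℤ := QuotientGroup.lift _ (es (0 : Fin 3)) (by
      intro x hx
      have h1 : (⊤ : Subgroup (FreeGroup (Fin 3))).lowerCentralSeries 1 ≤ (es (0 : Fin 3)).ker :=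
        Abelianization.commutator_subset_ker (es (0 : Fin 3))
      exact h1 hx)
    have h1 := hid 1 (QuotientGroup.mk (of 0))
    have q1 : q (QuotientGroup.mk (of 0)) = Multiplicative.ofAdd 1 := by
      show es (0 : Fin 3) (of 0) = _
      simp [es]
    constructor
    · have h2 := congrArg q h1.2
      rw [← sb_cv, map_sb, q.map_one, q1] at h2
      have : sb (Multiplicative.ofAdd (1 : ℤ)) 1 = es false := by
        apply FreeGroup.ext_hom
        intro c
        cases c <;> simp [sb, es]
      rw [this] at h2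
      exact h2
    · have h2 := congrArg q h1.1
      rw [← sb_cv, map_sb, q.map_one, q1] at h2
      have : sb 1 (Multiplicative.ofAdd (1 : ℤ)) = es true := by
        apply FreeGroup.ext_hom
        intro c
        cases c <;> simp [sb, es]
      rw [this] at h2
      exact h2
  have hassoc : sb (sb X Y (cv w)) Z (cv w) = sb X (sb Y Z (cv w)) (cv w) := by
    rw [← inv_mul_eq_one]
    apply Pool.Agent.Helper189.FreeRep.lcs_bot
    intro j
    rw [← QuotientGroup.eq]
    have h1 := (h3 j).1 (QuotientGroup.mk X) (QuotientGroup.mk Y) (QuotientGroup.mk Z)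
    simp only [← sb_cv] at h1
    have h2 := fun (x y : FreeGroup (Fin 3)) => map_sb (QuotientGroup.mk'
      ((⊤ : Subgroup (FreeGroup (Fin 3))).lowerCentralSeries j)) x y (cv w)
    simp only [QuotientGroup.mk'_apply] at h2
    rw [h2, h2, h2, h2]
    exact h1
  rcases core (cv w) hes.1 hes.2 hassoc with h1 | h1
  · left
    apply cv_inj
    rw [h1]
    simp [cv]
  · right
    apply cv_inj
    rw [h1]
    simp [cv]

/-- A word has property (N) iff it is `ab` or `ba`. -/
theorem result (w : FreeGroup (Fin 2)) : PropN w ↔ w = of 0 * of 1 ∨ w = of 1 * of 0 := by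
  constructor
  · exact only w
  · rintro (rfl | rfl) n hn j
    · have : (fun x y : FreeGroup (Fin n) ⧸
          (⊤ : Subgroup (FreeGroup (Fin n))).lowerCentralSeries j =>
          FreeGroup.lift ![x, y] (of 0 * of 1)) = fun x y => x * y := by
        funext x y; simp
      rw [this]
      exact isGroupLaw_mul
    · have : (fun x y : FreeGroup (Fin n) ⧸
          (⊤ : Subgroup (FreeGroup (Fin n))).lowerCentralSeries j =>
          FreeGroup.lift ![x, y] (of 1 * of 0)) = fun x y => y * x := by
        funext x y; simp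
      rw [this]
      exact isGroupLaw_op

end Pool.Agent.Results.MP_c4ae4c_al.OnlyTwoWords
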