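import Pool.Agent.Results.MP_fe892a_gt.ClosedCounterexample

/-!
# Disjoint subcontinua with nonempty interior in a product of two indecomposable continua

`X` is the dyadic and `Y` the triadic solenoid.  The sets
`{(x, y) : ‖x₀ - y₀ - c‖ ≤ 1/8}` for `c = 0` and `c = 1/2` are disjoint subcontinua of `X × Y`
with nonempty interior, hence `T(W) ≠ X × Y` for the first of them.
-/

open Set Topology

noncomputable section

namespace Pool.Agent.Results.MP_cdfe0d_gt.DisjointStrips

/-- `K` is a subcontinuum of the space `S`: a nonempty compact connected subset. -/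
def IsSubcontinuum {S : Type*} [TopologicalSpace S] (K : Set S) : Prop :=
  IsCompact K ∧ IsConnected K

/-- `X` is an indecomposable continuum: a nonempty compact connected Hausdorff space which is not
the union of two proper subcontinua. -/
def IsIndecomposableContinuum (X : Type*) [TopologicalSpace X] : Prop :=
  T2Space X ∧ CompactSpace X ∧ ConnectedSpace X ∧
    ¬ ∃ A B : Set X, IsSubcontinuum A ∧ IsSubcontinuum B ∧ A ≠ univ ∧ B ≠ univ ∧ A ∪ B = univ

/-- Jones's set function `T`: the complement of the set of all points that lie in the interior of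
a subcontinuum of `S` disjoint from `A`. -/
def jonesT {S : Type*} [TopologicalSpace S] (A : Set S) : Set S :=
  {p | ∃ K : Set S, IsSubcontinuum K ∧ p ∈ interior K ∧ K ∩ A = ∅}ᶜ

open Pool.Agent.Results.MP_fe892a_gt.ClosedCounterexample (Sol)

/-- the closed strip around a translate of the diagonal -/
def strip (c : ℝ) : Set (Sol 2 × Sol 3) :=
  {z : Sol 2 × Sol 3 | ‖z.1.1 0 - z.2.1 0 - (c : UnitAddCircle)‖ ≤ 1 / 8}

theorem continuous_diff (c : ℝ) :
    Continuous fun z : Sol 2 × Sol 3 => ‖z.1.1 0 - z.2.1 0 - (c : UnitAddCircle)‖ :=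
  (((Sol.continuous_coord 0).comp continuous_fst).sub
    ((Sol.continuous_coord 0).comp continuous_snd)).sub continuous_const |>.norm

theorem strip_subcontinuum (c : ℝ) : IsSubcontinuum (strip c) :=
  ⟨(isClosed_le (continuous_diff c) continuous_const).isCompact,
    Pool.Agent.Results.MP_fe892a_gt.ClosedCounterexample.isConnected_strip c (1 / 8) (by norm_num)⟩

theorem mem_interior_strip {c : ℝ} {z : Sol 2 × Sol 3}
    (h : ‖z.1.1 0 - z.2.1 0 - (c : UnitAddCircle)‖ < 1 / 8) : z ∈ interior (strip c) := by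
  have hopen : IsOpen {z : Sol 2 × Sol 3 | ‖z.1.1 0 - z.2.1 0 - (c : UnitAddCircle)‖ < 1 / 8} :=
    isOpen_lt (continuous_diff c) continuous_const
  have hsub : {z : Sol 2 × Sol 3 | ‖z.1.1 0 - z.2.1 0 - (c : UnitAddCircle)‖ < 1 / 8} ⊆ strip c :=
    fun w hw => le_of_lt (show ‖w.1.1 0 - w.2.1 0 - (c : UnitAddCircle)‖ < 1 / 8 from hw)
  exact interior_maximal hsub hopen h

theorem zero_mem_interior : (0 : Sol 2 × Sol 3) ∈ interior (strip 0) := by
  apply mem_interior_strip
  show ‖(0 : UnitAddCircle) - 0 - ((0 : ℝ) : UnitAddCircle)‖ < 1 / 8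
  rw [AddCircle.coe_zero, sub_zero, sub_zero, norm_zero]
  norm_num

/-- a point of the second strip -/
def pt : Sol 2 × Sol 3 := (Sol.line 2 two_ne_zero (1 / 2), 0)

theorem pt_mem_interior : pt ∈ interior (strip (1 / 2)) := by
  apply mem_interior_strip
  have h1 : pt.1.1 0 = ((1 / 2 : ℝ) : UnitAddCircle) := by
    show (((1 / 2 : ℝ) / ((2 : ℕ) : ℝ) ^ 0 : ℝ) : UnitAddCircle) = _
    rw [pow_zero, div_one]
  have h2 : pt.2.1 0 = 0 := rfl
  rw [h1, h2, sub_zero, sub_self, norm_zero]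
  norm_num

theorem disjoint : strip (1 / 2) ∩ strip 0 = ∅ := by
  rw [eq_empty_iff_forall_notMem]
  rintro z ⟨h1, h2⟩
  have h1' : ‖z.1.1 0 - z.2.1 0 - ((1 / 2 : ℝ) : UnitAddCircle)‖ ≤ 1 / 8 := h1
  have h2' : ‖z.1.1 0 - z.2.1 0 - ((0 : ℝ) : UnitAddCircle)‖ ≤ 1 / 8 := h2
  rw [AddCircle.coe_zero, sub_zero] at h2'
  have h3 := Pool.Agent.Results.MP_fe892a_gt.ClosedCounterexample.norm_half
  have h4 : ‖((1 / 2 : ℝ) : UnitAddCircle)‖ ≤ 1 / 8 + 1 / 8 := by
    calc ‖((1 / 2 : ℝ) : UnitAddCircle)‖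
        = ‖(z.1.1 0 - z.2.1 0) - (z.1.1 0 - z.2.1 0 - ((1 / 2 : ℝ) : UnitAddCircle))‖ := by
          congr 1; abel
      _ ≤ ‖z.1.1 0 - z.2.1 0‖ + ‖z.1.1 0 - z.2.1 0 - ((1 / 2 : ℝ) : UnitAddCircle)‖ :=
          norm_sub_le _ _
      _ ≤ 1 / 8 + 1 / 8 := add_le_add h2' h1'
  rw [h3] at h4
  norm_num at h4

/-- There are indecomposable (metrizable) continua `X`, `Y` and a subcontinuum `W` of `X × Y` with
nonempty interior such that `T(W) ≠ X × Y`. -/
theorem result :
    ∃ (X Y : Type) (_ : TopologicalSpace X) (_ : TopologicalSpace Y) (W : Set (X × Y)),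
      TopologicalSpace.MetrizableSpace X ∧ TopologicalSpace.MetrizableSpace Y ∧
      IsIndecomposableContinuum X ∧ IsIndecomposableContinuum Y ∧
      IsSubcontinuum W ∧ (interior W).Nonempty ∧ jonesT W ≠ univ := by
  refine ⟨Sol 2, Sol 3, inferInstance, inferInstance, strip 0, Sol.metrizable 2, Sol.metrizable 3,
    Sol.indecomposable le_rfl, Sol.indecomposable (by norm_num), strip_subcontinuum 0,
    ⟨0, zero_mem_interior⟩, ?_⟩
  intro h
  have hp : pt ∈ jonesT (strip 0) := by rw [h]; trivial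
  exact hp ⟨strip (1 / 2), strip_subcontinuum _, pt_mem_interior, disjoint⟩

end Pool.Agent.Results.MP_cdfe0d_gt.DisjointStrips
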