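import Mathlib
import Pool.Agent.H990R2.CTFam
import Pool.Agent.H990R2.CTSpec
import Pool.Agent.Y307.Prof.Cont

open Finset Filter Topology
open Pool.Agent

namespace Pool.Agent.Results.MP_d1aba8_pr.NoTypicalCutoff

noncomputable section

/-- `Q` is the generator of an irreducible continuous-time Markov chain on `V`: off-diagonal
entries are nonnegative, rows sum to zero, and every state can be reached from every other one by
jumps of positive rate. -/
def IsGenerator {V : Type} [Fintype V] (Q : Matrix V V ℝ) : Prop :=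
  (∀ x y, x ≠ y → 0 ≤ Q x y) ∧ (∀ x, ∑ y, Q x y = 0) ∧
    ∀ x y, Relation.ReflTransGen (fun a b => a ≠ b ∧ 0 < Q a b) x y

/-- `p` is a stationary probability distribution of the chain with generator `Q`. -/
def IsStationary {V : Type} [Fintype V] (Q : Matrix V V ℝ) (p : V → ℝ) : Prop :=
  (∀ x, 0 ≤ p x) ∧ ∑ x, p x = 1 ∧ ∀ y, ∑ x, p x * Q x y = 0

/-- Law of `X_t` under `P_x`: the row `x` of the matrix exponential `e^{tQ}`. -/
def law {V : Type} [Fintype V] [DecidableEq V] (Q : Matrix V V ℝ) (t : ℝ) (x y : V) : ℝ :=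
  NormedSpace.exp (t • Q) x y

/-- `d_x(t) = ‖P_x(X_t ∈ ·) - p‖_TV`. -/
def d {V : Type} [Fintype V] [DecidableEq V] (Q : Matrix V V ℝ) (p : V → ℝ) (x : V) (t : ℝ) : ℝ :=
  (1 / 2 : ℝ) * ∑ y, |law Q t x y - p y|

/-- `τ_x = inf {t ≥ 0 : d_x(t) ≤ 1/4}`. -/
def tau {V : Type} [Fintype V] [DecidableEq V] (Q : Matrix V V ℝ) (p : V → ℝ) (x : V) : ℝ :=
  sInf {t : ℝ | 0 ≤ t ∧ d Q p x t ≤ 1 / 4}

open Classical in
/-- The `p`-measure of the set of states with the property `A`. -/
def meas {V : Type} [Fintype V] (p : V → ℝ) (A : V → Prop) : ℝ := ∑ x, if A x then p x else 0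

/-- `m` is a median of `τ_x` when `x` is drawn from `p`. -/
def IsMedian {V : Type} [Fintype V] [DecidableEq V] (Q : Matrix V V ℝ) (p : V → ℝ)
    (m : ℝ) : Prop :=
  1 / 2 ≤ meas p (fun x => tau Q p x ≤ m) ∧ 1 / 2 ≤ meas p (fun x => m ≤ tau Q p x)

/-- The spectral gap of the generator: the smallest real part of a nonzero complex eigenvalue of
`-Q`. -/
def gap {V : Type} [Fintype V] [DecidableEq V] (Q : Matrix V V ℝ) : ℝ :=
  sInf {r : ℝ | ∃ z ∈ spectrum ℂ (-(Q.map Complex.ofReal)), z ≠ 0 ∧ r = z.re}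

/-- The relaxation time `τ₂ = 1/λ`. -/
def trel {V : Type} [Fintype V] [DecidableEq V] (Q : Matrix V V ℝ) : ℝ := 1 / gap Q

section

variable {G : Type} [AddCommGroup G] [Fintype G] [DecidableEq G] {S : Finset G} {T : ℕ}

/-- the uniform law -/
def un (G : Type) [Fintype G] : G → ℝ := fun _ => 1 / (Fintype.card G : ℝ)

theorem d_eq (h : Helper394.Bad S T) (x : G) (t : ℝ) :
    d (H990R2.CT.srw S h.zero h.neg - 1) (un G) x t =
      (1 / 2 : ℝ) * ∑ y, |H990R2.CT.H (H990R2.CT.srw S h.zero h.neg) t x y -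
        1 / (Fintype.card G : ℝ)| := by
  simp only [d, law, un]
  rfl

theorem tau_eq (h : Helper394.Bad S T) (x : G) :
    tau (H990R2.CT.srw S h.zero h.neg - 1) (un G) x =
      H990R2.CT.tau0 (H990R2.CT.srw S h.zero h.neg) := by
  simp only [tau, H990R2.CT.tau0, d_eq h]
  simp only [H990R2.CT.tv_translate (H990R2.CT.srw_mulVec S h.zero h.neg) _ _ x]

omit [DecidableEq G] in
theorem meas_const (A : G → Prop) (p : Prop) [Decidable p]
    (hA : ∀ x, A x ↔ p) : meas (un G) A = if p then 1 else 0 := by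
  have hG : (0 : ℝ) < Fintype.card G := by exact_mod_cast Fintype.card_pos
  simp only [meas, un, hA]
  split_ifs
  · simp only [Finset.sum_const, Finset.card_univ, nsmul_eq_mul]
    field_simp
  · simp

theorem isGen (h : Helper394.Bad S T) : IsGenerator (H990R2.CT.srw S h.zero h.neg - 1) := by
  have hP : ∀ f : G → ℝ, (H990R2.CT.srw S h.zero h.neg).mulVec f = Helper394.U S f :=
    H990R2.CT.srw_mulVec S _ _
  have hc : (0 : ℝ) < S.card := by exact_mod_cast h.nonempty.card_pos
  refine ⟨?_, ?_, ?_⟩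
  · intro x y hxy
    rw [Matrix.sub_apply, Matrix.one_apply_ne hxy, sub_zero, H990R2.CT.P_entry hP]
    split_ifs <;> positivity
  · intro x
    simp only [Matrix.sub_apply, Finset.sum_sub_distrib, H990R2.CT.P_row h hP, Matrix.one_apply,
      Finset.sum_ite_eq, Finset.mem_univ, if_true, sub_self]
  · intro x y
    have h1 := (Helper394.cay_connected h).preconnected x y
    rw [SimpleGraph.reachable_iff_reflTransGen] at h1
    refine Relation.ReflTransGen.mono (fun a b hab => ?_) _ _ h1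
    have hne : a ≠ b := hab.ne
    refine ⟨hne, ?_⟩
    rw [Matrix.sub_apply, Matrix.one_apply_ne hne, sub_zero, H990R2.CT.P_entry hP]
    rw [Helper394.cay_adj] at hab
    rw [if_pos hab]
    positivity

theorem isStat (h : Helper394.Bad S T) :
    IsStationary (H990R2.CT.srw S h.zero h.neg - 1) (un G) := by
  have hP : ∀ f : G → ℝ, (H990R2.CT.srw S h.zero h.neg).mulVec f = Helper394.U S f :=
    H990R2.CT.srw_mulVec S _ _
  have hG : (0 : ℝ) < Fintype.card G := by exact_mod_cast Fintype.card_pos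
  refine ⟨fun x => by simp only [un]; positivity, ?_, ?_⟩
  · simp only [un, Finset.sum_const, Finset.card_univ, nsmul_eq_mul]
    field_simp
  · intro y
    simp only [un, Matrix.sub_apply]
    rw [← Finset.mul_sum, Finset.sum_sub_distrib]
    have h1 : ∑ x, H990R2.CT.srw S h.zero h.neg x y = 1 := by
      rw [← H990R2.CT.P_row h hP y]
      exact Finset.sum_congr rfl fun x _ => H990R2.CT.P_symm h hP x y
    rw [h1]
    simp [Matrix.one_apply]

theorem trel_le (h : Helper394.Bad S T) :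
    0 < trel (H990R2.CT.srw S h.zero h.neg - 1) ∧ trel (H990R2.CT.srw S h.zero h.neg - 1) ≤ 4 := by
  have hP : ∀ f : G → ℝ, (H990R2.CT.srw S h.zero h.neg).mulVec f = Helper394.U S f :=
    H990R2.CT.srw_mulVec S _ _
  have hge : 1 / 4 ≤ gap (H990R2.CT.srw S h.zero h.neg - 1) := by
    obtain ⟨r, hr, hr0⟩ := H990R2.CT.specC_nonempty h hP
    apply le_csInf
    · exact ⟨_, r, hr, hr0, rfl⟩
    · rintro b ⟨z, hz, hz0, rfl⟩
      exact H990R2.CT.specC h hP z hz hz0
  refine ⟨one_div_pos.mpr (by linarith), ?_⟩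
  rw [trel, div_le_iff₀ (by linarith)]
  linarith

end

/-- There are finite irreducible continuous-time Markov chains (generators `Q_n` on `ℤ/N_n`,
`N_n → ∞`, symmetric with uniform stationary law, all nonzero jump rates of `Q_n` being equal: simple
random walks on regular graphs) with relaxation times
`τ₂ ≤ 4` while the (unique) median `τ(n)` of the mixing times tends to infinity, so
`τ(n)/τ₂(n) → ∞`, and from any starting points `x_n` one has `d_{x_n}(s τ(n)) → 4^{-s}` for every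
`s ≥ 0`. So the two statements of the question both fail: the first measure is eventually `0` for
every `ε ∈ (0,1/2)`, and the second one for every `ε ∈ (0,1/8]`. -/
theorem result :
    ∃ (N : ℕ → ℕ) (_ : ∀ n, NeZero (N n)) (Q : ∀ n, Matrix (ZMod (N n)) (ZMod (N n)) ℝ)
      (p : ∀ n, ZMod (N n) → ℝ) (τ : ℕ → ℝ),
      Tendsto N atTop atTop ∧
      (∀ n, IsGenerator (Q n)) ∧
      (∀ n, IsStationary (Q n) (p n)) ∧
      (∀ n, (Q n).IsSymm ∧ ∀ x, p n x = 1 / (N n : ℝ)) ∧
      (∀ n x y x' y', x ≠ y → x' ≠ y' → Q n x y ≠ 0 → Q n x' y' ≠ 0 → Q n x y = Q n x' y') ∧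
      (∀ n m, IsMedian (Q n) (p n) m ↔ m = τ n) ∧
      Tendsto τ atTop atTop ∧
      (∀ n, 0 < trel (Q n) ∧ trel (Q n) ≤ 4) ∧
      Tendsto (fun n => τ n / trel (Q n)) atTop atTop ∧
      (∀ s : ℝ, 0 ≤ s → ∀ x : ∀ n, ZMod (N n),
        Tendsto (fun n => d (Q n) (p n) (x n) (s * τ n)) atTop (𝓝 ((4 : ℝ) ^ (-s)))) ∧
      (∀ ε : ℝ, 0 < ε → ε < 1 / 2 →
        ∀ᶠ n in atTop, meas (p n) (fun x => 1 - ε < d (Q n) (p n) x ((1 - ε) * τ n)) = 0) ∧
      (∀ ε : ℝ, 0 < ε → ε ≤ 1 / 8 →
        ∀ᶠ n in atTop, meas (p n) (fun x => d (Q n) (p n) x ((1 + ε) * τ n) < ε) = 0) := by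
  obtain ⟨N, hN, S, w, hNn, hw1, hw2, hE⟩ := Y307.Prof.exists_seq
  have hB : ∀ n, Helper394.Bad (S n) (n + 64) := fun n =>
    (hE n).bad (by omega) (by nlinarith) (by omega) (by push_cast; exact hw1 n)
      (by push_cast; exact hw2 n)
  let P : ∀ n, Matrix (ZMod (N n)) (ZMod (N n)) ℝ := fun n =>
    H990R2.CT.srw (S n) (hB n).zero (hB n).neg
  have hP : ∀ n, ∀ f : ZMod (N n) → ℝ, (P n).mulVec f = Helper394.U (S n) f :=
    fun n f => H990R2.CT.srw_mulVec (S n) _ _ f
  let Q : ∀ n, Matrix (ZMod (N n)) (ZMod (N n)) ℝ := fun n => P n - 1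
  let p : ∀ n, ZMod (N n) → ℝ := fun n => un (ZMod (N n))
  have hdx : ∀ n (x : ZMod (N n)) r, d (Q n) (p n) x r = d (Q n) (p n) 0 r := by
    intro n x r
    change d (H990R2.CT.srw (S n) (hB n).zero (hB n).neg - 1) (un (ZMod (N n))) x r =
      d (H990R2.CT.srw (S n) (hB n).zero (hB n).neg - 1) (un (ZMod (N n))) 0 r
    rw [d_eq (hB n), d_eq (hB n), H990R2.CT.tv_translate (hP n) r _ x]
  have hsq : Y307.Prof.CSq (fun n r => d (Q n) (p n) 0 r) (fun n => 1 / w n ^ 2)
      (fun n => 1 / (1 - w n)) (fun n => (1 / 2) ^ ((n + 64) ^ 2)) (fun n => n + 64) := by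
    refine Y307.Prof.csq_of hw1 hw2 _ ?_ ?_
    · intro n r hr
      have h1 := (hE n).ct_low (by omega) (Y307.Prof.w_pos hw2 n) (Y307.Prof.w_lt hw1 n) (hB n)
        (hP n) hr
      change _ ≤ d (H990R2.CT.srw (S n) (hB n).zero (hB n).neg - 1) (un (ZMod (N n))) 0 r
      rw [d_eq (hB n)]
      exact h1
    · intro n r hr
      have h1 := (hE n).ct_up (by omega) (Y307.Prof.w_pos hw2 n) (Y307.Prof.w_lt hw1 n) (hB n)
        (hP n) hr 0
      change d (H990R2.CT.srw (S n) (hB n).zero (hB n).neg - 1) (un (ZMod (N n))) 0 r ≤ _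
      rw [d_eq (hB n)]
      exact h1
  have hτt : Tendsto (fun n => H990R2.CT.tau0 (P n) / (1 / (1 - w n))) atTop
      (𝓝 (Real.log 4)) := by
    have h1 := hsq.mixing (ε := 1 / 4) (by norm_num) (by norm_num)
    rw [one_div_one_div] at h1
    refine h1.congr fun n => ?_
    congr 1
  have hL : 0 < Real.log 4 := Real.log_pos (by norm_num)
  have hτ0 : ∀ n, 0 ≤ H990R2.CT.tau0 (P n) := by
    intro n
    have h1 := H990R2.CT.tau0_ge (hB n) (by omega) (hP n)
    exact le_trans (by positivity) h1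
  have hτ : Tendsto (fun n => H990R2.CT.tau0 (P n)) atTop atTop := by
    refine (hτt.pos_mul_atTop hL hsq.tlim).congr fun n => ?_
    exact div_mul_cancel₀ _ (hsq.tpos n).ne'
  have hprof : ∀ s : ℝ, 0 ≤ s →
      Tendsto (fun n => d (Q n) (p n) 0 (s * H990R2.CT.tau0 (P n))) atTop
        (𝓝 ((4 : ℝ) ^ (-s))) := by
    intro s hs
    have h1 : Tendsto (fun n => (s * H990R2.CT.tau0 (P n)) / (1 / (1 - w n))) atTop
        (𝓝 (s * Real.log 4)) := by
      refine (hτt.const_mul s).congr fun n => ?_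
      ring
    have h2 := hsq.profile (fun n => mul_nonneg hs (hτ0 n)) h1
    have e : (4 : ℝ) ^ (-s) = Real.exp (-(s * Real.log 4)) := by
      rw [Real.rpow_def_of_pos (by norm_num)]
      congr 1
      ring
    rw [e]
    exact h2
  have hrel : ∀ n, 0 < trel (Q n) ∧ trel (Q n) ≤ 4 := fun n => trel_le (hB n)
  have hf1 : ∀ ε : ℝ, 0 < ε → ε < 1 / 2 →
      ∀ᶠ n in atTop, meas (p n) (fun x => 1 - ε <
        d (Q n) (p n) x ((1 - ε) * H990R2.CT.tau0 (P n))) = 0 := by
    intro ε h0 h1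
    have h2 : (4 : ℝ) ^ (-(1 - ε)) < 1 - ε := by
      have h4 : (4 : ℝ) ^ ε = (2 : ℝ) ^ (2 * ε) := by
        rw [Real.rpow_mul (by norm_num)]
        norm_num
      have h5 : (2 : ℝ) ^ (2 * ε) ≤ 1 + 2 * ε := by
        have h6 := rpow_one_add_le_one_add_mul_self (s := 1) (by norm_num)
          (p := 2 * ε) (by linarith) (by linarith)
        norm_num at h6
        linarith
      have h7 : (4 : ℝ) ^ (-(1 - ε)) = (1 / 4) * (4 : ℝ) ^ ε := by
        rw [neg_sub, Real.rpow_sub (by norm_num), Real.rpow_one]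
        ring
      rw [h7, h4]
      linarith
    filter_upwards [(hprof (1 - ε) (by linarith)).eventually (gt_mem_nhds h2)] with n hn
    have h3 := meas_const (G := ZMod (N n)) (fun x => 1 - ε <
      d (Q n) (p n) x ((1 - ε) * H990R2.CT.tau0 (P n))) False (fun x => by
        rw [iff_false, not_lt, hdx]
        exact hn.le)
    rw [if_neg not_false] at h3
    exact h3
  have hf2 : ∀ ε : ℝ, 0 < ε → ε ≤ 1 / 8 →
      ∀ᶠ n in atTop, meas (p n) (fun x =>
        d (Q n) (p n) x ((1 + ε) * H990R2.CT.tau0 (P n)) < ε) = 0 := by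
    intro ε h0 h1
    have h2 : ε < (4 : ℝ) ^ (-(1 + ε)) := by
      have h3 : (4 : ℝ) ^ (-(3 / 2 : ℝ)) = 1 / 8 := by
        rw [Real.rpow_neg (by norm_num), show (4 : ℝ) = 2 ^ (2 : ℝ) by norm_num,
          ← Real.rpow_mul (by norm_num)]
        norm_num
      have h4 : (4 : ℝ) ^ (-(3 / 2 : ℝ)) < (4 : ℝ) ^ (-(1 + ε)) :=
        Real.rpow_lt_rpow_of_exponent_lt (by norm_num) (by linarith)
      linarith
    filter_upwards [(hprof (1 + ε) (by linarith)).eventually (lt_mem_nhds h2)] with n hn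
    have h3 := meas_const (G := ZMod (N n)) (fun x =>
      d (Q n) (p n) x ((1 + ε) * H990R2.CT.tau0 (P n)) < ε) False (fun x => by
        rw [iff_false, not_lt, hdx]
        exact hn.le)
    rw [if_neg not_false] at h3
    exact h3
  refine ⟨N, hN, Q, p, fun n => H990R2.CT.tau0 (P n), ?_, fun n => isGen (hB n),
    fun n => isStat (hB n), ?_, ?_, ?_, hτ, hrel, ?_, ?_, hf1, hf2⟩
  · refine tendsto_atTop_mono (fun n => ?_) tendsto_id
    have := hNn n
    simp only [id]
    omega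
  · intro n
    refine ⟨?_, fun x => ?_⟩
    · ext x y
      change (P n - 1) y x = (P n - 1) x y
      rw [Matrix.sub_apply, Matrix.sub_apply, H990R2.CT.P_symm (hB n) (hP n) y x]
      simp [Matrix.one_apply, eq_comm]
    · change un (ZMod (N n)) x = _
      rw [un, ZMod.card]
  · intro n x y x' y' hxy hxy' h1 h2
    change (P n - 1) x y ≠ 0 at h1
    change (P n - 1) x' y' ≠ 0 at h2
    change (P n - 1) x y = (P n - 1) x' y'
    rw [Matrix.sub_apply, Matrix.one_apply_ne hxy, sub_zero, H990R2.CT.P_entry (hP n)] at h1 ⊢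
    rw [Matrix.sub_apply, Matrix.one_apply_ne hxy', sub_zero, H990R2.CT.P_entry (hP n)] at h2 ⊢
    split_ifs at h1 h2 ⊢ <;> first | rfl | exact absurd rfl h1 | exact absurd rfl h2
  · intro n m
    classical
    rw [IsMedian, meas_const (G := ZMod (N n)) _ (H990R2.CT.tau0 (P n) ≤ m)
        (fun x => by
          change tau (H990R2.CT.srw (S n) (hB n).zero (hB n).neg - 1) (un (ZMod (N n))) x ≤ m ↔ _
          rw [tau_eq (hB n)]),
      meas_const (G := ZMod (N n)) _ (m ≤ H990R2.CT.tau0 (P n))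
        (fun x => by
          change m ≤ tau (H990R2.CT.srw (S n) (hB n).zero (hB n).neg - 1) (un (ZMod (N n))) x ↔ _
          rw [tau_eq (hB n)])]
    constructor
    · rintro ⟨h1, h2⟩
      have h3 : H990R2.CT.tau0 (P n) ≤ m := by
        by_contra hcon
        rw [if_neg hcon] at h1
        norm_num at h1
      have h4 : m ≤ H990R2.CT.tau0 (P n) := by
        by_contra hcon
        rw [if_neg hcon] at h2
        norm_num at h2
      exact le_antisymm h4 h3
    · rintro rfl
      rw [if_pos le_rfl]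
      norm_num
  · refine tendsto_atTop_mono (fun n => ?_) (hτ.atTop_div_const (by norm_num : (0 : ℝ) < 4))
    exact div_le_div_of_nonneg_left (hτ0 n) (hrel n).1 (hrel n).2
  · intro s hs x
    refine (hprof s hs).congr fun n => ?_
    rw [hdx n (x n)]

end

end Pool.Agent.Results.MP_d1aba8_pr.NoTypicalCutoff
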