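import Mathlib
import Pool.Agent.Q281.Wiener.Graft

set_option autoImplicit false

/-!
# The roots of Wiener polynomials of trees are dense in the complex plane (MP_dc0d33_co)
-/

namespace Pool.Agent.Results.MP_dc0d33_co.Dense

open Polynomial Pool.Agent.Q281.Wiener

/-- All Wiener roots of all connected graphs (with at least two vertices). -/
def connRoots : Set ℂ := {z | ∃ (V : Type) (_ : Fintype V) (G : SimpleGraph V),
  G.Connected ∧ 2 ≤ Fintype.card V ∧ aeval z (wiener G) = 0}

/-- All Wiener roots of all trees (with at least two vertices). -/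
def treeRoots : Set ℂ := {z | ∃ (V : Type) (_ : Fintype V) (G : SimpleGraph V),
  G.IsTree ∧ 2 ≤ Fintype.card V ∧ aeval z (wiener G) = 0}

/-! ### a root close to a point where the polynomial is small -/

theorem root_near (f : ℂ[X]) (D : ℕ) (hD : f.natDegree ≤ D) (hc : f.coeff D ≠ 0) (z : ℂ) (δ : ℝ)
    (hδ : 0 ≤ δ) (hz : ‖f.eval z‖ < ‖f.coeff D‖ * δ ^ D) : ∃ r, f.eval r = 0 ∧ ‖z - r‖ ≤ δ := by
  by_contra hcon
  push Not at hcon
  have hnd : f.natDegree = D := le_antisymm hD (le_natDegree_of_ne_zero hc)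
  have hlc : f.leadingCoeff = f.coeff D := by rw [leadingCoeff, hnd]
  have hf0 : f ≠ 0 := by
    rintro rfl
    simp at hc
  have h1 := (IsAlgClosed.splits f).eq_prod_roots
  have hcard : Multiset.card f.roots = D := by
    rw [← hnd]
    exact (splits_iff_card_roots.1 (IsAlgClosed.splits f))
  have h2 : ∀ s : Multiset ℂ, (∀ r ∈ s, δ < ‖z - r‖) →
      δ ^ (Multiset.card s) ≤ ‖(s.map (fun a => X - C a)).prod.eval z‖ := by
    intro s
    induction s using Multiset.induction_on with
    | empty => intro _; simp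
    | cons a s ih =>
      intro hs
      rw [Multiset.map_cons, Multiset.prod_cons, eval_mul, norm_mul, Multiset.card_cons, pow_succ,
        mul_comm]
      refine mul_le_mul ?_ (ih fun r hr => hs r (Multiset.mem_cons_of_mem hr)) (by positivity)
        (norm_nonneg _)
      simpa using (hs a (Multiset.mem_cons_self a s)).le
  have h3 := h2 f.roots (fun r hr => hcon r (isRoot_of_mem_roots hr))
  rw [hcard] at h3
  have h4 : ‖f.eval z‖ = ‖f.coeff D‖ * ‖(f.roots.map (fun a => X - C a)).prod.eval z‖ := by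
    conv_lhs => rw [h1]
    rw [eval_mul, eval_C, norm_mul, hlc]
  rw [h4] at hz
  have h5 : 0 < ‖f.coeff D‖ := norm_pos_iff.2 hc
  have h6 := lt_of_mul_lt_mul_left hz h5.le
  linarith

theorem card_of_wiener_ne {V : Type} [Fintype V] (G : SimpleGraph V) (h : wiener G ≠ 0) :
    2 ≤ Fintype.card V := by
  classical
  by_contra hcon
  apply h
  have h1 : Subsingleton V := Fintype.card_le_one_iff_subsingleton.1 (by omega)
  rw [wiener, Finset.sum_eq_zero, mul_zero]
  intro p hp
  rw [Finset.mem_offDiag] at hp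
  exact absurd (Subsingleton.elim _ _) hp.2.2

/-! ### first step: one kind of branch and many leaves -/

theorem step_one (d : ℕ) (hd : 1 ≤ d) (q v : ℝ[X]) (hq : Real d q v) (hqd : q.coeff d ≠ 0)
    (a : ℝ) (ha : 0 ≤ a) (z : ℂ) (hz : aeval z q + (a : ℂ) = 0) : z ∈ closure treeRoots := by
  rw [Metric.mem_closure_iff]
  intro ε hε
  set K : ℝ := ‖aeval z v‖ + ‖z‖ + ‖z‖ ^ 2 * (1 + ‖aeval z q‖ ^ 2 + a) with hK
  have hK0 : 0 ≤ K := by positivity
  set c : ℝ := q.coeff d with hcd
  have hc2 : 0 < c ^ 2 := by positivity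
  set δ : ℝ := ε / 2 with hδ
  have hδ0 : 0 < δ := by positivity
  -- choice of the number of branches
  obtain ⟨m, hm⟩ := exists_nat_gt (2 * K / (c ^ 2 * δ ^ (2 * d + 2)) + 2)
  have hm1 : (2 : ℝ) < m := lt_of_le_of_lt (by
    have : 0 ≤ 2 * K / (c ^ 2 * δ ^ (2 * d + 2)) := by positivity
    linarith) hm
  have hmK : 2 * K < ((m : ℝ) - 1) * (c ^ 2 * δ ^ (2 * d + 2)) := by
    have hpos : 0 < c ^ 2 * δ ^ (2 * d + 2) := by positivity
    rw [← div_lt_iff₀ hpos]
    linarith
  set k : ℕ := ⌊a * m⌋₊ with hk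
  have hk1 : (k : ℝ) ≤ a * m := Nat.floor_le (by positivity)
  have hk2 : a * m < k + 1 := Nat.lt_floor_add_one _
  have h1 := real_copies (real_copies (real_one (d + 1)) hq le_rfl m) (real_one 0)
    (show 0 + 1 ≤ d + 1 by omega) k
  obtain ⟨⟨V, _, G, r, hG, _, hw⟩, _, hdeg⟩ := h1
  -- the coefficient of degree `2 d + 2`
  have hcoef : (wiener G).coeff (2 * d + 2) = (m : ℝ) * (m - 1) / 2 * c ^ 2 := by
    rw [hw]
    have hv : v.coeff (2 * d + 2) = 0 := coeff_eq_zero_of_natDegree_lt (by have := hq.2.2; omega)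
    have hX1 : ∀ P : ℝ[X], (X * P).coeff (2 * d + 2) = P.coeff (2 * d + 1) := fun P =>
      coeff_X_mul P (2 * d + 1)
    have hq1 : q.coeff (2 * d + 1) = 0 := coeff_eq_zero_of_natDegree_lt (by have := hq.2.1; omega)
    have hq2 : q.coeff (2 * d) = 0 := coeff_eq_zero_of_natDegree_lt (by have := hq.2.1; omega)
    have hqq : (q ^ 2).coeff (2 * d) = c ^ 2 := by
      rw [pow_two, two_mul, coeff_mul_add_eq_of_natDegree_le hq.2.1 hq.2.1, pow_two]
    have e1 : 0 + C (m : ℝ) * v + C (m : ℝ) * X * 1 * q + C ((m : ℝ) * (m - 1) / 2) * X ^ 2 * q ^ 2 +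
        C (k : ℝ) * 0 + C (k : ℝ) * X * (1 + C (m : ℝ) * X * q) * 1 +
        C ((k : ℝ) * (k - 1) / 2) * X ^ 2 * 1 ^ 2 =
        C (m : ℝ) * v + C (m : ℝ) * (X * q) + C ((m : ℝ) * (m - 1) / 2) * (X * (X * q ^ 2)) +
        C (k : ℝ) * (X * 1) + C ((k : ℝ) * m) * (X * (X * q)) +
        C ((k : ℝ) * (k - 1) / 2) * (X * (X * 1)) := by
      rw [C_mul (a := (k : ℝ)) (b := (m : ℝ))]
      ring
    rw [e1]
    simp only [coeff_add, coeff_C_mul, hX1, hv, hq1]
    have hX2 : ∀ P : ℝ[X], (X * P).coeff (2 * d + 1) = P.coeff (2 * d) := fun P =>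
      coeff_X_mul P (2 * d)
    rw [hX2, hX2, hX2, hqq, hq2, coeff_one, coeff_one, if_neg (by omega), if_neg (by omega)]
    ring
  have hcoef0 : (wiener G).coeff (2 * d + 2) ≠ 0 := by
    rw [hcoef]
    have : 0 < (m : ℝ) * (m - 1) / 2 * c ^ 2 :=
      mul_pos (by nlinarith) hc2
    exact this.ne'
  -- the value at `z`
  have hval : aeval z (wiener G) = (m : ℂ) * aeval z v + z * ((k : ℂ) - a * m) +
      z ^ 2 / 2 * (((k : ℂ) - a * m) ^ 2 - m * (aeval z q) ^ 2 - k) := by
    rw [hw]
    have hqz : aeval z q = -(a : ℂ) := by linear_combination hz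
    simp only [map_add, map_mul, map_pow, aeval_X, aeval_C, map_zero, map_one]
    simp only [Complex.coe_algebraMap]
    rw [hqz]
    push_cast
    ring
  have hbound : ‖aeval z (wiener G)‖ ≤ m * K := by
    rw [hval]
    have ht : ‖((k : ℂ) - a * m)‖ ≤ 1 := by
      have : ((k : ℂ) - a * m) = (((k : ℝ) - a * m : ℝ) : ℂ) := by push_cast; ring
      rw [this, Complex.norm_real, Real.norm_eq_abs, abs_le]
      constructor <;> linarith
    have n1 : ‖(m : ℂ) * aeval z v‖ = m * ‖aeval z v‖ := by rw [norm_mul, Complex.norm_natCast]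
    have n2 : ‖z * ((k : ℂ) - a * m)‖ ≤ ‖z‖ := by
      rw [norm_mul]
      exact mul_le_of_le_one_right (norm_nonneg _) ht
    have n3 : ‖((k : ℂ) - a * m) ^ 2 - m * (aeval z q) ^ 2 - k‖ ≤
        1 + m * ‖aeval z q‖ ^ 2 + a * m := by
      refine (norm_sub_le _ _).trans (add_le_add ((norm_sub_le _ _).trans (add_le_add ?_ ?_)) ?_)
      · rw [norm_pow]
        exact pow_le_one₀ (norm_nonneg _) ht
      · rw [norm_mul, norm_pow, Complex.norm_natCast]
      · rw [Complex.norm_natCast]
        exact hk1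
    have n4 : ‖z ^ 2 / 2 * (((k : ℂ) - a * m) ^ 2 - m * (aeval z q) ^ 2 - k)‖ ≤
        ‖z‖ ^ 2 / 2 * (1 + m * ‖aeval z q‖ ^ 2 + a * m) := by
      rw [norm_mul, norm_div, norm_pow]
      simp only [Complex.norm_ofNat]
      exact mul_le_mul_of_nonneg_left n3 (by positivity)
    refine (norm_add_le _ _).trans ((add_le_add ((norm_add_le _ _).trans
      (add_le_add n1.le n2)) n4).trans ?_)
    rw [hK]
    have hm2 : (1 : ℝ) ≤ m := by linarith
    have e1 : ‖z‖ ≤ m * ‖z‖ := le_mul_of_one_le_left (norm_nonneg _) hm2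
    have e2 : ‖z‖ ^ 2 / 2 * (1 + m * ‖aeval z q‖ ^ 2 + a * m) ≤
        m * (‖z‖ ^ 2 * (1 + ‖aeval z q‖ ^ 2 + a)) := by
      have e3 : 1 + m * ‖aeval z q‖ ^ 2 + a * m ≤ m * (1 + ‖aeval z q‖ ^ 2 + a) := by nlinarith
      have e4 : 0 ≤ 1 + m * ‖aeval z q‖ ^ 2 + a * m := by positivity
      have e5 : 0 ≤ ‖z‖ ^ 2 := by positivity
      nlinarith [mul_le_mul_of_nonneg_left e3 e5, mul_nonneg e5 e4]
    nlinarith
  -- a root
  obtain ⟨r, hr1, hr2⟩ := root_near ((wiener G).map (algebraMap ℝ ℂ)) (2 * d + 2)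
    (by rw [natDegree_map]; rw [hw]; omega) (by
      rw [coeff_map]
      simpa using hcoef0) z δ hδ0.le (by
      rw [eval_map_algebraMap, coeff_map, hcoef]
      refine lt_of_le_of_lt hbound ?_
      have e1 : ‖(algebraMap ℝ ℂ) ((m : ℝ) * (m - 1) / 2 * c ^ 2)‖ =
          (m : ℝ) * (m - 1) / 2 * c ^ 2 := by
        rw [Complex.coe_algebraMap, Complex.norm_real, Real.norm_eq_abs, abs_of_nonneg]
        exact mul_nonneg (by nlinarith) hc2.le
      rw [e1]
      have hm0 : (0 : ℝ) < m := by linarith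
      have e2 : (m : ℝ) * K = m / 2 * (2 * K) := by ring
      have e3 : (m : ℝ) * (m - 1) / 2 * c ^ 2 * δ ^ (2 * d + 2) =
          m / 2 * (((m : ℝ) - 1) * (c ^ 2 * δ ^ (2 * d + 2))) := by ring
      rw [e2, e3]
      exact mul_lt_mul_of_pos_left hmK (by positivity))
  refine ⟨r, ⟨V, inferInstance, G, hG, card_of_wiener_ne G ?_, ?_⟩, ?_⟩
  · intro h0
    rw [h0] at hcoef0
    simp at hcoef0
  · rwa [eval_map_algebraMap] at hr1
  · rw [dist_eq_norm]
    exact lt_of_le_of_lt hr2 (by rw [hδ]; linarith)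

/-! ### second step: caterpillars -/

/-- the profile `1 + f 0 x + f 1 x ^ 2 + ... + f (d-1) x ^ d` -/
noncomputable def cat (f : ℕ → ℕ) (d : ℕ) : ℝ[X] :=
  1 + ∑ i ∈ Finset.range d, C (f i : ℝ) * X ^ (i + 1)

theorem real_cat : ∀ (d : ℕ) (f : ℕ → ℕ), (∀ i, 1 ≤ f i) → ∃ v, Real d (cat f d) v
  | 0, f, _ => ⟨0, by simpa [cat] using real_one 0⟩
  | d + 1, f, hf => by
    obtain ⟨v, hv⟩ := real_cat d (fun i => f (i + 1)) (fun i => hf _)
    have h1 := real_graft (real_copies (real_one (d + 1)) (real_one 0)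
      (show 0 + 1 ≤ d + 1 by omega) (f 0 - 1)) hv le_rfl
    have e : cat f (d + 1) = 1 + C ((f 0 - 1 : ℕ) : ℝ) * X * 1 +
          X * cat (fun i => f (i + 1)) d := by
      unfold cat
      rw [Finset.sum_range_succ', mul_add, Finset.mul_sum, Nat.cast_sub (hf 0)]
      have e2 : ∑ i ∈ Finset.range d, C (f (i + 1) : ℝ) * (X : ℝ[X]) ^ (i + 1 + 1) =
          ∑ i ∈ Finset.range d, X * (C (f (i + 1) : ℝ) * X ^ (i + 1)) :=
        Finset.sum_congr rfl fun i _ => by ring
      rw [e2]
      simp only [C_sub, Nat.cast_one, C_1]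
      ring
    rw [← e] at h1
    exact ⟨_, h1⟩

theorem step_two (d : ℕ) (hd : 1 ≤ d) (b0 : ℝ) (b : ℕ → ℝ) (hb0 : 0 ≤ b0) (hb : ∀ i, 0 ≤ b i)
    (hbd : 0 < b (d - 1)) (z : ℂ)
    (hz : (b0 : ℂ) + ∑ i ∈ Finset.range d, (b i : ℂ) * z ^ (i + 1) = 0) :
    z ∈ closure treeRoots := by
  rw [← closure_closure, Metric.mem_closure_iff]
  intro ε hε
  set δ : ℝ := ε / 2 with hδ
  have hδ0 : 0 < δ := by positivity
  set K : ℝ := 1 + ∑ i ∈ Finset.range d, ‖z‖ ^ (i + 1) with hK
  obtain ⟨N, hN⟩ := exists_nat_gt (K / (b (d - 1) * δ ^ d))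
  have hNK : K < N * (b (d - 1) * δ ^ d) := by
    rwa [div_lt_iff₀ (by positivity)] at hN
  set f : ℕ → ℕ := fun i => ⌊(N : ℝ) * b i⌋₊ + 1 with hf
  obtain ⟨v, hv⟩ := real_cat d f (fun i => by simp [hf])
  have hcoef : (cat f d).coeff d = f (d - 1) := by
    unfold cat
    rw [coeff_add, coeff_one, if_neg (by omega), finsetSum_coeff, zero_add,
      Finset.sum_eq_single (d - 1)]
    · rw [coeff_C_mul, coeff_X_pow, if_pos (by omega), mul_one]
    · intro i hi hne
      rw [coeff_C_mul, coeff_X_pow, if_neg (by omega), mul_zero]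
    · intro hni
      exact absurd (Finset.mem_range.2 (by omega)) hni
  have hfpos : (N : ℝ) * b (d - 1) ≤ f (d - 1) := by
    simp only [hf]
    push_cast
    exact (Nat.lt_floor_add_one _).le
  have hcoef0 : (cat f d).coeff d ≠ 0 := by
    rw [hcoef]
    simp only [hf]
    positivity
  set M : ℂ[X] := (cat f d).map (algebraMap ℝ ℂ) + C ((N : ℂ) * b0) with hM
  have hMcoef : M.coeff d = (f (d - 1) : ℂ) := by
    rw [hM, coeff_add, coeff_map, hcoef, coeff_C, if_neg (by omega), add_zero]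
    simp
  obtain ⟨r, hr1, hr2⟩ := root_near M d (by
      rw [hM]
      refine (natDegree_add_le _ _).trans (max_le ?_ ((natDegree_C _).le.trans (Nat.zero_le _)))
      rw [natDegree_map]
      exact hv.2.1) (by
      rw [hMcoef]
      exact Nat.cast_ne_zero.2 (Nat.succ_ne_zero _)) z δ hδ0.le (by
      rw [hMcoef, Complex.norm_natCast]
      have hval : M.eval z = 1 + ∑ i ∈ Finset.range d,
          ((f i : ℂ) - N * b i) * z ^ (i + 1) := by
        rw [hM, eval_add, eval_C, eval_map_algebraMap, cat]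
        simp only [map_add, map_sum, map_mul, map_pow, aeval_X, aeval_C, map_one]
        have e1 : (N : ℂ) * b0 = - ∑ i ∈ Finset.range d, (N * b i) * z ^ (i + 1) := by
          have e2 : ∑ i ∈ Finset.range d, ((N : ℂ) * b i) * z ^ (i + 1) =
              N * ∑ i ∈ Finset.range d, (b i : ℂ) * z ^ (i + 1) := by
            rw [Finset.mul_sum]
            exact Finset.sum_congr rfl fun i _ => by ring
          rw [e2]
          linear_combination (N : ℂ) * hz
        rw [e1]
        simp only [sub_mul, Finset.sum_sub_distrib]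
        simp only [Complex.coe_algebraMap, Complex.ofReal_natCast]
        ring
      have hle : ‖M.eval z‖ ≤ K := by
        rw [hval, hK]
        refine (norm_add_le _ _).trans (add_le_add (by simp) ?_)
        refine (norm_sum_le _ _).trans (Finset.sum_le_sum fun i _ => ?_)
        rw [norm_mul, norm_pow]
        refine mul_le_of_le_one_left (by positivity) ?_
        have e3 : ((f i : ℂ) - N * b i) = (((f i : ℝ) - N * b i : ℝ) : ℂ) := by push_cast; ring
        rw [e3, Complex.norm_real, Real.norm_eq_abs, abs_le]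
        have e4 : (f i : ℝ) = ⌊(N : ℝ) * b i⌋₊ + 1 := by simp [hf]
        have e5 := Nat.floor_le (show (0 : ℝ) ≤ (N : ℝ) * b i from
          mul_nonneg (Nat.cast_nonneg _) (hb i))
        have e6 := Nat.lt_floor_add_one ((N : ℝ) * b i)
        rw [e4]
        constructor <;> linarith
      refine lt_of_le_of_lt hle (lt_of_lt_of_le hNK ?_)
      rw [← mul_assoc]
      exact mul_le_mul_of_nonneg_right hfpos (by positivity))
  refine ⟨r, step_one d hd (cat f d) v hv hcoef0 (N * b0) (by positivity) r ?_, ?_⟩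
  · rw [hM, eval_add, eval_C, eval_map_algebraMap] at hr1
    push_cast
    exact hr1
  · rw [dist_eq_norm]
    exact lt_of_le_of_lt hr2 (by rw [hδ]; linarith)

/-! ### third step: a power with negative real part -/

theorem exists_pow_re_neg (z : ℂ) (hz : z ≠ (‖z‖ : ℂ)) : ∃ h : ℕ, 1 ≤ h ∧ (z ^ h).re < 0 := by
  by_contra hcon
  push Not at hcon
  have hz0 : 0 < ‖z‖ := by
    rw [norm_pos_iff]
    rintro rfl
    simp at hz
  set w : ℂ := z / ‖z‖ with hw
  have hw1 : ‖w‖ = 1 := by
    rw [hw, norm_div, Complex.norm_real, norm_norm, div_self hz0.ne']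
  have hzw : ∀ h : ℕ, z ^ h = ((‖z‖ ^ h : ℝ) : ℂ) * w ^ h := by
    intro h
    have : (‖z‖ : ℂ) ≠ 0 := by exact_mod_cast hz0.ne'
    rw [hw, div_pow]
    push_cast
    field_simp
  have hre : ∀ h : ℕ, 1 ≤ h → 0 ≤ (w ^ h).re := by
    intro h hh
    have h1 := hcon h hh
    rw [hzw, Complex.re_ofReal_mul] at h1
    by_contra hc
    push Not at hc
    have := mul_neg_of_pos_of_neg (pow_pos hz0 h) hc
    linarith
  have hsq : ∀ u : ℂ, ‖u‖ = 1 → (u ^ 2).re = 2 * u.re ^ 2 - 1 := by
    intro u hu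
    have h1 : u.re ^ 2 + u.im ^ 2 = 1 := by
      have h2 := Complex.sq_norm u
      rw [hu, Complex.normSq_apply] at h2
      nlinarith
    rw [pow_two, Complex.mul_re]
    nlinarith
  have hgrow : ∀ k : ℕ, (2 : ℝ) ^ k * (1 - w.re) ≤ 1 - (w ^ 2 ^ k).re := by
    intro k
    induction k with
    | zero => simp
    | succ k ih =>
      have h1 := hre (2 ^ k) (Nat.one_le_two_pow)
      have h2 : (w ^ 2 ^ (k + 1)).re = 2 * (w ^ 2 ^ k).re ^ 2 - 1 := by
        rw [pow_succ 2 k, pow_mul]
        exact hsq _ (by rw [norm_pow, hw1, one_pow])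
      have h3 : (w ^ 2 ^ k).re ≤ 1 := by
        have h4 := Complex.re_le_norm (w ^ 2 ^ k)
        rwa [norm_pow, hw1, one_pow] at h4
      rw [h2, pow_succ]
      nlinarith
  have hw2 : w.re < 1 := by
    have h3 : w.re ≤ 1 := by
      have h4 := Complex.re_le_norm w
      rwa [hw1] at h4
    refine lt_of_le_of_ne h3 fun h5 => hz ?_
    have h6 : w = 1 := by
      have h7 : w.re ^ 2 + w.im ^ 2 = 1 := by
        have h8 := Complex.sq_norm w
        rw [hw1, Complex.normSq_apply] at h8
        nlinarith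
      have h9 : w.im = 0 := by
        rw [h5] at h7
        nlinarith
      exact Complex.ext h5 h9
    have h10 := hzw 1
    rw [pow_one, pow_one, pow_one, h6, mul_one] at h10
    exact h10
  obtain ⟨k, hk⟩ := pow_unbounded_of_one_lt (1 / (1 - w.re)) (one_lt_two)
  have h1 := hgrow k
  have h2 := hre (2 ^ k) (Nat.one_le_two_pow)
  have h3 : 0 < 1 - w.re := by linarith
  rw [div_lt_iff₀ h3] at hk
  linarith

theorem mem_closure_of_ne (z : ℂ) (hz : z ≠ (‖z‖ : ℂ)) : z ∈ closure treeRoots := by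
  obtain ⟨h, hh, hre⟩ := exists_pow_re_neg z hz
  refine step_two (2 * h) (by omega) (Complex.normSq (z ^ h))
    (fun i => if i + 1 = h then -2 * (z ^ h).re else if i + 1 = 2 * h then 1 else 0)
    (Complex.normSq_nonneg _) (fun i => ?_) ?_ z ?_
  · split_ifs
    · linarith
    · norm_num
    · norm_num
  · rw [if_neg (by omega), if_pos (by omega)]
    norm_num
  · have h1 : ∑ i ∈ Finset.range (2 * h), (((if i + 1 = h then -2 * (z ^ h).re else
        if i + 1 = 2 * h then 1 else 0 : ℝ)) : ℂ) * z ^ (i + 1) =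
        -2 * (z ^ h).re * z ^ h + z ^ (2 * h) := by
      rw [Finset.sum_eq_add (h - 1) (2 * h - 1) (by omega)]
      · rw [if_pos (by omega), if_neg (by omega), if_pos (by omega)]
        rw [show h - 1 + 1 = h by omega, show 2 * h - 1 + 1 = 2 * h by omega]
        push_cast
        ring
      · rintro i _ ⟨hi1, hi2⟩
        rw [if_neg (by omega), if_neg (by omega)]
        simp
      · intro hni
        exact absurd (Finset.mem_range.2 (by omega)) hni
      · intro hni
        exact absurd (Finset.mem_range.2 (by omega)) hni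
    rw [h1]
    set u := z ^ h with hu
    have h2 : z ^ (2 * h) = u ^ 2 := by rw [hu, ← pow_mul]; ring_nf
    rw [h2]
    apply Complex.ext
    · simp only [Complex.normSq_apply, pow_two, Complex.add_re, Complex.mul_re, Complex.ofReal_re,
        Complex.ofReal_im, Complex.zero_re, Complex.neg_re, Complex.neg_im, Complex.re_ofNat,
        Complex.im_ofNat, Complex.mul_im]
      ring
    · simp only [Complex.normSq_apply, pow_two, Complex.add_im, Complex.mul_re, Complex.ofReal_re,
        Complex.ofReal_im, Complex.zero_im, Complex.neg_re, Complex.neg_im, Complex.re_ofNat,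
        Complex.im_ofNat, Complex.mul_im]
      ring

/-- The Wiener roots of trees are dense in the complex plane, and so are the Wiener roots of
connected graphs. -/
theorem result : closure treeRoots = Set.univ ∧ closure connRoots = Set.univ := by
  have h1 : closure treeRoots = Set.univ := by
    rw [Set.eq_univ_iff_forall]
    intro z
    by_cases hz : z = (‖z‖ : ℂ)
    · rw [← closure_closure, Metric.mem_closure_iff]
      intro ε hε
      refine ⟨z + ((ε / 2 : ℝ) : ℂ) * Complex.I, mem_closure_of_ne _ ?_, ?_⟩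
      · intro h2
        have h3 := congrArg Complex.im h2
        have h4 := congrArg Complex.im hz
        simp only [Complex.add_im, Complex.mul_im, Complex.ofReal_re, Complex.I_im,
          Complex.ofReal_im, Complex.I_re] at h3 h4
        rw [h4] at h3
        linarith
      · rw [dist_eq_norm]
        have h5 : z - (z + ((ε / 2 : ℝ) : ℂ) * Complex.I) = -(((ε / 2 : ℝ) : ℂ) * Complex.I) := by
          ring
        rw [h5, norm_neg, norm_mul, Complex.norm_I, Complex.norm_real, Real.norm_eq_abs,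
          abs_of_pos (by linarith)]
        linarith
    · exact mem_closure_of_ne z hz
  refine ⟨h1, ?_⟩
  have h2 : treeRoots ⊆ connRoots := by
    rintro z ⟨V, hV, G, hG, hc, hz⟩
    exact ⟨V, hV, G, hG.1, hc, hz⟩
  have h3 := closure_mono h2
  rw [h1] at h3
  exact Set.univ_subset_iff.1 h3

end Pool.Agent.Results.MP_dc0d33_co.Dense
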