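import Mathlib

/-!
# MP_e7e597_an: no function of `‖dev₃ log U‖²` is Legendre-Hadamard elliptic on `GL⁺(3)`

Let `F = diag(18, 1, 18⁻⁴)`. Along each of the two rank-one lines `F + t e₁ ⊗ e₂` and
`F + t (3, -1, 0) ⊗ (3, 1, 0)` the first derivative of `K = ‖dev₃ log U‖²` vanishes at `t = 0`, while the
second derivative is positive on the first line and negative on the second one. So the second
derivative of `W(K)` at `t = 0` is `W'(K(F))` times a positive number on the first line, and times a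
negative number on the second one.
-/

set_option autoImplicit false

namespace Pool.Agent.Results.MP_e7e597_an.NoEllipticEnergy

open Matrix Filter Topology

/-- real `3 × 3` matrices -/
abbrev M3 := Matrix (Fin 3) (Fin 3) ℝ

/-- `U = √(Fᵀ F)` (functional calculus of symmetric matrices) -/
noncomputable def stretch (F : M3) : M3 := cfc Real.sqrt (Fᵀ * F)

/-- `log U` (functional calculus of symmetric matrices) -/
noncomputable def logStretch (F : M3) : M3 := cfc Real.log (stretch F)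

/-- `dev₃ X = X - (tr X / 3) 1` -/
noncomputable def dev (X : M3) : M3 := X - (X.trace / 3) • (1 : M3)

/-- `K(F) = ‖dev₃ log U‖²`, where `‖X‖² = tr (X Xᵀ)` -/
noncomputable def K (F : M3) : ℝ := (dev (logStretch F) * (dev (logStretch F))ᵀ).trace

/-- `F ↦ W(K(F))` is Legendre-Hadamard elliptic on `GL⁺(3)` -/
def LHElliptic (W : ℝ → ℝ) : Prop :=
  ∀ F : M3, 0 < F.det → ∀ ξ η : Fin 3 → ℝ, ξ ≠ 0 → η ≠ 0 →
    0 < deriv (deriv fun t : ℝ => W (K (F + t • vecMulVec ξ η))) 0

/-! ### The formula for `K` -/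

lemma herm (F : M3) : (Fᵀ * F).IsHermitian := by
  unfold Matrix.IsHermitian
  rw [conjTranspose_eq_transpose_of_trivial, transpose_mul, transpose_transpose]

lemma trace_cfc {A : M3} (hA : A.IsHermitian) (f : ℝ → ℝ) :
    (cfc f A).trace = ∑ i, f (hA.eigenvalues i) := by
  rw [hA.cfc_eq, IsHermitian.cfc, Unitary.conjStarAlgAut_apply, trace_mul_comm, ← mul_assoc]
  simp [trace_diagonal]

lemma cont {A : M3} (f : ℝ → ℝ) : ContinuousOn f (spectrum ℝ A) :=
  (finite_real_spectrum (A := A)).continuousOn f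

lemma logStretch_eq (F : M3) : logStretch F = cfc (fun x => Real.log (Real.sqrt x)) (Fᵀ * F) := by
  unfold logStretch stretch
  rw [← cfc_comp' Real.log Real.sqrt (Fᵀ * F)
    (((finite_real_spectrum (A := Fᵀ * F)).image _).continuousOn _) (cont _) (herm F).isSelfAdjoint]

/-- `U` is symmetric -/
lemma stretch_symm (F : M3) : (stretch F)ᵀ = stretch F := by
  have h : IsSelfAdjoint (stretch F) := by
    unfold stretch
    exact cfc_predicate _ _
  rw [← conjTranspose_eq_transpose_of_trivial]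
  exact h

lemma spec_pos {F : M3} (hF : 0 < F.det) : ∀ x ∈ spectrum ℝ (Fᵀ * F), 0 < x := by
  intro x hx
  have hpd : (Fᵀ * F).PosDef := by
    rw [← conjTranspose_eq_transpose_of_trivial]
    exact PosDef.conjTranspose_mul_self F (mulVec_injective_of_isUnit
      ((isUnit_iff_isUnit_det F).2 hF.ne'.isUnit))
  rw [(herm F).spectrum_real_eq_range_eigenvalues] at hx
  obtain ⟨i, rfl⟩ := hx
  exact hpd.eigenvalues_pos i

/-- `U² = Fᵀ F` -/
lemma stretch_sq (F : M3) (hF : 0 < F.det) : stretch F * stretch F = Fᵀ * F := by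
  unfold stretch
  rw [← cfc_mul _ _ (Fᵀ * F) (cont _) (cont _)]
  conv_rhs => rw [← cfc_id ℝ (Fᵀ * F) (herm F).isSelfAdjoint]
  exact cfc_congr fun x hx => Real.mul_self_sqrt (spec_pos hF x hx).le

open scoped Matrix.Norms.L2Operator in
/-- `exp (log U) = U` -/
lemma exp_logStretch (F : M3) (hF : 0 < F.det) : NormedSpace.exp (logStretch F) = stretch F := by
  have hs : IsSelfAdjoint (logStretch F) := by
    unfold logStretch
    exact cfc_predicate _ _
  rw [← CFC.real_exp_eq_normedSpace_exp hs, logStretch_eq,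
    ← cfc_comp' Real.exp _ (Fᵀ * F) (Real.continuous_exp.continuousOn) (cont _)
      (herm F).isSelfAdjoint]
  unfold stretch
  exact cfc_congr fun x hx => Real.exp_log (Real.sqrt_pos.2 (spec_pos hF x hx))

lemma log_herm (F : M3) : (logStretch F)ᵀ = logStretch F := by
  have h : IsSelfAdjoint (logStretch F) := by
    unfold logStretch
    exact cfc_predicate _ _
  rw [← conjTranspose_eq_transpose_of_trivial]
  exact h

lemma K_eq (F : M3) : K F = ∑ i, Real.log (Real.sqrt ((herm F).eigenvalues i)) ^ 2 -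
    (∑ i, Real.log (Real.sqrt ((herm F).eigenvalues i))) ^ 2 / 3 := by
  have h1 : (logStretch F).trace = ∑ i, Real.log (Real.sqrt ((herm F).eigenvalues i)) := by
    rw [logStretch_eq, trace_cfc (herm F)]
  have h2 : (logStretch F * logStretch F).trace =
      ∑ i, Real.log (Real.sqrt ((herm F).eigenvalues i)) ^ 2 := by
    rw [logStretch_eq, ← cfc_mul _ _ (Fᵀ * F) (cont _) (cont _), trace_cfc (herm F)]
    exact Finset.sum_congr rfl fun i _ => by ring
  unfold K dev
  rw [transpose_sub, log_herm, transpose_smul, transpose_one, ← h1, ← h2]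
  set L := logStretch F
  simp only [sub_mul, mul_sub, trace_sub, smul_mul_assoc, mul_smul_comm, trace_smul, one_mul,
    mul_one, trace_one, Fintype.card_fin, smul_eq_mul]
  push_cast
  ring

/-- the matrix with the block `(p, q; r, s)` and the third diagonal entry `l` -/
def bl (p q r s l : ℝ) : M3 := !![p, q, 0; r, s, 0; 0, 0, l]

lemma K_block {p q r s l δ : ℝ} (hD : 0 < p * s - q * r) (hl : 0 < l)
    (hδ : Real.cosh δ = (p ^ 2 + q ^ 2 + r ^ 2 + s ^ 2) / (2 * (p * s - q * r))) :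
    K (bl p q r s l) = δ ^ 2 / 2 + (Real.log (p * s - q * r) - 2 * Real.log l) ^ 2 / 6 := by
  set D := p * s - q * r with hDd
  have hA : (bl p q r s l)ᵀ * bl p q r s l =
      !![p ^ 2 + r ^ 2, p * q + r * s, 0; p * q + r * s, q ^ 2 + s ^ 2, 0; 0, 0, l ^ 2] := by
    unfold bl
    ext i j
    fin_cases i <;> fin_cases j <;> simp [mul_apply, Fin.sum_univ_three] <;> ring
  have hsum : D * Real.exp δ + D * Real.exp (-δ) = p ^ 2 + q ^ 2 + r ^ 2 + s ^ 2 := by
    have h1 : D * Real.exp δ + D * Real.exp (-δ) = 2 * D * Real.cosh δ := by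
      rw [Real.cosh_eq]; ring
    rw [h1, hδ]
    field_simp
  have hprod : D * Real.exp δ * (D * Real.exp (-δ)) = D ^ 2 := by
    have h1 : Real.exp δ * Real.exp (-δ) = 1 := by rw [← Real.exp_add]; simp
    calc D * Real.exp δ * (D * Real.exp (-δ)) = D ^ 2 * (Real.exp δ * Real.exp (-δ)) := by ring
      _ = D ^ 2 := by rw [h1, mul_one]
  set x1 := D * Real.exp δ with hx1
  set x2 := D * Real.exp (-δ) with hx2
  have hx1p : 0 < x1 := by positivity
  have hx2p : 0 < x2 := by positivity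
  have hchar : ((bl p q r s l)ᵀ * bl p q r s l).charpoly =
      (Polynomial.X - Polynomial.C x1) * (Polynomial.X - Polynomial.C x2) *
        (Polynomial.X - Polynomial.C (l ^ 2)) := by
    rw [hA]
    have e : (Polynomial.X - Polynomial.C x1) * (Polynomial.X - Polynomial.C x2) =
        Polynomial.X ^ 2 - Polynomial.C (p ^ 2 + q ^ 2 + r ^ 2 + s ^ 2) * Polynomial.X +
          Polynomial.C (D ^ 2) := by
      rw [← hsum, ← hprod]
      simp only [Polynomial.C_add, Polynomial.C_mul]
      ring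
    rw [e, Matrix.charpoly, det_fin_three]
    simp only [charmatrix_apply, hDd]
    simp [diagonal]
    ring
  have hroots : ((bl p q r s l)ᵀ * bl p q r s l).charpoly.roots = {x1, x2, l ^ 2} := by
    rw [hchar]
    rw [Polynomial.roots_mul, Polynomial.roots_mul, Polynomial.roots_X_sub_C,
      Polynomial.roots_X_sub_C, Polynomial.roots_X_sub_C]
    · rfl
    · exact mul_ne_zero (Polynomial.X_sub_C_ne_zero _) (Polynomial.X_sub_C_ne_zero _)
    · exact mul_ne_zero (mul_ne_zero (Polynomial.X_sub_C_ne_zero _) (Polynomial.X_sub_C_ne_zero _))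
        (Polynomial.X_sub_C_ne_zero _)
  have hms := (herm (bl p q r s l)).roots_charpoly_eq_eigenvalues
  rw [hroots] at hms
  have hf : ∀ f : ℝ → ℝ, ∑ i, f ((herm (bl p q r s l)).eigenvalues i) = f x1 + f x2 + f (l ^ 2) := by
    intro f
    have h1 := congrArg (fun m : Multiset ℝ => (m.map f).sum) hms
    simp only [Multiset.map_map] at h1
    have h2 : (Multiset.map f {x1, x2, l ^ 2}).sum = f x1 + f x2 + f (l ^ 2) := by
      simp [add_assoc]
    rw [h2] at h1
    rw [h1]
    rfl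
  rw [K_eq, hf (fun x => Real.log (Real.sqrt x) ^ 2), hf (fun x => Real.log (Real.sqrt x))]
  have l1 : Real.log (Real.sqrt x1) = (Real.log D + δ) / 2 := by
    rw [Real.log_sqrt hx1p.le, hx1, Real.log_mul hD.ne' (Real.exp_pos _).ne', Real.log_exp]
  have l2 : Real.log (Real.sqrt x2) = (Real.log D - δ) / 2 := by
    rw [Real.log_sqrt hx2p.le, hx2, Real.log_mul hD.ne' (Real.exp_pos _).ne', Real.log_exp]
    ring
  have l3 : Real.log (Real.sqrt (l ^ 2)) = Real.log l := by
    rw [Real.sqrt_sq hl.le]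
  rw [l1, l2, l3]
  ring

/-! ### The second derivative of `W(K)` at a critical point of `K` -/

lemma second {W k k' : ℝ → ℝ} {a x : ℝ} (hx : k 0 = x) (hW : ∀ᶠ y in 𝓝 x, DifferentiableAt ℝ W y)
    (hWc : ContinuousAt (deriv W) x) (hk : ∀ᶠ t in 𝓝 (0 : ℝ), HasDerivAt k (k' t) t)
    (h0 : k' 0 = 0) (hk2 : HasDerivAt k' a 0) :
    deriv (deriv fun t => W (k t)) 0 = deriv W x * a := by
  have hk0 : HasDerivAt k (k' 0) 0 := hk.self_of_nhds
  have hkc : ContinuousAt k 0 := hk0.continuousAt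
  have hW' : ∀ᶠ t in 𝓝 (0 : ℝ), DifferentiableAt ℝ W (k t) := by
    have := hkc.tendsto
    rw [hx] at this
    exact this.eventually hW
  have h1 : (deriv fun t => W (k t)) =ᶠ[𝓝 0] fun t => deriv W (k t) * k' t := by
    filter_upwards [hk, hW'] with t h1 h2
    exact (h2.hasDerivAt.comp t h1).deriv
  rw [h1.deriv_eq]
  have hg : ContinuousAt (fun t => deriv W (k t)) 0 := by
    have : ContinuousAt (deriv W) (k 0) := by rw [hx]; exact hWc
    exact this.comp hkc
  have h2 : HasDerivAt (fun t => deriv W (k t) * k' t) (deriv W x * a) 0 := by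
    rw [hasDerivAt_iff_tendsto_slope]
    have h3 := (hasDerivAt_iff_tendsto_slope.1 hk2)
    have h4 : Tendsto (fun t => deriv W (k t)) (𝓝[≠] 0) (𝓝 (deriv W x)) := by
      have := hg.tendsto
      simp only [hx] at this
      exact this.mono_left nhdsWithin_le_nhds
    refine (h4.mul h3).congr fun t => ?_
    simp only [slope_def_field, h0, mul_zero, sub_zero]
    ring
  exact h2.deriv

/-! ### The two lines -/

lemma sq_sub {c : ℝ} (hc : c = 325 / 36) : Real.sqrt (c ^ 2 - 1) = 323 / 36 := by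
  rw [hc, show (325 / 36 : ℝ) ^ 2 - 1 = (323 / 36) ^ 2 by norm_num]
  exact Real.sqrt_sq (by norm_num)

lemma arcosh_val : Real.arcosh (325 / 36) = Real.log 18 := by
  unfold Real.arcosh
  rw [sq_sub rfl]
  norm_num

/-- the value of `K` at `diag(18, 1, 18⁻⁴)` -/
noncomputable def K0 : ℝ := Real.log 18 ^ 2 / 2 + (9 * Real.log 18) ^ 2 / 6

lemma log_l : Real.log (1 / 18 ^ 4) = -(4 * Real.log 18) := by
  rw [one_div, Real.log_inv, Real.log_pow]
  norm_num

lemma log18 : 133 / 51 < Real.log 18 := by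
  have h1 : Real.log (2 ^ 4) < Real.log 18 := Real.log_lt_log (by norm_num) (by norm_num)
  rw [Real.log_pow] at h1
  have := Real.log_two_gt_d9
  push_cast at h1
  linarith

/-- first line: `F + t e₁ ⊗ e₂` -/
lemma line1 {W : ℝ → ℝ} (hW : ∀ᶠ y in 𝓝 K0, DifferentiableAt ℝ W y)
    (hWc : ContinuousAt (deriv W) K0) :
    ∃ a : ℝ, 0 < a ∧ deriv (deriv fun t : ℝ => W (K (bl 18 t 0 1 (1 / 18 ^ 4)))) 0 =
      deriv W K0 * a := by
  set c : ℝ → ℝ := fun t => (325 + t ^ 2) / 36 with hc
  set k : ℝ → ℝ := fun t => Real.arcosh (c t) ^ 2 / 2 + (9 * Real.log 18) ^ 2 / 6 with hk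
  set k' : ℝ → ℝ := fun t => Real.arcosh (c t) * ((Real.sqrt (c t ^ 2 - 1))⁻¹ * (2 * t / 36))
    with hk'
  have hc1 : ∀ t, 1 < c t := fun t => by
    simp only [hc]
    rw [lt_div_iff₀ (by norm_num)]
    nlinarith [sq_nonneg t]
  have hKk : ∀ t, K (bl 18 t 0 1 (1 / 18 ^ 4)) = k t := by
    intro t
    have h1 : Real.cosh (Real.arcosh (c t)) =
        (18 ^ 2 + t ^ 2 + 0 ^ 2 + 1 ^ 2) / (2 * (18 * 1 - t * 0)) := by
      rw [Real.cosh_arcosh (hc1 t).le]
      simp only [hc]
      ring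
    rw [K_block (by norm_num) (by norm_num) h1, log_l]
    simp only [hk]
    norm_num
    ring
  have hdc : ∀ t, HasDerivAt c (2 * t / 36) t := by
    intro t
    have := ((hasDerivAt_pow 2 t).const_add 325).div_const 36
    simpa using this
  have hda : ∀ t, HasDerivAt (fun t => Real.arcosh (c t))
      ((Real.sqrt (c t ^ 2 - 1))⁻¹ * (2 * t / 36)) t := fun t =>
    (Real.hasDerivAt_arcosh (hc1 t)).comp t (hdc t)
  have hdk : ∀ t, HasDerivAt k (k' t) t := by
    intro t
    have h1 := (((hda t).pow 2).div_const 2).add_const ((9 * Real.log 18) ^ 2 / 6)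
    refine h1.congr_deriv ?_
    simp only [hk']
    push_cast
    ring
  have hc0 : c 0 = 325 / 36 := by simp [hc]
  have hcs : ∀ t, c t ^ 2 - 1 ≠ 0 := fun t => by nlinarith [hc1 t]
  have hd2 : HasDerivAt k' (Real.log 18 * ((323 / 36)⁻¹ * (2 / 36))) 0 := by
    have h1 : HasDerivAt (fun t : ℝ => Real.sqrt (c t ^ 2 - 1)) _ 0 :=
      (((hdc 0).pow 2).sub_const 1).sqrt (hcs 0)
    have h2 : HasDerivAt (fun t : ℝ => 2 * t / 36) (2 / 36) 0 := by
      have := ((hasDerivAt_id (0 : ℝ)).const_mul 2).div_const 36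
      simpa using this
    have h3 := (hda 0).mul ((h1.inv (by rw [sq_sub hc0]; norm_num)).mul h2)
    refine h3.congr_deriv ?_
    simp only [Pi.mul_apply, Pi.inv_apply, hc0, arcosh_val]
    norm_num
  have hk0 : k 0 = K0 := by simp only [hk, hc0, arcosh_val, K0]
  refine ⟨Real.log 18 * ((323 / 36)⁻¹ * (2 / 36)), ?_, ?_⟩
  · have := log18
    positivity
  · simp only [hKk]
    exact second hk0 hW hWc (Eventually.of_forall hdk) (by simp [hk']) hd2

/-- second line: `F + t (3, -1, 0) ⊗ (3, 1, 0)` -/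
lemma line2 {W : ℝ → ℝ} (hW : ∀ᶠ y in 𝓝 K0, DifferentiableAt ℝ W y)
    (hWc : ContinuousAt (deriv W) K0) :
    ∃ a : ℝ, a < 0 ∧
      deriv (deriv fun t : ℝ => W (K (bl (18 + 9 * t) (3 * t) (-(3 * t)) (1 - t) (1 / 18 ^ 4)))) 0 =
      deriv W K0 * a := by
  set c : ℝ → ℝ := fun t => (325 + 322 * t + 100 * t ^ 2) / (36 - 18 * t) with hc
  set c' : ℝ → ℝ := fun t => (17442 + 7200 * t - 1800 * t ^ 2) / (36 - 18 * t) ^ 2 with hc'
  set g : ℝ → ℝ := fun t => Real.log (18 - 9 * t) + 8 * Real.log 18 with hg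
  set k : ℝ → ℝ := fun t => Real.arcosh (c t) ^ 2 / 2 + g t ^ 2 / 6 with hk
  set k' : ℝ → ℝ := fun t => Real.arcosh (c t) * ((Real.sqrt (c t ^ 2 - 1))⁻¹ * c' t)
    + g t * (-9 / (18 - 9 * t)) / 3 with hk'
  have hev : ∀ᶠ t in 𝓝 (0 : ℝ), -1 < t ∧ t < 1 :=
    (eventually_gt_nhds (by norm_num)).and (eventually_lt_nhds (by norm_num))
  have hc1 : ∀ t : ℝ, -1 < t → t < 1 → 1 < c t := fun t h1 h2 => by
    simp only [hc]
    rw [lt_div_iff₀ (by linarith)]
    nlinarith [mul_pos (show 0 < 10 * t + 17 by linarith) (show 0 < 10 * t + 17 by linarith)]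
  have hKk : ∀ t, -1 < t → t < 1 →
      K (bl (18 + 9 * t) (3 * t) (-(3 * t)) (1 - t) (1 / 18 ^ 4)) = k t := by
    intro t ht1 ht2
    have hD : (18 + 9 * t) * (1 - t) - 3 * t * (-(3 * t)) = 18 - 9 * t := by ring
    have h1 : Real.cosh (Real.arcosh (c t)) =
        ((18 + 9 * t) ^ 2 + (3 * t) ^ 2 + (-(3 * t)) ^ 2 + (1 - t) ^ 2) /
          (2 * ((18 + 9 * t) * (1 - t) - 3 * t * (-(3 * t)))) := by
      rw [Real.cosh_arcosh (hc1 t ht1 ht2).le, hD]
      simp only [hc]
      rw [show (2 : ℝ) * (18 - 9 * t) = 36 - 18 * t by ring]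
      congr 1
      ring
    rw [K_block (by rw [hD]; linarith) (by norm_num) h1, log_l, hD]
    simp only [hk, hg]
    ring
  have hdc : ∀ t, -1 < t → t < 1 → HasDerivAt c (c' t) t := by
    intro t _ ht2
    have hne : (36 : ℝ) - 18 * t ≠ 0 := by linarith
    have h1 : HasDerivAt (fun t : ℝ => 325 + 322 * t + 100 * t ^ 2) (322 + 200 * t) t := by
      have := (((hasDerivAt_id t).const_mul 322).const_add 325).add
        ((hasDerivAt_pow 2 t).const_mul 100)
      refine this.congr_deriv ?_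
      push_cast
      ring
    have h2 : HasDerivAt (fun t : ℝ => 36 - 18 * t) (-18) t := by
      have := ((hasDerivAt_id t).const_mul 18).const_sub 36
      simpa using this
    refine (h1.div h2 hne).congr_deriv ?_
    simp only [hc']
    congr 1
    ring
  have hda : ∀ t, -1 < t → t < 1 → HasDerivAt (fun t => Real.arcosh (c t))
      ((Real.sqrt (c t ^ 2 - 1))⁻¹ * c' t) t := fun t h1 h2 =>
    (Real.hasDerivAt_arcosh (hc1 t h1 h2)).comp t (hdc t h1 h2)
  have hdg : ∀ t, -1 < t → t < 1 → HasDerivAt g (-9 / (18 - 9 * t)) t := by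
    intro t _ ht2
    have h2 : HasDerivAt (fun t : ℝ => 18 - 9 * t) (-9) t := by
      have := ((hasDerivAt_id t).const_mul 9).const_sub 18
      simpa using this
    exact (h2.log (by linarith)).add_const _
  have hdk : ∀ t, -1 < t → t < 1 → HasDerivAt k (k' t) t := by
    intro t ht1 ht2
    have h1 := (((hda t ht1 ht2).pow 2).div_const 2).add (((hdg t ht1 ht2).pow 2).div_const 6)
    refine h1.congr_deriv ?_
    simp only [hk']
    push_cast
    ring
  have hc0 : c 0 = 325 / 36 := by simp [hc]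
  have hc'0 : c' 0 = 17442 / 1296 := by simp only [hc']; norm_num
  have hg0 : g 0 = 9 * Real.log 18 := by simp only [hg]; norm_num; ring
  have hcs : c 0 ^ 2 - 1 ≠ 0 := by rw [hc0]; norm_num
  have hd2 : HasDerivAt k' (7 / 3 - 17 / 19 * Real.log 18) 0 := by
    have hz1 : (-1 : ℝ) < 0 := by norm_num
    have hz2 : (0 : ℝ) < 1 := by norm_num
    have h1 : HasDerivAt (fun t : ℝ => Real.sqrt (c t ^ 2 - 1)) _ 0 :=
      (((hdc 0 hz1 hz2).pow 2).sub_const 1).sqrt hcs
    have h2 : HasDerivAt c' (1369 / 72) 0 := by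
      have a1 : HasDerivAt (fun t : ℝ => 17442 + 7200 * t - 1800 * t ^ 2) (7200 - 3600 * 0) 0 := by
        have := (((hasDerivAt_id (0 : ℝ)).const_mul 7200).const_add 17442).sub
          ((hasDerivAt_pow 2 (0 : ℝ)).const_mul 1800)
        refine this.congr_deriv ?_
        push_cast
        ring
      have a2 : HasDerivAt (fun t : ℝ => (36 - 18 * t) ^ 2) (2 * (36 - 18 * 0) * (-18)) 0 := by
        have := (((hasDerivAt_id (0 : ℝ)).const_mul 18).const_sub 36).pow 2
        refine this.congr_deriv ?_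
        simp
      refine (a1.div a2 (by norm_num)).congr_deriv ?_
      norm_num
    have h4 : HasDerivAt (fun t : ℝ => -9 / (18 - 9 * t)) (-(1 / 4)) 0 := by
      have a2 : HasDerivAt (fun t : ℝ => 18 - 9 * t) (-9) 0 := by
        have := ((hasDerivAt_id (0 : ℝ)).const_mul 9).const_sub 18
        simpa using this
      refine ((hasDerivAt_const (0 : ℝ) (-9 : ℝ)).div a2 (by norm_num)).congr_deriv ?_
      norm_num
    have h3 := ((hda 0 hz1 hz2).mul ((h1.inv (by rw [sq_sub hc0]; norm_num)).mul h2)).add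
      (((hdg 0 hz1 hz2).mul h4).div_const 3)
    refine h3.congr_deriv ?_
    simp only [Pi.mul_apply, Pi.inv_apply, hc0, hc'0, hg0, arcosh_val, sq_sub (rfl : (325 / 36 : ℝ) = 325 / 36)]
    norm_num
    ring
  have hk0 : k 0 = K0 := by simp only [hk, hc0, hg0, arcosh_val, K0]
  have hk'0 : k' 0 = 0 := by
    simp only [hk', hc0, hc'0, hg0, arcosh_val, sq_sub (rfl : (325 / 36 : ℝ) = 325 / 36)]
    norm_num
    ring
  refine ⟨7 / 3 - 17 / 19 * Real.log 18, ?_, ?_⟩
  · have := log18
    linarith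
  · have he : (fun t : ℝ => W (K (bl (18 + 9 * t) (3 * t) (-(3 * t)) (1 - t) (1 / 18 ^ 4)))) =ᶠ[𝓝 0]
        fun t => W (k t) := by
      filter_upwards [hev] with t ht
      rw [hKk t ht.1 ht.2]
    rw [he.deriv.deriv_eq]
    exact second hk0 hW hWc (hev.mono fun t ht => hdk t ht.1 ht.2) hk'0 hd2

/-- There is no twice continuously differentiable `W : [0, ∞) → ℝ` for which
`F ↦ W(‖dev₃ log U‖²)` is Legendre-Hadamard elliptic on `GL⁺(3)`. (The first part only checks the
definitions of `U = stretch F` and `log U = logStretch F`: both are symmetric, `U² = Fᵀ F` and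
`exp (log U) = U`.) -/
theorem result :
    (∀ F : M3, 0 < F.det → (stretch F)ᵀ = stretch F ∧ stretch F * stretch F = Fᵀ * F ∧
      (logStretch F)ᵀ = logStretch F ∧ NormedSpace.exp (logStretch F) = stretch F) ∧
    ¬ ∃ W : ℝ → ℝ, ContDiffOn ℝ 2 W (Set.Ici 0) ∧ LHElliptic W := by
  refine ⟨fun F hF => ⟨stretch_symm F, stretch_sq F hF, log_herm F, exp_logStretch F hF⟩, ?_⟩
  rintro ⟨W, hW, hE⟩
  have hK0 : 0 < K0 := by
    have := log18
    unfold K0
    positivity
  have hd : ∀ᶠ y in 𝓝 K0, DifferentiableAt ℝ W y := by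
    filter_upwards [eventually_gt_nhds hK0] with y hy
    exact ((hW.contDiffAt (Ici_mem_nhds hy)).differentiableAt (by norm_num))
  have hc : ContinuousAt (deriv W) K0 := by
    have h1 : ContDiffAt ℝ 2 W K0 := hW.contDiffAt (Ici_mem_nhds hK0)
    exact (h1.derivWithin (m := 1) (by norm_num)).continuousAt
  have hdet : 0 < (bl 18 0 0 1 (1 / 18 ^ 4)).det := by
    unfold bl
    rw [det_fin_three]
    simp
  obtain ⟨a, ha, h1⟩ := line1 hd hc
  obtain ⟨b, hb, h2⟩ := line2 hd hc
  have e1 : ∀ t : ℝ, bl 18 0 0 1 (1 / 18 ^ 4) + t • vecMulVec ![1, 0, 0] ![0, 1, 0] =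
      bl 18 t 0 1 (1 / 18 ^ 4) := by
    intro t
    unfold bl
    ext i j
    fin_cases i <;> fin_cases j <;> simp [vecMulVec]
  have e2 : ∀ t : ℝ, bl 18 0 0 1 (1 / 18 ^ 4) + t • vecMulVec ![3, -1, 0] ![3, 1, 0] =
      bl (18 + 9 * t) (3 * t) (-(3 * t)) (1 - t) (1 / 18 ^ 4) := by
    intro t
    unfold bl
    ext i j
    fin_cases i <;> fin_cases j <;> simp [vecMulVec] <;> ring
  have g1 := hE _ hdet ![1, 0, 0] ![0, 1, 0]
    (fun h => by simpa using congrFun h 0) (fun h => by simpa using congrFun h 1)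
  have g2 := hE _ hdet ![3, -1, 0] ![3, 1, 0]
    (fun h => by simpa using congrFun h 0) (fun h => by simpa using congrFun h 0)
  simp only [e1] at g1
  simp only [e2] at g2
  rw [h1] at g1
  rw [h2] at g2
  have hp : 0 < deriv W K0 := (mul_pos_iff_of_pos_right ha).1 g1
  nlinarith

end Pool.Agent.Results.MP_e7e597_an.NoEllipticEnergy
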