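import Pool.Agent.Q195.MB1
import Pool.Agent.Q195.LUR1
import Pool.Agent.Q195.MBDefs

set_option autoImplicit false

open Pool.Agent.Q195.MBD Pool.Agent.Q195.MB

namespace Pool.Agent.Results.MP_ea77cd_an.NoLUR

/-- Over the real or complex field there is a Banach space with an extended M-basis on which no
equivalent norm is locally uniformly convex. -/
theorem result (𝕜 : Type) [RCLike 𝕜] :
    ∃ (E : Type) (_ : NormedAddCommGroup E) (_ : NormedSpace 𝕜 E) (_ : CompleteSpace E) (I : Type)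
      (x : I → E) (f : I → E →L[𝕜] 𝕜), IsExtMBasis x f ∧
      ∀ p : Seminorm 𝕜 E, EquivNorm p → ¬ LocallyUniformlyConvex p := by
  obtain ⟨f, h1, h2, h3, h4⟩ := mbasis (𝕜 := 𝕜)
  refine ⟨Sp 𝕜, inferInstance, inferInstance, inferInstance, ℕ ⊕ Gam 𝕜, xv, f, ⟨h1, h2, h3, h4⟩, ?_⟩
  rintro p ⟨c, C, hc, hp⟩ hL
  let ι : Linf 𝕜 →ₗ[𝕜] Sp 𝕜 := LinearMap.inl 𝕜 (Linf 𝕜) (L1G 𝕜)
  have hι : ∀ d, ‖ι d‖ = ‖d‖ := by
    intro d
    show ‖((d, 0) : Sp 𝕜)‖ = ‖d‖
    rw [Prod.norm_mk, norm_zero, max_eq_left (norm_nonneg _)]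
  refine Pool.Agent.Q195.LUR.no_LUR (p.comp ι) c C hc ?_ ?_
  · intro d
    have := hp (ι d)
    rw [hι] at this
    exact this
  · intro y ys hy hys hplus
    have h5 := hL (ι y) (fun n => ι (ys n)) hy hys (by
      refine hplus.congr (fun n => ?_)
      show p (ι (ys n + y)) = p (ι (ys n) + ι y)
      rw [map_add ι])
    refine h5.congr (fun n => ?_)
    show p (ι (ys n) - ι y) = p (ι (ys n - y))
    rw [map_sub ι]

end Pool.Agent.Results.MP_ea77cd_an.NoLUR
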