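import Pool.Agent.Q181.BS.Main

/-!
# The space of contraction semigroups is a Baire space

`ContractionSemigroup H` and `semDist` are defined in `Pool/Agent/Q181/BS/Main.lean`.
-/

set_option autoImplicit false

namespace Pool.Agent.Results.MP_eb8260_an.BaireContractionSemigroups

open Pool.Agent.Q181.BS

/-- **Positive answer to Q1.**  Let `x₁, x₂, …` be a dense sequence of nonzero vectors of a complex
Hilbert space `H`.  Then `d` is a metric on the set of contraction `C₀`-semigroups on `H`, and the
metric space so obtained is a Baire space. -/
theorem result (H : Type*) [NormedAddCommGroup H] [InnerProductSpace ℂ H] [CompleteSpace H]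
    (x : ℕ → H) (hx : DenseRange x) (hx0 : ∀ i, x i ≠ 0) :
    ∃ m : MetricSpace (ContractionSemigroup H),
      (∀ T S, m.dist T S = semDist x T S) ∧
      @BaireSpace _ m.toPseudoMetricSpace.toUniformSpace.toTopologicalSpace :=
  ⟨semMetric x hx hx0, fun _ _ => rfl, baire hx hx0⟩

end Pool.Agent.Results.MP_eb8260_an.BaireContractionSemigroups
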