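import Mathlib
import Pool.Agent.Q281.MG.TutteEq

set_option autoImplicit false

/-!
# Outerplanarity is not determined by the Tutte polynomial (MP_f03b0a_co, Q1)
-/

namespace Pool.Agent.Results.MP_f03b0a_co.Outerplanarity

open Pool.Agent.Q281.MG

/-- The chords joining the points number `a, b` and `c, d` on a circle cross, the smallest of
the four numbers being one of `a, b`. -/
def Cross (a b c d : ℕ) : Prop :=
  min a b < min c d ∧ min c d < max a b ∧ max a b < max c d

instance (a b c d : ℕ) : Decidable (Cross a b c d) := by unfold Cross; infer_instance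

/-- A graph with vertex set `Fin n` is outerplanar: its vertices can be placed on a circle (the
vertex `v` at position number `π v`) such that no two edges, drawn as chords, cross. -/
def Outerplanar {n m : ℕ} (G : MGraph (Fin n) (Fin m)) : Prop :=
  ∃ π : Equiv.Perm (Fin n), ∀ e f : Fin m,
    ¬ Cross (π (G.src e)) (π (G.dst e)) (π (G.src f)) (π (G.dst f))

/-- The outerplanar graph. -/
def GG : MGraph (Fin 6) (Fin 10) where
  src := ![0, 0, 0, 2, 0, 3, 3, 4, 4, 5]
  dst := ![1, 1, 2, 1, 3, 4, 4, 1, 5, 1]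

/-- The graph that is not outerplanar. -/
def HH : MGraph (Fin 6) (Fin 10) where
  src := ![0, 0, 0, 2, 3, 3, 4, 3, 5, 5]
  dst := ![1, 1, 2, 3, 1, 4, 1, 5, 1, 1]

theorem listG : (List.finRange 10).map (pr GG) =
    [(0,1),(0,1),(0,2),(2,1),(0,3),(3,4),(3,4),(4,1),(4,5),(5,1)] := by decide +kernel

theorem listH : (List.finRange 10).map (pr HH) =
    [(0,1),(0,1),(0,2),(2,3),(3,1),(3,4),(4,1),(3,5),(5,1),(5,1)] := by decide +kernel

theorem range6 : List.range 6 = [0, 1, 2, 3, 4, 5] := by decide +kernel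

theorem key : go leafT [(0,1),(0,1),(0,2),(2,1),(0,3),(3,4),(3,4),(4,1),(4,5),(5,1)]
      [0, 1, 2, 3, 4, 5] [] =
    go leafT [(0,1),(0,1),(0,2),(2,3),(3,1),(3,4),(4,1),(3,5),(5,1),(5,1)]
      [0, 1, 2, 3, 4, 5] [] := by
  decide +kernel

theorem tutte_GH : GG.tutte = HH.tutte := by
  apply tutte_eq_of
  · rw [comps_univ, comps_univ, listG, listH, range6]
    decide +kernel
  · rw [listG, listH, range6]
    exact key

theorem outer_G : Outerplanar GG := by
  refine ⟨Equiv.swap 1 2 * Equiv.swap 3 5, ?_⟩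
  decide +kernel

theorem not_outer_H : ¬ Outerplanar HH := by
  have h : ∀ π : Equiv.Perm (Fin 6), ∃ e f : Fin 10,
      Cross (π (HH.src e)) (π (HH.dst e)) (π (HH.src f)) (π (HH.dst f)) := by
    decide +kernel
  rintro ⟨π, hπ⟩
  obtain ⟨e, f, hef⟩ := h π
  exact hπ e f hef

/-- There are two graphs with the same Tutte polynomial, one outerplanar and the other not. -/
theorem result : ∃ (n m : ℕ) (G H : MGraph (Fin n) (Fin m)),
    G.tutte = H.tutte ∧ Outerplanar G ∧ ¬ Outerplanar H :=
  ⟨6, 10, GG, HH, tutte_GH, outer_G, not_outer_H⟩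

end Pool.Agent.Results.MP_f03b0a_co.Outerplanarity
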