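import Pool.Agent.Q204.TFM.SA4

/-!
# The Thomas–Fermi molecular energy minus the atomic energies is not superadditive

For every `k ≥ 2` and every choice of distinct positions of the nuclei.
-/

set_option autoImplicit false
open MeasureTheory

namespace Pool.Agent.Results.MP_f156ce_mp.NotSuperadditive

/-- Euclidean three-space. -/
abbrev Space := EuclideanSpace ℝ (Fin 3)

/-- `ρ ≥ 0`, `∫ ρ < ∞` and `∫ ρ^{5/3} < ∞`. -/
def Admissible (ρ : Space → ℝ) : Prop :=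
  (∀ x, 0 ≤ ρ x) ∧ Integrable ρ ∧ Integrable (fun x => ρ x ^ (5/3 : ℝ))

/-- The Thomas–Fermi functional of the nuclei of charges `z j` at the points `R j`. -/
noncomputable def functional {k : ℕ} (z : Fin k → ℝ) (R : Fin k → Space) (ρ : Space → ℝ) : ℝ :=
  3/5 * (∫ x, ρ x ^ (5/3 : ℝ)) - (∫ x, (∑ j, z j / ‖x - R j‖) * ρ x)
    + 1/2 * (∫ x, ∫ y, ρ x * ρ y / ‖x - y‖)
    + ∑ i, ∑ j ∈ Finset.Ioi i, z i * z j / ‖R i - R j‖

/-- The neutral Thomas–Fermi energy `e(z)`. -/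
noncomputable def energy {k : ℕ} (z : Fin k → ℝ) (R : Fin k → Space) : ℝ :=
  sInf {E | ∃ ρ, Admissible ρ ∧ (∫ x, ρ x) = ∑ j, z j ∧ functional z R ρ = E}

/-- The energy of a single nucleus. -/
noncomputable def atomic (z : ℝ) : ℝ := energy (fun _ : Fin 1 => z) (fun _ => 0)

/-- The molecular energy minus the atomic energies. -/
noncomputable def excess {k : ℕ} (R : Fin k → Space) (z : Fin k → ℝ) : ℝ :=
  energy z R - ∑ j, atomic (z j)

open Pool.Agent.Helper557.TFP Pool.Agent.H9R2.TF Pool.Agent.Q204.TFM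

lemma energy_eq {k : ℕ} (z : Fin k → ℝ) (R : Fin k → Space) :
    energy z R = en z R (∑ j, z j) := by
  unfold energy en
  congr 1
  ext E
  constructor
  · rintro ⟨ρ, hρ, hm, hE⟩
    obtain ⟨σ, hσ, hae⟩ := AA_mod hρ
    refine ⟨σ, hσ, by rw [← integral_congr_ae hae, hm], ?_⟩
    have h1 : FE z R ρ + Urep z R = E := hE
    have h2 : xi z R σ = FE z R σ + Urep z R := rfl
    rw [h2, ← FE_congr hae, h1]
  · rintro ⟨ρ, hρ, hm, hE⟩
    exact ⟨ρ, ⟨hρ.2.1, hρ.2.2.1, hρ.2.2.2⟩, hm, hE⟩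

lemma excess_eq {k : ℕ} (z : Fin k → ℝ) (R : Fin k → Space) : excess R z = Pool.Agent.Q204.TFM.FF R z := by
  unfold excess Pool.Agent.Q204.TFM.FF atomic at'
  simp only [energy_eq, Fin.sum_univ_one]

/-- **Superadditivity fails for every molecule.**  For all `k ≥ 2` and all distinct points
`R_1, …, R_k` the function `z ↦ e(z) - ∑ e^at(z_j)` is not superadditive on `ℝ^k_+`. -/
theorem result : ∀ (k : ℕ), 2 ≤ k → ∀ R : Fin k → Space, Function.Injective R →
    ∃ z₁ z₂ : Fin k → ℝ, (∀ i, 0 ≤ z₁ i) ∧ (∀ i, 0 ≤ z₂ i) ∧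
      excess R (z₁ + z₂) < excess R z₁ + excess R z₂ := by
  intro k hk R hR
  obtain ⟨z₁, z₂, h₁, h₂, h⟩ := no_SA hk R hR
  exact ⟨z₁, z₂, h₁, h₂, by rw [excess_eq, excess_eq, excess_eq]; exact h⟩

end Pool.Agent.Results.MP_f156ce_mp.NotSuperadditive
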