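import Mathlib

/-!
# Deleting vertices of a forest to get two vertices of maximum degree

For a finite graph `G`, `delNum G` is the least number of vertices whose deletion leaves a graph
which has two vertices of maximum degree or fewer than two vertices.  With
`N t = (t^3 + 6 t^2 + 17 t + 12) / 6` we prove that every forest on at most `N t` vertices has
`delNum ≤ t`, and that some forest on `N t + 1` vertices has `delNum ≥ t + 1`.
-/

set_option autoImplicit false

namespace Pool.Agent.Results.MP_fe24f9_co.ForestThreshold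

open Finset SimpleGraph
open scoped Classical

/-- `H` has at least two vertices of maximum degree, or fewer than two vertices. -/
def Good {W : Type} [Fintype W] (H : SimpleGraph W) : Prop :=
  (∃ u v : W, u ≠ v ∧ H.degree u = H.maxDegree ∧ H.degree v = H.maxDegree) ∨
    Fintype.card W < 2

/-- The least number of vertices of `G` whose deletion leaves a graph with at least two vertices
of maximum degree, or with fewer than two vertices. -/
noncomputable def delNum {V : Type} [Fintype V] (G : SimpleGraph V) : ℕ :=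
  sInf {k | ∃ B : Finset V, B.card = k ∧ Good (G.induce {v : V | v ∉ B})}

/-- The threshold. -/
def N (t : ℕ) : ℕ := (t ^ 3 + 6 * t ^ 2 + 17 * t + 12) / 6

/-! ### Set formulation -/

section Sets

variable {V : Type} [Fintype V] (G : SimpleGraph V)

/-- degree of `v` in `G - B` -/
noncomputable def dg (B : Finset V) (v : V) : ℕ := (G.neighborFinset v \ B).card

theorem degree_induce' (B : Finset V) (v : V) (hv : v ∉ B)
    [Fintype ((G.induce {v : V | v ∉ B}).neighborSet ⟨v, hv⟩)] :
    (G.induce {v : V | v ∉ B}).degree ⟨v, hv⟩ = dg G B v := by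
  have h := map_neighborFinset_induce (G := G) (s := {v : V | v ∉ B}) ⟨v, hv⟩
  unfold dg
  rw [← card_neighborFinset_eq_degree]
  have h2 : (G.neighborFinset v \ B) = G.neighborFinset v ∩ ({v : V | v ∉ B} : Set V).toFinset := by
    ext x; simp
  rw [h2]
  have h3 := congrArg Finset.card h
  rw [Finset.card_map] at h3
  convert h3 using 2
  ext x
  simp only [mem_neighborFinset]

theorem good_iff' {W : Type} [Fintype W] (H : SimpleGraph W) :
    Good H ↔ (∃ u v : W, u ≠ v ∧ H.degree u = H.degree v ∧ ∀ w, H.degree w ≤ H.degree u) ∨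
      Fintype.card W < 2 := by
  unfold Good
  refine or_congr ?_ Iff.rfl
  constructor
  · rintro ⟨u, v, huv, h1, h2⟩
    exact ⟨u, v, huv, by rw [h1, h2], fun w => by rw [h1]; exact H.degree_le_maxDegree w⟩
  · rintro ⟨u, v, huv, h1, h2⟩
    have h3 : H.maxDegree = H.degree u :=
      le_antisymm (H.maxDegree_le_of_forall_degree_le _ h2) (H.degree_le_maxDegree u)
    exact ⟨u, v, huv, h3.symm, by rw [h3, h1]⟩

theorem good_iff (B : Finset V) : Good (G.induce {v : V | v ∉ B}) ↔
    (∃ u v : V, u ∉ B ∧ v ∉ B ∧ u ≠ v ∧ dg G B u = dg G B v ∧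
      ∀ w, w ∉ B → dg G B w ≤ dg G B u) ∨
      Fintype.card ({v : V | v ∉ B} : Set V) < 2 := by
  rw [good_iff']
  refine or_congr ?_ Iff.rfl
  constructor
  · rintro ⟨⟨u, hu⟩, ⟨v, hv⟩, huv, h1, h2⟩
    rw [degree_induce', degree_induce'] at h1
    refine ⟨u, v, hu, hv, fun hh => huv (Subtype.ext hh), h1, fun w hw => ?_⟩
    have := h2 ⟨w, hw⟩
    rw [degree_induce', degree_induce'] at this
    exact this
  · rintro ⟨u, v, hu, hv, huv, h1, h2⟩
    refine ⟨⟨u, hu⟩, ⟨v, hv⟩, fun hh => huv (congrArg Subtype.val hh), ?_, ?_⟩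
    · rw [degree_induce', degree_induce']; exact h1
    · rintro ⟨w, hw⟩
      rw [degree_induce', degree_induce']; exact h2 w hw

theorem card_sub (B : Finset V) :
    Fintype.card ({v : V | v ∉ B} : Set V) = Fintype.card V - B.card := by
  rw [← Set.toFinset_card]
  have : ({v : V | v ∉ B} : Set V).toFinset = Bᶜ := by ext x; simp
  rw [this, Finset.card_compl]

/-- If `G - B` is not good, it has a unique vertex of maximum degree. -/
theorem exists_unique_max (B : Finset V) (h : ¬ Good (G.induce {v : V | v ∉ B})) :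
    ∃ c, c ∉ B ∧ (∀ w, w ∉ B → w ≠ c → dg G B w < dg G B c) ∧ ∃ w, w ∉ B ∧ w ≠ c := by
  rw [good_iff] at h
  push Not at h
  obtain ⟨h1, h2⟩ := h
  have hne : (Bᶜ : Finset V).Nonempty := by
    have h3 := card_sub B
    rw [← Finset.card_compl] at h3
    rw [← Finset.card_pos]; omega
  obtain ⟨c, hc, hcm⟩ := Finset.exists_max_image Bᶜ (dg G B) hne
  simp only [Finset.mem_compl] at hc hcm
  refine ⟨c, hc, ?_, ?_⟩
  · intro w hw hwc
    have h3 := hcm w hw
    rcases lt_or_eq_of_le h3 with h4 | h4
    · exact h4
    · obtain ⟨x, hx, hx2⟩ := h1 c w hc hw (Ne.symm hwc) h4.symm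
      have := hcm x hx
      omega
  · have h5 : 1 < Fintype.card ({v : V | v ∉ B} : Set V) := by omega
    obtain ⟨⟨w, hw⟩, hwc⟩ := Fintype.exists_ne_of_one_lt_card h5 ⟨c, hc⟩
    exact ⟨w, hw, fun hh => hwc (Subtype.ext hh)⟩

/-- Two distinct maximum vertices of `G - B` make it good. -/
theorem good_of_two (B : Finset V) (u v : V) (hu : u ∉ B) (hv : v ∉ B) (huv : u ≠ v)
    (he : dg G B u = dg G B v) (hm : ∀ w, w ∉ B → dg G B w ≤ dg G B u) :
    Good (G.induce {v : V | v ∉ B}) :=
  (good_iff G B).2 (Or.inl ⟨u, v, hu, hv, huv, he, hm⟩)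

/-- A unique vertex of maximum degree in `G - B`, which has another vertex: not good. -/
theorem not_good_of_unique (B : Finset V) (c : V) (hc : c ∉ B)
    (hm : ∀ w, w ∉ B → w ≠ c → dg G B w < dg G B c) (hw : ∃ w, w ∉ B ∧ w ≠ c) :
    ¬ Good (G.induce {v : V | v ∉ B}) := by
  rw [good_iff]
  rintro (⟨u, v, hu, hv, huv, h1, h2⟩ | h)
  · have hcl := h2 c hc
    by_cases huc : u = c
    · have := hm v hv (by rintro rfl; exact huv huc)
      omega
    · have := hm u hu huc
      omega
  · obtain ⟨w, hw1, hw2⟩ := hw
    have : Nontrivial ({v : V | v ∉ B} : Set V) :=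
      ⟨⟨⟨w, hw1⟩, ⟨c, hc⟩, fun hh => hw2 (congrArg Subtype.val hh)⟩⟩
    have := Fintype.one_lt_card_iff_nontrivial.2 this
    omega

/-- number of edges of `G - B` -/
noncomputable def ed (B : Finset V) : ℕ := (G.edgeFinset.filter (fun e => ∀ v ∈ B, v ∉ e)).card

theorem ed_insert (B : Finset V) (c : V) (hc : c ∉ B) :
    ed G (insert c B) + dg G B c ≤ ed G B := by
  unfold ed dg
  have hinj : Set.InjOn (fun x => s(c, x)) (G.neighborFinset c \ B : Finset V) := by
    intro x _ y _ hxy
    simp only [Sym2.eq_iff] at hxy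
    rcases hxy with ⟨_, h⟩ | ⟨h1, h2⟩
    · exact h
    · rw [← h1, h2]
  rw [← Finset.card_image_of_injOn hinj, ← Finset.card_union_of_disjoint]
  · apply Finset.card_le_card
    intro e he
    simp only [Finset.mem_union, Finset.mem_filter, Finset.mem_image, Finset.mem_sdiff,
      mem_neighborFinset, mem_edgeFinset] at he ⊢
    rcases he with ⟨h1, h2⟩ | ⟨x, ⟨h1, h2⟩, rfl⟩
    · exact ⟨h1, fun v hv => h2 v (Finset.mem_insert_of_mem hv)⟩
    · refine ⟨h1, fun v hv hve => ?_⟩
      rw [Sym2.mem_iff] at hve
      rcases hve with rfl | rfl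
      · exact hc hv
      · exact h2 hv
  · rw [Finset.disjoint_left]
    intro e he1 he2
    simp only [Finset.mem_filter, Finset.mem_image, Finset.mem_sdiff] at he1 he2
    obtain ⟨x, _, rfl⟩ := he2
    exact he1.2 c (Finset.mem_insert_self c B) (Sym2.mem_mk_left c x)

end Sets

/-! ### The upper bound -/

/-- In a forest, two distinct vertices `c`, `c'` have at most one neighbour of `c` in
`{c'} ∪ N(c')`. -/
theorem forest_common {V : Type} [Fintype V] (G : SimpleGraph V) (hG : G.IsAcyclic) (c c' : V)
    (hcc : c ≠ c') :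
    (G.neighborFinset c ∩ insert c' (G.neighborFinset c')).card ≤ 1 := by
  rw [Finset.card_le_one]
  have key : ∀ x y, x ∈ G.neighborFinset c ∩ insert c' (G.neighborFinset c') →
      y ∈ G.neighborFinset c ∩ insert c' (G.neighborFinset c') → x ≠ c' → x = y := by
    intro x y hx hy hxc
    simp only [Finset.mem_inter, Finset.mem_insert, mem_neighborFinset] at hx hy
    have hx2 : G.Adj c' x := by
      rcases hx.2 with h | h
      · exact absurd h hxc
      · exact h
    have hcx := hx.1
    let p : G.Walk c c' := Walk.cons hcx (Walk.cons hx2.symm Walk.nil)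
    have hp : p.IsPath := by
      simp [p, Walk.cons_isPath_iff, hcx.ne, hcc, hxc]
    rcases hy.2 with h | h
    · subst h
      let q : G.Walk c y := Walk.cons hy.1 Walk.nil
      have hq : q.IsPath := by simp [q, hcc]
      have := (hG.subsingleton_path _ _).elim ⟨p, hp⟩ ⟨q, hq⟩
      have h3 := congrArg (fun r : G.Path c y => r.1.length) this
      simp [p, q] at h3
    · let q : G.Walk c c' := Walk.cons hy.1 (Walk.cons h.symm Walk.nil)
      have hq : q.IsPath := by
        have : y ≠ c' := h.ne'
        simp [q, Walk.cons_isPath_iff, hy.1.ne, hcc, this]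
      have := (hG.subsingleton_path _ _).elim ⟨p, hp⟩ ⟨q, hq⟩
      have h3 := congrArg (fun r : G.Path c c' => r.1.support) this
      simp [p, q] at h3
      exact h3
  intro x hx y hy
  by_cases hxc : x = c'
  · by_cases hyc : y = c'
    · rw [hxc, hyc]
    · exact (key y x hy hx hyc).symm
  · exact key x y hx hy hxc

theorem main_induction {V : Type} [Fintype V] (G : SimpleGraph V) (hG : G.IsAcyclic) :
    ∀ (t : ℕ) (B : Finset V),
      (∀ B' : Finset V, B ⊆ B' → B'.card ≤ B.card + t → ¬ Good (G.induce {v : V | v ∉ B'})) →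
      (∃ c, c ∉ B ∧ Nat.choose (t + 2) 2 + 1 ≤ dg G B c) ∧
        (t + 1) + Nat.choose (t + 3) 3 ≤ ed G B := by
  intro t
  induction t with
  | zero =>
    intro B h
    obtain ⟨c, hc, hm, w, hw, hwc⟩ := exists_unique_max G B (h B (Finset.Subset.refl _) (by omega))
    have h1 := hm w hw hwc
    have h2 : 0 < dg G B c := by omega
    unfold dg at h2
    rw [Finset.card_pos] at h2
    obtain ⟨x, hx⟩ := h2
    rw [Finset.mem_sdiff, mem_neighborFinset] at hx
    have hxc : x ≠ c := hx.1.ne'
    have h3 := hm x hx.2 hxc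
    have h4 : 0 < dg G B x := by
      unfold dg
      rw [Finset.card_pos]
      exact ⟨c, by rw [Finset.mem_sdiff, mem_neighborFinset]; exact ⟨hx.1.symm, hc⟩⟩
    have h5 := ed_insert G B c hc
    have e1 : Nat.choose (0 + 2) 2 = 1 := by decide
    have e2 : Nat.choose (0 + 3) 3 = 1 := by decide
    refine ⟨⟨c, hc, ?_⟩, ?_⟩ <;> omega
  | succ t ih =>
    intro B h
    obtain ⟨c, hc, hm, w, hw, hwc⟩ := exists_unique_max G B (h B (Finset.Subset.refl _) (by omega))
    have hcard : (insert c B).card = B.card + 1 := Finset.card_insert_of_notMem hc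
    obtain ⟨⟨c1, hc1, hd1⟩, he1⟩ := ih (insert c B) (by
      intro B' hB' hcB'
      exact h B' ((Finset.subset_insert c B).trans hB') (by omega))
    have hc1B : c1 ∉ B := fun hh => hc1 (Finset.mem_insert_of_mem hh)
    have hc1c : c1 ≠ c := fun hh => hc1 (by rw [hh]; exact Finset.mem_insert_self c B)
    -- the second largest degree
    have hne : ((Finset.univ \ insert c B) : Finset V).Nonempty :=
      ⟨c1, by simp only [Finset.mem_sdiff, Finset.mem_univ, true_and]; exact hc1⟩
    obtain ⟨c2, hc2, hc2m⟩ := Finset.exists_max_image (Finset.univ \ insert c B) (dg G B) hne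
    simp only [Finset.mem_sdiff, Finset.mem_univ, true_and, Finset.mem_insert, not_or] at hc2 hc2m
    have hle1 : dg G B c1 ≤ dg G B c2 := hc2m c1 ⟨hc1c, hc1B⟩
    have hle0 : dg G (insert c B) c1 ≤ dg G B c1 := by
      unfold dg
      exact Finset.card_le_card (Finset.sdiff_subset_sdiff (Finset.Subset.refl _)
        (Finset.subset_insert c B))
    have hlt : dg G B c2 < dg G B c := hm c2 hc2.2 hc2.1
    have hgap : dg G B c2 + (t + 2) ≤ dg G B c := by
      by_contra hcon
      push Not at hcon
      -- the set of neighbours which may be deleted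
      set Y : Finset V := (G.neighborFinset c \ B) \ insert c2 (G.neighborFinset c2) with hY
      have hYc : dg G B c - 1 ≤ Y.card := by
        have h1 := Finset.card_sdiff_add_card_inter (G.neighborFinset c \ B)
          (insert c2 (G.neighborFinset c2))
        have h2 : ((G.neighborFinset c \ B) ∩ insert c2 (G.neighborFinset c2)).card ≤ 1 := by
          refine le_trans (Finset.card_le_card ?_) (forest_common G hG c c2 (Ne.symm hc2.1))
          exact Finset.inter_subset_inter Finset.sdiff_subset (Finset.Subset.refl _)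
        have h3 : (G.neighborFinset c \ B).card = dg G B c := rfl
        rw [← hY] at h1
        omega
      obtain ⟨X, hXY, hXc⟩ := Finset.exists_subset_card_eq
        (show dg G B c - dg G B c2 ≤ Y.card by omega)
      have hXB : Disjoint B X := by
        rw [Finset.disjoint_right]
        intro x hx
        have := hXY hx
        rw [hY, Finset.mem_sdiff, Finset.mem_sdiff] at this
        exact this.1.2
      have hcX : c ∉ X := by
        intro hx
        have := hXY hx
        rw [hY, Finset.mem_sdiff, Finset.mem_sdiff, mem_neighborFinset] at this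
        exact G.loopless.irrefl c this.1.1
      have hc2X : c2 ∉ X := by
        intro hx
        have := hXY hx
        rw [hY, Finset.mem_sdiff] at this
        exact this.2 (Finset.mem_insert_self _ _)
      have hcX' : c ∉ B ∪ X := by simp [hc, hcX]
      have hc2X' : c2 ∉ B ∪ X := by simp [hc2.2, hc2X]
      apply h (B ∪ X) Finset.subset_union_left
        (by rw [Finset.card_union_of_disjoint hXB]; omega)
      have e1 : dg G (B ∪ X) c = dg G B c2 := by
        unfold dg
        have : G.neighborFinset c \ (B ∪ X) = (G.neighborFinset c \ B) \ X := by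
          ext x; simp only [Finset.mem_sdiff, Finset.mem_union]; tauto
        rw [this, Finset.card_sdiff_of_subset]
        · have h3 : (G.neighborFinset c \ B).card = dg G B c := rfl
          have h4 : (G.neighborFinset c2 \ B).card = dg G B c2 := rfl
          omega
        · intro x hx
          have := hXY hx
          rw [hY, Finset.mem_sdiff] at this
          exact this.1
      have e2 : dg G (B ∪ X) c2 = dg G B c2 := by
        unfold dg
        congr 1
        ext x
        simp only [Finset.mem_sdiff, Finset.mem_union, not_or]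
        constructor
        · rintro ⟨h1, h2, _⟩; exact ⟨h1, h2⟩
        · rintro ⟨h1, h2⟩
          refine ⟨h1, h2, fun hx => ?_⟩
          have := hXY hx
          rw [hY, Finset.mem_sdiff] at this
          exact this.2 (Finset.mem_insert_of_mem h1)
      refine good_of_two G (B ∪ X) c c2 hcX' hc2X' (Ne.symm hc2.1) (by rw [e1, e2]) ?_
      intro v hv
      rw [Finset.mem_union, not_or] at hv
      rw [e1]
      by_cases hvc : v = c
      · subst hvc; rw [e1]
      · refine le_trans ?_ (hc2m v ⟨hvc, hv.1⟩)
        unfold dg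
        exact Finset.card_le_card (Finset.sdiff_subset_sdiff (Finset.Subset.refl _)
          Finset.subset_union_left)
    have hch : Nat.choose (t + 1 + 2) 2 = Nat.choose (t + 2) 2 + (t + 2) := by
      have h1 : Nat.choose (t + 3) 2 = Nat.choose (t + 2) 1 + Nat.choose (t + 2) 2 :=
        Nat.choose_succ_succ' (t + 2) 1
      rw [Nat.choose_one_right] at h1
      rw [show t + 1 + 2 = t + 3 by omega]
      omega
    have hch3 : Nat.choose (t + 1 + 3) 3 = Nat.choose (t + 3) 3 + Nat.choose (t + 1 + 2) 2 := by
      have h1 : Nat.choose (t + 4) 3 = Nat.choose (t + 3) 2 + Nat.choose (t + 3) 3 :=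
        Nat.choose_succ_succ' (t + 3) 2
      rw [show t + 1 + 3 = t + 4 by omega, show t + 1 + 2 = t + 3 by omega]
      omega
    have hei := ed_insert G B c hc
    refine ⟨⟨c, hc, by omega⟩, by omega⟩

theorem N_eq (t : ℕ) : N t = t + 1 + Nat.choose (t + 3) 3 := by
  have h : ∀ t : ℕ, 6 * Nat.choose (t + 3) 3 = (t + 3) * (t + 2) * (t + 1) := by
    intro t
    induction t with
    | zero => decide
    | succ t ih =>
      have h1 : Nat.choose (t + 4) 3 = Nat.choose (t + 3) 2 + Nat.choose (t + 3) 3 :=
        Nat.choose_succ_succ' (t + 3) 2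
      have h2 : 2 * Nat.choose (t + 3) 2 = (t + 3) * (t + 2) := by
        rw [Nat.choose_two_right, show t + 3 - 1 = t + 2 by omega]
        exact Nat.two_mul_div_two_of_even (by
          rw [mul_comm]; exact Nat.even_mul_succ_self (t + 2))
      rw [show t + 1 + 3 = t + 4 by omega, h1]
      nlinarith
  unfold N
  have h1 := h t
  have h2 : t ^ 3 + 6 * t ^ 2 + 17 * t + 12 = 6 * (t + 1 + Nat.choose (t + 3) 3) := by
    rw [Nat.mul_add 6, h1]; ring
  rw [h2]
  omega

theorem acyclic_card {V : Type} [Fintype V] [Nonempty V] (G : SimpleGraph V)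
    (hG : G.IsAcyclic) : G.edgeFinset.card + 1 ≤ Fintype.card V := by
  obtain ⟨T, hGT, _, hT⟩ := (connected_top (V := V)).exists_isTree_le_of_le_of_isAcyclic
    (le_top : G ≤ ⊤) hG
  have h1 := hT.card_edgeFinset
  have h2 : G.edgeFinset ⊆ T.edgeFinset := by
    intro e he
    rw [mem_edgeFinset] at he ⊢
    exact edgeSet_mono hGT he
  have := Finset.card_le_card h2
  omega

theorem delNum_le {V : Type} [Fintype V] (G : SimpleGraph V) (t : ℕ) (B : Finset V)
    (hB : B.card ≤ t) (hg : Good (G.induce {v : V | v ∉ B})) : delNum G ≤ t :=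
  le_trans (Nat.sInf_le ⟨B, rfl, hg⟩) hB

theorem delNum_mem {V : Type} [Fintype V] (G : SimpleGraph V) :
    ∃ B : Finset V, B.card = delNum G ∧ Good (G.induce {v : V | v ∉ B}) := by
  have : ({k | ∃ B : Finset V, B.card = k ∧ Good (G.induce {v : V | v ∉ B})} : Set ℕ).Nonempty := by
    refine ⟨_, Finset.univ, rfl, Or.inr ?_⟩
    rw [card_sub]; simp
  exact Nat.sInf_mem this

theorem upper (t : ℕ) (V : Type) [Fintype V] (F : SimpleGraph V) (hF : F.IsAcyclic)
    (hV : Fintype.card V ≤ N t) : delNum F ≤ t := by
  by_contra hcon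
  have hall : ∀ B' : Finset V, ∅ ⊆ B' → B'.card ≤ (∅ : Finset V).card + t →
      ¬ Good (F.induce {v : V | v ∉ B'}) := by
    intro B' _ hc hg
    rw [Finset.card_empty, Nat.zero_add] at hc
    exact hcon (delNum_le F t B' hc hg)
  obtain ⟨⟨c, _, _⟩, h2⟩ := main_induction F hF t ∅ hall
  have : Nonempty V := ⟨c⟩
  have h3 := acyclic_card F hF
  have h4 : ed F ∅ ≤ F.edgeFinset.card := Finset.card_filter_le _ _
  rw [N_eq] at hV
  omega

/-! ### The extremal forest -/

/-- Vertices: a hub, centres `j ≤ t`, and `choose (j+2) 2` leaves at the centre `j`. -/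
inductive XV (t : ℕ) : Type
  | hub : XV t
  | ctr (j : Fin (t + 1)) : XV t
  | leaf (j : Fin (t + 1)) (l : Fin (Nat.choose (j.1 + 2) 2)) : XV t

/-- description of the vertex type -/
def XVequiv (t : ℕ) :
    Option (Σ j : Fin (t + 1), Option (Fin (Nat.choose (j.1 + 2) 2))) ≃ XV t where
  toFun
    | none => XV.hub
    | some ⟨j, none⟩ => XV.ctr j
    | some ⟨j, some l⟩ => XV.leaf j l
  invFun
    | XV.hub => none
    | XV.ctr j => some ⟨j, none⟩
    | XV.leaf j l => some ⟨j, some l⟩
  left_inv := by rintro (_ | ⟨j, _ | l⟩) <;> rfl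
  right_inv := by rintro (_ | j | ⟨j, l⟩) <;> rfl

instance (t : ℕ) : Fintype (XV t) := Fintype.ofEquiv _ (XVequiv t)

/-- the parent relation -/
def par (t : ℕ) : XV t → XV t → Prop
  | XV.ctr _, XV.hub => True
  | XV.leaf j _, XV.ctr i => i = j
  | _, _ => False

/-- depth -/
def dep (t : ℕ) : XV t → ℕ
  | XV.hub => 0
  | XV.ctr _ => 1
  | XV.leaf _ _ => 2

theorem par_dep (t : ℕ) (x y : XV t) (h : par t x y) : dep t x = dep t y + 1 := by
  rcases x with _ | j | ⟨j, l⟩ <;> rcases y with _ | i | ⟨i, k⟩ <;> simp [par, dep] at h ⊢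

theorem par_unique (t : ℕ) (x y z : XV t) (h : par t x y) (h' : par t x z) : y = z := by
  rcases x with _ | j | ⟨j, l⟩ <;> rcases y with _ | i | ⟨i, k⟩ <;>
    rcases z with _ | i' | ⟨i', k'⟩ <;> simp only [par] at h h' ⊢
  subst h; subst h'; rfl

/-- the extremal tree -/
def XG (t : ℕ) : SimpleGraph (XV t) where
  Adj x y := par t x y ∨ par t y x
  symm := ⟨fun x y h => h.symm⟩
  loopless := by
    constructor
    intro x h
    have : par t x x := by rcases h with h | h <;> exact h
    have := par_dep t x x this
    omega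

theorem XG_acyclic (t : ℕ) : (XG t).IsAcyclic := by
  intro v c hc
  -- a vertex of maximum depth on the cycle
  obtain ⟨u, hu, hum⟩ := Finset.exists_max_image c.support.toFinset (dep t)
    ⟨v, by simp⟩
  simp only [List.mem_toFinset] at hu hum
  have hc' : (c.rotate u hu).IsCycle := by rw [Walk.isCycle_rotate]; exact hc
  have hne := hc'.snd_ne_penultimate
  have hnil : ¬ (c.rotate u hu).Nil := hc'.not_nil
  have ha : (XG t).Adj u (c.rotate u hu).snd := (c.rotate u hu).adj_snd hnil
  have hb : (XG t).Adj (c.rotate u hu).penultimate u := (c.rotate u hu).adj_penultimate hnil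
  have hs1 : (c.rotate u hu).snd ∈ c.support := by
    rw [← Walk.mem_support_rotate_iff c u hu]
    exact Walk.getVert_mem_support _ _
  have hs2 : (c.rotate u hu).penultimate ∈ c.support := by
    rw [← Walk.mem_support_rotate_iff c u hu]
    exact Walk.getVert_mem_support _ _
  have h1 := hum _ hs1
  have h2 := hum _ hs2
  apply hne
  apply par_unique t u
  · rcases ha with h | h
    · exact h
    · have := par_dep t _ _ h; omega
  · rcases hb with h | h
    · have := par_dep t _ _ h; omega
    · exact h

theorem card_XV (t : ℕ) : Fintype.card (XV t) = N t + 1 := by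
  have h : ∀ s : ℕ, ∑ j ∈ Finset.range s, (Nat.choose (j + 2) 2 + 1) = s + Nat.choose (s + 2) 3 := by
    intro s
    induction s with
    | zero => simp
    | succ s ih =>
      have h1 : Nat.choose (s + 3) 3 = Nat.choose (s + 2) 2 + Nat.choose (s + 2) 3 :=
        Nat.choose_succ_succ' (s + 2) 2
      rw [Finset.sum_range_succ, ih, show s + 1 + 2 = s + 3 by omega, h1]
      omega
  rw [← Fintype.card_congr (XVequiv t), N_eq, Fintype.card_option, Fintype.card_sigma]
  simp only [Fintype.card_option, Fintype.card_fin]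
  rw [Fin.sum_univ_eq_sum_range (fun j => Nat.choose (j + 2) 2 + 1) (t + 1), h]

theorem dg_leaf (t : ℕ) (B : Finset (XV t)) (j : Fin (t + 1)) (l) :
    dg (XG t) B (XV.leaf j l) ≤ 1 := by
  unfold dg
  rw [Finset.card_le_one]
  intro x hx y hy
  rw [Finset.mem_sdiff, mem_neighborFinset] at hx hy
  have hx := hx.1
  have hy := hy.1
  have key : ∀ z, (XG t).Adj (XV.leaf j l) z → par t (XV.leaf j l) z := by
    intro z hz
    rcases hz with h | h
    · exact h
    · rcases z with _ | i | ⟨i, k⟩ <;> simp [par] at h
  exact par_unique t _ _ _ (key x hx) (key y hy)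

/-- the neighbours of a centre -/
theorem nbr_ctr (t : ℕ) (j : Fin (t + 1)) :
    (XG t).neighborFinset (XV.ctr j) =
      insert XV.hub (Finset.univ.image (fun l => (XV.leaf j l : XV t))) := by
  ext z
  rw [mem_neighborFinset, Finset.mem_insert, Finset.mem_image]
  constructor
  · rintro (h | h)
    · rcases z with _ | i | ⟨i, k⟩
      · left; rfl
      · simp [par] at h
      · simp [par] at h
    · rcases z with _ | i | ⟨i, k⟩
      · left; rfl
      · simp [par] at h
      · right
        simp only [par] at h
        subst h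
        exact ⟨k, Finset.mem_univ _, rfl⟩
  · rintro (rfl | ⟨l, _, rfl⟩)
    · left; trivial
    · right; rfl

theorem card_nbr_ctr (t : ℕ) (j : Fin (t + 1)) :
    ((XG t).neighborFinset (XV.ctr j)).card = Nat.choose (j.1 + 2) 2 + 1 := by
  rw [nbr_ctr, Finset.card_insert_of_notMem (by simp), Finset.card_image_of_injective,
    Finset.card_univ, Fintype.card_fin]
  intro a b hab
  simpa using hab

theorem choose_lin (i j : ℕ) (h : i < j) :
    Nat.choose (i + 2) 2 + (j + 1) ≤ Nat.choose (j + 2) 2 := by
  obtain ⟨j, rfl⟩ : ∃ k, j = k + 1 := ⟨j - 1, by omega⟩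
  have h1 : Nat.choose (j + 3) 2 = Nat.choose (j + 2) 1 + Nat.choose (j + 2) 2 :=
    Nat.choose_succ_succ' (j + 2) 1
  rw [Nat.choose_one_right] at h1
  have h2 : Nat.choose (i + 2) 2 ≤ Nat.choose (j + 2) 2 := Nat.choose_le_choose 2 (by omega)
  rw [show j + 1 + 2 = j + 3 by omega]
  omega

theorem choose_big (j : ℕ) : 2 * j + 1 ≤ Nat.choose (j + 2) 2 := by
  induction j with
  | zero => decide
  | succ j ih =>
    have h1 : Nat.choose (j + 3) 2 = Nat.choose (j + 2) 1 + Nat.choose (j + 2) 2 :=
      Nat.choose_succ_succ' (j + 2) 1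
    rw [Nat.choose_one_right] at h1
    rw [show j + 1 + 2 = j + 3 by omega]
    omega

theorem lower (t : ℕ) : t + 1 ≤ delNum (XG t) := by
  by_contra hcon
  obtain ⟨B, hB, hg⟩ := delNum_mem (XG t)
  have hBt : B.card ≤ t := by omega
  refine absurd hg ?_
  -- the largest centre not in `B`
  set C : Finset (XV t) := Finset.univ.image (XV.ctr (t := t)) with hC
  have hctrinj : Function.Injective (XV.ctr (t := t)) := by
    intro a b hab
    simpa using hab
  have hne : (Finset.univ.filter (fun j => XV.ctr (t := t) j ∉ B)).Nonempty := by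
    by_contra hemp
    rw [Finset.not_nonempty_iff_eq_empty, Finset.filter_eq_empty_iff] at hemp
    have h1 : C ⊆ B := by
      intro x hx
      rw [hC, Finset.mem_image] at hx
      obtain ⟨j, _, rfl⟩ := hx
      simpa using hemp (Finset.mem_univ j)
    have h2 := Finset.card_le_card h1
    rw [hC, Finset.card_image_of_injective _ hctrinj, Finset.card_univ, Fintype.card_fin] at h2
    omega
  obtain ⟨j, hj, hjm⟩ := Finset.exists_max_image _ (fun j : Fin (t + 1) => j) hne
  simp only [Finset.mem_filter, Finset.mem_univ, true_and] at hj hjm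
  -- centres above `j` are in `B`
  set U : Finset (XV t) := (Finset.univ.filter (fun i => j < i)).image (XV.ctr (t := t)) with hU
  have hUB : U ⊆ B := by
    intro x hx
    rw [hU, Finset.mem_image] at hx
    obtain ⟨i, hi, rfl⟩ := hx
    rw [Finset.mem_filter] at hi
    by_contra hh
    exact absurd (hjm i hh) (not_le.2 hi.2)
  have hUc : U.card = t - j.1 := by
    rw [hU, Finset.card_image_of_injective _ hctrinj]
    have : (Finset.univ.filter (fun i => j < i)) = Finset.Ioi j := by ext i; simp
    rw [this, Fin.card_Ioi]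
    omega
  have hjt : j.1 ≤ t := by have := j.2; omega
  have hrest : (B \ U).card ≤ j.1 := by
    rw [Finset.card_sdiff_of_subset hUB]; omega
  -- lower bound for the degree of the centre `j`
  have hlow : Nat.choose (j.1 + 2) 2 + 1 ≤ dg (XG t) B (XV.ctr j) + j.1 := by
    unfold dg
    have h1 := Finset.card_sdiff_add_card_inter ((XG t).neighborFinset (XV.ctr j)) B
    rw [card_nbr_ctr] at h1
    have h2 : ((XG t).neighborFinset (XV.ctr j) ∩ B).card ≤ (B \ U).card := by
      apply Finset.card_le_card
      intro x hx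
      rw [Finset.mem_inter, nbr_ctr] at hx
      rw [Finset.mem_sdiff]
      refine ⟨hx.2, fun hxU => ?_⟩
      rw [hU, Finset.mem_image] at hxU
      obtain ⟨i, _, rfl⟩ := hxU
      simp at hx
    omega
  have hbig := choose_big j.1
  apply not_good_of_unique (XG t) B (XV.ctr j) hj
  · intro w hw hwj
    rcases w with _ | i | ⟨i, l⟩
    · -- the hub
      have h1 : dg (XG t) B XV.hub ≤ j.1 + 1 := by
        unfold dg
        have h2 : (XG t).neighborFinset XV.hub \ B ⊆
            (Finset.univ.filter (fun i => i ≤ j)).image (XV.ctr (t := t)) := by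
          intro x hx
          rw [Finset.mem_sdiff, mem_neighborFinset] at hx
          rw [Finset.mem_image]
          rcases x with _ | i | ⟨i, l⟩
          · exact absurd hx.1 ((XG t).loopless.irrefl _)
          · exact ⟨i, by simpa using hjm i hx.2, rfl⟩
          · rcases hx.1 with h | h <;> simp [par] at h
        refine le_trans (Finset.card_le_card h2) (le_trans Finset.card_image_le ?_)
        have : (Finset.univ.filter (fun i => i ≤ j)) = Finset.Iic j := by ext i; simp
        rw [this, Fin.card_Iic]
      omega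
    · -- another centre
      have hij : i ≠ j := by rintro rfl; exact hwj rfl
      have hij2 : i < j := lt_of_le_of_ne (hjm i hw) hij
      have h1 : dg (XG t) B (XV.ctr i) ≤ Nat.choose (i.1 + 2) 2 + 1 := by
        rw [← card_nbr_ctr t i]
        exact Finset.card_le_card Finset.sdiff_subset
      have h2 := choose_lin i.1 j.1 hij2
      omega
    · have := dg_leaf t B i l
      omega
  · -- another vertex
    have h1 : 0 < dg (XG t) B (XV.ctr j) := by omega
    unfold dg at h1
    rw [Finset.card_pos] at h1
    obtain ⟨x, hx⟩ := h1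
    rw [Finset.mem_sdiff, mem_neighborFinset] at hx
    exact ⟨x, hx.2, hx.1.ne'⟩

/-- Every forest on at most `N t` vertices has `delNum ≤ t`, and for every `t ≥ 1` there is a
forest on `N t + 1` vertices with `delNum ≥ t + 1`. -/
theorem result : ∀ t : ℕ, 1 ≤ t →
    (∀ (V : Type) [Fintype V] (F : SimpleGraph V), F.IsAcyclic →
      Fintype.card V ≤ N t → delNum F ≤ t) ∧
    (∃ (V : Type) (_ : Fintype V) (F : SimpleGraph V), F.IsAcyclic ∧
      Fintype.card V = N t + 1 ∧ t + 1 ≤ delNum F) := by
  intro t _
  exact ⟨fun V _ F hF hV => upper t V F hF hV,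
    ⟨XV t, inferInstance, XG t, XG_acyclic t, card_XV t, lower t⟩⟩

end Pool.Agent.Results.MP_fe24f9_co.ForestThreshold
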