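import Pool.Agent.Q104.RW.Lamp

/-!
# A word that is satisfied by random walks with probability tending to one and is not a law

The group is the subgroup of the permutations of `ℤ × Fin 4` generated by the shift of the first
coordinate and the permutations of the fibre over `0` (the wreath product of the symmetric group of
degree four with `ℤ`). The word is the commutator of `c = [x, y]` and its conjugate by `(x y) ^ 2`.
-/

set_option autoImplicit false

namespace Pool.Agent.Results.MP_ffcf77_al.NotALaw

open Filter Topology Pool.Agent.Q104.RW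

/-- The position `s_1 s_2 ... s_n` of the walk with the steps `s_1, ..., s_n`, which are elements
of `S` or `1`. -/
def position {G : Type} [Group G] {S : Set G} {n : ℕ} (s : Fin n → ↥(insert 1 S : Set G)) : G :=
  (List.ofFn fun j => (s j : G)).prod

/-- The probability that the word `w` in `d` letters is satisfied by `d` independent lazy random
walks of length `n`, with steps that are uniformly distributed on `S ∪ {1}`: the number of the
`d`-tuples of sequences of `n` steps for which `w` takes the value `1` at the positions, divided by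
the number of all `d`-tuples of sequences of `n` steps. -/
noncomputable def satProb {G : Type} [Group G] (S : Set G) {d : ℕ} (w : FreeGroup (Fin d))
    (n : ℕ) : ℝ :=
  (Nat.card {s : Fin d → Fin n → ↥(insert 1 S : Set G) //
    FreeGroup.lift (fun i => position (s i)) w = 1} : ℝ) /
  Nat.card (Fin d → Fin n → ↥(insert 1 S : Set G))

/-- the generators -/
def gens : Set (Equiv.Perm Pt) := insert shift (Set.range lamp)

theorem gens_finite : gens.Finite := (Set.finite_range lamp).insert shift

/-- the group -/
abbrev Gp : Type := ↥(Subgroup.closure gens)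

/-- the generators of the group -/
def S : Set Gp := (fun g : Gp => (g : Equiv.Perm Pt)) ⁻¹' gens

theorem S_finite : S.Finite := gens_finite.preimage Subtype.val_injective.injOn

theorem S_closure : Subgroup.closure S = ⊤ := Subgroup.closure_closure_coe_preimage

/-- the commutator of `c = x y x⁻¹ y⁻¹` and its conjugate by `(x y) ^ 2` -/
def form {G : Type} [Group G] (x y : G) : G :=
  (x * y * (y * x)⁻¹) * ((x * y) ^ 2 * (x * y * (y * x)⁻¹) * ((x * y) ^ 2)⁻¹) *
    (x * y * (y * x)⁻¹)⁻¹ * ((x * y) ^ 2 * (x * y * (y * x)⁻¹) * ((x * y) ^ 2)⁻¹)⁻¹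

/-- the word -/
def word : FreeGroup (Fin 2) := form (FreeGroup.of 0) (FreeGroup.of 1)

theorem map_form {G H : Type} [Group G] [Group H] (f : G →* H) (x y : G) :
    f (form x y) = form (f x) (f y) := by
  simp only [form, map_mul, map_inv, map_pow]

theorem form_eq_one {G : Type} [Group G] {x y : G}
    (h : Commute (x * y * (y * x)⁻¹) ((x * y) ^ 2 * (x * y * (y * x)⁻¹) * ((x * y) ^ 2)⁻¹)) :
    form x y = 1 := by
  unfold form
  rw [h.eq]
  group

theorem lift_word {G : Type} [Group G] (g : Fin 2 → G) :
    FreeGroup.lift g word = form (g 0) (g 1) := by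
  rw [word, map_form, FreeGroup.lift_apply_of, FreeGroup.lift_apply_of]

/-- a product of generators, at least one of which is the shift -/
theorem wd_prod (l : List Gp) (hl : ∀ g ∈ l, g ∈ (insert 1 S : Set Gp)) :
    ∃ m : ℕ, Wd (l.prod : Gp) m ∧ ((∃ g ∈ l, (g : Equiv.Perm Pt) = shift) → 0 < m) := by
  induction l with
  | nil => exact ⟨0, wd_one, by simp⟩
  | cons g l ih =>
    obtain ⟨m, hm, hpos⟩ := ih fun g' hg' => hl g' (List.mem_cons_of_mem _ hg')
    rw [List.prod_cons, Subgroup.coe_mul]
    rcases hl g List.mem_cons_self with hg | hg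
    · have hg1 : (g : Equiv.Perm Pt) = lamp 1 := by
        rw [hg, lamp_one]
        rfl
      refine ⟨0 + m, ?_, ?_⟩
      · rw [hg1]
        exact (wd_lamp 1).mul hm
      · rintro ⟨g', hg', hs⟩
        rcases List.mem_cons.1 hg' with rfl | hg'
        · exfalso
          rw [hg1] at hs
          have h1 := congrArg (fun e : Equiv.Perm Pt => (e (0, 0)).1) hs
          simp [lamp_zero, shift] at h1
        · have := hpos ⟨g', hg', hs⟩
          omega
    · have hg' : (g : Equiv.Perm Pt) = shift ∨ (g : Equiv.Perm Pt) ∈ Set.range lamp := hg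
      rcases hg' with hg1 | ⟨a, ha⟩
      · refine ⟨1 + m, ?_, fun _ => by omega⟩
        rw [hg1]
        exact wd_shift.mul hm
      · refine ⟨0 + m, ?_, ?_⟩
        · rw [← ha]
          exact (wd_lamp a).mul hm
        · rintro ⟨g', hg', hs⟩
          rcases List.mem_cons.1 hg' with rfl | hg'
          · exfalso
            rw [← ha] at hs
            have h1 := congrArg (fun e : Equiv.Perm Pt => (e (0, 0)).1) hs
            simp [lamp_zero, shift] at h1
          · have := hpos ⟨g', hg', hs⟩
            omega

theorem sat_of_shift {n : ℕ} (s : Fin 2 → Fin n → ↥(insert 1 S : Set Gp))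
    (h : ∃ i j, ((s i j : Gp) : Equiv.Perm Pt) = shift) :
    FreeGroup.lift (fun i => position (s i)) word = 1 := by
  rw [lift_word]
  have h1 : ∀ i, ∃ m : ℕ, Wd (position (s i) : Gp) m ∧
      ((∃ j, ((s i j : Gp) : Equiv.Perm Pt) = shift) → 0 < m) := by
    intro i
    obtain ⟨m, hm, hpos⟩ := wd_prod (List.ofFn fun j => (s i j : Gp)) (by
      intro g hg
      obtain ⟨j, rfl⟩ := (List.mem_ofFn' _ _).1 hg
      exact (s i j).2)
    refine ⟨m, hm, fun ⟨j, hj⟩ => hpos ⟨_, (List.mem_ofFn' _ _).2 ⟨j, rfl⟩, hj⟩⟩
  obtain ⟨m, hm, hm'⟩ := h1 0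
  obtain ⟨k, hk, hk'⟩ := h1 1
  have hpos : 0 < m + k := by
    obtain ⟨i, j, hij⟩ := h
    fin_cases i
    · have := hm' ⟨j, hij⟩
      omega
    · have := hk' ⟨j, hij⟩
      omega
  refine Subtype.ext ?_
  have h2 := map_form (Subgroup.closure gens).subtype (position (s 0)) (position (s 1))
  exact h2.trans (form_eq_one (comm_of_wd hm hk hpos))

set_option maxRecDepth 10000 in
theorem not_law : ∃ g : Fin 2 → Gp, FreeGroup.lift g word ≠ 1 := by
  have hmem : ∀ a, lamp a ∈ Subgroup.closure gens := fun a =>
    Subgroup.subset_closure (Set.mem_insert_of_mem _ ⟨a, rfl⟩)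
  let a : Equiv.Perm (Fin 4) := Equiv.swap 2 3
  let b : Equiv.Perm (Fin 4) := Equiv.swap 0 1 * Equiv.swap 1 2
  refine ⟨![⟨lamp a, hmem a⟩, ⟨lamp b, hmem b⟩], fun h => ?_⟩
  rw [lift_word] at h
  have h1 := congrArg (Subgroup.closure gens).subtype h
  rw [map_form, map_one] at h1
  have h2 : lampHom (form a b) = lampHom 1 := by
    rw [map_one, map_form]
    exact h1
  have h3 : form a b = 1 := lamp_inj h2
  revert h3
  decide

/-- **A counterexample.** There are a group `G`, a finite generating set `S` and a word `w` in two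
letters such that the probability that `w` is satisfied by two independent lazy random walks tends
to one, and `w` is not a law of `G`. -/
theorem result : ∃ (G : Type) (_ : Group G) (S : Set G) (w : FreeGroup (Fin 2)),
    S.Finite ∧ Subgroup.closure S = ⊤ ∧ Tendsto (fun n => satProb S w n) atTop (𝓝 1) ∧
      ∃ g : Fin 2 → G, FreeGroup.lift g w ≠ 1 := by
  classical
  refine ⟨Gp, inferInstance, S, word, S_finite, S_closure, ?_, not_law⟩
  have hfin : Finite ↥(insert 1 S : Set Gp) := (S_finite.insert 1).to_subtype
  have hft : Fintype ↥(insert 1 S : Set Gp) := Fintype.ofFinite _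
  let T' : Type := {s : ↥(insert 1 S : Set Gp) // ((s : Gp) : Equiv.Perm Pt) ≠ shift}
  have hsh : shift ∈ Subgroup.closure gens := Subgroup.subset_closure (Set.mem_insert _ _)
  let t : ↥(insert 1 S : Set Gp) := ⟨⟨shift, hsh⟩, Set.mem_insert_of_mem _ (Set.mem_insert _ _)⟩
  have hlt : Fintype.card T' < Fintype.card ↥(insert 1 S : Set Gp) :=
    Fintype.card_subtype_lt (x := t) (by simp [t])
  set k : ℕ := Fintype.card ↥(insert 1 S : Set Gp) with hk
  set k' : ℕ := Fintype.card T' with hk'
  have hkpos : (0 : ℝ) < k := by exact_mod_cast Nat.zero_lt_of_lt hlt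
  have hratio : (k' : ℝ) / k < 1 := by
    rw [div_lt_one hkpos]
    exact_mod_cast hlt
  have hratio0 : (0 : ℝ) ≤ (k' : ℝ) / k := by positivity
  have hlow : ∀ n, 1 - (((k' : ℝ) / k) ^ n) ^ 2 ≤ satProb S word n := by
    intro n
    unfold satProb
    rw [Nat.card_eq_fintype_card, Nat.card_eq_fintype_card]
    have hcompl := Fintype.card_subtype_compl
      (fun s : Fin 2 → Fin n → ↥(insert 1 S : Set Gp) =>
        FreeGroup.lift (fun i => position (s i)) word = 1)
    have hle : Fintype.card {s : Fin 2 → Fin n → ↥(insert 1 S : Set Gp) //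
        FreeGroup.lift (fun i => position (s i)) word = 1} ≤
        Fintype.card (Fin 2 → Fin n → ↥(insert 1 S : Set Gp)) := Fintype.card_subtype_le _
    have hall : Fintype.card (Fin 2 → Fin n → ↥(insert 1 S : Set Gp)) = (k ^ n) ^ 2 := by
      simp [hk]
    have hbad : Fintype.card {s : Fin 2 → Fin n → ↥(insert 1 S : Set Gp) //
        ¬ FreeGroup.lift (fun i => position (s i)) word = 1} ≤ (k' ^ n) ^ 2 := by
      have h1 : Fintype.card (Fin 2 → Fin n → T') = (k' ^ n) ^ 2 := by
        simp [hk']
      rw [← h1]
      refine Fintype.card_le_of_injective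
        (fun s i j => (⟨s.1 i j, fun h => s.2 (sat_of_shift s.1 ⟨i, j, h⟩)⟩ : T')) ?_
      intro s s' h
      apply Subtype.ext
      funext i j
      have h2 := congrFun (congrFun h i) j
      exact congrArg Subtype.val h2
    rw [hcompl, hall] at hbad
    rw [hall] at hle ⊢
    have hbad' : ((k ^ n) ^ 2 : ℝ) ≤ (k' ^ n) ^ 2 +
        Fintype.card {s : Fin 2 → Fin n → ↥(insert 1 S : Set Gp) //
          FreeGroup.lift (fun i => position (s i)) word = 1} := by
      exact_mod_cast Nat.sub_le_iff_le_add.1 hbad
    have hpos : (0 : ℝ) < ((k : ℝ) ^ n) ^ 2 := by positivity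
    push_cast
    rw [le_div_iff₀ hpos, sub_mul, one_mul, div_pow, div_pow, div_mul_cancel₀ _ hpos.ne']
    linarith
  have hup : ∀ n, satProb S word n ≤ 1 := by
    intro n
    unfold satProb
    rw [Nat.card_eq_fintype_card, Nat.card_eq_fintype_card]
    refine div_le_one_of_le₀ ?_ (Nat.cast_nonneg _)
    exact_mod_cast Fintype.card_subtype_le _
  have hlim : Tendsto (fun n : ℕ => 1 - (((k' : ℝ) / k) ^ n) ^ 2) atTop (𝓝 1) := by
    have h1 := (tendsto_pow_atTop_nhds_zero_of_lt_one hratio0 hratio).pow 2
    simpa using h1.const_sub 1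
  exact tendsto_of_tendsto_of_tendsto_of_le_of_le hlim tendsto_const_nhds hlow hup

end Pool.Agent.Results.MP_ffcf77_al.NotALaw
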