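import Pool.Statements.S05362

set_option autoImplicit false
universe u
open Pool Pool.MP_8e0bd6_an

namespace Pool.Agent.S05362

open Set Filter Topology
open scoped ENNReal

/-- The space `ℓ_∞(ι)`. -/
abbrev LI (ι : Type u) := lp (fun _ : ι => ℝ) ∞

section
variable {ι : Type u}

lemma memB (f : ι → ℝ) (C : ℝ) (h : ∀ i, |f i| ≤ C) : Memℓp (E := fun _ : ι => ℝ) f ∞ := by
  apply memℓp_infty
  exact ⟨C, by rintro _ ⟨i, rfl⟩; simpa [Real.norm_eq_abs] using h i⟩

/-- an element of `ℓ_∞` from a bounded function -/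
def mk (f : ι → ℝ) (C : ℝ) (h : ∀ i, |f i| ≤ C) : LI ι := ⟨f, memB f C h⟩

@[simp] lemma mk_apply (f : ι → ℝ) (C : ℝ) (h : ∀ i, |f i| ≤ C) (i : ι) : mk f C h i = f i := rfl

lemma dist_le' {x y : LI ι} {C : ℝ} (hC : 0 ≤ C) (h : ∀ i, |x i - y i| ≤ C) : dist x y ≤ C := by
  rw [dist_eq_norm]
  apply lp.norm_le_of_forall_le hC
  intro i
  simpa [Real.norm_eq_abs] using h i

lemma abs_le_dist (x y : LI ι) (i : ι) : |x i - y i| ≤ dist x y := by
  rw [dist_eq_norm]
  have := lp.norm_apply_le_norm (p := ∞) (by simp) (x - y) i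
  simpa [Real.norm_eq_abs] using this

lemma mem_ball_iff (x : LI ι) : x ∈ Metric.closedBall (0 : LI ι) 1 ↔ ∀ i, |x i| ≤ 1 := by
  rw [Metric.mem_closedBall]
  constructor
  · intro h i
    have := abs_le_dist x 0 i
    simp at this
    exact this.trans (by simpa using h)
  · intro h
    apply dist_le' zero_le_one
    intro i
    simpa using h i

/-- Sine and Soardi for `ℓ_∞(ι)`: the unit ball has the fixed point property for nonexpansive maps. -/
lemma fixed (T : LI ι → LI ι)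
    (hT : MapsTo T (Metric.closedBall (0 : LI ι) 1) (Metric.closedBall (0 : LI ι) 1))
    (hL : LipschitzOnWith 1 T (Metric.closedBall (0 : LI ι) 1)) :
    ∃ x ∈ Metric.closedBall (0 : LI ι) 1, T x = x := by
  classical
  -- boxes
  let P := (ι → ℝ) × (ι → ℝ)ᵒᵈ
  let Good : Set P := {p | (∀ i, -1 ≤ p.1 i) ∧ (∀ i, OrderDual.ofDual p.2 i ≤ 1) ∧
    (∀ i, p.1 i ≤ OrderDual.ofDual p.2 i) ∧
    ∀ x : LI ι, (∀ i, p.1 i ≤ x i ∧ x i ≤ OrderDual.ofDual p.2 i) →
      ∀ i, p.1 i ≤ T x i ∧ T x i ≤ OrderDual.ofDual p.2 i}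
  have hne : ((fun _ => -1 : ι → ℝ), OrderDual.toDual (fun _ => 1 : ι → ℝ)) ∈ Good := by
    refine ⟨fun i => le_rfl, fun i => le_rfl, fun i => by norm_num, ?_⟩
    intro x hx i
    have hx' : x ∈ Metric.closedBall (0 : LI ι) 1 := (mem_ball_iff x).2 fun i => abs_le.2 (hx i)
    exact abs_le.1 ((mem_ball_iff _).1 (hT hx') i)
  obtain ⟨m, -, hmax⟩ := zorn_le_nonempty₀ Good (by
    intro c hc hchain y hy
    refine ⟨((fun i => ⨆ p : c, (p : P).1 i), OrderDual.toDual (fun i => ⨅ p : c,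
      OrderDual.ofDual (p : P).2 i)), ?_, ?_⟩
    · have : Nonempty c := ⟨⟨y, hy⟩⟩
      have hcross : ∀ p q : c, ∀ i, (p : P).1 i ≤ OrderDual.ofDual (q : P).2 i := by
        intro p q i
        rcases hchain.total p.2 q.2 with h | h
        · exact (h.1 i).trans ((hc q.2).2.2.1 i)
        · exact ((hc p.2).2.2.1 i).trans (h.2 i)
      have hb1 : ∀ i, BddAbove (range fun p : c => (p : P).1 i) := fun i =>
        ⟨OrderDual.ofDual y.2 i, by rintro _ ⟨p, rfl⟩; exact hcross p ⟨y, hy⟩ i⟩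
      have hb2 : ∀ i, BddBelow (range fun p : c => OrderDual.ofDual (p : P).2 i) := fun i =>
        ⟨y.1 i, by rintro _ ⟨p, rfl⟩; exact hcross ⟨y, hy⟩ p i⟩
      refine ⟨fun i => ?_, fun i => ?_, fun i => ?_, ?_⟩
      · exact ((hc hy).1 i).trans (le_ciSup (hb1 i) ⟨y, hy⟩)
      · exact (ciInf_le (hb2 i) ⟨y, hy⟩).trans ((hc hy).2.1 i)
      · exact ciSup_le fun p => le_ciInf fun q => hcross p q i
      · intro x hx i
        constructor
        · apply ciSup_le
          intro p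
          exact ((hc p.2).2.2.2 x (fun j => ⟨(le_ciSup (hb1 j) p).trans (hx j).1,
            (hx j).2.trans (ciInf_le (hb2 j) p)⟩) i).1
        · apply le_ciInf
          intro p
          exact ((hc p.2).2.2.2 x (fun j => ⟨(le_ciSup (hb1 j) p).trans (hx j).1,
            (hx j).2.trans (ciInf_le (hb2 j) p)⟩) i).2
    · intro z hz
      have hcross : ∀ p q : c, ∀ i, (p : P).1 i ≤ OrderDual.ofDual (q : P).2 i := by
        intro p q i
        rcases hchain.total p.2 q.2 with h | h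
        · exact (h.1 i).trans ((hc q.2).2.2.1 i)
        · exact ((hc p.2).2.2.1 i).trans (h.2 i)
      constructor
      · intro i
        exact le_ciSup (f := fun p : c => (p : P).1 i)
          ⟨OrderDual.ofDual y.2 i, by rintro _ ⟨p, rfl⟩; exact hcross p ⟨y, hy⟩ i⟩ ⟨z, hz⟩
      · intro i
        exact ciInf_le (f := fun p : c => OrderDual.ofDual (p : P).2 i)
          ⟨y.1 i, by rintro _ ⟨p, rfl⟩; exact hcross ⟨y, hy⟩ p i⟩ ⟨z, hz⟩) _ hne
  set a : ι → ℝ := m.1 with ha
  set b : ι → ℝ := OrderDual.ofDual m.2 with hb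
  have hG := hmax.1
  have h1 : ∀ i, -1 ≤ a i := hG.1
  have h2 : ∀ i, b i ≤ 1 := hG.2.1
  have h3 : ∀ i, a i ≤ b i := hG.2.2.1
  have h4 : ∀ x : LI ι, (∀ i, a i ≤ x i ∧ x i ≤ b i) → ∀ i, a i ≤ T x i ∧ T x i ≤ b i := hG.2.2.2
  have habs : ∀ i, |a i| ≤ 1 := fun i => abs_le.2 ⟨h1 i, (h3 i).trans (h2 i)⟩
  -- maximality
  have hM : ∀ a' b' : ι → ℝ, (∀ i, a i ≤ a' i) → (∀ i, b' i ≤ b i) → (∀ i, a' i ≤ b' i) →
      (∀ x : LI ι, (∀ i, a' i ≤ x i ∧ x i ≤ b' i) → ∀ i, a' i ≤ T x i ∧ T x i ≤ b' i) →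
      (∀ i, a' i ≤ a i) ∧ ∀ i, b i ≤ b' i := by
    intro a' b' e1 e2 e3 e4
    have hle : m ≤ (a', OrderDual.toDual b') := ⟨e1, e2⟩
    have hmem : ((a', OrderDual.toDual b') : P) ∈ Good :=
      ⟨fun i => (h1 i).trans (e1 i), fun i => (e2 i).trans (h2 i), e3, e4⟩
    have hge := hmax.2 hmem hle
    exact ⟨fun i => hge.1 i, fun i => hge.2 i⟩
  -- the point `a` itself
  let xa : LI ι := mk a 1 habs
  have hxa : ∀ i, a i ≤ xa i ∧ xa i ≤ b i := fun i => ⟨le_rfl, h3 i⟩
  -- `T` of the box is coordinatewise spread over the whole box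
  let D : Set (LI ι) := {x | ∀ i, a i ≤ x i ∧ x i ≤ b i}
  have hxaD : xa ∈ D := hxa
  have : Nonempty D := ⟨⟨xa, hxaD⟩⟩
  have hTb : ∀ i, BddAbove (range fun x : D => T x.1 i) := fun i =>
    ⟨b i, by rintro _ ⟨x, rfl⟩; exact (h4 x.1 x.2 i).2⟩
  have hTa : ∀ i, BddBelow (range fun x : D => T x.1 i) := fun i =>
    ⟨a i, by rintro _ ⟨x, rfl⟩; exact (h4 x.1 x.2 i).1⟩
  have key := hM (fun i => ⨅ x : D, T x.1 i) (fun i => ⨆ x : D, T x.1 i)
    (fun i => le_ciInf fun x => (h4 x.1 x.2 i).1)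
    (fun i => ciSup_le fun x => (h4 x.1 x.2 i).2)
    (fun i => (ciInf_le (hTa i) ⟨xa, hxaD⟩).trans (le_ciSup (hTb i) ⟨xa, hxaD⟩))
    (by
      intro x hx i
      have hxD : x ∈ D := fun j => ⟨(le_ciInf fun y : D => (h4 y.1 y.2 j).1).trans (hx j).1,
        (hx j).2.trans (ciSup_le fun y : D => (h4 y.1 y.2 j).2)⟩
      exact ⟨ciInf_le (hTa i) ⟨x, hxD⟩, le_ciSup (hTb i) ⟨x, hxD⟩⟩)
  obtain ⟨hka, hkb⟩ := key
  -- diameter
  rcases isEmpty_or_nonempty ι with hι | hι
  · refine ⟨xa, (mem_ball_iff _).2 habs, ?_⟩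
    ext i
    exact hι.elim i
  have hbd : BddAbove (range fun i => b i - a i) :=
    ⟨2, by rintro _ ⟨i, rfl⟩; have := h1 i; have := h2 i; show b i - a i ≤ 2; linarith⟩
  set δ : ℝ := ⨆ i, (b i - a i) with hδ
  have hδi : ∀ i, b i - a i ≤ δ := fun i => le_ciSup hbd i
  have hδ0 : 0 ≤ δ := by
    obtain ⟨i⟩ := hι
    have := hδi i
    have := h3 i
    linarith
  have hDball : ∀ x ∈ D, x ∈ Metric.closedBall (0 : LI ι) 1 := by
    intro x hx
    refine (mem_ball_iff _).2 fun i => abs_le.2 ⟨(h1 i).trans (hx i).1, (hx i).2.trans (h2 i)⟩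
  have hlip : ∀ x ∈ D, ∀ y ∈ D, dist (T x) (T y) ≤ dist x y := by
    intro x hx y hy
    have := hL.dist_le_mul x (hDball x hx) y (hDball y hy)
    simpa using this
  have key2 := hM (fun i => max (a i) (b i - δ / 2)) (fun i => min (b i) (a i + δ / 2))
    (fun i => le_max_left _ _) (fun i => min_le_left _ _)
    (fun i => by
      have := hδi i
      have := h3 i
      apply max_le <;> apply le_min <;> linarith)
    (by
      intro x hx
      have hxD : x ∈ D := fun j => ⟨(le_max_left _ _).trans (hx j).1,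
        (hx j).2.trans (min_le_left _ _)⟩
      have hnear : ∀ y ∈ D, dist x y ≤ δ / 2 := by
        intro y hy
        apply dist_le' (by linarith)
        intro i
        have q1 := (le_max_right _ _).trans (hx i).1
        have q2 := (hx i).2.trans (min_le_right _ _)
        have q3 := hy i
        rw [abs_le]
        constructor <;> linarith
      have hT' : ∀ y ∈ D, ∀ i, |T x i - T y i| ≤ δ / 2 := by
        intro y hy i
        exact (abs_le_dist _ _ i).trans ((hlip x hxD y hy).trans (hnear y hy))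
      intro i
      have hTx := h4 x hxD i
      constructor
      · apply max_le hTx.1
        have : (⨆ y : D, T y.1 i) ≤ T x i + δ / 2 := by
          apply ciSup_le
          intro y
          have := (abs_le.1 (hT' y.1 y.2 i)).1
          linarith
        have := (hkb i).trans this
        linarith
      · apply le_min hTx.2
        have : T x i - δ / 2 ≤ ⨅ y : D, T y.1 i := by
          apply le_ciInf
          intro y
          have := (abs_le.1 (hT' y.1 y.2 i)).2
          linarith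
        have := this.trans (hka i)
        linarith)
  have hδz : δ ≤ δ / 2 := by
    apply ciSup_le
    intro i
    have := (le_max_right _ _).trans (key2.1 i)
    linarith
  have hab : ∀ i, b i = a i := by
    intro i
    have := hδi i
    have := h3 i
    linarith
  refine ⟨xa, (mem_ball_iff _).2 habs, ?_⟩
  ext i
  have := h4 xa hxa i
  rw [hab i] at this
  show T xa i = a i
  exact le_antisymm this.2 this.1

end

/-! ### `ℓ_∞(ℕ)` contains a bounded closed convex set without the fixed point property -/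

/-- the right shift with a one in front -/
def sh (f : ULift.{u} ℕ → ℝ) : ULift.{u} ℕ → ℝ := fun i =>
  match i.down with
  | 0 => 1
  | n + 1 => f ⟨n⟩

lemma sh_bound (x : LI (ULift.{u} ℕ)) (i : ULift.{u} ℕ) : |sh x i| ≤ max 1 ‖x‖ := by
  rcases i with ⟨_ | n⟩
  · simp [sh]
  · show |x ⟨n⟩| ≤ _
    have := abs_le_dist x 0 ⟨n⟩
    simp at this
    exact this.trans (le_max_right _ _)

/-- the shift as a map of `ℓ_∞` -/
noncomputable def Sh (x : LI (ULift.{u} ℕ)) : LI (ULift.{u} ℕ) := mk (sh x) _ (sh_bound x)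

/-- the set `{0 ≤ x ≤ 1, x → 0}` -/
def C0 : Set (LI (ULift.{u} ℕ)) :=
  {x | (∀ i, 0 ≤ x i ∧ x i ≤ 1) ∧ ∀ ε > 0, ∃ N : ℕ, ∀ n ≥ N, |x ⟨n⟩| < ε}

lemma C0_closed : IsClosed (C0.{u}) := by
  apply isClosed_of_closure_subset
  intro x hx
  rw [Metric.mem_closure_iff] at hx
  constructor
  · intro i
    constructor
    · by_contra h
      push Not at h
      obtain ⟨y, hy, hd⟩ := hx (-(x i)) (by linarith)
      have := (abs_le.1 ((abs_le_dist x y i).trans hd.le)).1
      have h0 := (hy.1 i).1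
      have h' := (abs_lt.1 (lt_of_le_of_lt (abs_le_dist x y i) hd)).1
      linarith
    · by_contra h
      push Not at h
      obtain ⟨y, hy, hd⟩ := hx (x i - 1) (by linarith)
      have h0 := (hy.1 i).2
      have h' := (abs_lt.1 (lt_of_le_of_lt (abs_le_dist x y i) hd)).2
      linarith
  · intro ε hε
    obtain ⟨y, hy, hd⟩ := hx (ε / 2) (by linarith)
    obtain ⟨N, hN⟩ := hy.2 (ε / 2) (by linarith)
    refine ⟨N, fun n hn => ?_⟩
    have h1 := hN n hn
    have h2 := lt_of_le_of_lt (abs_le_dist x y ⟨n⟩) hd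
    have h3 : |x ⟨n⟩| ≤ |x ⟨n⟩ - y ⟨n⟩| + |y ⟨n⟩| := by
      have := abs_add_le (x ⟨n⟩ - y ⟨n⟩) (y ⟨n⟩)
      simpa using this
    linarith

theorem result :
    ¬ (∀ (X : Type u) [NormedAddCommGroup X] [NormedSpace ℝ X] [CompleteSpace X],
      (∃ C : Set X, C.Nonempty ∧ Bornology.IsBounded C ∧ IsClosed C ∧ Convex ℝ C ∧
        ∃ T : X → X, Set.MapsTo T C C ∧ LipschitzOnWith 1 T C ∧ ∀ x ∈ C, T x ≠ x) →
      ∃ T : X → X, Set.MapsTo T (Metric.closedBall (0 : X) 1) (Metric.closedBall (0 : X) 1) ∧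
        LipschitzOnWith 1 T (Metric.closedBall (0 : X) 1) ∧
        ∀ x ∈ Metric.closedBall (0 : X) 1, T x ≠ x) := by
  intro H
  have key := H (LI (ULift.{u} ℕ)) ?_
  · obtain ⟨T, hT, hL, hne⟩ := key
    obtain ⟨x, hx, hfix⟩ := fixed T hT hL
    exact hne x hx hfix
  refine ⟨C0, ?_, ?_, C0_closed, ?_, Sh, ?_, ?_, ?_⟩
  · refine ⟨0, fun i => by simp, fun ε hε => ⟨0, fun n _ => by simpa using hε⟩⟩
  · apply (Metric.isBounded_closedBall (x := (0 : LI (ULift.{u} ℕ))) (r := 1)).subset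
    intro x hx
    exact (mem_ball_iff _).2 fun i => abs_le.2 ⟨by linarith [(hx.1 i).1], (hx.1 i).2⟩
  · intro x hx y hy s t hs ht hst
    have happ : ∀ i, (s • x + t • y) i = s * x i + t * y i := fun i => rfl
    constructor
    · intro i
      rw [happ]
      have hx1 := hx.1 i
      have hy1 := hy.1 i
      constructor
      · have := mul_nonneg hs hx1.1
        have := mul_nonneg ht hy1.1
        linarith
      · have := mul_le_mul_of_nonneg_left hx1.2 hs
        have := mul_le_mul_of_nonneg_left hy1.2 ht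
        linarith
    · intro ε hε
      obtain ⟨N, hN⟩ := hx.2 ε hε
      obtain ⟨M, hM⟩ := hy.2 ε hε
      refine ⟨max N M, fun n hn => ?_⟩
      rw [happ]
      have e1 := hN n ((le_max_left _ _).trans hn)
      have e2 := hM n ((le_max_right _ _).trans hn)
      have e3 : |s * x ⟨n⟩ + t * y ⟨n⟩| ≤ s * |x ⟨n⟩| + t * |y ⟨n⟩| := by
        refine (abs_add_le _ _).trans ?_
        rw [abs_mul, abs_mul, abs_of_nonneg hs, abs_of_nonneg ht]
      have e4 : s * |x ⟨n⟩| + t * |y ⟨n⟩| < ε := by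
        rcases hs.eq_or_lt with h0 | h0
        · have ht1 : t = 1 := by linarith
          rw [← h0, ht1]
          linarith
        · have : s * |x ⟨n⟩| < s * ε := mul_lt_mul_of_pos_left e1 h0
          have : t * |y ⟨n⟩| ≤ t * ε := mul_le_mul_of_nonneg_left e2.le ht
          have : s * ε + t * ε = ε := by rw [← add_mul, hst, one_mul]
          linarith
      linarith
  · intro x hx
    constructor
    · rintro ⟨_ | n⟩
      · show (0 : ℝ) ≤ 1 ∧ (1 : ℝ) ≤ 1
        norm_num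
      · exact hx.1 ⟨n⟩
    · intro ε hε
      obtain ⟨N, hN⟩ := hx.2 ε hε
      refine ⟨N + 1, fun n hn => ?_⟩
      obtain ⟨k, rfl⟩ : ∃ k, n = k + 1 := ⟨n - 1, by omega⟩
      exact hN k (by omega)
  · apply LipschitzOnWith.of_dist_le_mul
    intro x _ y _
    rw [NNReal.coe_one, one_mul]
    apply dist_le' dist_nonneg
    rintro ⟨_ | n⟩
    · show |(1 : ℝ) - 1| ≤ _
      simp
    · exact abs_le_dist x y ⟨n⟩
  · intro x hx hfix
    have hall : ∀ n : ℕ, x ⟨n⟩ = 1 := by
      intro n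
      induction n with
      | zero =>
        have : Sh x ⟨0⟩ = x ⟨0⟩ := by rw [hfix]
        exact this.symm
      | succ n ih =>
        have : Sh x ⟨n + 1⟩ = x ⟨n + 1⟩ := by rw [hfix]
        rw [← this]
        exact ih
    obtain ⟨N, hN⟩ := hx.2 1 one_pos
    have := hN N le_rfl
    rw [hall N] at this
    norm_num at this

end Pool.Agent.S05362
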