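import Pool.Statements.S07091

set_option autoImplicit false
open Pool Pool.MP_0a407b_co

namespace Pool.Agent.S07091

open Finset

/-- The bilinear form of a matrix of weights. -/
noncomputable def B {n : ℕ} (A : Fin n → Fin n → ℝ) (p q : Fin n → ℝ) : ℝ :=
  ∑ u, ∑ v, A u v * (p u * q v)

lemma B_expand {n : ℕ} (A : Fin n → Fin n → ℝ) (p d : Fin n → ℝ) (t : ℝ) :
    B A (fun u => p u + t * d u) (fun u => p u + t * d u)
      = B A p p + t * (B A p d + B A d p) + t ^ 2 * B A d d := by
  unfold B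
  simp only [Finset.mul_sum, ← Finset.sum_add_distrib]
  refine Finset.sum_congr rfl fun u _ => Finset.sum_congr rfl fun v _ => ?_
  ring

/-- indicator -/
noncomputable def ind {n : ℕ} (W : Finset (Fin n)) : Fin n → ℝ := fun u => if u ∈ W then 1 else 0

lemma B_dir {n : ℕ} (A : Fin n → Fin n → ℝ) (hA : ∀ u v, 0 ≤ A u v) (hd : ∀ u, A u u = 0)
    (u v : Fin n) (_ : u ≠ v) :
    B A (fun w => (if w = u then 1 else 0) - (if w = v then 1 else 0))
      (fun w => (if w = u then 1 else 0) - (if w = v then 1 else 0)) ≤ 0 := by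
  have h1 : B A (fun w => (if w = u then 1 else 0) - (if w = v then 1 else 0))
      (fun w => (if w = u then 1 else 0) - (if w = v then 1 else 0))
      = A u u - A u v - A v u + A v v := by
    unfold B
    have : ∀ a b : Fin n, A a b * (((if a = u then (1:ℝ) else 0) - (if a = v then 1 else 0)) *
        ((if b = u then (1:ℝ) else 0) - (if b = v then 1 else 0)))
        = (if a = u then (if b = u then A a b else 0) else 0)
          - (if a = u then (if b = v then A a b else 0) else 0)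
          - (if a = v then (if b = u then A a b else 0) else 0)
          + (if a = v then (if b = v then A a b else 0) else 0) := by
      intro a b
      split_ifs <;> ring
    simp only [this, Finset.sum_add_distrib, Finset.sum_sub_distrib]
    simp
  rw [h1, hd u, hd v]
  have := hA u v
  have := hA v u
  linarith

lemma pipage {n : ℕ} (A : Fin n → Fin n → ℝ) (hA : ∀ u v, 0 ≤ A u v) (hd : ∀ u, A u u = 0)
    (h : ℕ) : ∀ m : ℕ, ∀ p : Fin n → ℝ, (∀ u, 0 ≤ p u) → (∀ u, p u ≤ 1) → ∑ u, p u = h →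
      (univ.filter fun u => p u ≠ 0 ∧ p u ≠ 1).card ≤ m →
      ∃ W : Finset (Fin n), W.card = h ∧ B A (ind W) (ind W) ≤ B A p p := by
  classical
  intro m
  induction m with
  | zero =>
    intro p h0 h1 hs hc
    have hc' : (univ.filter fun u => p u ≠ 0 ∧ p u ≠ 1) = ∅ := by
      rw [← Finset.card_eq_zero]; omega
    have hall : ∀ u, p u = 0 ∨ p u = 1 := by
      intro u
      by_contra hcon
      push Not at hcon
      have : u ∈ (univ.filter fun u => p u ≠ 0 ∧ p u ≠ 1) := by simp [hcon.1, hcon.2]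
      rw [hc'] at this
      simp at this
    refine ⟨univ.filter fun u => p u = 1, ?_, ?_⟩
    · have : (∑ u, p u) = ((univ.filter fun u => p u = 1).card : ℝ) := by
        rw [Finset.card_eq_sum_ones, Nat.cast_sum, Finset.sum_filter]
        refine Finset.sum_congr rfl fun u _ => ?_
        rcases hall u with h | h <;> simp [h]
      rw [hs] at this
      exact_mod_cast this.symm
    · have : ind (univ.filter fun u => p u = 1) = p := by
        funext u
        unfold ind
        rcases hall u with h | h <;> simp [h]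
      rw [this]
  | succ m ih =>
    intro p h0 h1 hs hc
    by_cases hle : (univ.filter fun u => p u ≠ 0 ∧ p u ≠ 1).card ≤ m
    · exact ih p h0 h1 hs hle
    have hne : (univ.filter fun u => p u ≠ 0 ∧ p u ≠ 1).Nonempty := by
      rw [← Finset.card_pos]; omega
    obtain ⟨u, hu⟩ := hne
    have hu' : p u ≠ 0 ∧ p u ≠ 1 := by simpa using hu
    -- second fractional coordinate
    have hex : ∃ v, v ≠ u ∧ p v ≠ 0 ∧ p v ≠ 1 := by
      by_contra hcon
      push Not at hcon
      have hall : ∀ v, v ≠ u → p v = 0 ∨ p v = 1 := by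
        intro v hv
        by_cases h : p v = 0
        · exact Or.inl h
        · exact Or.inr (hcon v hv h)
      have hsum : ∑ w ∈ univ.erase u, p w = (((univ.erase u).filter fun w => p w = 1).card : ℝ) := by
        rw [Finset.card_eq_sum_ones, Nat.cast_sum, Finset.sum_filter]
        refine Finset.sum_congr rfl fun w hw => ?_
        rcases hall w (Finset.ne_of_mem_erase hw) with h | h <;> simp [h]
      have htot : p u + ∑ w ∈ univ.erase u, p w = h := by
        rw [Finset.add_sum_erase _ _ (Finset.mem_univ u), hs]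
      rw [hsum] at htot
      set c := ((univ.erase u).filter fun w => p w = 1).card
      have hpu : p u = (h : ℝ) - c := by linarith
      have hpos : 0 < p u := lt_of_le_of_ne (h0 u) (Ne.symm hu'.1)
      have hlt : p u < 1 := lt_of_le_of_ne (h1 u) hu'.2
      rw [hpu] at hpos hlt
      have h3 : c < h := by
        have : (c : ℝ) < h := by linarith
        exact_mod_cast this
      have h4 : h < c + 1 := by
        have : (h : ℝ) < c + 1 := by linarith
        exact_mod_cast this
      omega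
    obtain ⟨v, hvu, hv0, hv1⟩ := hex
    have hpu0 : 0 < p u := lt_of_le_of_ne (h0 u) (Ne.symm hu'.1)
    have hpu1 : p u < 1 := lt_of_le_of_ne (h1 u) hu'.2
    have hpv0 : 0 < p v := lt_of_le_of_ne (h0 v) (Ne.symm hv0)
    have hpv1 : p v < 1 := lt_of_le_of_ne (h1 v) hv1
    set d : Fin n → ℝ := fun w => (if w = u then 1 else 0) - (if w = v then 1 else 0) with hdd
    have hdq := B_dir A hA hd u v (Ne.symm hvu)
    have hdu : d u = 1 := by simp [hdd, Ne.symm hvu]
    have hdv : d v = -1 := by simp [hdd, hvu]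
    have hdw : ∀ w, w ≠ u → w ≠ v → d w = 0 := by
      intro w h1 h2
      simp [hdd, h1, h2]
    have hdsum : ∑ w, d w = 0 := by simp [hdd]
    -- key: existence of t
    have key : ∃ t : ℝ, (0 ≤ p u + t ∧ p u + t ≤ 1) ∧ (0 ≤ p v - t ∧ p v - t ≤ 1) ∧
        ((p u + t = 0 ∨ p u + t = 1) ∨ (p v - t = 0 ∨ p v - t = 1)) ∧
        t * (B A p d + B A d p) ≤ 0 := by
      by_cases hL : B A p d + B A d p ≤ 0
      · refine ⟨min (1 - p u) (p v), ⟨?_, ?_⟩, ⟨?_, ?_⟩, ?_, ?_⟩
        · have : 0 ≤ min (1 - p u) (p v) := le_min (by linarith) (by linarith)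
          linarith
        · have := min_le_left (1 - p u) (p v); linarith
        · have := min_le_right (1 - p u) (p v); linarith
        · have : 0 ≤ min (1 - p u) (p v) := le_min (by linarith) (by linarith)
          linarith
        · rcases min_choice (1 - p u) (p v) with h | h
          · left; right; rw [h]; ring
          · right; left; rw [h]; ring
        · have : 0 ≤ min (1 - p u) (p v) := le_min (by linarith) (by linarith)
          exact mul_nonpos_of_nonneg_of_nonpos this hL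
      · push Not at hL
        refine ⟨-min (p u) (1 - p v), ⟨?_, ?_⟩, ⟨?_, ?_⟩, ?_, ?_⟩
        · have := min_le_left (p u) (1 - p v); linarith
        · have : 0 ≤ min (p u) (1 - p v) := le_min (by linarith) (by linarith)
          linarith
        · have : 0 ≤ min (p u) (1 - p v) := le_min (by linarith) (by linarith)
          linarith
        · have := min_le_right (p u) (1 - p v); linarith
        · rcases min_choice (p u) (1 - p v) with h | h
          · left; left; rw [h]; ring
          · right; right; rw [h]; ring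
        · have : 0 ≤ min (p u) (1 - p v) := le_min (by linarith) (by linarith)
          have h3 : 0 ≤ min (p u) (1 - p v) * (B A p d + B A d p) := mul_nonneg this hL.le
          linarith
    obtain ⟨t, ht1, ht2, ht3, ht4⟩ := key
    set q : Fin n → ℝ := fun w => p w + t * d w with hq
    have hqu : q u = p u + t := by simp [hq, hdu]
    have hqv : q v = p v - t := by simp only [hq, hdv]; ring
    have hqw : ∀ w, w ≠ u → w ≠ v → q w = p w := by
      intro w h1 h2
      simp [hq, hdw w h1 h2]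
    have hBq : B A q q ≤ B A p p := by
      rw [hq, B_expand]
      have : t ^ 2 * B A d d ≤ 0 := mul_nonpos_of_nonneg_of_nonpos (sq_nonneg t) hdq
      linarith
    have hq0 : ∀ w, 0 ≤ q w := by
      intro w
      by_cases h1 : w = u
      · rw [h1, hqu]; exact ht1.1
      by_cases h2 : w = v
      · rw [h2, hqv]; exact ht2.1
      rw [hqw w h1 h2]; exact h0 w
    have hq1 : ∀ w, q w ≤ 1 := by
      intro w
      by_cases h1 : w = u
      · rw [h1, hqu]; exact ht1.2
      by_cases h2 : w = v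
      · rw [h2, hqv]; exact ht2.2
      rw [hqw w h1 h2]; exact ‹∀ u, p u ≤ 1› w
    have hqs : ∑ w, q w = h := by
      rw [hq, Finset.sum_add_distrib, ← Finset.mul_sum, hdsum, hs]; ring
    have hsub : (univ.filter fun w => q w ≠ 0 ∧ q w ≠ 1) ⊂ (univ.filter fun w => p w ≠ 0 ∧ p w ≠ 1) := by
      rw [Finset.ssubset_iff_of_subset]
      · rcases ht3 with h | h
        · refine ⟨u, hu, ?_⟩
          simp only [mem_filter, mem_univ, true_and, not_and, hqu]
          intro h5
          rcases h with h | h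
          · exact absurd h h5
          · simpa using h
        · refine ⟨v, by simp [hv0, hv1], ?_⟩
          simp only [mem_filter, mem_univ, true_and, not_and, hqv]
          intro h5
          rcases h with h | h
          · exact absurd h h5
          · simpa using h
      · intro w hw
        by_cases h1 : w = u
        · rw [h1]; exact hu
        by_cases h2 : w = v
        · rw [h2]; simp [hv0, hv1]
        simp only [mem_filter, mem_univ, true_and] at hw ⊢
        rwa [hqw w h1 h2] at hw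
    have hcard := Finset.card_lt_card hsub
    obtain ⟨W, hW1, hW2⟩ := ih q hq0 hq1 hqs (by omega)
    exact ⟨W, hW1, hW2.trans hBq⟩

open Classical in
/-- adjacency weights -/
noncomputable def adj {n : ℕ} (G : SimpleGraph (Fin n)) : Fin n → Fin n → ℝ :=
  fun u v => if G.Adj u v then 1 else 0

lemma B_adj_ind {n : ℕ} (G : SimpleGraph (Fin n)) (W : Finset (Fin n)) :
    B (adj G) (ind W) (ind W)
      = 2 * (({e : Sym2 (Fin n) | e ∈ G.edgeSet ∧ ∀ v ∈ e, v ∈ W}).ncard : ℝ) := by
  classical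
  let H : SimpleGraph (Fin n) :=
    { Adj := fun u v => G.Adj u v ∧ u ∈ W ∧ v ∈ W
      symm := ⟨fun u v h => ⟨h.1.symm, h.2.2, h.2.1⟩⟩
      loopless := ⟨fun u h => G.loopless.irrefl u h.1⟩ }
  have hset : ({e : Sym2 (Fin n) | e ∈ G.edgeSet ∧ ∀ v ∈ e, v ∈ W}) = H.edgeSet := by
    ext e
    induction e using Sym2.ind with
    | _ a b =>
      simp only [Set.mem_ofPred_eq, SimpleGraph.mem_edgeSet, Sym2.mem_iff, forall_eq_or_imp,
        forall_eq, H]
  rw [hset, ← SimpleGraph.coe_edgeFinset, Set.ncard_coe_finset]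
  have h2 := H.sum_degrees_eq_twice_card_edges
  have h3 : ((∑ v, H.degree v : ℕ) : ℝ) = 2 * (H.edgeFinset.card : ℝ) := by
    rw [h2]; push_cast; ring
  rw [← h3]
  unfold B
  push_cast
  refine Finset.sum_congr rfl fun u _ => ?_
  rw [← SimpleGraph.card_neighborFinset_eq_degree, SimpleGraph.neighborFinset_eq_filter,
    Finset.card_eq_sum_ones, Nat.cast_sum, Finset.sum_filter]
  refine Finset.sum_congr rfl fun v _ => ?_
  by_cases h1 : G.Adj u v <;> by_cases h2 : u ∈ W <;> by_cases h3 : v ∈ W <;>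
    simp [adj, ind, H, h1, h2, h3]

lemma adj_nonneg {n : ℕ} (G : SimpleGraph (Fin n)) (u v : Fin n) : 0 ≤ adj G u v := by
  unfold adj; split_ifs <;> norm_num

lemma adj_le_one {n : ℕ} (G : SimpleGraph (Fin n)) (u v : Fin n) : adj G u v ≤ 1 := by
  unfold adj; split_ifs <;> norm_num

lemma adj_self {n : ℕ} (G : SimpleGraph (Fin n)) (u : Fin n) : adj G u u = 0 := by
  simp [adj]

lemma adj_comm {n : ℕ} (G : SimpleGraph (Fin n)) (u v : Fin n) : adj G u v = adj G v u := by
  by_cases h : G.Adj u v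
  · simp [adj, h, h.symm]
  · have h2 : ¬ G.Adj v u := fun h' => h h'.symm
    simp [adj, h, h2]

lemma B_comm {n : ℕ} (G : SimpleGraph (Fin n)) (p q : Fin n → ℝ) :
    B (adj G) p q = B (adj G) q p := by
  unfold B
  rw [Finset.sum_comm]
  refine Finset.sum_congr rfl fun u _ => Finset.sum_congr rfl fun v _ => ?_
  rw [adj_comm]; ring

lemma B_const_left {n : ℕ} (A : Fin n → Fin n → ℝ) (h : ℝ) (q : Fin n → ℝ) :
    B A (fun _ => h) q = h * B A (fun _ => 1) q := by
  unfold B
  simp only [Finset.mul_sum]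
  refine Finset.sum_congr rfl fun u _ => Finset.sum_congr rfl fun v _ => ?_
  ring

lemma B_univ {n : ℕ} (G : SimpleGraph (Fin n)) :
    B (adj G) (fun _ => 1) (fun _ => 1) = 2 * (G.edgeSet.ncard : ℝ) := by
  have h := B_adj_ind G Finset.univ
  have h1 : ind (Finset.univ : Finset (Fin n)) = fun _ => 1 := by
    funext u; simp [ind]
  rw [h1] at h
  rw [h]
  congr 3
  ext e
  simp

/-- The hypothesis on halves. -/
def Halves {n : ℕ} (G : SimpleGraph (Fin n)) (c ε : ℝ) : Prop :=
  ∀ W : Finset (Fin n), W.card = n / 2 →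
    (1 - ε) * c * ((n : ℝ) / 2) ^ 2 ≤
      (({e : Sym2 (Fin n) | e ∈ G.edgeSet ∧ ∀ v ∈ e, v ∈ W}).ncard : ℝ)

lemma star {n : ℕ} (hn : 2 ≤ n) (G : SimpleGraph (Fin n)) (c ε : ℝ)
    (he : (G.edgeSet.ncard : ℝ) ≤ c * (n : ℝ) ^ 2) (hW : Halves G c ε)
    (z : Fin n → ℝ) (hz : ∑ u, z u = 0) (hz1 : ∀ u, |z u| ≤ 1)
    (t : ℝ) (ht0 : 0 ≤ t) (ht : t ≤ ((n / 2 : ℕ) : ℝ) / n) :
    2 * (((n / 2 : ℕ) : ℝ) / n) * t * |B (adj G) z (fun _ => 1)| - ε * c * (n : ℝ) ^ 2 / 2
      ≤ t ^ 2 * B (adj G) z z := by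
  set h : ℝ := ((n / 2 : ℕ) : ℝ) / n with hh
  have hn0 : (0 : ℝ) < n := by
    have : 0 < n := by omega
    exact_mod_cast this
  have hh0 : 0 ≤ h := by positivity
  have hh1 : h ≤ 1 / 2 := by
    rw [hh, div_le_iff₀ hn0]
    have : (((n / 2 : ℕ) : ℝ)) ≤ (n : ℝ) / 2 := Nat.cast_div_le
    linarith
  -- for a sign s
  have main : ∀ s : ℝ, |s| = 1 → (1 - ε) * c * (n : ℝ) ^ 2 / 2 ≤
      h ^ 2 * (2 * (G.edgeSet.ncard : ℝ)) + 2 * h * (s * t) * B (adj G) z (fun _ => 1)
        + t ^ 2 * B (adj G) z z := by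
    intro s hs
    have hbound : ∀ u, |(s * t) * z u| ≤ t := by
      intro u
      rw [abs_mul, abs_mul, hs, one_mul, abs_of_nonneg ht0]
      calc t * |z u| ≤ t * 1 := mul_le_mul_of_nonneg_left (hz1 u) ht0
        _ = t := mul_one t
    obtain ⟨W, hWc, hWB⟩ := pipage (adj G) (adj_nonneg G) (adj_self G) (n / 2) n
      (fun u => h + (s * t) * z u)
      (fun u => by
        have := (abs_le.mp (hbound u)).1
        linarith)
      (fun u => by
        have := (abs_le.mp (hbound u)).2
        linarith)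
      (by
        rw [Finset.sum_add_distrib, ← Finset.mul_sum, hz, mul_zero, add_zero, Finset.sum_const,
          Finset.card_univ, Fintype.card_fin, nsmul_eq_mul, hh]
        field_simp)
      (by
        calc _ ≤ (Finset.univ : Finset (Fin n)).card := Finset.card_filter_le _ _
          _ = n := by simp)
    have h1 := hW W hWc
    rw [B_adj_ind] at hWB
    have h2 : B (adj G) (fun u => h + (s * t) * z u) (fun u => h + (s * t) * z u)
        = h ^ 2 * (2 * (G.edgeSet.ncard : ℝ)) + 2 * h * (s * t) * B (adj G) z (fun _ => 1)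
        + t ^ 2 * B (adj G) z z := by
      rw [B_expand (adj G) (fun _ => h) z (s * t), B_comm G z (fun _ => h),
        B_const_left (adj G) h z, B_const_left (adj G) h (fun _ => h),
        B_comm G (fun _ => 1) (fun _ => h), B_const_left (adj G) h (fun _ => 1), B_univ,
        B_comm G (fun _ => 1) z]
      have hs2 : s ^ 2 = 1 := by
        rw [← sq_abs, hs]; norm_num
      have : (s * t) ^ 2 = t ^ 2 := by rw [mul_pow, hs2, one_mul]
      rw [this]
      ring
    rw [h2] at hWB
    have h3 : (1 - ε) * c * (n : ℝ) ^ 2 / 2 = 2 * ((1 - ε) * c * ((n : ℝ) / 2) ^ 2) := by ring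
    rw [h3]
    linarith
  have hh2 : h ^ 2 * (2 * (G.edgeSet.ncard : ℝ)) ≤ c * (n : ℝ) ^ 2 / 2 := by
    have h4 : h ^ 2 ≤ 1 / 4 := by nlinarith
    have h5 : (0 : ℝ) ≤ 2 * (G.edgeSet.ncard : ℝ) := by positivity
    calc h ^ 2 * (2 * (G.edgeSet.ncard : ℝ)) ≤ 1 / 4 * (2 * (G.edgeSet.ncard : ℝ)) :=
          mul_le_mul_of_nonneg_right h4 h5
      _ ≤ c * (n : ℝ) ^ 2 / 2 := by linarith
  have m1 := main 1 (by norm_num)
  have m2 := main (-1) (by norm_num)
  rcases abs_cases (B (adj G) z (fun _ => 1)) with ⟨h6, _⟩ | ⟨h6, _⟩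
  · rw [h6]
    nlinarith
  · rw [h6]
    nlinarith

lemma B_le_sq {n : ℕ} (G : SimpleGraph (Fin n)) (z : Fin n → ℝ) (hz1 : ∀ u, |z u| ≤ 1) :
    B (adj G) z z ≤ (n : ℝ) ^ 2 := by
  unfold B
  calc ∑ u, ∑ v, adj G u v * (z u * z v) ≤ ∑ u : Fin n, ∑ v : Fin n, (1 : ℝ) := by
        refine Finset.sum_le_sum fun u _ => Finset.sum_le_sum fun v _ => ?_
        have h1 : z u * z v ≤ 1 := by
          calc z u * z v ≤ |z u * z v| := le_abs_self _
            _ = |z u| * |z v| := abs_mul _ _
            _ ≤ 1 * 1 := mul_le_mul (hz1 u) (hz1 v) (abs_nonneg _) (by norm_num)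
            _ = 1 := by norm_num
        have h2 := adj_nonneg G u v
        have h3 := adj_le_one G u v
        nlinarith
    _ = (n : ℝ) ^ 2 := by simp; ring

/-- Dense sets: every linear-size set spans quadratically many edges. -/
lemma dense (c : ℝ) (hc : 0 < c) (β : ℝ) (hβ : 0 < β) (hβ1 : β ≤ 1) :
    ∃ ε : ℝ, 0 < ε ∧ ∃ N : ℕ, ∀ n : ℕ, N ≤ n → ∀ G : SimpleGraph (Fin n),
      G.edgeSet.ncard = ⌊c * (n : ℝ) ^ 2⌋₊ → Halves G c ε →
      ∀ S : Finset (Fin n), β * n ≤ (S.card : ℝ) →
        β ^ 2 * c * (n : ℝ) ^ 2 ≤ B (adj G) (ind S) (ind S) := by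
  set t : ℝ := min (β ^ 2 * c / 12) (1 / 3) with ht
  have ht0 : 0 < t := lt_min (by positivity) (by norm_num)
  have ht1 : t ≤ β ^ 2 * c / 12 := min_le_left _ _
  have ht2 : t ≤ 1 / 3 := min_le_right _ _
  set ε : ℝ := min (β ^ 2 / 18) (β ^ 2 * t / 6) with hε
  have hε0 : 0 < ε := lt_min (by positivity) (by positivity)
  have hε1 : ε ≤ β ^ 2 / 18 := min_le_left _ _
  have hε2 : ε ≤ β ^ 2 * t / 6 := min_le_right _ _
  obtain ⟨N0, hN0⟩ := exists_nat_ge (8 / (β ^ 2 * c))
  refine ⟨ε, hε0, max N0 2, fun n hn G he hW S hS => ?_⟩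
  have hn2 : 2 ≤ n := le_trans (le_max_right _ _) hn
  have hnN : N0 ≤ n := le_trans (le_max_left _ _) hn
  have hn0 : (0 : ℝ) < n := by
    have : 0 < n := by omega
    exact_mod_cast this
  have hn1 : (1 : ℝ) ≤ n := by
    have : 1 ≤ n := by omega
    exact_mod_cast this
  have hbig : 8 ≤ β ^ 2 * c * (n : ℝ) ^ 2 := by
    have h1 : 8 / (β ^ 2 * c) ≤ (n : ℝ) := hN0.trans (by exact_mod_cast hnN)
    rw [div_le_iff₀ (by positivity)] at h1
    have h2 : (n : ℝ) ≤ (n : ℝ) ^ 2 := by nlinarith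
    have h3 : 0 < β ^ 2 * c := by positivity
    nlinarith
  have he1 : (G.edgeSet.ncard : ℝ) ≤ c * (n : ℝ) ^ 2 := by
    rw [he]; exact Nat.floor_le (by positivity)
  have he2 : c * (n : ℝ) ^ 2 - 1 ≤ (G.edgeSet.ncard : ℝ) := by
    rw [he]
    have := Nat.lt_floor_add_one (c * (n : ℝ) ^ 2)
    linarith
  set h : ℝ := ((n / 2 : ℕ) : ℝ) / n with hh
  have hh3 : 1 / 3 ≤ h := by
    rw [hh, le_div_iff₀ hn0]
    have : n ≤ 3 * (n / 2) := by omega
    have : (n : ℝ) ≤ 3 * ((n / 2 : ℕ) : ℝ) := by exact_mod_cast this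
    linarith
  set α : ℝ := (S.card : ℝ) / n with hα
  have hα0 : 0 ≤ α := by positivity
  have hαβ : β ≤ α := by
    rw [hα, le_div_iff₀ hn0]; exact hS
  have hα1 : α ≤ 1 := by
    rw [hα, div_le_one hn0]
    have : S.card ≤ n := by
      calc S.card ≤ (Finset.univ : Finset (Fin n)).card := Finset.card_le_univ _
        _ = n := by simp
    exact_mod_cast this
  set z : Fin n → ℝ := fun u => ind S u + (-α) * 1 with hz
  have hzsum : ∑ u, z u = 0 := by
    rw [hz, Finset.sum_add_distrib]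
    have h1 : ∑ u, ind S u = S.card := by
      simp [ind]
    rw [h1, Finset.sum_const, Finset.card_univ, Fintype.card_fin, nsmul_eq_mul, hα]
    field_simp
    ring
  have hz1 : ∀ u, |z u| ≤ 1 := by
    intro u
    rw [abs_le]
    simp only [hz, ind]
    split_ifs <;> constructor <;> linarith
  have hS2 : ind S = fun u => z u + α * 1 := by
    funext u; simp [hz]
  have hexp : B (adj G) (ind S) (ind S)
      = B (adj G) z z + 2 * α * B (adj G) z (fun _ => 1) + α ^ 2 * (2 * (G.edgeSet.ncard : ℝ)) := by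
    rw [hS2, B_expand (adj G) z (fun _ => 1) α, B_univ, B_comm G (fun _ => 1) z]
    ring
  have s1 := star hn2 G c ε he1 hW z hzsum hz1 h (by positivity) le_rfl
  have s2 := star hn2 G c ε he1 hW z hzsum hz1 t ht0.le (ht2.trans hh3)
  have hQ := B_le_sq G z hz1
  set Q := B (adj G) z z
  set L := B (adj G) z (fun _ => 1)
  set X : ℝ := (n : ℝ) ^ 2 with hX
  have hX0 : 0 < X := by positivity
  -- lower bound for Q
  have hQ2 : -(9 / 2) * (ε * c * X) ≤ Q := by
    have h1 : -(ε * c * X / 2) ≤ h ^ 2 * Q := by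
      have : 0 ≤ 2 * h * h * |L| := by positivity
      linarith
    have h2 : (1 : ℝ) / 9 ≤ h ^ 2 := by nlinarith
    by_contra hcon
    push Not at hcon
    have h3 : Q < 0 := by
      have : 0 < ε * c * X := by positivity
      linarith
    have h4 : h ^ 2 * Q ≤ 1 / 9 * Q := mul_le_mul_of_nonpos_right h2 h3.le
    linarith
  -- bound for L
  have hL : |L| ≤ 3 * t / 2 * X + 3 * ε * c * X / (4 * t) := by
    have h1 : 2 * (1 / 3) * t * |L| ≤ 2 * h * t * |L| := by
      have : 0 ≤ 2 * t * |L| := by positivity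
      nlinarith
    have h2 : t ^ 2 * Q ≤ t ^ 2 * X := mul_le_mul_of_nonneg_left hQ (by positivity)
    have h3 : 2 / 3 * t * |L| ≤ t ^ 2 * X + ε * c * X / 2 := by linarith
    have h4 : |L| ≤ (t ^ 2 * X + ε * c * X / 2) / (2 / 3 * t) := by
      rw [le_div_iff₀ (by positivity)]
      linarith
    calc |L| ≤ (t ^ 2 * X + ε * c * X / 2) / (2 / 3 * t) := h4
      _ = 3 * t / 2 * X + 3 * ε * c * X / (4 * t) := by field_simp; ring
  have hL2 : -(3 * t / 2 * X + 3 * ε * c * X / (4 * t)) ≤ L := by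
    have := neg_abs_le L
    linarith
  have e1 : 9 / 2 * (ε * c * X) ≤ β ^ 2 * c * X / 4 := by
    have : ε * (c * X) ≤ β ^ 2 / 18 * (c * X) := mul_le_mul_of_nonneg_right hε1 (by positivity)
    linarith
  have e2 : 3 * t * X ≤ β ^ 2 * c * X / 4 := by
    have : t * X ≤ β ^ 2 * c / 12 * X := mul_le_mul_of_nonneg_right ht1 hX0.le
    linarith
  have e3 : 2 * (3 * ε * c * X / (4 * t)) ≤ β ^ 2 * c * X / 4 := by
    have h1 : ε * (3 * c * X / (2 * t)) ≤ β ^ 2 * t / 6 * (3 * c * X / (2 * t)) :=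
      mul_le_mul_of_nonneg_right hε2 (by positivity)
    have h2 : β ^ 2 * t / 6 * (3 * c * X / (2 * t)) = β ^ 2 * c * X / 4 := by
      field_simp
      ring
    have h3 : 2 * (3 * ε * c * X / (4 * t)) = ε * (3 * c * X / (2 * t)) := by
      field_simp
      ring
    linarith
  have e4 : 2 * β ^ 2 * (c * X) - 2 ≤ α ^ 2 * (2 * (G.edgeSet.ncard : ℝ)) := by
    have h1 : β ^ 2 ≤ α ^ 2 := pow_le_pow_left₀ hβ.le hαβ 2
    have h2 : α ^ 2 ≤ 1 := pow_le_one₀ hα0 hα1
    have h3 : α ^ 2 * (2 * (c * X - 1)) ≤ α ^ 2 * (2 * (G.edgeSet.ncard : ℝ)) :=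
      mul_le_mul_of_nonneg_left (by linarith) (sq_nonneg α)
    have hcX : 0 ≤ c * X := (mul_pos hc hX0).le
    have h4 : β ^ 2 * (c * X) ≤ α ^ 2 * (c * X) := mul_le_mul_of_nonneg_right h1 hcX
    linarith
  have h2α : 0 ≤ 2 * α := by linarith
  have e5 : 2 * α * (-(3 * t / 2 * X + 3 * ε * c * X / (4 * t))) ≤ 2 * α * L :=
    mul_le_mul_of_nonneg_left hL2 h2α
  have e6 : 2 * α * (3 * t / 2 * X + 3 * ε * c * X / (4 * t))
      ≤ 2 * (3 * t / 2 * X + 3 * ε * c * X / (4 * t)) := by
    have h0 : 0 ≤ (3 * t / 2 * X + 3 * ε * c * X / (4 * t)) := le_trans (abs_nonneg L) hL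
    exact mul_le_mul_of_nonneg_right (by linarith) h0
  rw [hexp]
  linarith

lemma clique_aux (c : ℝ) (hc : 0 < c) (k : ℕ) : ∀ β : ℝ, 0 < β → β ≤ 1 →
    ∃ ε : ℝ, 0 < ε ∧ ∃ N : ℕ, ∀ n : ℕ, N ≤ n → ∀ G : SimpleGraph (Fin n),
      G.edgeSet.ncard = ⌊c * (n : ℝ) ^ 2⌋₊ → Halves G c ε →
      ∀ S : Finset (Fin n), β * n ≤ (S.card : ℝ) →
        ∃ s : Finset (Fin n), s ⊆ S ∧ G.IsNClique k s := by
  classical
  induction k with
  | zero =>
    intro β _ _
    refine ⟨1, one_pos, 0, fun n _ G _ _ S _ => ⟨∅, Finset.empty_subset _, ?_⟩⟩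
    rw [SimpleGraph.isNClique_iff]
    simp
  | succ k ih =>
    intro β hβ hβ1
    set β' : ℝ := min (β ^ 2 * c) 1 with hβ'
    have hβ'0 : 0 < β' := lt_min (by positivity) one_pos
    obtain ⟨ε₁, hε₁, N₁, h₁⟩ := ih β' hβ'0 (min_le_right _ _)
    obtain ⟨ε₂, hε₂, N₂, h₂⟩ := dense c hc β hβ hβ1
    refine ⟨min ε₁ ε₂, lt_min hε₁ hε₂, max (max N₁ N₂) 1, fun n hn G he hW S hS => ?_⟩
    have hn1 : N₁ ≤ n := le_trans (le_trans (le_max_left _ _) (le_max_left _ _)) hn
    have hn2 : N₂ ≤ n := le_trans (le_trans (le_max_right _ _) (le_max_left _ _)) hn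
    have hnp : 1 ≤ n := le_trans (le_max_right _ _) hn
    have hn0 : (0 : ℝ) < n := by exact_mod_cast hnp
    have mono : ∀ ε : ℝ, min ε₁ ε₂ ≤ ε → Halves G c ε := by
      intro ε hle W hWc
      refine le_trans ?_ (hW W hWc)
      have h1 : 0 ≤ c * ((n : ℝ) / 2) ^ 2 := by positivity
      have h2 : (1 - ε) * (c * ((n : ℝ) / 2) ^ 2) ≤ (1 - min ε₁ ε₂) * (c * ((n : ℝ) / 2) ^ 2) :=
        mul_le_mul_of_nonneg_right (by linarith) h1
      linarith
    have hd := h₂ n hn2 G he (mono ε₂ (min_le_right _ _)) S hS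
    have hSpos : 0 < (S.card : ℝ) := lt_of_lt_of_le (by positivity) hS
    have hSle : (S.card : ℝ) ≤ n := by
      have : S.card ≤ n := by
        calc S.card ≤ (Finset.univ : Finset (Fin n)).card := Finset.card_le_univ _
          _ = n := by simp
      exact_mod_cast this
    -- a vertex of large degree inside S
    have hsum : B (adj G) (ind S) (ind S) = ∑ u ∈ S, ((S.filter fun v => G.Adj u v).card : ℝ) := by
      unfold B
      rw [← Finset.sum_filter_add_sum_filter_not Finset.univ (fun u => u ∈ S)]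
      have hz : ∑ u ∈ Finset.univ.filter (fun u => u ∉ S), ∑ v, adj G u v * (ind S u * ind S v) = 0 := by
        refine Finset.sum_eq_zero fun u hu => Finset.sum_eq_zero fun v _ => ?_
        have : u ∉ S := by simpa using hu
        simp [ind, this]
      rw [hz, add_zero]
      have hf : Finset.univ.filter (fun u => u ∈ S) = S := by ext; simp
      rw [hf]
      refine Finset.sum_congr rfl fun u hu => ?_
      rw [Finset.card_eq_sum_ones, Nat.cast_sum, Finset.sum_filter]
      rw [← Finset.sum_subset (Finset.subset_univ S)]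
      · refine Finset.sum_congr rfl fun v hv => ?_
        by_cases h : G.Adj u v <;> simp [adj, ind, hu, hv, h]
      · intro v _ hv
        simp [ind, hv]
    have hex : ∃ u ∈ S, β ^ 2 * c * n ≤ ((S.filter fun v => G.Adj u v).card : ℝ) := by
      by_contra hcon
      push Not at hcon
      have h3 : B (adj G) (ind S) (ind S) < ∑ _u ∈ S, β ^ 2 * c * n := by
        rw [hsum]
        refine Finset.sum_lt_sum_of_nonempty ?_ hcon
        rw [← Finset.card_pos]
        exact_mod_cast hSpos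
      rw [Finset.sum_const, nsmul_eq_mul] at h3
      have h4 : (S.card : ℝ) * (β ^ 2 * c * n) ≤ n * (β ^ 2 * c * n) :=
        mul_le_mul_of_nonneg_right hSle (by positivity)
      nlinarith
    obtain ⟨u, huS, hu⟩ := hex
    have hu2 : β' * n ≤ ((S.filter fun v => G.Adj u v).card : ℝ) := by
      refine le_trans ?_ hu
      exact mul_le_mul_of_nonneg_right (min_le_left _ _) hn0.le
    obtain ⟨s, hsS, hs⟩ := h₁ n hn1 G he (mono ε₁ (min_le_left _ _)) _ hu2
    refine ⟨insert u s, ?_, ?_⟩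
    · intro x hx
      rcases Finset.mem_insert.mp hx with h | h
      · rw [h]; exact huS
      · exact (Finset.mem_filter.mp (hsS h)).1
    · exact hs.insert fun b hb => (Finset.mem_filter.mp (hsS hb)).2

/-- For every c>0 and k there are ε>0 and N so that any graph on n≥N vertices with ⌊cn²⌋ edges, in which every ⌊n/2⌋-vertex set spans at least (1−ε)c(n/2)² edges, contains a k-clique. -/
theorem result :
    ∀ c : ℝ, 0 < c → ∀ k : ℕ, ∃ ε : ℝ, 0 < ε ∧ ∃ N : ℕ, ∀ n : ℕ, N ≤ n →
      ∀ G : SimpleGraph (Fin n),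
        G.edgeSet.ncard = ⌊c * (n : ℝ) ^ 2⌋₊ →
        (∀ W : Finset (Fin n), W.card = n / 2 →
          (1 - ε) * c * ((n : ℝ) / 2) ^ 2 ≤
            (({e : Sym2 (Fin n) | e ∈ G.edgeSet ∧ ∀ v ∈ e, v ∈ W}).ncard : ℝ)) →
        ∃ s : Finset (Fin n), G.IsNClique k s := by
  intro c hc k
  obtain ⟨ε, hε, N, h⟩ := clique_aux c hc k 1 one_pos le_rfl
  refine ⟨ε, hε, N, fun n hn G he hW => ?_⟩
  obtain ⟨s, _, hs⟩ := h n hn G he hW Finset.univ (by simp)
  exact ⟨s, hs⟩

end Pool.Agent.S07091
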