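import Pool.Statements.S08268

set_option autoImplicit false
open Pool Pool.MP_3df3be_co

namespace Pool.Agent.S08268

/-- In a row of a subsquare `(R, C, S)` the symbols of `S` occupy exactly the columns of `C`. -/
theorem row_iff {n : ℕ} (L : Fin n → Fin n → Fin n) (hr : ∀ i : Fin n, Function.Bijective (L i))
    {R C S : Finset (Fin n)} (hcard : C.card = S.card) (hsub : ∀ r ∈ R, ∀ c ∈ C, L r c ∈ S)
    {r : Fin n} (hrR : r ∈ R) (c : Fin n) : L r c ∈ S ↔ c ∈ C := by
  classical
  have himg : C.image (L r) = S := by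
    apply Finset.eq_of_subset_of_card_le
    · intro s hs
      obtain ⟨c, hc, rfl⟩ := Finset.mem_image.mp hs
      exact hsub r hrR c hc
    · rw [Finset.card_image_of_injective _ (hr r).1, hcard]
  constructor
  · intro h
    rw [← himg] at h
    obtain ⟨c', hc', he⟩ := Finset.mem_image.mp h
    rwa [← (hr r).1 he]
  · intro h
    exact hsub r hrR c h

/-- transposed version -/
theorem col_iff {n : ℕ} (L : Fin n → Fin n → Fin n)
    (hc : ∀ j : Fin n, Function.Bijective (fun i : Fin n => L i j))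
    {R C S : Finset (Fin n)} (hcard : R.card = S.card) (hsub : ∀ r ∈ R, ∀ c ∈ C, L r c ∈ S)
    {c : Fin n} (hcC : c ∈ C) (r : Fin n) : L r c ∈ S ↔ r ∈ R :=
  row_iff (fun j i => L i j) hc hcard (fun c hc r hr => hsub r hr c hc) hcC r

/-- In a latin square of order `8` with a subsquare of order `4`, the symbol of the cell `(r, c)`
lies in `S` exactly if `r ∈ R ↔ c ∈ C`. -/
theorem pattern (L : Fin 8 → Fin 8 → Fin 8) (hr : ∀ i, Function.Bijective (L i))
    (hc : ∀ j, Function.Bijective (fun i => L i j))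
    {R C S : Finset (Fin 8)} (hR : R.card = 4) (hC : C.card = 4) (hS : S.card = 4)
    (hsub : ∀ r ∈ R, ∀ c ∈ C, L r c ∈ S) (r c : Fin 8) : L r c ∈ S ↔ (r ∈ R ↔ c ∈ C) := by
  classical
  by_cases h1 : r ∈ R
  · simp only [h1, true_iff]
    exact row_iff L hr (by rw [hC, hS]) hsub h1 c
  · by_cases h2 : c ∈ C
    · simp only [h1, h2, false_iff, not_true_eq_false]
      rw [col_iff L hc (by rw [hR, hS]) hsub h2 r]
      exact ⟨fun h => absurd h h1, fun h => h.elim⟩
    · have hP : Finset.univ.filter (fun c => L r c ∈ S) = Cᶜ := by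
        apply Finset.eq_of_subset_of_card_le
        · intro c' hc'
          rw [Finset.mem_filter] at hc'
          rw [Finset.mem_compl]
          intro h3
          exact h1 ((col_iff L hc (by rw [hR, hS]) hsub h3 r).mp hc'.2)
        · have h4 : (Finset.univ.filter (fun c => L r c ∈ S)).card = S.card := by
            have h5 : (Finset.univ.filter (fun c => L r c ∈ S)).image (L r) = S := by
              ext s
              constructor
              · intro hs
                obtain ⟨c', hc', rfl⟩ := Finset.mem_image.mp hs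
                exact (Finset.mem_filter.mp hc').2
              · intro hs
                obtain ⟨c', rfl⟩ := (hr r).2 s
                exact Finset.mem_image.mpr ⟨c', Finset.mem_filter.mpr ⟨Finset.mem_univ _, hs⟩, rfl⟩
            rw [← h5, Finset.card_image_of_injective _ (hr r).1, h5]
          rw [h4, hS, Finset.card_compl, hC, Fintype.card_fin]
      have h6 : c ∈ Finset.univ.filter (fun c => L r c ∈ S) := by
        rw [hP]; exact Finset.mem_compl.mpr h2
      have h7 := (Finset.mem_filter.mp h6).2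
      simp [h1, h2, h7]

/-- The rows of a subsquare of order `3` all lie on the same side. -/
theorem side (L : Fin 8 → Fin 8 → Fin 8) (hr : ∀ i, Function.Bijective (L i))
    {R C S R' C' S' : Finset (Fin 8)}
    (hpat : ∀ r c, L r c ∈ S ↔ (r ∈ R ↔ c ∈ C))
    (hC' : C'.card = 3) (hS' : S'.card = 3)
    (hsub' : ∀ r ∈ R', ∀ c ∈ C', L r c ∈ S') {r₁ r₂ : Fin 8} (h1 : r₁ ∈ R') (h2 : r₂ ∈ R')
    (h3 : r₁ ∈ R) (h4 : r₂ ∉ R) : False := by
  classical
  have key : ∀ r ∈ R', (C'.filter (fun c => L r c ∈ S)).card = (S'.filter (fun s => s ∈ S)).card := by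
    intro r hrR
    have himg : C'.image (L r) = S' := by
      apply Finset.eq_of_subset_of_card_le
      · intro s hs
        obtain ⟨c, hc, rfl⟩ := Finset.mem_image.mp hs
        exact hsub' r hrR c hc
      · rw [Finset.card_image_of_injective _ (hr r).1, hC', hS']
    rw [← himg, Finset.filter_image, Finset.card_image_of_injective _ (hr r).1]
  have e1 := key r₁ h1
  have e2 := key r₂ h2
  have f1 : C'.filter (fun c => L r₁ c ∈ S) = C'.filter (fun c => c ∈ C) := by
    apply Finset.filter_congr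
    intro c _
    rw [hpat]; simp [h3]
  have f2 : C'.filter (fun c => L r₂ c ∈ S) = C'.filter (fun c => c ∉ C) := by
    apply Finset.filter_congr
    intro c _
    rw [hpat]; simp [h4]
  rw [f1] at e1
  rw [f2] at e2
  have := Finset.card_filter_add_card_filter_not (s := C') (fun c => c ∈ C)
  omega

/-- A latin square of order `8` cannot contain subsquares of both orders `4` and `3`. -/
theorem result :
    ¬ (∀ n : ℕ, ∃ L : Fin n → Fin n → Fin n,
      (∀ i : Fin n, Function.Bijective (L i)) ∧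
      (∀ j : Fin n, Function.Bijective (fun i : Fin n => L i j)) ∧
      ∀ m : ℕ, 1 ≤ m → 2 * m ≤ n →
        ∃ R C S : Finset (Fin n),
          R.card = m ∧ C.card = m ∧ S.card = m ∧
          ∀ r ∈ R, ∀ c ∈ C, L r c ∈ S) := by
  classical
  intro h
  obtain ⟨L, hr, hc, hm⟩ := h 8
  obtain ⟨R, C, S, hR, hC, hS, hsub⟩ := hm 4 (by norm_num) (by norm_num)
  obtain ⟨R', C', S', hR', hC', hS', hsub'⟩ := hm 3 (by norm_num) (by norm_num)
  have hpat := pattern L hr hc hR hC hS hsub
  have rows : ∀ r₁ ∈ R', ∀ r₂ ∈ R', (r₁ ∈ R ↔ r₂ ∈ R) := by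
    intro r₁ h1 r₂ h2
    constructor
    · intro h3
      by_contra h4
      exact side L hr hpat hC' hS' hsub' h1 h2 h3 h4
    · intro h3
      by_contra h4
      exact side L hr hpat hC' hS' hsub' h2 h1 h3 h4
  have cols : ∀ c₁ ∈ C', ∀ c₂ ∈ C', (c₁ ∈ C ↔ c₂ ∈ C) := by
    have hpat2 : ∀ c r, (fun c r => L r c) c r ∈ S ↔ (c ∈ C ↔ r ∈ R) := by
      intro c r
      show L r c ∈ S ↔ _
      rw [hpat]; tauto
    intro c₁ h1 c₂ h2
    constructor
    · intro h3
      by_contra h4
      exact side (fun c r => L r c) hc hpat2 hR' hS' (fun c hc r hr => hsub' r hr c hc) h1 h2 h3 h4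
    · intro h3
      by_contra h4
      exact side (fun c r => L r c) hc hpat2 hR' hS' (fun c hc r hr => hsub' r hr c hc) h2 h1 h3 h4
  obtain ⟨r₁, hr₁⟩ : R'.Nonempty := Finset.card_pos.mp (by omega)
  obtain ⟨c₁, hc₁⟩ : C'.Nonempty := Finset.card_pos.mp (by omega)
  -- the rows on the side of `r₁`
  have hQR : (Finset.univ.filter (fun r => (r ∈ R ↔ r₁ ∈ R))).card = 4 := by
    by_cases hb : r₁ ∈ R
    · simp only [hb, iff_true]
      rw [Finset.filter_mem_eq_inter, Finset.univ_inter, hR]
    · simp only [hb, iff_false]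
      rw [Finset.filter_not, Finset.filter_mem_eq_inter, Finset.univ_inter,
        ← Finset.compl_eq_univ_sdiff, Finset.card_compl, hR, Fintype.card_fin]
  obtain ⟨r₀, hr₀, hr₀'⟩ : ∃ r₀ ∈ Finset.univ.filter (fun r => (r ∈ R ↔ r₁ ∈ R)), r₀ ∉ R' := by
    apply Finset.exists_mem_notMem_of_card_lt_card
    omega
  have hr₀b := (Finset.mem_filter.mp hr₀).2
  have hQS : (Finset.univ.filter (fun s => (s ∈ S ↔ (r₁ ∈ R ↔ c₁ ∈ C)))).card = 4 := by
    by_cases hb : (r₁ ∈ R ↔ c₁ ∈ C)
    · simp only [hb, iff_true]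
      rw [Finset.filter_mem_eq_inter, Finset.univ_inter, hS]
    · simp only [hb, iff_false]
      rw [Finset.filter_not, Finset.filter_mem_eq_inter, Finset.univ_inter,
        ← Finset.compl_eq_univ_sdiff, Finset.card_compl, hS, Fintype.card_fin]
  have hS'sub : S' ⊆ Finset.univ.filter (fun s => (s ∈ S ↔ (r₁ ∈ R ↔ c₁ ∈ C))) := by
    intro s hs
    have himg : C'.image (L r₁) = S' := by
      apply Finset.eq_of_subset_of_card_le
      · intro s hs
        obtain ⟨c, hc, rfl⟩ := Finset.mem_image.mp hs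
        exact hsub' r₁ hr₁ c hc
      · rw [Finset.card_image_of_injective _ (hr r₁).1, hC', hS']
    rw [← himg] at hs
    obtain ⟨c, hcC, rfl⟩ := Finset.mem_image.mp hs
    refine Finset.mem_filter.mpr ⟨Finset.mem_univ _, ?_⟩
    rw [hpat, cols c hcC c₁ hc₁]
  have hmap : C'.image (L r₀) ⊆
      Finset.univ.filter (fun s => (s ∈ S ↔ (r₁ ∈ R ↔ c₁ ∈ C))) \ S' := by
    intro s hs
    obtain ⟨c, hcC, rfl⟩ := Finset.mem_image.mp hs
    refine Finset.mem_sdiff.mpr ⟨Finset.mem_filter.mpr ⟨Finset.mem_univ _, ?_⟩, ?_⟩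
    · rw [hpat, cols c hcC c₁ hc₁, hr₀b]
    · rw [col_iff L hc (by rw [hR', hS']) hsub' hcC r₀]
      exact hr₀'
  have hle := Finset.card_le_card hmap
  rw [Finset.card_image_of_injective _ (hr r₀).1, Finset.card_sdiff_of_subset hS'sub, hQS, hC',
    hS'] at hle
  omega

end Pool.Agent.S08268
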