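import Pool.Statements.S09524
-- import your own Pool.Agent.* helpers here

set_option autoImplicit false
open Pool Pool.MP_74be22_co

namespace Pool.Agent.S09524

open Finset

/-- The number of subsets of size at most `k` of an `m`-set is at most `(m+1)^k`. -/
lemma card_small_le (m k : ℕ) :
    ((univ : Finset (Finset (Fin m))).filter (fun S => S.card ≤ k)).card ≤ (m+1)^k := by
  have h1 : (univ : Finset (Finset (Fin m))).filter (fun S => S.card ≤ k)
      ⊆ (range (k+1)).biUnion (fun j => powersetCard j univ) := by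
    intro S hS
    simp only [mem_filter, mem_univ, true_and] at hS
    simp only [mem_biUnion, mem_range, mem_powersetCard, subset_univ, true_and]
    exact ⟨S.card, by omega, rfl⟩
  calc _ ≤ _ := card_le_card h1
    _ ≤ ∑ j ∈ range (k+1), (powersetCard j (univ : Finset (Fin m))).card := card_biUnion_le
    _ = ∑ j ∈ range (k+1), m.choose j := by simp
    _ ≤ ∑ j ∈ range (k+1), m^j * 1^(k-j) * k.choose j := by
        apply sum_le_sum
        intro j hj
        have h2 : 1 ≤ k.choose j := Nat.choose_pos (by simpa [Nat.lt_succ_iff] using hj)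
        have h3 : m.choose j ≤ m^j := Nat.choose_le_pow m j
        simp only [one_pow, mul_one]
        calc m.choose j ≤ m^j * 1 := by omega
          _ ≤ m^j * k.choose j := Nat.mul_le_mul_left _ h2
    _ = (m+1)^k := (add_pow m 1 k).symm

/-- The part of the affine line `y = m x + b` over `ZMod p` whose abscissae have residue modulo `M`
in the set `J`. -/
def part (p M : ℕ) [NeZero p] [NeZero M] (e : ZMod p × ZMod p ≃ Fin (p*p))
    (l : ZMod p × ZMod p) (J : Finset (Fin M)) : Finset (Fin (p*p)) :=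
  ((univ : Finset (ZMod p)).filter (fun x => Fin.ofNat M x.val ∈ J)).image
    (fun x => e (x, l.1 * x + l.2))

lemma mem_part {p M : ℕ} [NeZero p] [NeZero M] {e : ZMod p × ZMod p ≃ Fin (p*p)}
    {l : ZMod p × ZMod p} {J : Finset (Fin M)} {z : Fin (p*p)} :
    z ∈ part p M e l J ↔ Fin.ofNat M (e.symm z).1.val ∈ J ∧
      (e.symm z).2 = l.1 * (e.symm z).1 + l.2 := by
  unfold part
  simp only [mem_image, mem_filter, mem_univ, true_and]
  constructor
  · rintro ⟨x, hx, rfl⟩
    rw [Equiv.symm_apply_apply]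
    exact ⟨hx, rfl⟩
  · rintro ⟨h1, h2⟩
    refine ⟨(e.symm z).1, h1, ?_⟩
    rw [← h2]
    simp

/-- Each part is large. -/
lemma part_card {p M : ℕ} [NeZero p] [NeZero M] (e : ZMod p × ZMod p ≃ Fin (p*p))
    (l : ZMod p × ZMod p) (J : Finset (Fin M)) :
    J.card * (p / M) ≤ (part p M e l J).card := by
  unfold part
  rw [card_image_of_injective]
  swap
  · intro x y h
    have := e.injective h
    exact (Prod.mk.inj this).1
  have h1 : J.card * (p / M) = (J ×ˢ range (p / M)).card := by simp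
  rw [h1]
  have hM : 0 < M := Nat.pos_of_ne_zero (NeZero.ne M)
  have key : ∀ a : Fin M, ∀ i, i < p / M → a.val + M * i < p := by
    intro a i hi
    have h2 : M * (i+1) ≤ M * (p/M) := Nat.mul_le_mul_left _ hi
    have h3 : M * (p/M) ≤ p := Nat.mul_div_le p M
    have h4 := a.isLt
    have h5 : M * (i+1) = M * i + M := by ring
    omega
  apply card_le_card_of_injOn (fun x => ((x.1.val + M * x.2 : ℕ) : ZMod p))
  · rintro ⟨a, i⟩ hx
    simp only [coe_product, Set.mem_prod, mem_coe, mem_range] at hx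
    simp only [coe_filter, mem_univ, true_and, Set.mem_ofPred_eq]
    have h := key a i hx.2
    rw [ZMod.val_natCast_of_lt h]
    have : Fin.ofNat M (a.val + M * i) = a := by
      apply Fin.ext
      simp [Fin.ofNat, Nat.mod_eq_of_lt a.isLt]
    rw [this]
    exact hx.1
  · rintro ⟨a, i⟩ hx ⟨b, j⟩ hy hxy
    simp only [coe_product, Set.mem_prod, mem_coe, mem_range] at hx hy
    have h1 := key a i hx.2
    have h2 := key b j hy.2
    have h3 : a.val + M * i = b.val + M * j := by
      have := congrArg ZMod.val hxy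
      simp only at this
      rwa [ZMod.val_natCast_of_lt h1, ZMod.val_natCast_of_lt h2] at this
    have h4 : a.val = b.val := by
      have := congrArg (· % M) h3
      simpa [Nat.mod_eq_of_lt a.isLt, Nat.mod_eq_of_lt b.isLt] using this
    have h5 : i = j := by
      rw [h4] at h3
      have : M * i = M * j := by omega
      exact Nat.eq_of_mul_eq_mul_left hM this
    rw [Fin.ext h4, h5]

/-- The numeric estimate. -/
lemma numeric (C N : ℕ) (hN : 2 ≤ N) : ∀ᶠ p : ℕ in Filter.atTop,
    ((N-1 : ℕ) : ℝ)^(p*p) * ((p*p+1 : ℕ) : ℝ)^(2*C*p) < (N : ℝ)^(p*p) := by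
  have hN1 : (0:ℝ) < ((N-1 : ℕ) : ℝ) := by
    have : 0 < N - 1 := by omega
    exact_mod_cast this
  set r : ℝ := (N : ℝ) / ((N-1 : ℕ) : ℝ) with hr
  have hr1 : 1 < r := by
    rw [hr, one_lt_div hN1]
    have : N - 1 < N := by omega
    exact_mod_cast this
  have h1 := tendsto_pow_const_div_const_pow_of_one_lt (4*C) hr1
  have h2 : ∀ᶠ p : ℕ in Filter.atTop, (p:ℝ)^(4*C) / r^p < 1 / 2^(4*C) := by
    apply h1.eventually_lt_const
    positivity
  filter_upwards [h2, Filter.eventually_ge_atTop 1] with p hp hp1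
  have hrp : 0 < r^p := by positivity
  rw [div_lt_div_iff₀ hrp (by positivity)] at hp
  have hp1' : (1:ℝ) ≤ p := by exact_mod_cast hp1
  have h3 : ((p*p+1 : ℕ) : ℝ)^(2*C) < r^p := by
    calc ((p*p+1 : ℕ) : ℝ)^(2*C) ≤ ((2*(p:ℝ))^2)^(2*C) := by
          apply pow_le_pow_left₀ (by positivity)
          push_cast
          nlinarith
      _ = (p:ℝ)^(4*C) * 2^(4*C) := by
          rw [← pow_mul, mul_pow, show 2*(2*C) = 4*C by ring]; ring
      _ < r^p := by linarith
  have h4 : (((p*p+1 : ℕ) : ℝ)^(2*C))^p < (r^p)^p :=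
    pow_lt_pow_left₀ h3 (by positivity) (by omega)
  rw [← pow_mul, ← pow_mul] at h4
  have h5 : (N : ℝ) = r * ((N-1 : ℕ) : ℝ) := by
    rw [hr]; field_simp
  rw [h5, mul_pow, mul_comm (r^(p*p))]
  exact mul_lt_mul_of_pos_left h4 (by positivity)

/-- The negation of the preceding statement: For each c₁>0 there is C such that any family of subsets of an n-set, each of size more than c₁√n and pairwise sharing at most one element, has a set S meeting every member in between 1 and C elements. -/
theorem result :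
    ¬ (∀ c₁ : ℝ, 0 < c₁ → ∃ C : ℕ, ∀ n : ℕ, ∀ F : Finset (Finset (Fin n)),
      (∀ A ∈ F, c₁ * Real.sqrt (n : ℝ) < ((A.card : ℕ) : ℝ)) →
      (∀ A ∈ F, ∀ B ∈ F, A ≠ B → (A ∩ B).card ≤ 1) →
      ∃ S : Finset (Fin n), ∀ A ∈ F, 1 ≤ (A ∩ S).card ∧ (A ∩ S).card ≤ C) := by
  intro hall
  obtain ⟨C₀, hC₀⟩ := hall (1/8) (by norm_num)
  -- a positive bound
  obtain ⟨C, hC1, hC⟩ : ∃ C : ℕ, 1 ≤ C ∧ ∀ n : ℕ, ∀ F : Finset (Finset (Fin n)),
      (∀ A ∈ F, (1/8) * Real.sqrt (n : ℝ) < ((A.card : ℕ) : ℝ)) →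
      (∀ A ∈ F, ∀ B ∈ F, A ≠ B → (A ∩ B).card ≤ 1) →
      ∃ S : Finset (Fin n), ∀ A ∈ F, 1 ≤ (A ∩ S).card ∧ (A ∩ S).card ≤ C := by
    refine ⟨C₀ + 1, by omega, ?_⟩
    intro n F h1 h2
    obtain ⟨S, hS⟩ := hC₀ n F h1 h2
    exact ⟨S, fun A hA => ⟨(hS A hA).1, (hS A hA).2.trans (by omega)⟩⟩
  set M : ℕ := 4 * C with hM
  haveI : NeZero M := ⟨by omega⟩
  set N : ℕ := M.choose (2*C) with hNdef
  have hN2 : 2 ≤ N := by
    have h1 : M.choose 1 ≤ M.choose (2*C) := by
      rw [show 2*C = M/2 by omega]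
      exact Nat.choose_le_middle 1 M
    rw [Nat.choose_one_right] at h1
    omega
  obtain ⟨p₀, hp₀⟩ := (Filter.eventually_atTop.mp (numeric C N hN2))
  obtain ⟨p, hpge, hp⟩ := Nat.exists_infinite_primes (max p₀ (2*M+1))
  haveI : Fact p.Prime := ⟨hp⟩
  have hpp₀ : p₀ ≤ p := le_trans (le_max_left _ _) hpge
  have hpM : 2*M+1 ≤ p := le_trans (le_max_right _ _) hpge
  have hnum := hp₀ p hpp₀
  haveI : NeZero p := ⟨hp.ne_zero⟩
  let e : ZMod p × ZMod p ≃ Fin (p*p) := Fintype.equivFinOfCardEq (by simp [ZMod.card])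
  let 𝒥 := {J : Finset (Fin M) // J.card = 2*C}
  let side (J : Finset (Fin M)) (s : Bool) : Finset (Fin M) := if s then J else Jᶜ
  let Fam (ω : (ZMod p × ZMod p) → 𝒥) : Finset (Finset (Fin (p*p))) :=
    univ.image (fun q : (ZMod p × ZMod p) × Bool => part p M e q.1 (side (ω q.1).1 q.2))
  have hside : ∀ (J : 𝒥) s, (side J.1 s).card = 2*C := by
    intro J s
    cases s
    · simp only [side]
      simp only [Bool.false_eq_true, if_false]
      rw [card_compl, J.2, Fintype.card_fin]
      omega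
    · simp only [side, if_true]
      exact J.2
  -- the two hypotheses
  have hex : ∀ ω, ∃ S : Finset (Fin (p*p)), ∀ A ∈ Fam ω, 1 ≤ (A ∩ S).card ∧ (A ∩ S).card ≤ C := by
    intro ω
    apply hC (p*p) (Fam ω)
    · intro A hA
      simp only [Fam, mem_image, mem_univ, true_and] at hA
      obtain ⟨q, rfl⟩ := hA
      have h1 := part_card e q.1 (side (ω q.1).1 q.2)
      rw [hside] at h1
      have h2 : Real.sqrt ((p*p : ℕ) : ℝ) = p := by
        push_cast
        exact Real.sqrt_mul_self (by positivity)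
      rw [h2]
      have h3 : p < 8 * (2*C*(p/M)) := by
        have h4 := Nat.div_add_mod p M
        have h5 := Nat.mod_lt p (show 0 < M by omega)
        have h6 : 8 * (2*C*(p/M)) = 4 * (M * (p/M)) := by rw [hM]; ring
        rw [h6]
        omega
      have h4 : (p:ℝ) < 8 * ((2*C*(p/M) : ℕ) : ℝ) := by exact_mod_cast h3
      have h5 : ((2*C*(p/M) : ℕ) : ℝ) ≤ ((part p M e q.1 (side (ω q.1).1 q.2)).card : ℝ) := by
        exact_mod_cast h1
      linarith
    · intro A hA B hB hAB
      simp only [Fam, mem_image, mem_univ, true_and] at hA hB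
      obtain ⟨q, rfl⟩ := hA
      obtain ⟨q', rfl⟩ := hB
      rw [card_le_one]
      intro z hz w hw
      simp only [mem_inter, mem_part] at hz hw
      obtain ⟨⟨z1, z2⟩, ⟨z3, z4⟩⟩ := hz
      obtain ⟨⟨w1, w2⟩, ⟨w3, w4⟩⟩ := hw
      by_cases hl : q.1 = q'.1
      · exfalso
        have hs : q.2 ≠ q'.2 := by
          intro h
          apply hAB
          rw [hl, h]
        rw [hl] at z1
        revert z1 z3 hs
        simp only [side]
        cases q.2 <;> cases q'.2 <;> simp [mem_compl] <;> tauto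
      · have hz' : (q.1.1 - q'.1.1) * (e.symm z).1 = q'.1.2 - q.1.2 := by
          have := z2.symm.trans z4
          linear_combination this
        have hw' : (q.1.1 - q'.1.1) * (e.symm w).1 = q'.1.2 - q.1.2 := by
          have := w2.symm.trans w4
          linear_combination this
        have hm : q.1.1 - q'.1.1 ≠ 0 := by
          intro h
          rw [h, zero_mul] at hz'
          apply hl
          apply Prod.ext
          · exact sub_eq_zero.mp h
          · exact (sub_eq_zero.mp hz'.symm).symm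
        have hx : (e.symm z).1 = (e.symm w).1 := mul_left_cancel₀ hm (hz'.trans hw'.symm)
        have hy : (e.symm z).2 = (e.symm w).2 := by rw [z2, w2, hx]
        exact e.symm.injective (Prod.ext hx hy)
  choose Sf hSf using hex
  -- the intersection of `S` with each line is small
  have hline : ∀ (ω : (ZMod p × ZMod p) → 𝒥) (l : ZMod p × ZMod p), ((univ.filter (fun z : Fin (p*p) => (e.symm z).2 = l.1 * (e.symm z).1 + l.2)) ∩ Sf ω).card
      ≤ 2*C := by
    intro ω l
    have h1 := (hSf ω (part p M e l (side (ω l).1 true)) (by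
      simp only [Fam, mem_image, mem_univ, true_and]; exact ⟨(l, true), rfl⟩)).2
    have h2 := (hSf ω (part p M e l (side (ω l).1 false)) (by
      simp only [Fam, mem_image, mem_univ, true_and]; exact ⟨(l, false), rfl⟩)).2
    have h3 : (univ.filter (fun z : Fin (p*p) => (e.symm z).2 = l.1 * (e.symm z).1 + l.2)) ∩ Sf ω
        ⊆ (part p M e l (side (ω l).1 true) ∩ Sf ω) ∪ (part p M e l (side (ω l).1 false) ∩ Sf ω) := by
      intro z hz
      simp only [mem_inter, mem_filter, mem_univ, true_and, mem_union, mem_part, side] at hz ⊢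
      simp only [if_true, Bool.false_eq_true, if_false, mem_compl]
      tauto
    calc _ ≤ _ := card_le_card h3
      _ ≤ _ := card_union_le _ _
      _ ≤ 2*C := by omega
  have hScard : ∀ ω, (Sf ω).card ≤ 2*C*p := by
    intro ω
    have h1 : Sf ω ⊆ univ.biUnion (fun b : ZMod p =>
        (univ.filter (fun z : Fin (p*p) => (e.symm z).2 = (0:ZMod p) * (e.symm z).1 + b)) ∩ Sf ω) := by
      intro z hz
      simp only [mem_biUnion, mem_univ, true_and, mem_inter, mem_filter]
      exact ⟨(e.symm z).2, by simp, hz⟩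
    calc _ ≤ _ := card_le_card h1
      _ ≤ ∑ b : ZMod p, ((univ.filter (fun z : Fin (p*p) =>
            (e.symm z).2 = (0:ZMod p) * (e.symm z).1 + b)) ∩ Sf ω).card := card_biUnion_le
      _ ≤ ∑ _b : ZMod p, 2*C := sum_le_sum (fun b _ => hline ω (0, b))
      _ = 2*C*p := by simp [ZMod.card]; ring
  -- counting
  have hfib : ∀ S ∈ (univ : Finset ((ZMod p × ZMod p) → 𝒥)).image Sf,
      ((univ : Finset ((ZMod p × ZMod p) → 𝒥)).filter (fun ω => Sf ω = S)).card ≤ (N-1)^(p*p) := by
    intro S hS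
    simp only [mem_image, mem_univ, true_and] at hS
    obtain ⟨ω₀, hω₀⟩ := hS
    have hJ0 : ∀ l : ZMod p × ZMod p, ∃ J : 𝒥, ∀ z ∈ S,
        (e.symm z).2 = l.1 * (e.symm z).1 + l.2 → Fin.ofNat M (e.symm z).1.val ∈ J.1 := by
      intro l
      have h1 := hline ω₀ l
      rw [hω₀] at h1
      set T := ((univ.filter (fun z : Fin (p*p) => (e.symm z).2 = l.1 * (e.symm z).1 + l.2)) ∩ S).image
        (fun z => Fin.ofNat M (e.symm z).1.val) with hT
      have h2 : T.card ≤ 2*C := card_image_le.trans h1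
      obtain ⟨J, hTJ, hJc⟩ := Finset.exists_superset_card_eq h2 (by
        rw [Fintype.card_fin]; omega)
      refine ⟨⟨J, hJc⟩, ?_⟩
      intro z hz hzl
      apply hTJ
      rw [hT, mem_image]
      exact ⟨z, by simp [hz, hzl], rfl⟩
    choose J0 hJ0 using hJ0
    have hsub : ((univ : Finset ((ZMod p × ZMod p) → 𝒥)).filter (fun ω => Sf ω = S))
        ⊆ Fintype.piFinset (fun l => (univ : Finset 𝒥).erase (J0 l)) := by
      intro ω hω
      simp only [mem_filter, mem_univ, true_and] at hω
      rw [Fintype.mem_piFinset]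
      intro l
      rw [mem_erase]
      refine ⟨?_, mem_univ _⟩
      intro hEq
      have h1 := (hSf ω (part p M e l (side (ω l).1 false)) (by
        simp only [Fam, mem_image, mem_univ, true_and]; exact ⟨(l, false), rfl⟩)).1
      rw [hω, Nat.one_le_iff_ne_zero, Ne, card_eq_zero, ← Ne, ← nonempty_iff_ne_empty] at h1
      obtain ⟨z, hz⟩ := h1
      simp only [mem_inter, mem_part, side, Bool.false_eq_true, if_false, mem_compl] at hz
      apply hz.1.1
      rw [hEq]
      exact hJ0 l z hz.2 hz.1.2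
    calc _ ≤ _ := card_le_card hsub
      _ = ∏ l : ZMod p × ZMod p, ((univ : Finset 𝒥).erase (J0 l)).card := Fintype.card_piFinset _
      _ = ∏ _l : ZMod p × ZMod p, (N-1) := by
          apply prod_congr rfl
          intro l _
          rw [card_erase_of_mem (mem_univ _), card_univ, Fintype.card_finset_len, Fintype.card_fin]
      _ = (N-1)^(p*p) := by simp [ZMod.card]
  have hcount := card_le_mul_card_image (univ : Finset ((ZMod p × ZMod p) → 𝒥)) ((N-1)^(p*p)) hfib
  have himg : ((univ : Finset ((ZMod p × ZMod p) → 𝒥)).image Sf).card ≤ (p*p+1)^(2*C*p) := by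
    refine le_trans (card_le_card ?_) (card_small_le (p*p) (2*C*p))
    intro S hS
    simp only [mem_image, mem_univ, true_and] at hS
    obtain ⟨ω, rfl⟩ := hS
    simp only [mem_filter, mem_univ, true_and]
    exact hScard ω
  have hΩ : (univ : Finset ((ZMod p × ZMod p) → 𝒥)).card = N^(p*p) := by
    rw [card_univ, Fintype.card_fun, Fintype.card_finset_len, Fintype.card_fin, Fintype.card_prod, ZMod.card]
  rw [hΩ] at hcount
  have hfin : N^(p*p) ≤ (N-1)^(p*p) * (p*p+1)^(2*C*p) :=
    hcount.trans (Nat.mul_le_mul_left _ himg)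
  have hfin' : (N:ℝ)^(p*p) ≤ ((N-1 : ℕ) : ℝ)^(p*p) * ((p*p+1 : ℕ) : ℝ)^(2*C*p) := by
    exact_mod_cast hfin
  exact absurd hfin' (not_le.mpr hnum)

end Pool.Agent.S09524
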