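import Pool.Statements.S09637
import Pool.Agent.Q265.CR.Core

set_option autoImplicit false
open Pool Pool.MP_7a5332_co

namespace Pool.Agent.S09637

open Finset

section
variable {n : ℕ} (G : SimpleGraph (Fin n)) [DecidableRel G.Adj]

theorem no_tri (h : G.CliqueFree 3) {x y z : Fin n} (h1 : G.Adj x y) (h2 : G.Adj y z) (h3 : G.Adj x z) : False := by
  apply h {x, y, z}
  rw [SimpleGraph.is3Clique_iff]
  exact ⟨x, y, z, h1, h3, h2, rfl⟩

/-- an edge with large degree sum -/
theorem exists_edge (hE : 0 < G.edgeFinset.card) :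
    ∃ a b, G.Adj a b ∧ 4 * (G.edgeFinset.card : ℝ) ≤ n * ((G.degree a : ℝ) + G.degree b) := by
  by_contra hcon
  push Not at hcon
  set E : ℝ := (G.edgeFinset.card : ℝ) with hEdef
  have hEpos : 0 < E := by rw [hEdef]; exact_mod_cast hE
  have hdeg : ∑ v, (G.degree v : ℝ) = 2 * E := by
    have := G.sum_degrees_eq_twice_card_edges
    rw [hEdef]
    exact_mod_cast this
  have h1 : ∑ a, ∑ b ∈ G.neighborFinset a, ((G.degree a : ℝ) + G.degree b) = 2 * ∑ v, (G.degree v : ℝ) ^ 2 := by
    have e1 : ∑ a, ∑ b ∈ G.neighborFinset a, (G.degree a : ℝ) = ∑ v, (G.degree v : ℝ) ^ 2 := by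
      refine sum_congr rfl (fun a _ => ?_)
      rw [sum_const, SimpleGraph.card_neighborFinset_eq_degree, nsmul_eq_mul]
      ring
    have e2 : ∑ a, ∑ b ∈ G.neighborFinset a, (G.degree b : ℝ) = ∑ v, (G.degree v : ℝ) ^ 2 := by
      rw [← e1]
      apply sum_comm'
      intro x y
      simp [G.adj_comm]
    simp_rw [sum_add_distrib]
    rw [e1, e2]
    ring
  -- exists a dart
  have h2 : (n : ℝ) * ∑ a, ∑ b ∈ G.neighborFinset a, ((G.degree a : ℝ) + G.degree b) < 8 * E ^ 2 := by
    have hlt : ∑ a, ∑ b ∈ G.neighborFinset a, ((n : ℝ) * ((G.degree a : ℝ) + G.degree b)) <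
        ∑ a, ∑ b ∈ G.neighborFinset a, 4 * E := by
      have hne : ∃ a b, G.Adj a b := by
        obtain ⟨e, he⟩ := card_pos.1 hE
        induction e using Sym2.ind with
        | _ a b =>
          rw [SimpleGraph.mem_edgeFinset, SimpleGraph.mem_edgeSet] at he
          exact ⟨a, b, he⟩
      obtain ⟨a0, b0, hab0⟩ := hne
      apply sum_lt_sum
      · intro a _
        apply sum_le_sum
        intro b hb
        rw [SimpleGraph.mem_neighborFinset] at hb
        exact (hcon a b hb).le
      · refine ⟨a0, mem_univ _, ?_⟩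
        apply sum_lt_sum
        · intro b hb
          rw [SimpleGraph.mem_neighborFinset] at hb
          exact (hcon a0 b hb).le
        · exact ⟨b0, by rwa [SimpleGraph.mem_neighborFinset], hcon a0 b0 hab0⟩
    have e3 : ∑ a, ∑ b ∈ G.neighborFinset a, 4 * E = 8 * E ^ 2 := by
      simp_rw [sum_const, SimpleGraph.card_neighborFinset_eq_degree, nsmul_eq_mul]
      rw [← sum_mul, hdeg]
      ring
    rw [e3] at hlt
    rw [mul_sum]
    simp_rw [mul_sum]
    exact hlt
  rw [h1] at h2
  have h3 := sq_sum_le_card_mul_sum_sq (s := (univ : Finset (Fin n))) (f := fun v => (G.degree v : ℝ))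
  rw [hdeg, card_univ, Fintype.card_fin] at h3
  nlinarith

theorem edge_bound (P Q : Finset (Fin n)) (hP : ∀ p ∈ P, ∀ p' ∈ P, ¬ G.Adj p p')
    (hQ : ∀ p ∈ Q, ∀ p' ∈ Q, ¬ G.Adj p p') (hPQ : Disjoint P Q) :
    2 * (G.edgeFinset.card : ℝ) ≤ 2 * (∑ p ∈ P, ((Q.filter (fun q => G.Adj p q)).card : ℝ)) +
      2 * ((n : ℝ) - P.card - Q.card) * n := by
  classical
  set R : Finset (Fin n) := univ \ (P ∪ Q) with hR
  have hcard : (R.card : ℝ) = (n : ℝ) - P.card - Q.card := by
    have h1 : R.card = n - (P ∪ Q).card := by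
      rw [hR, card_sdiff_of_subset (subset_univ _), card_univ, Fintype.card_fin]
    have h2 : (P ∪ Q).card = P.card + Q.card := card_union_of_disjoint hPQ
    have h3 : (P ∪ Q).card ≤ n := by
      have := card_le_univ (P ∪ Q); simpa using this
    rw [h1, Nat.cast_sub h3, h2]
    push_cast
    ring
  have hdeg : ∑ v, (G.degree v : ℝ) = 2 * (G.edgeFinset.card : ℝ) := by
    have := G.sum_degrees_eq_twice_card_edges
    exact_mod_cast this
  have hsplit : ∑ v, (G.degree v : ℝ) = ∑ p ∈ P, (G.degree p : ℝ) + ∑ q ∈ Q, (G.degree q : ℝ) + ∑ r ∈ R, (G.degree r : ℝ) := by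
    rw [← sum_union hPQ, hR, add_comm, sum_sdiff (subset_univ _)]
  have hdP : ∀ p ∈ P, (G.degree p : ℝ) ≤ ((Q.filter (fun q => G.Adj p q)).card : ℝ) + R.card := by
    intro p hp
    have hsub : G.neighborFinset p ⊆ (Q.filter (fun q => G.Adj p q)) ∪ R := by
      intro x hx
      rw [SimpleGraph.mem_neighborFinset] at hx
      rw [mem_union, mem_filter, hR, mem_sdiff, mem_union]
      by_cases h1 : x ∈ Q
      · left; exact ⟨h1, hx⟩
      · right
        refine ⟨mem_univ _, ?_⟩
        rintro (h | h)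
        · exact hP p hp x h hx
        · exact h1 h
    have := (card_le_card hsub).trans (card_union_le _ _)
    rw [SimpleGraph.card_neighborFinset_eq_degree] at this
    exact_mod_cast this
  have hdQ : ∀ p ∈ Q, (G.degree p : ℝ) ≤ ((P.filter (fun q => G.Adj q p)).card : ℝ) + R.card := by
    intro p hp
    have hsub : G.neighborFinset p ⊆ (P.filter (fun q => G.Adj q p)) ∪ R := by
      intro x hx
      rw [SimpleGraph.mem_neighborFinset] at hx
      rw [mem_union, mem_filter, hR, mem_sdiff, mem_union]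
      by_cases h1 : x ∈ P
      · left; exact ⟨h1, hx.symm⟩
      · right
        refine ⟨mem_univ _, ?_⟩
        rintro (h | h)
        · exact h1 h
        · exact hQ p hp x h hx
    have := (card_le_card hsub).trans (card_union_le _ _)
    rw [SimpleGraph.card_neighborFinset_eq_degree] at this
    exact_mod_cast this
  have hdR : ∀ r ∈ R, (G.degree r : ℝ) ≤ n := by
    intro r _
    have := G.degree_lt_card_verts r
    rw [Fintype.card_fin] at this
    exact_mod_cast this.le
  have hswap : ∑ q ∈ Q, ((P.filter (fun p => G.Adj p q)).card : ℝ) = ∑ p ∈ P, ((Q.filter (fun q => G.Adj p q)).card : ℝ) := by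
    have := sum_card_bipartiteAbove_eq_sum_card_bipartiteBelow (s := P) (t := Q) (fun p q => G.Adj p q)
    simp only [bipartiteAbove, bipartiteBelow] at this
    have h2 : ((∑ p ∈ P, (Q.filter (fun q => G.Adj p q)).card : ℕ) : ℝ) = ((∑ q ∈ Q, (P.filter (fun p => G.Adj p q)).card : ℕ) : ℝ) := by
      exact_mod_cast this
    push_cast at h2
    exact h2.symm
  have h1 := sum_le_sum hdP
  have h2 := sum_le_sum hdQ
  have h3 := sum_le_sum hdR
  rw [sum_add_distrib, sum_const, nsmul_eq_mul] at h1 h2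
  rw [sum_const, nsmul_eq_mul] at h3
  rw [hswap] at h2
  rw [← hcard]
  have h4 : (P.card : ℝ) + Q.card ≤ n := by
    have : (0 : ℝ) ≤ (R.card : ℝ) := Nat.cast_nonneg _
    linarith
  have h5 : (0 : ℝ) ≤ (R.card : ℝ) := Nat.cast_nonneg _
  nlinarith

theorem few_bad (P Q : Finset (Fin n)) (k : ℕ) :
    (((P.card : ℝ) - (P.filter (fun p => (Q.filter (fun q => ¬ G.Adj p q)).card ≤ k)).card)) * (k + 1) ≤
      (P.card : ℝ) * Q.card - ∑ p ∈ P, ((Q.filter (fun q => G.Adj p q)).card : ℝ) := by
  classical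
  have h1 : ∑ p ∈ P, ((Q.filter (fun q => ¬ G.Adj p q)).card : ℝ) =
      (P.card : ℝ) * Q.card - ∑ p ∈ P, ((Q.filter (fun q => G.Adj p q)).card : ℝ) := by
    have : ∀ p ∈ P, ((Q.filter (fun q => ¬ G.Adj p q)).card : ℝ) = Q.card - ((Q.filter (fun q => G.Adj p q)).card : ℝ) := by
      intro p _
      have := card_filter_add_card_filter_not (s := Q) (fun q => G.Adj p q)
      have h2 : ((Q.filter (fun q => G.Adj p q)).card : ℝ) + ((Q.filter (fun q => ¬ G.Adj p q)).card : ℝ) = Q.card := by
        exact_mod_cast this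
      linarith
    rw [sum_congr rfl this, sum_sub_distrib, sum_const, nsmul_eq_mul]
  rw [← h1]
  have hsplit := card_filter_add_card_filter_not (s := P) (fun p => (Q.filter (fun q => ¬ G.Adj p q)).card ≤ k)
  have h2 : ((P.filter (fun p => (Q.filter (fun q => ¬ G.Adj p q)).card ≤ k)).card : ℝ) +
      ((P.filter (fun p => ¬ (Q.filter (fun q => ¬ G.Adj p q)).card ≤ k)).card : ℝ) = P.card := by
    exact_mod_cast hsplit
  have h3 : ((P.card : ℝ) - (P.filter (fun p => (Q.filter (fun q => ¬ G.Adj p q)).card ≤ k)).card) =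
      ((P.filter (fun p => ¬ (Q.filter (fun q => ¬ G.Adj p q)).card ≤ k)).card : ℝ) := by linarith
  rw [h3]
  calc ((P.filter (fun p => ¬ (Q.filter (fun q => ¬ G.Adj p q)).card ≤ k)).card : ℝ) * (k + 1)
      = ∑ p ∈ P.filter (fun p => ¬ (Q.filter (fun q => ¬ G.Adj p q)).card ≤ k), ((k : ℝ) + 1) := by
        rw [sum_const, nsmul_eq_mul]
    _ ≤ ∑ p ∈ P.filter (fun p => ¬ (Q.filter (fun q => ¬ G.Adj p q)).card ≤ k),
          ((Q.filter (fun q => ¬ G.Adj p q)).card : ℝ) := by
        apply sum_le_sum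
        intro p hp
        have := (mem_filter.1 hp).2
        push Not at this
        exact_mod_cast this
    _ ≤ ∑ p ∈ P, ((Q.filter (fun q => ¬ G.Adj p q)).card : ℝ) := by
        apply sum_le_sum_of_subset_of_nonneg (filter_subset _ _)
        intro p _ _
        exact Nat.cast_nonneg _

end

theorem low_bound (x y n e : ℝ) (hn : 0 < n) (hx : 0 ≤ x) (hsum : x + y ≤ n)
    (he : (1 / 4 - 1 / 10000) * n ^ 2 < e) (hxy : e ≤ x * y) : 49 / 100 * n ≤ x := by
  by_contra hlt
  push Not at hlt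
  have h1 : x * y ≤ x * (n - x) := mul_le_mul_of_nonneg_left (by linarith) hx
  have h2 : n / 100 < n / 2 - x := by linarith
  have h3 : (n / 100) * (n / 100) ≤ (n / 2 - x) * (n / 2 - x) :=
    mul_le_mul h2.le h2.le (by positivity) (by linarith)
  have h4 : x * (n - x) = n ^ 2 / 4 - (n / 2 - x) * (n / 2 - x) := by ring
  have h5 : (n / 100) * (n / 100) = 1 / 10000 * n ^ 2 := by ring
  linarith

/-- There is a constant c < 1/4 such that, for all large n, every triangle-free 4-critical graph on n vertices (chromatic number 4, no isolated vertices, each edge deletion leaves it 3-colorable) has at most c·n² edges. -/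
theorem result :
    ∃ c : ℝ, c < 1 / 4 ∧ ∃ N : ℕ, ∀ n : ℕ, N ≤ n → ∀ G : SimpleGraph (Fin n),
      G.CliqueFree 3 → G.chromaticNumber = 4 → (∀ v : Fin n, ∃ w : Fin n, G.Adj v w) →
      (∀ e ∈ G.edgeSet, (G.deleteEdges {e}).Colorable 3) →
      (G.edgeSet.ncard : ℝ) ≤ c * (n : ℝ) ^ 2 := by
  classical
  refine ⟨1 / 4 - 1 / 50000, by norm_num, 100, ?_⟩
  intro n hn G htri hchi _ hcrit
  by_contra hlarge
  push Not at hlarge
  have hnR : (100 : ℝ) ≤ n := by exact_mod_cast hn
  have hE : (G.edgeSet.ncard : ℝ) = (G.edgeFinset.card : ℝ) := by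
    rw [← SimpleGraph.coe_edgeFinset, Set.ncard_coe_finset]
  rw [hE] at hlarge
  set E : ℝ := (G.edgeFinset.card : ℝ) with hEdef
  have hEpos : 0 < E := by nlinarith
  have hE0 : 0 < G.edgeFinset.card := by rw [hEdef] at hEpos; exact_mod_cast hEpos
  have h3 : ¬ G.Colorable 3 := by
    intro h
    have := h.chromaticNumber_le
    rw [hchi] at this
    exact absurd this (by norm_num)
  obtain ⟨a, b, hab, hdeg⟩ := exists_edge G hE0
  set P := G.neighborFinset b with hP
  set Q := G.neighborFinset a with hQ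
  have hPind : ∀ p ∈ P, ∀ p' ∈ P, ¬ G.Adj p p' := by
    intro p hp p' hp' h
    rw [hP, SimpleGraph.mem_neighborFinset] at hp hp'
    exact no_tri G htri hp h hp'
  have hQind : ∀ p ∈ Q, ∀ p' ∈ Q, ¬ G.Adj p p' := by
    intro p hp p' hp' h
    rw [hQ, SimpleGraph.mem_neighborFinset] at hp hp'
    exact no_tri G htri hp h hp'
  have hPQ : Disjoint P Q := by
    rw [disjoint_left]
    intro x hx hx'
    rw [hP, SimpleGraph.mem_neighborFinset] at hx
    rw [hQ, SimpleGraph.mem_neighborFinset] at hx'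
    exact no_tri G htri hab hx hx'
  have hPc : (P.card : ℝ) = G.degree b := by rw [hP, SimpleGraph.card_neighborFinset_eq_degree]
  have hQc : (Q.card : ℝ) = G.degree a := by rw [hQ, SimpleGraph.card_neighborFinset_eq_degree]
  have hPQn : (P.card : ℝ) + Q.card ≤ n := by
    have h1 : (P ∪ Q).card ≤ n := by have := card_le_univ (P ∪ Q); simpa using this
    rw [card_union_of_disjoint hPQ] at h1
    exact_mod_cast h1
  have hsum : 4 * E ≤ n * ((P.card : ℝ) + Q.card) := by
    rw [hPc, hQc]; linarith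
  have hR : (n : ℝ) - P.card - Q.card ≤ 4 / 50000 * n := by
    have h1 : 4 * ((1 / 4 - 1 / 50000) * (n : ℝ) ^ 2) < n * ((P.card : ℝ) + Q.card) := by linarith
    have h2 : (n : ℝ) * ((1 - 4 / 50000) * n) < n * ((P.card : ℝ) + Q.card) := by nlinarith
    have h3 := lt_of_mul_lt_mul_left h2 (by linarith)
    linarith
  have hR0 : 0 ≤ (n : ℝ) - P.card - Q.card := by linarith
  set e := ∑ p ∈ P, ((Q.filter (fun q => G.Adj p q)).card : ℝ) with he
  have heb := edge_bound G P Q hPind hQind hPQ
  rw [← he, ← hEdef] at heb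
  have he2 : (1 / 4 - 1 / 10000) * (n : ℝ) ^ 2 < e := by
    have : ((n : ℝ) - P.card - Q.card) * n ≤ 4 / 50000 * n * n := mul_le_mul_of_nonneg_right hR (by linarith)
    nlinarith
  have hPpos : (0 : ℝ) ≤ P.card := Nat.cast_nonneg _
  have hQpos : (0 : ℝ) ≤ Q.card := Nat.cast_nonneg _
  have hePQ : e ≤ (P.card : ℝ) * Q.card := by
    rw [he]
    calc ∑ p ∈ P, ((Q.filter (fun q => G.Adj p q)).card : ℝ) ≤ ∑ p ∈ P, (Q.card : ℝ) := by
          apply sum_le_sum
          intro p _
          exact_mod_cast card_filter_le _ _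
      _ = (P.card : ℝ) * Q.card := by rw [sum_const, nsmul_eq_mul]
  have hAM : (P.card : ℝ) * Q.card ≤ (n : ℝ) ^ 2 / 4 := by nlinarith [sq_nonneg ((P.card : ℝ) - Q.card)]
  have hPlow : 49 / 100 * (n : ℝ) ≤ P.card :=
    low_bound _ _ _ _ (by linarith) hPpos hPQn he2 hePQ
  have hQlow : 49 / 100 * (n : ℝ) ≤ Q.card :=
    low_bound (Q.card : ℝ) (P.card : ℝ) n e (by linarith) hQpos (by linarith) he2 (by rw [mul_comm]; exact hePQ)
  set k := n / 100 with hk
  have hk1 : (k : ℝ) ≤ n / 100 := by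
    rw [hk]; exact Nat.cast_div_le
  have hk2 : (n : ℝ) / 100 ≤ (k : ℝ) + 1 := by
    have h1 : n < 100 * (n / 100 + 1) := Nat.lt_mul_div_succ n (by norm_num)
    have h2 : (n : ℝ) < 100 * ((k : ℝ) + 1) := by rw [hk]; exact_mod_cast h1
    linarith
  set A := P.filter (fun p => (Q.filter (fun q => ¬ G.Adj p q)).card ≤ k) with hA
  set B := Q.filter (fun p => (P.filter (fun q => ¬ G.Adj p q)).card ≤ k) with hB
  have hbadA := few_bad G P Q k
  have hbadB := few_bad G Q P k
  have hswap : ∑ q ∈ Q, ((P.filter (fun p => G.Adj q p)).card : ℝ) = e := by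
    have := sum_card_bipartiteAbove_eq_sum_card_bipartiteBelow (s := P) (t := Q) (fun p q => G.Adj p q)
    simp only [bipartiteAbove, bipartiteBelow] at this
    have h2 : ((∑ p ∈ P, (Q.filter (fun q => G.Adj p q)).card : ℕ) : ℝ) = ((∑ q ∈ Q, (P.filter (fun p => G.Adj p q)).card : ℕ) : ℝ) := by
      exact_mod_cast this
    push_cast at h2
    rw [he, h2]
    refine sum_congr rfl (fun q _ => ?_)
    congr 2
    ext p
    simp [G.adj_comm]
  rw [← hA, ← he] at hbadA
  rw [← hB, hswap] at hbadB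
  have hApos : (0 : ℝ) ≤ (P.card : ℝ) - A.card := by
    have : A.card ≤ P.card := card_filter_le _ _
    have : (A.card : ℝ) ≤ P.card := by exact_mod_cast this
    linarith
  have hBpos : (0 : ℝ) ≤ (Q.card : ℝ) - B.card := by
    have : B.card ≤ Q.card := card_filter_le _ _
    have : (B.card : ℝ) ≤ Q.card := by exact_mod_cast this
    linarith
  have hfin : ∀ X Y : ℝ, X * (k + 1) ≤ Y - e → Y ≤ (n : ℝ) ^ 2 / 4 → X ≤ n / 100 := by
    intro X Y h1 h2
    by_contra hlt
    push Not at hlt
    have h5 : (n : ℝ) / 100 * (n / 100) ≤ X * (k + 1) := by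
      apply mul_le_mul hlt.le hk2 (by linarith) (by linarith)
    have h6 : (n : ℝ) / 100 * (n / 100) = 1 / 10000 * (n : ℝ) ^ 2 := by ring
    linarith
  have hAlow : (P.card : ℝ) - A.card ≤ n / 100 := hfin _ _ hbadA hAM
  have hBlow : (Q.card : ℝ) - B.card ≤ n / 100 := hfin _ _ hbadB (by rw [mul_comm]; exact hAM)
  have hdisj : Disjoint A B := disjoint_of_subset_left (filter_subset _ _) (disjoint_of_subset_right (filter_subset _ _) hPQ)
  have hAB : ((univ \ (A ∪ B)).card : ℝ) = n - A.card - B.card := by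
    have h3 : (A ∪ B).card ≤ n := by have := card_le_univ (A ∪ B); simpa using this
    rw [card_sdiff_of_subset (subset_univ _), card_univ, Fintype.card_fin, Nat.cast_sub h3, card_union_of_disjoint hdisj]
    push_cast
    ring
  have h3kA : 3 * k + 1 < A.card := by
    have : (3 : ℝ) * k + 1 < A.card := by linarith
    exact_mod_cast this
  have h3kB : 3 * k + 1 < B.card := by
    have : (3 : ℝ) * k + 1 < B.card := by linarith
    exact_mod_cast this
  have hcore := Pool.Agent.Q265.CR.core G A B k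
    (fun p hp p' hp' => hPind p (mem_filter.1 hp).1 p' (mem_filter.1 hp').1) hdisj
    (fun p hp => (card_le_card (filter_subset_filter _ (filter_subset _ _))).trans (mem_filter.1 hp).2)
    (fun q hq => (card_le_card (filter_subset_filter _ (filter_subset _ _))).trans (mem_filter.1 hq).2)
    h3kA h3kB h3 (fun u v huv => hcrit s(u, v) huv)
  have hcoreR : (A.card : ℝ) ≤ k + ((univ \ (A ∪ B)).card : ℝ) := by exact_mod_cast hcore
  rw [hAB] at hcoreR
  linarith

end Pool.Agent.S09637
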