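import Pool.Statements.S10055

set_option autoImplicit false
open Pool Pool.MP_8d311f_co

namespace Pool.Agent.S10055

/-- the matrix: `i < 4` stands for the rotation `r i`, and `4 + i` for the reflection `sr i` -/
def tab : Fin 16 → Fin 16 → ℕ :=
  ![![0, 0, 0, 0, 0, 0, 0, 0, 0, 0, 0, 0, 0, 0, 0, 0],
    ![0, 3, 4, 7, 2, 3, 4, 5, 2, 1, 6, 7, 0, 1, 6, 5],
    ![0, 6, 5, 3, 0, 4, 7, 1, 2, 6, 5, 1, 2, 4, 7, 3],
    ![0, 7, 1, 6, 2, 5, 3, 6, 0, 5, 3, 4, 2, 7, 1, 4],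
    ![0, 2, 0, 2, 3, 1, 1, 3, 6, 4, 4, 6, 5, 7, 7, 5],
    ![0, 1, 6, 7, 1, 2, 7, 4, 4, 5, 0, 3, 5, 6, 3, 2],
    ![0, 4, 7, 3, 3, 5, 6, 2, 4, 0, 1, 5, 7, 1, 2, 6],
    ![0, 5, 3, 6, 1, 4, 2, 5, 6, 3, 7, 0, 7, 2, 4, 1],
    ![0, 2, 2, 0, 6, 6, 4, 4, 7, 7, 5, 5, 3, 3, 1, 1],
    ![0, 3, 6, 5, 4, 7, 2, 1, 7, 4, 3, 2, 1, 0, 5, 6],
    ![0, 6, 7, 1, 4, 2, 3, 7, 5, 1, 2, 6, 3, 5, 4, 0],
    ![0, 7, 3, 4, 6, 3, 5, 2, 5, 2, 4, 1, 1, 6, 0, 7],
    ![0, 0, 2, 2, 5, 7, 5, 7, 1, 3, 1, 3, 6, 4, 6, 4],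
    ![0, 1, 4, 5, 7, 6, 1, 0, 3, 2, 7, 4, 6, 5, 2, 3],
    ![0, 4, 5, 1, 5, 1, 0, 6, 3, 7, 6, 2, 4, 2, 3, 7],
    ![0, 5, 1, 4, 7, 0, 6, 3, 1, 6, 2, 7, 4, 3, 5, 2]]

/-- decoding -/
def dec (x : ℕ) : DihedralGroup 4 :=
  if x < 4 then DihedralGroup.r (x : ZMod 4) else DihedralGroup.sr ((x - 4 : ℕ) : ZMod 4)

/-- elements as numbers -/
def enc (x : DihedralGroup 4) : ℕ :=
  match x with
  | DihedralGroup.r i => i.val
  | DihedralGroup.sr i => 4 + i.val

/-- the number of the quotient of two elements given by numbers -/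
def quo (x y : ℕ) : ℕ :=
  bif Nat.blt x 4 then
    (bif Nat.blt y 4 then (x + 4 - y) % 4 else 4 + (y + 4 - x) % 4)
  else
    (bif Nat.blt y 4 then 4 + (x + 4 - y) % 4 else (y + 4 - x) % 4)

lemma quo_spec : ∀ x < 8, ∀ y < 8, enc (dec x * (dec y)⁻¹) = quo x y := by decide +kernel

lemma enc_inj : ∀ x y : DihedralGroup 4, enc x = enc y → x = y := by decide +kernel

lemma enc_lt : ∀ x : DihedralGroup 4, enc x < 8 := by decide +kernel

lemma tab_lt : ∀ i j, tab i j < 8 := by decide +kernel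

lemma iff_quo (i j k l : Fin 16) (g : DihedralGroup 4) :
    dec (tab i j) * (dec (tab k l))⁻¹ = g ↔ quo (tab i j) (tab k l) = enc g := by
  rw [← quo_spec _ (tab_lt i j) _ (tab_lt k l)]
  exact ⟨fun h => by rw [h], fun h => enc_inj _ _ h⟩

lemma rows : ∀ i j : Fin 16, i ≠ j → ∀ g < 8,
    (Finset.univ.filter (fun k => quo (tab i k) (tab j k) = g)).card = 2 := by decide +kernel

lemma cols : (Finset.univ.filter (fun k => quo (tab k 1) (tab k 4) = 5)).card = 4 := by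
  decide +kernel

/-- There is a finite group N of order w dividing v and a v×v matrix over N such that, for any two distinct rows, each group element occurs exactly v/w times among the entrywise quotients h_ik h_jk⁻¹, while this fails for some pair of distinct columns. -/
theorem result :
    ∃ (N : Type) (_ : Group N) (_ : Finite N) (v : ℕ) (H : Fin v → Fin v → N),
      Nat.card N ∣ v ∧
      (∀ i j : Fin v, i ≠ j → ∀ g : N,
        Nat.card {k : Fin v // H i k * (H j k)⁻¹ = g} = v / Nat.card N) ∧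
      ¬ (∀ i j : Fin v, i ≠ j → ∀ g : N,
        Nat.card {k : Fin v // H k i * (H k j)⁻¹ = g} = v / Nat.card N) := by
  refine ⟨DihedralGroup 4, inferInstance, inferInstance, 16, fun i j => dec (tab i j), ?_, ?_, ?_⟩
  · rw [DihedralGroup.nat_card]; norm_num
  · intro i j hij g
    rw [DihedralGroup.nat_card, Nat.card_eq_fintype_card, Fintype.card_subtype]
    simp only [iff_quo]
    rw [rows i j hij _ (enc_lt g)]
  · intro h
    have h1 := h 1 4 (by decide) (DihedralGroup.sr 1)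
    rw [DihedralGroup.nat_card, Nat.card_eq_fintype_card, Fintype.card_subtype] at h1
    simp only [iff_quo] at h1
    have e : enc (DihedralGroup.sr 1) = 5 := by decide +kernel
    rw [e, cols] at h1
    norm_num at h1

end Pool.Agent.S10055
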