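import Pool.Statements.S16181
import Pool.Agent.H304R2.Lam

set_option autoImplicit false
open Pool Pool.MP_192724_nt

namespace Pool.Agent.S16181

/-- for `m ≥ 1` the Liouville function is not eventually `2 m`-periodic -/
lemma not_periodic (m : ℕ) (hm : 1 ≤ m) (K : ℕ) :
    ¬ ∀ k : ℕ, K ≤ k → 1 ≤ k → (-1 : ℤ) ^ (ArithmeticFunction.cardFactors k) =
      (-1 : ℤ) ^ (ArithmeticFunction.cardFactors (k + 2 * m)) := by
  intro h
  have h2m : 2 * m ≠ 0 := by omega
  have key : ∀ j : ℕ, K + 1 ≤ j → (-1 : ℤ) ^ (ArithmeticFunction.cardFactors j) =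
      (-1 : ℤ) ^ (ArithmeticFunction.cardFactors (j + 1)) := by
    intro j hj
    have h1 : K ≤ 2 * m * j := by nlinarith
    have h2 : 1 ≤ 2 * m * j := by nlinarith
    have h3 := h (2 * m * j) h1 h2
    have h4 : 2 * m * j + 2 * m = 2 * m * (j + 1) := by ring
    rw [h4, Pool.Agent.H304R2.lam_mul _ _ h2m (by omega),
      Pool.Agent.H304R2.lam_mul _ _ h2m (by omega)] at h3
    have h5 : (-1 : ℤ) ^ (ArithmeticFunction.cardFactors (2 * m)) ≠ 0 :=
      pow_ne_zero _ (by norm_num)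
    exact mul_left_cancel₀ h5 h3
  have key2 : ∀ i : ℕ, (-1 : ℤ) ^ (ArithmeticFunction.cardFactors (K + 1)) =
      (-1 : ℤ) ^ (ArithmeticFunction.cardFactors (K + 1 + i)) := by
    intro i
    induction i with
    | zero => rfl
    | succ i ih =>
      rw [ih, ← add_assoc]
      exact key _ (by omega)
  have h6 := key2 (K + 1)
  have h7 : K + 1 + (K + 1) = 2 * (K + 1) := by ring
  rw [h7, Pool.Agent.H304R2.lam_mul 2 (K + 1) (by norm_num) (by omega),
    ArithmeticFunction.cardFactors_apply_prime Nat.prime_two] at h6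
  rcases neg_one_pow_eq_or ℤ (ArithmeticFunction.cardFactors (K + 1)) with h8 | h8 <;>
    rw [h8] at h6 <;> norm_num at h6

/-- For every nonzero integer d, there are infinitely many n ≥ 1 such that n²+d is positive and has an odd number of prime factors counted with multiplicity, i.e. the Liouville function of n²+d equals −1. -/
theorem result :
    ∀ d : ℤ, d ≠ 0 →
      Set.Infinite {n : ℕ | 1 ≤ n ∧ 0 < (n : ℤ) ^ 2 + d ∧
        (-1 : ℤ) ^ (ArithmeticFunction.cardFactors (((n : ℤ) ^ 2 + d).toNat)) = -1} := by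
  intro d hd
  by_cases hD : IsSquare ((0 : ℤ) ^ 2 - 4 * d)
  · -- `d = - m ^ 2`
    obtain ⟨r, hr⟩ := hD
    have hr2 : (2 : ℤ) ∣ r := by
      have h1 : (2 : ℤ) ∣ r * r := ⟨-2 * d, by rw [← hr]; ring⟩
      rcases Int.prime_two.dvd_mul.1 h1 with h | h <;> exact h
    obtain ⟨q, rfl⟩ := hr2
    obtain ⟨m, hm⟩ : ∃ m : ℕ, m = q.natAbs := ⟨_, rfl⟩
    have hdm : d = -(m : ℤ) ^ 2 := by
      rw [hm, Int.natCast_natAbs, sq_abs]
      linarith
    have hm1 : 1 ≤ m := by
      rcases Nat.eq_zero_or_pos m with h | h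
      · exfalso
        apply hd
        rw [hdm, h]
        norm_num
      · exact h
    intro hfin
    obtain ⟨B, hB⟩ := hfin.bddAbove
    apply not_periodic m hm1 (B + 1)
    intro k hk1 hk2
    have h1 : ¬ (k + m) ∈ {n : ℕ | 1 ≤ n ∧ 0 < (n : ℤ) ^ 2 + d ∧
        (-1 : ℤ) ^ (ArithmeticFunction.cardFactors (((n : ℤ) ^ 2 + d).toNat)) = -1} := by
      intro h
      have := hB h
      omega
    have h2 : ((k + m : ℕ) : ℤ) ^ 2 + d = ((k * (k + 2 * m) : ℕ) : ℤ) := by
      rw [hdm]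
      push_cast
      ring
    have h3 : (0 : ℤ) < ((k * (k + 2 * m) : ℕ) : ℤ) := by
      have : 0 < k * (k + 2 * m) := Nat.mul_pos (by omega) (by omega)
      exact_mod_cast this
    simp only [Set.mem_setOf_eq, not_and] at h1
    have h4 := h1 (by omega) (by rw [h2]; exact h3)
    rw [h2, Int.toNat_natCast, Pool.Agent.H304R2.lam_mul _ _ (by omega) (by omega)] at h4
    rcases neg_one_pow_eq_or ℤ (ArithmeticFunction.cardFactors k) with h8 | h8 <;>
    rcases neg_one_pow_eq_or ℤ (ArithmeticFunction.cardFactors (k + 2 * m)) with h9 | h9 <;>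
    rw [h8, h9] at h4 <;> rw [h8, h9] <;> norm_num at h4
  · intro hfin
    obtain ⟨B, hB⟩ := hfin.bddAbove
    obtain ⟨N0, hN0⟩ := Pool.Agent.H304R2.main_lam 0 d hD (-1) (Or.inr rfl) (1 / 2) (by norm_num)
    -- all good `n` are below `max B |d|`
    obtain ⟨M, hM⟩ : ∃ M : ℕ, M = B + d.natAbs + 1 := ⟨_, rfl⟩
    obtain ⟨N, hN⟩ : ∃ N : ℕ, N = N0 + (M + 1) ^ 2 := ⟨_, rfl⟩
    have h1 := hN0 N (by omega)
    have hsub : (((Finset.Icc 1 N).filter (fun n : ℕ =>
        (-1 : ℤ) ^ (ArithmeticFunction.cardFactors ((n : ℤ) ^ 2 + 0 * n + d).natAbs) = -1)).card)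
        ≤ M := by
      have h2 : (Finset.Icc 1 N).filter (fun n : ℕ =>
        (-1 : ℤ) ^ (ArithmeticFunction.cardFactors ((n : ℤ) ^ 2 + 0 * n + d).natAbs) = -1) ⊆
          Finset.Icc 1 M := by
        intro n hn
        rw [Finset.mem_filter, Finset.mem_Icc] at hn
        rw [Finset.mem_Icc]
        refine ⟨hn.1.1, ?_⟩
        by_contra hlt
        push Not at hlt
        have hpos : 0 < (n : ℤ) ^ 2 + d := by
          have h3 : (d.natAbs : ℤ) < n := by
            have : d.natAbs < n := by omega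
            exact_mod_cast this
          have h4 : -(d.natAbs : ℤ) ≤ d := by
            rw [Int.natCast_natAbs]; exact neg_abs_le d
          nlinarith [Int.natCast_nonneg d.natAbs]
        have h5 : n ∈ {n : ℕ | 1 ≤ n ∧ 0 < (n : ℤ) ^ 2 + d ∧
            (-1 : ℤ) ^ (ArithmeticFunction.cardFactors (((n : ℤ) ^ 2 + d).toNat)) = -1} := by
          refine ⟨hn.1.1, hpos, ?_⟩
          have h6 : ((n : ℤ) ^ 2 + 0 * n + d).natAbs = ((n : ℤ) ^ 2 + d).toNat := by
            have : (n : ℤ) ^ 2 + 0 * n + d = (n : ℤ) ^ 2 + d := by ring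
            rw [this]
            omega
          rw [← h6]
          exact hn.2
        have := hB h5
        omega
      calc _ ≤ (Finset.Icc 1 M).card := Finset.card_le_card h2
        _ = M := by simp
    have h7 : ((M : ℝ) + 1) ≤ (N : ℝ) ^ (1 - 1 / 2 : ℝ) := by
      have h8 : (((M : ℝ) + 1) ^ 2) ≤ (N : ℝ) := by
        rw [hN]; push_cast
        have : (0 : ℝ) ≤ (N0 : ℝ) := Nat.cast_nonneg _
        linarith
      have h9 : (1 - 1 / 2 : ℝ) = 1 / 2 := by norm_num
      rw [h9, ← Real.sqrt_eq_rpow]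
      exact Real.le_sqrt_of_sq_le h8
    have h10 : ((M : ℝ) + 1) ≤ (M : ℝ) := by
      refine h7.trans (h1.trans ?_)
      exact_mod_cast hsub
    linarith

end Pool.Agent.S16181
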