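import Pool.Statements.S17203

set_option autoImplicit false
open Pool Pool.MP_637dc3_nt

namespace Pool.Agent.S17203

section Siegel

attribute [local instance] Matrix.seminormedAddCommGroup

/-- one homogeneous linear equation has a small integer solution -/
lemma siegel1 (n : ℕ) (hn : 1 ≤ n) (x : Fin (n + 1) → ℤ) (X : ℝ) (hX : 1 ≤ X)
    (hx : ∀ j, |(x j : ℝ)| ≤ X) :
    ∃ t : Fin (n + 1) → ℤ, t ≠ 0 ∧ ∑ j, x j * t j = 0 ∧
      ∀ j, |(t j : ℝ)| ≤ (((n : ℝ) + 1) * X) ^ (1 / (n : ℝ)) := by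
  set A : Matrix (Fin 1) (Fin (n + 1)) ℤ := fun _ j => x j with hA
  have hc1 : Fintype.card (Fin 1) < Fintype.card (Fin (n + 1)) := by simp; omega
  have hc2 : 0 < Fintype.card (Fin 1) := by simp
  obtain ⟨t, ht0, ht1, ht2⟩ := Int.Matrix.exists_ne_zero_int_vec_norm_le A hc1 hc2
  refine ⟨t, ht0, ?_, ?_⟩
  · have := congrFun ht1 0
    simpa [Matrix.mulVec, dotProduct, hA] using this
  · intro j
    have h1 : |(t j : ℝ)| ≤ ‖t‖ := by
      have := norm_le_pi_norm t j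
      rwa [Int.norm_eq_abs] at this
    have hAn : ‖A‖ ≤ X := by
      rw [Matrix.norm_le_iff (by linarith)]
      intro i j
      rw [Int.norm_eq_abs]
      exact hx j
    refine h1.trans (ht2.trans ?_)
    have e1 : ((Fintype.card (Fin 1) : ℕ) : ℝ) /
        (((Fintype.card (Fin (n + 1)) : ℕ) : ℝ) - ((Fintype.card (Fin 1) : ℕ) : ℝ)) = 1 / (n : ℝ) := by
      simp
    have e2 : ((Fintype.card (Fin (n + 1)) : ℕ) : ℝ) = (n : ℝ) + 1 := by simp
    rw [e1, e2]
    apply Real.rpow_le_rpow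
    · positivity
    · apply mul_le_mul_of_nonneg_left _ (by positivity)
      exact max_le hX hAn
    · positivity

end Siegel

/-- the set of the denominators that approximate `ξ, …, ξ ^ n` -/
def A (ξ : ℝ) (n : ℕ) (l : ℝ) : Set ℕ :=
  {q : ℕ | 0 < q ∧ ∀ j ∈ Finset.Icc 1 n,
      |(q : ℝ) * ξ ^ j - ((round ((q : ℝ) * ξ ^ j) : ℤ) : ℝ)| ≤ (q : ℝ) ^ (-l)}

lemma A_mono (ξ : ℝ) (n : ℕ) {l l' : ℝ} (h : l' ≤ l) : A ξ n l ⊆ A ξ n l' := by
  rintro q ⟨hq, hj⟩
  refine ⟨hq, fun j hjm => (hj j hjm).trans ?_⟩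
  apply Real.rpow_le_rpow_of_exponent_le
  · exact_mod_cast hq
  · linarith

/-- The integer polynomial trick: an approximation `x` of `(1, ξ, …, ξ ^ n)` of size `q` and error `L` gives
one of `(1, ξ, …, ξ ^ (n + 1))` of size `≪ q ^ (1 + 1 / n)` and error `≪ q ^ (1 / n) L`. -/
lemma extend (ξ : ℝ) (n : ℕ) (hn : 1 ≤ n) : ∃ C : ℝ, 1 ≤ C ∧ ∀ (q : ℕ) (L : ℝ), 0 < q → 0 ≤ L → L ≤ 1 →
    (∀ j ∈ Finset.Icc 1 n, |(q : ℝ) * ξ ^ j - ((round ((q : ℝ) * ξ ^ j) : ℤ) : ℝ)| ≤ L) →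
    ∃ q' : ℕ, q ≤ q' ∧ (q' : ℝ) ≤ C * (q : ℝ) ^ (1 + 1 / (n : ℝ)) ∧
      ∀ j ∈ Finset.Icc 1 (n + 1), |(q' : ℝ) * ξ ^ j - ((round ((q' : ℝ) * ξ ^ j) : ℤ) : ℝ)| ≤
        C * (q : ℝ) ^ (1 / (n : ℝ)) * L := by
  set M : ℝ := max 1 |ξ| with hM
  have hM1 : 1 ≤ M := le_max_left _ _
  have hMx : |ξ| ≤ M := le_max_right _ _
  set C1 : ℝ := M ^ (n + 1) + 1 with hC1
  have hMpow : ∀ j, j ≤ n + 1 → |ξ| ^ j ≤ M ^ (n + 1) := by
    intro j hj
    calc |ξ| ^ j ≤ M ^ j := pow_le_pow_left₀ (abs_nonneg _) hMx _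
      _ ≤ M ^ (n + 1) := pow_le_pow_right₀ hM1 hj
  have hMp1 : 1 ≤ M ^ (n + 1) := one_le_pow₀ hM1
  have hC11 : 1 ≤ C1 := by rw [hC1]; linarith
  set C2 : ℝ := (((n : ℝ) + 1) * C1) ^ (1 / (n : ℝ)) with hC2
  have hC21 : 1 ≤ C2 := by
    apply Real.one_le_rpow
    · have : (1 : ℝ) ≤ (n : ℝ) + 1 := by
        have : (0 : ℝ) ≤ n := Nat.cast_nonneg n
        linarith
      nlinarith
    · positivity
  set C : ℝ := C2 * (2 * ((n : ℝ) + 1) * M ^ (n + 1)) with hC
  have hn0 : (0 : ℝ) ≤ n := Nat.cast_nonneg n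
  have hK1 : (1 : ℝ) ≤ 2 * ((n : ℝ) + 1) * M ^ (n + 1) := by nlinarith
  have hCC2 : C2 ≤ C := by rw [hC]; nlinarith
  refine ⟨C, by linarith, ?_⟩
  intro q L hq hL0 hL1 hap
  have hq1 : (1 : ℝ) ≤ q := by exact_mod_cast hq
  -- the integer point
  let x : ℕ → ℤ := fun j => round ((q : ℝ) * ξ ^ j)
  have hx0 : x 0 = (q : ℤ) := by
    have : x 0 = round ((q : ℝ) * ξ ^ 0) := rfl
    rw [this, pow_zero, mul_one]
    exact round_natCast q
  have hxe : ∀ j, j ≤ n → |(q : ℝ) * ξ ^ j - (x j : ℝ)| ≤ L := by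
    intro j hj
    rcases Nat.eq_zero_or_pos j with rfl | hj0
    · rw [hx0]; simpa using hL0
    · exact hap j (Finset.mem_Icc.2 ⟨hj0, hj⟩)
  have hxb : ∀ j, j ≤ n → |(x j : ℝ)| ≤ C1 * q := by
    intro j hj
    have h1 := hxe j hj
    have h2 : |(q : ℝ) * ξ ^ j| ≤ q * M ^ (n + 1) := by
      rw [abs_mul, abs_pow, abs_of_pos (by linarith : (0 : ℝ) < q)]
      exact mul_le_mul_of_nonneg_left (hMpow j (by omega)) (by linarith)
    have h3 : |(x j : ℝ)| ≤ |(q : ℝ) * ξ ^ j| + |(q : ℝ) * ξ ^ j - (x j : ℝ)| := by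
      have := abs_sub_abs_le_abs_sub ((x j : ℝ)) ((q : ℝ) * ξ ^ j)
      rw [abs_sub_comm] at this
      linarith
    rw [hC1]
    nlinarith
  obtain ⟨t, ht0, ht1, ht2⟩ := siegel1 n hn (fun j => x j) (C1 * q) (by nlinarith)
    (fun j => hxb j (by omega))
  -- extend `t` to the natural numbers
  let p : ℕ → ℤ := fun j => if h : j < n + 1 then t ⟨j, h⟩ else 0
  have hpt : ∀ j : Fin (n + 1), p j = t j := by
    intro j
    exact dif_pos j.2
  set H : ℝ := C2 * (q : ℝ) ^ (1 / (n : ℝ)) with hH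
  have hqn1 : 1 ≤ (q : ℝ) ^ (1 / (n : ℝ)) := Real.one_le_rpow hq1 (by positivity)
  have hH0 : 0 ≤ H := by positivity
  have hpb : ∀ j, |(p j : ℝ)| ≤ H := by
    intro j
    by_cases h : j < n + 1
    · have : p j = t ⟨j, h⟩ := dif_pos h
      rw [this]
      refine (ht2 ⟨j, h⟩).trans (le_of_eq ?_)
      rw [hH, hC2, ← Real.mul_rpow (by positivity) (by positivity)]
      congr 1
      ring
    · have : p j = 0 := dif_neg h
      rw [this]
      simpa using hH0
  have hsum : ∑ j ∈ Finset.range (n + 1), x j * p j = 0 := by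
    rw [Finset.sum_range]
    simpa [hpt] using ht1
  -- the largest index with a nonzero coefficient
  have hex : ∃ j, j ≤ n ∧ p j ≠ 0 := by
    by_contra hcon
    push Not at hcon
    apply ht0
    funext j
    have := hcon j (by omega)
    rw [hpt] at this
    simpa using this
  obtain ⟨d, hdn, hd0, hdmax⟩ : ∃ d, d ≤ n ∧ p d ≠ 0 ∧ ∀ j, d < j → p j = 0 := by
    classical
    let S := (Finset.range (n + 1)).filter (fun j => p j ≠ 0)
    have hS : S.Nonempty := by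
      obtain ⟨j, hj, hj0⟩ := hex
      exact ⟨j, by simp [S, hj0]; omega⟩
    refine ⟨S.max' hS, ?_, ?_, ?_⟩
    · exact Nat.lt_succ_iff.1 (Finset.mem_range.1 (Finset.mem_filter.1 (S.max'_mem hS)).1)
    · exact (Finset.mem_filter.1 (S.max'_mem hS)).2
    · intro j hj
      by_contra hne
      by_cases h : j < n + 1
      · have hmem : j ∈ S := by simp [S, h, hne]
        exact absurd (S.le_max' j hmem) (by omega)
      · exact hne (dif_neg h)
  have hsumd : ∑ j ∈ Finset.range (d + 1), x j * p j = 0 := by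
    rw [← hsum]
    symm
    apply Finset.sum_subset_zero_on_sdiff (Finset.range_mono (by omega)) _ (fun _ _ => rfl) |>.symm
    intro j hj
    simp only [Finset.mem_sdiff, Finset.mem_range] at hj
    rw [hdmax j (by omega), mul_zero]
  -- `q P(ξ)` is small
  have hP : |(q : ℝ) * ∑ j ∈ Finset.range (d + 1), (p j : ℝ) * ξ ^ j| ≤ ((n : ℝ) + 1) * (H * L) := by
    have e1 : (q : ℝ) * ∑ j ∈ Finset.range (d + 1), (p j : ℝ) * ξ ^ j =
        ∑ j ∈ Finset.range (d + 1), (p j : ℝ) * ((q : ℝ) * ξ ^ j - (x j : ℝ)) := by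
      have e2 : ∑ j ∈ Finset.range (d + 1), (p j : ℝ) * (x j : ℝ) = 0 := by
        have := congrArg (fun z : ℤ => (z : ℝ)) hsumd
        push_cast at this
        rw [← this]
        exact Finset.sum_congr rfl (fun j _ => mul_comm _ _)
      rw [Finset.mul_sum]
      calc ∑ j ∈ Finset.range (d + 1), (q : ℝ) * ((p j : ℝ) * ξ ^ j)
          = ∑ j ∈ Finset.range (d + 1), ((p j : ℝ) * ((q : ℝ) * ξ ^ j - (x j : ℝ)) +
              (p j : ℝ) * (x j : ℝ)) := Finset.sum_congr rfl (fun j _ => by ring)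
        _ = _ := by rw [Finset.sum_add_distrib, e2, add_zero]
    rw [e1]
    refine (Finset.abs_sum_le_sum_abs _ _).trans ?_
    calc ∑ j ∈ Finset.range (d + 1), |(p j : ℝ) * ((q : ℝ) * ξ ^ j - (x j : ℝ))|
        ≤ ∑ _j ∈ Finset.range (d + 1), H * L := by
          apply Finset.sum_le_sum
          intro j hj
          rw [Finset.mem_range] at hj
          rw [abs_mul]
          exact mul_le_mul (hpb j) (hxe j (by omega)) (abs_nonneg _) hH0
      _ = ((d : ℝ) + 1) * (H * L) := by simp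
      _ ≤ ((n : ℝ) + 1) * (H * L) := by
          apply mul_le_mul_of_nonneg_right _ (by positivity)
          have : (d : ℝ) ≤ n := by exact_mod_cast hdn
          linarith
  -- the new denominator
  refine ⟨(p d).natAbs * q, ?_, ?_, ?_⟩
  · have : 1 ≤ (p d).natAbs := Int.natAbs_pos.2 hd0
    nlinarith
  · have h1 : (((p d).natAbs * q : ℕ) : ℝ) = |(p d : ℝ)| * q := by
      push_cast
      rw [Nat.cast_natAbs]
      push_cast
      rfl
    rw [h1, Real.rpow_add (by linarith), Real.rpow_one]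
    calc |(p d : ℝ)| * q ≤ H * q := mul_le_mul_of_nonneg_right (hpb d) (by linarith)
      _ = C2 * (q * (q : ℝ) ^ (1 / (n : ℝ))) := by rw [hH]; ring
      _ ≤ C * (q * (q : ℝ) ^ (1 / (n : ℝ))) := mul_le_mul_of_nonneg_right hCC2 (by positivity)
  · intro j hj
    rw [Finset.mem_Icc] at hj
    -- it is enough to find an integer close to `p_d q ξ ^ j`
    have key : ∀ z : ℤ, |(p d : ℝ) * q * ξ ^ j - (z : ℝ)| ≤ C * (q : ℝ) ^ (1 / (n : ℝ)) * L →
        |(((p d).natAbs * q : ℕ) : ℝ) * ξ ^ j - ((round ((((p d).natAbs * q : ℕ) : ℝ) * ξ ^ j) : ℤ) : ℝ)| ≤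
          C * (q : ℝ) ^ (1 / (n : ℝ)) * L := by
      intro z hz
      have h1 : (((p d).natAbs * q : ℕ) : ℝ) = |(p d : ℝ)| * q := by
        push_cast
        rw [Nat.cast_natAbs]
        push_cast
        rfl
      rw [h1]
      rcases abs_choice (p d : ℝ) with hs | hs
      · rw [hs]
        exact (round_le _ z).trans hz
      · rw [hs]
        refine (round_le _ (-z)).trans ?_
        rw [show -(p d : ℝ) * q * ξ ^ j - ((-z : ℤ) : ℝ) = -((p d : ℝ) * q * ξ ^ j - (z : ℝ)) by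
          push_cast; ring, abs_neg]
        exact hz
    have hCH : H * L * (2 * ((n : ℝ) + 1) * M ^ (n + 1)) = C * (q : ℝ) ^ (1 / (n : ℝ)) * L := by
      rw [hH, hC]; ring
    rcases Nat.lt_or_ge n j with hjn | hjn
    · -- the new coordinate
      have hj1 : j = n + 1 := by omega
      subst hj1
      apply key (-(∑ i ∈ Finset.range d, p i * x (n + 1 - d + i)))
      have e1 : (p d : ℝ) * q * ξ ^ (n + 1) - ((-(∑ i ∈ Finset.range d, p i * x (n + 1 - d + i)) : ℤ) : ℝ)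
          = ξ ^ (n + 1 - d) * ((q : ℝ) * ∑ j ∈ Finset.range (d + 1), (p j : ℝ) * ξ ^ j) -
            ∑ i ∈ Finset.range d, (p i : ℝ) * ((q : ℝ) * ξ ^ (n + 1 - d + i) - (x (n + 1 - d + i) : ℝ)) := by
        rw [Finset.sum_range_succ]
        push_cast
        have e3 : ξ ^ (n + 1) = ξ ^ (n + 1 - d) * ξ ^ d := by
          rw [← pow_add]; congr 1; omega
        rw [e3, mul_add, mul_add, Finset.mul_sum, Finset.mul_sum]
        have e4 : ∑ i ∈ Finset.range d, (p i : ℝ) *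
              ((q : ℝ) * ξ ^ (n + 1 - d + i) - (x (n + 1 - d + i) : ℝ)) =
            ∑ i ∈ Finset.range d, ξ ^ (n + 1 - d) * ((q : ℝ) * ((p i : ℝ) * ξ ^ i)) -
              ∑ i ∈ Finset.range d, (p i : ℝ) * (x (n + 1 - d + i) : ℝ) := by
          rw [← Finset.sum_sub_distrib]
          apply Finset.sum_congr rfl
          intro i _
          rw [pow_add]
          ring
        rw [e4]
        ring
      rw [e1]
      refine (abs_sub _ _).trans ?_
      have h2 : |ξ ^ (n + 1 - d) * ((q : ℝ) * ∑ j ∈ Finset.range (d + 1), (p j : ℝ) * ξ ^ j)| ≤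
          M ^ (n + 1) * (((n : ℝ) + 1) * (H * L)) := by
        rw [abs_mul, abs_pow]
        exact mul_le_mul (hMpow _ (by omega)) hP (abs_nonneg _) (by positivity)
      have h3 : |∑ i ∈ Finset.range d, (p i : ℝ) *
          ((q : ℝ) * ξ ^ (n + 1 - d + i) - (x (n + 1 - d + i) : ℝ))| ≤ ((n : ℝ) + 1) * (H * L) := by
        refine (Finset.abs_sum_le_sum_abs _ _).trans ?_
        calc ∑ i ∈ Finset.range d, |(p i : ℝ) * ((q : ℝ) * ξ ^ (n + 1 - d + i) - (x (n + 1 - d + i) : ℝ))|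
            ≤ ∑ _i ∈ Finset.range d, H * L := by
              apply Finset.sum_le_sum
              intro i hi
              rw [Finset.mem_range] at hi
              rw [abs_mul]
              exact mul_le_mul (hpb i) (hxe _ (by omega)) (abs_nonneg _) hH0
          _ = (d : ℝ) * (H * L) := by simp
          _ ≤ ((n : ℝ) + 1) * (H * L) := by
              apply mul_le_mul_of_nonneg_right _ (by positivity)
              have : (d : ℝ) ≤ n := by exact_mod_cast hdn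
              linarith
      rw [← hCH]
      have h4 : 0 ≤ ((n : ℝ) + 1) * (H * L) := by positivity
      nlinarith
    · apply key (p d * x j)
      rw [← hCH]
      have e1 : (p d : ℝ) * q * ξ ^ j - ((p d * x j : ℤ) : ℝ) = (p d : ℝ) * (q * ξ ^ j - (x j : ℝ)) := by
        push_cast; ring
      rw [e1, abs_mul]
      calc |(p d : ℝ)| * |(q : ℝ) * ξ ^ j - (x j : ℝ)| ≤ H * L :=
            mul_le_mul (hpb d) (hxe j hjn) (abs_nonneg _) hH0
        _ ≤ H * L * (2 * ((n : ℝ) + 1) * M ^ (n + 1)) := by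
            have : 0 ≤ H * L := by positivity
            nlinarith

/-- one step: from `ξ, …, ξ ^ n` to `ξ, …, ξ ^ (n + 1)` -/
lemma step (ξ : ℝ) (n : ℕ) (hn : 1 ≤ n) (l μ : ℝ) (h : (A ξ n l).Infinite)
    (hμ : ((n : ℝ) + 1) * μ + 1 < n * l) : (A ξ (n + 1) μ).Infinite := by
  have hn0 : (0 : ℝ) < n := by exact_mod_cast hn
  rcases le_or_gt μ 0 with hμ0 | hμ0
  · apply Set.infinite_of_not_bddAbove
    rintro ⟨B, hB⟩
    have : (B + 1) ∈ A ξ (n + 1) μ := by
      refine ⟨by omega, fun j _ => ?_⟩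
      refine (abs_sub_round _).trans ?_
      have h1 : (1 : ℝ) ≤ ((B + 1 : ℕ) : ℝ) ^ (-μ) := by
        apply Real.one_le_rpow
        · exact_mod_cast Nat.succ_le_succ (Nat.zero_le B)
        · linarith
      linarith
    exact absurd (hB this) (by omega)
  · obtain ⟨C, hC1, hC⟩ := extend ξ n hn
    have hl0 : 0 < l := by
      by_contra hcon
      push Not at hcon
      nlinarith
    set δ : ℝ := l - 1 / (n : ℝ) - μ * (1 + 1 / (n : ℝ)) with hδ
    have hδ0 : 0 < δ := by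
      have : n * δ = n * l - 1 - μ * (n + 1) := by
        rw [hδ]; field_simp
      have h2 : 0 < n * δ := by rw [this]; linarith
      exact (mul_pos_iff_of_pos_left hn0).1 h2
    -- `q` is large
    obtain ⟨Q, hQ⟩ : ∃ Q : ℕ, ∀ q : ℕ, Q ≤ q → C * C ^ μ ≤ (q : ℝ) ^ δ := by
      have := (tendsto_rpow_atTop hδ0).comp tendsto_natCast_atTop_atTop
      obtain ⟨Q, hQ⟩ := Filter.eventually_atTop.1 (this.eventually_ge_atTop (C * C ^ μ))
      exact ⟨Q, hQ⟩
    apply Set.infinite_of_not_bddAbove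
    rintro ⟨B, hB⟩
    obtain ⟨q, hq, hqB⟩ := h.exists_gt (max B Q)
    have hqB1 : B < q := lt_of_le_of_lt (le_max_left _ _) hqB
    have hqQ : Q ≤ q := (le_max_right B Q).trans hqB.le
    have hq1 : (1 : ℝ) ≤ q := by exact_mod_cast hq.1
    have hq0 : (0 : ℝ) < q := by linarith
    obtain ⟨q', hqq', hq'b, hq'⟩ := hC q ((q : ℝ) ^ (-l)) hq.1 (by positivity)
      (Real.rpow_le_one_of_one_le_of_nonpos hq1 (by linarith)) hq.2
    have hmem : q' ∈ A ξ (n + 1) μ := by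
      refine ⟨lt_of_lt_of_le hq.1 hqq', fun j hj => (hq' j hj).trans ?_⟩
      have hq'1 : (1 : ℝ) ≤ q' := by
        have : (q : ℝ) ≤ q' := by exact_mod_cast hqq'
        linarith
      have h1 : (C * (q : ℝ) ^ (1 + 1 / (n : ℝ))) ^ (-μ) ≤ (q' : ℝ) ^ (-μ) :=
        Real.rpow_le_rpow_of_nonpos (by linarith) hq'b (by linarith)
      refine le_trans ?_ h1
      rw [Real.mul_rpow (by linarith) (by positivity), ← Real.rpow_mul hq0.le,
        Real.rpow_neg (by linarith : (0 : ℝ) ≤ C)]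
      have h2 : C * (q : ℝ) ^ (1 / (n : ℝ)) * (q : ℝ) ^ (-l) =
          C * ((q : ℝ) ^ (-δ) * (q : ℝ) ^ ((1 + 1 / (n : ℝ)) * -μ)) := by
        rw [mul_assoc, ← Real.rpow_add hq0, ← Real.rpow_add hq0]
        congr 2
        rw [hδ]; ring
      rw [h2, ← mul_assoc]
      apply mul_le_mul_of_nonneg_right _ (by positivity)
      rw [Real.rpow_neg hq0.le]
      have h3 := hQ q hqQ
      have hCμ : 0 < C ^ μ := by positivity
      have hqδ : 0 < (q : ℝ) ^ δ := by positivity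
      rw [← div_eq_mul_inv, div_le_iff₀ hqδ, inv_mul_eq_div, le_div_iff₀ hCμ]
      exact h3
    exact absurd (hB hmem) (by omega)

/-- For 1≤n≤m and transcendental real ξ: if infinitely many q≥1 have all ‖qξ^j‖≤q^(-l) for j≤n, then for every μ<(nl−m+n)/m infinitely many q≥1 have all ‖qξ^j‖≤q^(-μ) for j≤m; i.e. λ_m(ξ)≥(nλ_n(ξ)−m+n)/m. -/
theorem result :
    ∀ (m n : ℕ), 1 ≤ n → n ≤ m → ∀ ξ : ℝ, Transcendental ℚ ξ →
      ∀ l μ : ℝ,
        {q : ℕ | 0 < q ∧ ∀ j ∈ Finset.Icc 1 n,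
            |(q : ℝ) * ξ ^ j - ((round ((q : ℝ) * ξ ^ j) : ℤ) : ℝ)| ≤ (q : ℝ) ^ (-l)}.Infinite →
        μ < ((n : ℝ) * l - (m : ℝ) + (n : ℝ)) / (m : ℝ) →
        {q : ℕ | 0 < q ∧ ∀ j ∈ Finset.Icc 1 m,
            |(q : ℝ) * ξ ^ j - ((round ((q : ℝ) * ξ ^ j) : ℤ) : ℝ)| ≤ (q : ℝ) ^ (-μ)}.Infinite := by
  intro m n hn hnm ξ _ l μ hinf hμ
  change (A ξ n l).Infinite at hinf
  change (A ξ m μ).Infinite
  induction m, hnm using Nat.le_induction generalizing μ with
  | base =>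
    have hn0 : (0 : ℝ) < n := by exact_mod_cast hn
    rw [lt_div_iff₀ hn0] at hμ
    have : μ ≤ l := by
      by_contra hcon
      push Not at hcon
      nlinarith
    exact hinf.mono (A_mono ξ n this)
  | succ m hm ih =>
    have hm0 : (0 : ℝ) < m := by exact_mod_cast (lt_of_lt_of_le hn hm)
    have hm1 : (0 : ℝ) < ((m + 1 : ℕ) : ℝ) := by positivity
    rw [lt_div_iff₀ hm1] at hμ
    push_cast at hμ
    -- an intermediate exponent
    set l' : ℝ := ((((m : ℝ) + 1) * μ + 1) + (n * l - m + n)) / 2 / m with hl'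
    have e1 : m * l' = ((((m : ℝ) + 1) * μ + 1) + (n * l - m + n)) / 2 := by
      rw [hl']; field_simp
    have h1 : l' < ((n : ℝ) * l - (m : ℝ) + (n : ℝ)) / (m : ℝ) := by
      rw [lt_div_iff₀ hm0, mul_comm, e1]
      linarith
    have h2 := ih l' h1
    apply step ξ m (le_trans hn hm) l' μ h2
    rw [e1]
    linarith

end Pool.Agent.S17203
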